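import Pool.Agent.T2H41.LB
import Pool.Agent.R869.WLang
import Pool.Agent.W603.BP.WMain

/-!
Lang's conjecture for subvarieties of toric varieties given by few monomials.
-/

set_option autoImplicit false

open FF Pool.Agent.W602.GT Pool.Agent.W603.CX Pool.Agent.H159R3
open Pool.Agent.W603.LV Pool.Agent.W603.PV
open Pool.Agent.R869.Wd (NoRationalCurves PicardHyperbolic)
open Pool.Agent.Y190.PH (Brody)

namespace Pool.Agent.T2H41.LA

section alg

variable {k : Type} [Field k] {n : ℕ} {ι : Type}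

/-- finitely many of the equations have the same solutions -/
theorem exists_finite (F : ι → MvPolynomial (Fin (n + 1)) k) : ∃ t : Finset ι,
    ∀ (L : Type) [CommRing L] [Algebra k L] (x : Fin (n + 1) → L),
      (∀ e ∈ t, MvPolynomial.aeval x (F e) = 0) → ∀ e, MvPolynomial.aeval x (F e) = 0 := by
  classical
  have hfg : (Ideal.span (Set.range F)).FG := IsNoetherian.noetherian _
  obtain ⟨T, hT1, hT2⟩ := Submodule.fg_span_iff_fg_span_finset_subset (Set.range F) |>.1 hfg
  have h1 : ∀ p : T, ∃ e, F e = p.1 := fun p => hT1 p.2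
  choose φ hφ using h1
  refine ⟨T.attach.image φ, fun L _ _ x hx e => ?_⟩
  have h2 : F e ∈ Submodule.span (MvPolynomial (Fin (n + 1)) k) (T : Set _) := by
    rw [← hT2]
    exact Submodule.subset_span ⟨e, rfl⟩
  have h3 : Submodule.span (MvPolynomial (Fin (n + 1)) k) (T : Set _) ≤
      RingHom.ker (MvPolynomial.aeval x : MvPolynomial (Fin (n + 1)) k →ₐ[k] L) := by
    rw [Submodule.span_le]
    intro p hp
    have h4 := hx (φ ⟨p, hp⟩) (Finset.mem_image_of_mem φ (Finset.mem_attach _ _))
    rw [hφ ⟨p, hp⟩] at h4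
    exact h4
  exact h3 h2

variable [CharZero k] [IsAlgClosed k]

theorem key_fin [Finite ι] {F : ι → MvPolynomial (Fin (n + 1)) k} {s N : ℕ} (hF : HighT s N F)
    (hN1 : 1 ≤ N) (hsq : (s - 1) ^ 2 ≤ N) (hN : 1 * ((s + 1) * tn (s - 1)) ≤ N) :
    ((∃ A : ℕ, AlgHyperbolic A F) ↔ BoundedOnCurves F) ∧
      (BoundedOnCurves F ↔ ∀ P, ¬ GmCurve F P) := by
  rcases hF with hF | ⟨hs, hF⟩
  · have h1 := lines_tfae F (fun e => by
      obtain ⟨r, d, l, hr, hd, he⟩ := hF e
      refine ⟨r, d, lt_of_lt_of_le hN1 hd, ?_, fun _ => 1, l, fun _ => one_ne_zero, ?_⟩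
      · refine le_trans ?_ (le_trans hsq hd)
        exact Nat.pow_le_pow_left (by omega) 2
      · rw [he]
        refine Finset.sum_congr rfl fun a _ => ?_
        rw [MvPolynomial.C_1, one_mul]
        rfl)
    refine ⟨h1.out 1 2, ?_⟩
    have h3 : ¬ ContainsLine F ↔ BoundedOnCurves F := h1.out 0 2
    rw [← h3]
    have h2 : ContainsLine F ↔ ∃ P, GmCurve F P := by
      constructor
      · rintro ⟨x, v, ⟨j, l, hjl⟩, hl⟩
        refine gm_of_line (a := x) (b := v) ?_ (fun e t => ?_)
        · rw [LinearIndependent.pair_iff]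
          intro c c' hcc
          have e1 := congrFun hcc j
          have e2 := congrFun hcc l
          simp only [Pi.add_apply, Pi.smul_apply, smul_eq_mul, Pi.zero_apply] at e1 e2
          have h1 : v j * x l - v l * x j ≠ 0 := sub_ne_zero.2 hjl
          have h2 : c * (v j * x l - v l * x j) = 0 := by
            linear_combination v j * e2 - v l * e1
          have h3 : c' * (v j * x l - v l * x j) = 0 := by
            linear_combination x l * e1 - x j * e2
          exact ⟨(mul_eq_zero.1 h2).resolve_right h1, (mul_eq_zero.1 h3).resolve_right h1⟩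
        · rw [val_eval', one_smul]
          exact hl t e
      · rintro ⟨P, hP⟩
        by_contra hno
        obtain ⟨K, _, _, y, hy, hgt⟩ := sub_of_gm (fun e => isForm_of_powSum (hF e)) hP
        have hgen : Algebra.IsAlgebraic (coords k y) K := by
          rw [hy.gen]
          infer_instance
        obtain ⟨v, hv, hl⟩ := waringT hF hN1 hN one_pos hy.dim hy.ne hgen hy.mem hgt
        have h1 : val y (1 : MvPolynomial (Fin (n + 1)) k) = 0 :=
          mem_closure y v hv hl fun a b hab _ _ => by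
            exfalso
            apply hno
            refine ⟨a, b, ?_, fun t e => ?_⟩
            · by_contra hcon
              push Not at hcon
              have hli := LinearIndependent.pair_iff.1 hab.1
              have ha : a = 0 := by
                by_contra ha
                obtain ⟨i, hi⟩ := Function.ne_iff.1 ha
                have h1 := hli (b i) (-(a i)) (by
                  funext l
                  simp only [Pi.add_apply, Pi.smul_apply, smul_eq_mul, Pi.zero_apply]
                  linear_combination hcon i l)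
                exact hi (neg_eq_zero.1 h1.2)
              have h1 := hli 1 0 (by rw [ha]; simp)
              exact one_ne_zero h1.1
            · have h1 := hab.2 1 t e
              rw [val_eval'] at h1
              have h2 : (fun i => a i + t * b i) = (1 : k) • a + t • b := by
                funext i
                simp
              rw [h2]
              exact h1
        unfold Pool.Agent.W602.GT.val at h1
        rw [map_one] at h1
        exact one_ne_zero h1
    rw [h2]
    push Not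
    rfl
  · obtain ⟨A, hA⟩ := groupless_tfae.{0, 0} (fun e => (F e).support) (fun e => by
      rcases hF.two_or e with hc | ⟨-, hc, N', hN', hd⟩
      · refine ⟨1, one_pos, ?_, fun α _ j => one_dvd _⟩
        calc ((F e).support.card - 1) ^ 2 ≤ 1 ^ 2 := Nat.pow_le_pow_left (by omega) 2
          _ = 1 := by norm_num
      · refine ⟨N', lt_of_lt_of_le hN1 hN', ?_, fun α hα j => hd α hα j (Set.notMem_empty j)⟩
        refine le_trans ?_ (le_trans hsq hN')
        exact Nat.pow_le_pow_left (by omega) 2)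
    have h1 := hA k F (fun e => le_rfl) (fun e => hF.form e)
    have h2 := orbits_iffT hF hs hN
    have h3 : OrbitsConstant F ↔ AlgHyperbolic A F := h1.out 0 1
    have h4 : OrbitsConstant F ↔ BoundedOnCurves F := h1.out 0 2
    refine ⟨⟨?_, fun h5 => ⟨A, h3.1 (h4.2 h5)⟩⟩, by rw [← h4, h2]⟩
    rintro ⟨A', hA'⟩ K _ _ _
    exact ⟨_, fun f hf0 hf => hA' K f hf0 hf⟩

theorem key {F : ι → MvPolynomial (Fin (n + 1)) k} {s N : ℕ} (hF : HighT s N F)
    (hN1 : 1 ≤ N) (hsq : (s - 1) ^ 2 ≤ N) (hN : 1 * ((s + 1) * tn (s - 1)) ≤ N) :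
    ((∃ A : ℕ, AlgHyperbolic A F) ↔ BoundedOnCurves F) ∧
      (BoundedOnCurves F ↔ ∀ P, ¬ GmCurve F P) := by
  classical
  obtain ⟨t, ht⟩ := exists_finite F
  let F' : t → MvPolynomial (Fin (n + 1)) k := fun e => F e
  have hF' : HighT s N F' := by
    rcases hF with h | ⟨h1, h2⟩
    · exact Or.inl fun e => h e
    · exact Or.inr ⟨h1, fun e => h2 e⟩
  have hiff : ∀ (L : Type) [CommRing L] [Algebra k L] (x : Fin (n + 1) → L),
      (∀ e, MvPolynomial.aeval x (F e) = 0) ↔ ∀ e, MvPolynomial.aeval x (F' e) = 0 :=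
    fun L _ _ x => ⟨fun h e => h e, fun h => ht L x fun e he => h ⟨e, he⟩⟩
  have h1 : ∀ A, AlgHyperbolic A F ↔ AlgHyperbolic A F' := fun A =>
    ⟨fun h K _ _ _ f h0 hf => h K f h0 ((hiff K f).2 hf),
      fun h K _ _ _ f h0 hf => h K f h0 ((hiff K f).1 hf)⟩
  have h2 : BoundedOnCurves F ↔ BoundedOnCurves F' := by
    constructor
    · intro h K _ _ _
      obtain ⟨B, hB⟩ := h K
      exact ⟨B, fun f h0 hf => hB f h0 ((hiff K f).2 hf)⟩
    · intro h K _ _ _
      obtain ⟨B, hB⟩ := h K
      exact ⟨B, fun f h0 hf => hB f h0 ((hiff K f).1 hf)⟩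
  have h3 : ∀ P, GmCurve F P ↔ GmCurve F' P := fun P =>
    ⟨fun h => ⟨h.ne, fun t ht e => h.mem t ht e, h.nonconst⟩,
      fun h => ⟨h.ne, fun t ht => (hiff k _).2 (h.mem t ht), h.nonconst⟩⟩
  have h4 := key_fin hF' hN1 hsq hN
  rw [← h2] at h4
  refine ⟨?_, ?_⟩
  · rw [← h4.1]
    exact exists_congr h1
  · rw [h4.2]
    exact forall_congr' fun P => not_congr (h3 P).symm

theorem rational_iffT {F : ι → MvPolynomial (Fin (n + 1)) k} :
    ((∃ A : ℕ, AlgHyperbolic A F) → NoRationalCurves F) ∧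
      (NoRationalCurves F → ∀ P, ¬ GmCurve F P) := by
  have hinf : Infinite k := inferInstance
  constructor
  · rintro ⟨A, halg⟩ P hP i j t u
    by_cases hi0 : P i = 0
    · rw [hi0]; simp
    by_cases hj0 : P j = 0
    · rw [hj0]; simp
    have hinj : Function.Injective (algebraMap (Polynomial k) (RatFunc k)) :=
      RatFunc.algebraMap_injective k
    let f : Fin (n + 1) → RatFunc k := fun i => algebraMap (Polynomial k) (RatFunc k) (P i)
    have hi : f i ≠ 0 := fun h0 => hi0 (hinj (by rw [map_zero]; exact h0))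
    have hj : f j ≠ 0 := fun h0 => hj0 (hinj (by rw [map_zero]; exact h0))
    have h1 := halg (RatFunc k) f ⟨i, hi⟩ fun e => by
      have h2 : MvPolynomial.aeval f (F e) =
          algebraMap (Polynomial k) (RatFunc k) (MvPolynomial.aeval P (F e)) :=
        (MvPolynomial.aeval_algebraMap_apply (RatFunc k) P (F e))
      rw [h2, hP e, map_zero]
    rw [Pool.Agent.Y216.canDeg_ratFunc] at h1
    norm_num at h1
    have h2 := Pool.Agent.W603.CX.hgt_le_pht (k := k) f hi hj
    obtain ⟨c, hc⟩ := const_of_hgt (k := k) (f := f i / f j) (by omega)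
    have h3 : P i = Polynomial.C c * P j := by
      apply hinj
      rw [map_mul]
      have h4 : algebraMap (Polynomial k) (RatFunc k) (Polynomial.C c) =
          algebraMap k (RatFunc k) c := by
        rw [IsScalarTower.algebraMap_apply k (Polynomial k) (RatFunc k)]
        rfl
      rw [h4]
      change f i = _ * f j
      first
        | rw [← hc]; field_simp
        | rw [hc]; field_simp
    rw [h3]
    simp only [Polynomial.eval_mul, Polynomial.eval_C]
    ring
  · intro h P hP
    have h1 : ∀ e, MvPolynomial.aeval P (F e) = 0 := by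
      intro e
      obtain ⟨R, hR1, hR2⟩ := val_poly P (F e)
      have h0 : R = 0 := poly_zero fun t ht => by rw [hR1]; exact hP.mem t ht e
      apply RatFunc.algebraMap_injective k
      rw [map_zero]
      have h2 : algebraMap (Polynomial k) (RatFunc k) (MvPolynomial.aeval P (F e)) =
          MvPolynomial.aeval (fun i => algebraMap (Polynomial k) (RatFunc k) (P i)) (F e) :=
        (MvPolynomial.aeval_algebraMap_apply (RatFunc k) P (F e)).symm
      rw [h2]
      change val _ (F e) = 0
      rw [← hR2, h0, map_zero]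
    obtain ⟨t, u, ht, hu, hli⟩ := hP.nonconst
    rw [LinearIndependent.pair_iff] at hli
    obtain ⟨j, hj⟩ := Function.ne_iff.1 (hP.ne u hu)
    have h3 := hli ((P j).eval u) (-(P j).eval t) (by
      funext i
      simp only [Pi.add_apply, Pi.smul_apply, smul_eq_mul, Pi.zero_apply]
      linear_combination h P h1 i j t u)
    exact hj h3.1

end alg

section cplx

variable {n : ℕ} {ι : Type}

theorem powerSparse {U : Set (Fin (n + 1))} {F : ι → MvPolynomial (Fin (n + 1)) ℂ} {s N : ℕ}
    (hF : ToricSparse U s N F) (hN1 : 1 ≤ N) (hsq : (s - 1) ^ 2 ≤ N) (e : ι) :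
    GGLLog.PowerSparse U (F e) := by
  rcases hF.two_or e with hc | ⟨-, hc, N', hN', hd⟩
  · refine ⟨1, one_pos, ?_, fun α _ j _ => one_dvd _⟩
    calc ((F e).support.card - 1) ^ 2 ≤ 1 ^ 2 := Nat.pow_le_pow_left (by omega) 2
      _ = 1 := by norm_num
  · refine ⟨N', lt_of_lt_of_le hN1 hN', ?_, hd⟩
    refine le_trans ?_ (le_trans hsq hN')
    exact Nat.pow_le_pow_left (by omega) 2

/-- an entire curve gives an image of the multiplicative group -/
theorem gm_of_entireT {F : ι → MvPolynomial (Fin (n + 1)) ℂ} {s N : ℕ} (hF : HighT s N F)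
    (hN1 : 1 ≤ N) (hsq : (s - 1) ^ 2 ≤ N) {f : ℂ → Fin (n + 1) → ℂ}
    (hf : GGL.EntireCurve F f) : ∃ P, GmCurve F P := by
  rcases hF with h | ⟨hs, h⟩
  · have hS : ∀ e, War.SmallWaring (F e) := by
      intro e
      obtain ⟨r, d, l, hr, hd, he⟩ := h e
      refine ⟨d, r, l, lt_of_lt_of_le hN1 hd, ?_, he⟩
      refine le_trans ?_ (le_trans hsq hd)
      exact Nat.pow_le_pow_left (by omega) 2
    obtain ⟨q, hq, hl⟩ := War.curve_on_line F hS hf 0
    refine gm_of_line hq (fun e t => ?_)
    rw [val_eval]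
    exact hl e 1 t
  · have hC : ∀ e, GGLLog.PowerSparse ∅ (F e) := powerSparse h hN1 hsq
    have hf' : GGLLog.EntireCurve ∅ F f := by
      refine ⟨hf.1, fun z => ⟨(hf.2.1 z).1, fun j hj => absurd hj (Set.notMem_empty j),
        (hf.2.1 z).2⟩, hf.2.2⟩
    obtain ⟨z0, b, j, l, hj, hl, hbjl, -, hs⟩ := GGLLog.curve ∅ F hC f hf' 1 0 (by
      rw [map_one]
      exact one_ne_zero)
    have hd : DiagCurve ∅ F (f z0) b := diag_of_wc (fun j hj => absurd hj (Set.notMem_empty j))
      (fun e w => by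
        rw [wc_eq]
        exact hs e w) ⟨j, l, hj, hl, hbjl⟩
    obtain ⟨P, hP, -⟩ := gm_of_diag (fun e => h.form e) hd
    exact ⟨P, hP⟩

theorem brody_iff_ec {F : ι → MvPolynomial (Fin (n + 1)) ℂ} :
    Brody F ↔ ∀ f, ¬ GGL.EntireCurve F f := by
  constructor
  · rintro h f ⟨hf1, hf2, z, w, hzw⟩
    obtain ⟨c, hc⟩ := h f hf1 (fun z => (hf2 z).1) (fun z i => (hf2 z).2 i) z w
    exact hzw c hc
  · intro h f hf1 hf2 hf3 z w
    by_contra hcon
    push Not at hcon
    exact h f ⟨hf1, fun z => ⟨hf2 z, fun i => hf3 z i⟩, z, w, hcon⟩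

theorem picard_of {F : ι → MvPolynomial (Fin (n + 1)) ℂ} {s N : ℕ} (hF : HighT s N F)
    (hN1 : 1 ≤ N) (hsq : (s - 1) ^ 2 ≤ N) : PicardHyperbolic F ↔ Brody F := by
  rcases hF with h | ⟨hs, h⟩
  · have hS : ∀ e, War.SmallWaring (F e) := by
      intro e
      obtain ⟨r, d, l, hr, hd, he⟩ := h e
      refine ⟨d, r, l, lt_of_lt_of_le hN1 hd, ?_, he⟩
      refine le_trans ?_ (le_trans hsq hd)
      exact Nat.pow_le_pow_left (by omega) 2
    have h1 := Pool.Agent.W603.BPW.picard_iff F (fun e : Empty => e.elim) hS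
      (fun e => e.elim)
    rw [brody_iff_ec]
    constructor
    · intro h2 f hf
      refine h1.1 (fun g hg => h2 g hg.1 fun z hz => ⟨(hg.2 z hz).1, (hg.2 z hz).2.1⟩) f ?_
      exact ⟨hf.1, fun z => ⟨(hf.2.1 z).1, (hf.2.1 z).2, fun e => e.elim⟩, hf.2.2⟩
    · intro h2 f hf hfF
      refine h1.2 (fun g hg => h2 g ⟨hg.1, fun z => ⟨(hg.2.1 z).1, (hg.2.1 z).2.1⟩, hg.2.2⟩) f ?_
      exact ⟨hf, fun z hz => ⟨(hfF z hz).1, (hfF z hz).2, fun e => e.elim⟩⟩
  · have hC : ∀ e, GGLLog.PowerSparse ∅ (F e) := powerSparse h hN1 hsq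
    have h1 := Pool.Agent.W603.BP.special_picard ∅ F hC
    rw [← Pool.Agent.R869.Wd.picard_iff, ← Pool.Agent.R869.Wd.brody_iff, h1.1]

/-- **Lang's conjecture.** -/
theorem lang_seven {F : ι → MvPolynomial (Fin (n + 1)) ℂ} {s N m : ℕ} (hF : HighT s N F)
    (hN1 : 1 ≤ N) (hm1 : 1 ≤ m) (hm : DimLe ∅ F m)
    (hN : m * ((s + 1) * ((s - 1) * (s - 2) / 2)) ≤ N) :
    [Brody F, PicardHyperbolic F, AllGeneralType F, ∃ A : ℕ, AlgHyperbolic A F,
      BoundedOnCurves F, NoRationalCurves F, ∀ P, ¬ GmCurve F P].TFAE := by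
  have h : tn (s - 1) = (s - 1) * (s - 2) / 2 := by
    unfold tn
    rw [Fin.sum_univ_eq_sum_range (fun i => i), Finset.sum_range_id, Nat.sub_sub]
  have hN' : m * ((s + 1) * tn (s - 1)) ≤ N := by rw [h]; exact hN
  have hN1' : 1 * ((s + 1) * tn (s - 1)) ≤ N := (Nat.mul_le_mul_right _ hm1).trans hN'
  have hsq := sq_le_of (n := m) (by omega) hN1 hN
  obtain ⟨k1, k2⟩ := key hF hN1 hsq hN1'
  tfae_have 1 ↔ 2 := (picard_of hF hN1 hsq).symm
  tfae_have 3 ↔ 7 := all_iffT hF hN1 hm hN'
  tfae_have 1 → 7 := fun h1 P hP => (brody_iff_ec.1 h1) _ (entire_of_gm hP)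
  tfae_have 7 → 1 := by
    intro h1
    rw [brody_iff_ec]
    intro f hf
    obtain ⟨P, hP⟩ := gm_of_entireT hF hN1 hsq hf
    exact h1 P hP
  tfae_have 4 ↔ 5 := k1
  tfae_have 5 ↔ 7 := k2
  tfae_have 4 → 6 := rational_iffT.1
  tfae_have 6 → 7 := rational_iffT.2
  tfae_finish

end cplx

end Pool.Agent.T2H41.LA
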