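import Pool.Agent.T2H41.MA
import Pool.Agent.T2H41.LC
import Pool.Agent.R505.KA.Sub

/-!
Hyperbolicity and canonical classes, for subvarieties of toric varieties given by few monomials, and
for the varieties dominated by generically finite covers of them.
-/

set_option autoImplicit false
set_option linter.overlappingInstances false
set_option linter.unusedSectionVars false

open FF Pool.Agent.W603.LV Pool.Agent.W602.GT Pool.Agent.TH466.QG Pool.Agent.R505.KA
open Pool.Agent.R869.Wd (NoRationalCurves PicardHyperbolic)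
open Pool.Agent.Y190.PH (Brody)

namespace Pool.Agent.T2H41.LA

section

variable {k : Type} [Field k] [CharZero k] [IsAlgClosed k] {n : ℕ} {ι : Type}

/-- rational curves over an extension can be specialised -/
theorem curve_of_ratCurve {F : ι → MvPolynomial (Fin (n + 1)) k} {K : Type} [Field K]
    [Algebra k K] {y : Fin (n + 1) → K} (h : RatCurve F y) : ¬ NoRationalCurves F := by
  classical
  intro hno
  have hinf : Infinite k := inferInstance
  obtain ⟨P, hP1, ⟨i, j, hij⟩, hPF⟩ := h
  obtain ⟨d, hd⟩ : ∃ d : ℕ, ∀ l, (P l).natDegree ≤ d :=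
    ⟨Finset.univ.sup fun l => (P l).natDegree, fun l =>
      Finset.le_sup (f := fun l => (P l).natDegree) (Finset.mem_univ l)⟩
  let σ := Fin (n + 1) × Fin (d + 1)
  let z : σ → K := fun p => (P p.1).coeff p.2
  let Q : Fin (n + 1) → Polynomial (MvPolynomial σ k) := fun l =>
    ∑ m : Fin (d + 1), Polynomial.C (MvPolynomial.X (l, m)) * Polynomial.X ^ (m : ℕ)
  have hcoef : ∀ (l : Fin (n + 1)) (m : ℕ), (Q l).coeff m =
      if h : m < d + 1 then MvPolynomial.X (l, (⟨m, h⟩ : Fin (d + 1))) else 0 := by
    intro l m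
    simp only [Q, Polynomial.finset_sum_coeff, Polynomial.coeff_C_mul_X_pow]
    split_ifs with h
    · rw [Finset.sum_eq_single (⟨m, h⟩ : Fin (d + 1))]
      · simp
      · intro b _ hb
        rw [if_neg]
        intro hmb
        exact hb (Fin.ext hmb.symm)
      · intro h0
        exact absurd (Finset.mem_univ _) h0
    · apply Finset.sum_eq_zero
      intro b _
      rw [if_neg]
      intro hmb
      exact h (hmb ▸ b.2)
  have hQP : ∀ l, Polynomial.mapAlgHom (MvPolynomial.aeval z) (Q l) = P l := by
    intro l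
    ext m
    rw [Polynomial.coe_mapAlgHom, Polynomial.coeff_map, hcoef]
    split_ifs with h
    · simp [z]
    · rw [map_zero, Polynomial.coeff_eq_zero_of_natDegree_lt]
      have := hd l
      omega
  -- a nonvanishing coefficient
  obtain ⟨m, hm⟩ : ∃ m, (P i).coeff m * y j - (P j).coeff m * y i ≠ 0 := by
    by_contra hcon
    push Not at hcon
    apply hij
    ext m
    rw [Polynomial.coeff_mul_C, Polynomial.coeff_mul_C]
    exact sub_eq_zero.1 (hcon m)
  let H : MvPolynomial σ k := (Q i).coeff m * (Q j).eval 1 - (Q j).coeff m * (Q i).eval 1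
  have hcoefz : ∀ l m, MvPolynomial.aeval z ((Q l).coeff m) = (P l).coeff m := by
    intro l m
    rw [← hQP l, Polynomial.coe_mapAlgHom, Polynomial.coeff_map]
    rfl
  have hevz : ∀ l, MvPolynomial.aeval z ((Q l).eval 1) = (P l).eval 1 := by
    intro l
    rw [← hQP l, Polynomial.coe_mapAlgHom]
    have h1 := Polynomial.eval_map_apply (R := MvPolynomial σ k) (S := K)
      (f := (MvPolynomial.aeval z : MvPolynomial σ k →ₐ[k] K).toRingHom) (p := Q l) (x := 1)
    rw [map_one] at h1
    exact h1.symm
  have hH : MvPolynomial.aeval z H ≠ 0 := by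
    simp only [H, map_sub, map_mul, hcoefz, hevz, hP1]
    exact hm
  obtain ⟨x, hx, hx0⟩ := specialise z H hH
  let R : Fin (n + 1) → Polynomial k := fun l => Polynomial.mapAlgHom (MvPolynomial.aeval x) (Q l)
  have hRF : ∀ e, MvPolynomial.aeval R (F e) = 0 := by
    intro e
    have h1 : Polynomial.mapAlgHom (MvPolynomial.aeval z) (MvPolynomial.aeval Q (F e)) = 0 := by
      have h2 := MvPolynomial.comp_aeval_apply
        (Polynomial.mapAlgHom (MvPolynomial.aeval z : MvPolynomial σ k →ₐ[k] K)) (p := F e) (f := Q)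
      rw [h2]
      have h3 : (fun i => (Polynomial.mapAlgHom (MvPolynomial.aeval z : MvPolynomial σ k →ₐ[k] K))
        (Q i)) = P := funext hQP
      rw [h3]
      exact hPF e
    have h2 := MvPolynomial.comp_aeval_apply
        (Polynomial.mapAlgHom (MvPolynomial.aeval x : MvPolynomial σ k →ₐ[k] k)) (p := F e) (f := Q)
    change MvPolynomial.aeval (fun i => (Polynomial.mapAlgHom
      (MvPolynomial.aeval x : MvPolynomial σ k →ₐ[k] k)) (Q i)) (F e) = 0
    rw [← h2]
    ext m
    rw [Polynomial.coe_mapAlgHom, Polynomial.coeff_map, Polynomial.coeff_zero]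
    apply hx0
    have h3 := congrArg (fun p : Polynomial K => p.coeff m) h1
    simp only [Polynomial.coe_mapAlgHom, Polynomial.coeff_map, Polynomial.coeff_zero] at h3
    exact h3
  have hcoefx : ∀ l m, MvPolynomial.aeval x ((Q l).coeff m) = (R l).coeff m := by
    intro l m
    simp only [R]
    rw [Polynomial.coe_mapAlgHom, Polynomial.coeff_map]
    rfl
  have hevx : ∀ l, MvPolynomial.aeval x ((Q l).eval 1) = (R l).eval 1 := by
    intro l
    simp only [R]
    rw [Polynomial.coe_mapAlgHom]
    have h1 := Polynomial.eval_map_apply (R := MvPolynomial σ k) (S := k)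
      (f := (MvPolynomial.aeval x : MvPolynomial σ k →ₐ[k] k).toRingHom) (p := Q l) (x := 1)
    rw [map_one] at h1
    exact h1.symm
  simp only [H, map_sub, map_mul, hcoefx, hevx] at hx
  apply hx
  have h4 : R i * Polynomial.C ((R j).eval 1) = R j * Polynomial.C ((R i).eval 1) := by
    apply Polynomial.funext
    intro t
    simp only [Polynomial.eval_mul, Polynomial.eval_C]
    exact hno R hRF i j t 1
  have h5 := congrArg (fun p : Polynomial k => p.coeff m) h4
  simp only [Polynomial.coeff_mul_C] at h5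
  rw [h5, sub_self]

/-- **Varieties dominated by generically finite covers of subvarieties.** -/
theorem general_of_no_curve {F : ι → MvPolynomial (Fin (n + 1)) k} {s N : ℕ} (hF : HighT s N F)
    (hN1 : 1 ≤ N) (hno : NoRationalCurves F) {K' L : Type} [Field K'] [Field L] [Algebra k K']
    [Algebra k L] [Algebra L K'] [IsScalarTower k L K'] [FiniteDimensional L K'] {w r : ℕ}
    (hw : 1 ≤ w) (hdim : Algebra.trdeg k K' = w) {y : Fin (n + 1) → K'} (hy : y ≠ 0)
    (hyF : ∀ e, val y (F e) = 0) (hgen : Algebra.IsAlgebraic (coords k y) K')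
    (hr : Module.finrank L K' ≤ r)
    (hN : r * (w * ((s + 4) * ((s - 1) * (s - 2) / 2))) ≤ N) : GeneralType k L w := by
  rcases circ_or_curveT hF hN1 hdim hy hgen hyF with h | h
  · refine general_below hw hr h ?_
    rw [tn_eq]
    exact hN
  · exact absurd hno (curve_of_ratCurve h)

end

/-- Hyperbolicity and the canonical classes of the subvarieties. -/
theorem kob_tfae {n : ℕ} {ι : Type} {F : ι → MvPolynomial (Fin (n + 1)) ℂ} {s N m : ℕ}
    (hF : HighT s N F) (hN1 : 1 ≤ N) (hm1 : 1 ≤ m) (hm : DimLe ∅ F m)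
    (hN : m * ((s + 1) * ((s - 1) * (s - 2) / 2)) ≤ N) :
    [Brody F, AllSub (fun K _ _ w => GeneralType ℂ K w) F,
      AllSub (fun K _ _ w => KodGe ℂ K w (fun _ => False) 0) F,
      AllSub (fun K _ _ w => Psef ℂ K w (fun _ => False)) F,
      AllSub (fun K _ _ _ => ¬ Ruled ℂ K) F, NoRationalCurves F, HyperbolicNear F].TFAE := by
  have h := lang_seven hF hN1 hm1 hm hN
  have h17 : Brody F ↔ ∀ P, ¬ GmCurve F P := h.out 0 6
  obtain ⟨c1, c2, c3⟩ := sub_chain (F := F)
  tfae_have 1 ↔ 2 := h.out 0 2
  tfae_have 1 ↔ 6 := h.out 0 5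
  tfae_have 2 → 3 := c1
  tfae_have 3 → 4 := c2
  tfae_have 4 → 5 := c3
  tfae_have 5 → 1 := by
    intro h5
    rw [h17]
    intro P hP
    obtain ⟨K, i1, i2, y, hy, hr⟩ := ruled_of_gm (fun e => hF.form e) hP
    exact h5 K 1 y le_rfl hy hr
  tfae_have 1 ↔ 7 := near_iff fun e => hF.form e
  tfae_finish

end Pool.Agent.T2H41.LA
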