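import Pool.Agent.T2H41.GA

/-!
Real boundaries: the pair `(X, B)`, where the real divisor `B - Δ` has the same support as `Δ' - Δ`
for two rational pairs `(X, Δ)`, `(X, Δ')`, outside of the stable base locus of `K_X + Δ`.
-/

set_option autoImplicit false
set_option linter.overlappingInstances false
set_option linter.unusedSectionVars false

open FF Filter IntermediateField Pool.Agent.W602.GT Pool.Agent.W603.LV Pool.Agent.W619.PQ
  Pool.Agent.W619.TW Pool.Agent.W619.Y Pool.Agent.Y172 Pool.Agent.Y191 Pool.Agent.Y174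
  Pool.Agent.R885

namespace Pool.Agent.T2H41.GR

section

variable {K : Type} [Field K] [Algebra ℂ K] {N : ℕ}

/-- `ω` is a section of `m K_X + D`, where `D` is a real divisor: an `m`-canonical form with order at
least `- D P` along all prime divisors `P` of `X`. -/
def IsSec (y : Fin (N + 1) → K) (n m : ℕ) (D : Place ℂ K → ℝ)
    (ω : (Fin n → Derivation ℂ K K) → K) : Prop :=
  IsPluri m ω ∧ ∀ P, IsPrimeDivisor y P → ∀ E : Fin n → Derivation ℂ K K, (∀ i, DerReg P (E i)) →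
    ω E = 0 ∨ -(D P) ≤ P.ord (ω E)

/-- The dimension of the space of the sections of `m K_X + D`. -/
noncomputable def h0 (y : Fin (N + 1) → K) (n m : ℕ) (D : Place ℂ K → ℝ) : ℕ :=
  Module.finrank ℂ (Submodule.span ℂ {ω | IsSec y n m D ω})

open scoped Classical in
/-- The Kodaira dimension of `K_X + Δ` for a real divisor `Δ`. -/
noncomputable def kodairaDim (y : Fin (N + 1) → K) (n : ℕ) (Δ : Place ℂ K → ℝ) : WithBot ℕ :=
  if ∀ m : ℕ, 1 ≤ m → h0 y n m (m • Δ) = 0 then ⊥ else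
    ((sSup {k : ℕ | 0 < limsup (fun m : ℕ => (h0 y n m (m • Δ) : ENNReal) / (m : ENNReal) ^ k)
      atTop} : ℕ) : WithBot ℕ)

/-- The numerical dimension of `K_X + Δ` with respect to the divisor `A`. -/
noncomputable def numericalDim (y : Fin (N + 1) → K) (n : ℕ) (Δ A : Place ℂ K → ℝ) : EReal :=
  limsup (fun m : ℕ => ENNReal.log (h0 y n m (m • Δ + A) : ENNReal) / (Real.log m : EReal)) atTop

/-- `D` is a real divisor: it has finitely many components. -/
def IsDiv (y : Fin (N + 1) → K) (D : Place ℂ K → ℝ) : Prop :=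
  {P | IsPrimeDivisor y P ∧ D P ≠ 0}.Finite

/-- `D` is an effective real divisor. -/
def Eff (y : Fin (N + 1) → K) (D : Place ℂ K → ℝ) : Prop :=
  IsDiv y D ∧ ∀ P, IsPrimeDivisor y P → 0 ≤ D P

variable {y : Fin (N + 1) → K} {n : ℕ}

theorem IsSec.mul {m m' : ℕ} {D D' : Place ℂ K → ℝ} {ω ω' : (Fin n → Derivation ℂ K K) → K}
    (h : IsSec y n m D ω) (h' : IsSec y n m' D' ω') :
    IsSec y n (m + m') (D + D') (fun E => ω E * ω' E) := by
  refine ⟨isPluri_mul h.1 h'.1, fun P hP E hE => ?_⟩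
  beta_reduce
  by_cases h3 : ω E = 0
  · exact Or.inl (by rw [h3, zero_mul])
  by_cases h4 : ω' E = 0
  · exact Or.inl (by rw [h4, mul_zero])
  right
  have h1 := (h.2 P hP E hE).resolve_left h3
  have h2 := (h'.2 P hP E hE).resolve_left h4
  rw [P.ord_mul h3 h4, Pi.add_apply]
  push_cast
  linarith

theorem isSec_one : IsSec y n 0 0 (fun _ : Fin n → Derivation ℂ K K => (1 : K)) := by
  refine ⟨fun A D => by simp, fun P _ E _ => Or.inr ?_⟩
  rw [P.ord_one]
  simp

theorem IsSec.pow {m : ℕ} {D : Place ℂ K → ℝ} {ω : (Fin n → Derivation ℂ K K) → K}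
    (h : IsSec y n m D ω) (t : ℕ) : IsSec y n (t * m) (t • D) (fun E => ω E ^ t) := by
  induction t with
  | zero =>
    simp only [zero_mul, zero_smul, pow_zero]
    exact isSec_one
  | succ t ih =>
    have h1 := ih.mul h
    have e1 : t * m + m = (t + 1) * m := by ring
    have e2 : t • D + D = (t + 1) • D := by rw [add_smul, one_smul]
    rw [e1, e2] at h1
    simp only [pow_succ]
    exact h1

theorem isSec_prod {m : ℕ} {D : Place ℂ K → ℝ} {r : ℕ}
    {ω : Fin r → (Fin n → Derivation ℂ K K) → K} (h : ∀ i, IsSec y n m D (ω i))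
    (a : Fin r → ℕ) : IsSec y n ((∑ i, a i) * m) ((∑ i, a i) • D) (fun E => ∏ i, ω i E ^ a i) := by
  induction r with
  | zero =>
    simp only [Finset.univ_eq_empty, Finset.sum_empty, zero_mul, zero_smul, Finset.prod_empty]
    exact isSec_one
  | succ r ih =>
    have h1 := ((h 0).pow (a 0)).mul (ih (fun i => h i.succ) fun i => a i.succ)
    simp only [Fin.sum_univ_succ, Fin.prod_univ_succ, add_mul, add_smul]
    exact h1

theorem IsSec.mono {m : ℕ} {D D' : Place ℂ K → ℝ} {ω : (Fin n → Derivation ℂ K K) → K}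
    (h : IsSec y n m D ω) (hD : ∀ P, IsPrimeDivisor y P → D P ≤ D' P) : IsSec y n m D' ω := by
  refine ⟨h.1, fun P hP E hE => (h.2 P hP E hE).imp_right fun h1 => ?_⟩
  linarith [hD P hP]

/-- the space of the sections -/
def secSub (y : Fin (N + 1) → K) (n m : ℕ) (D : Place ℂ K → ℝ) :
    Submodule ℂ ((Fin n → Derivation ℂ K K) → K) where
  carrier := {ω | IsSec y n m D ω}
  add_mem' := by
    rintro ω ω' ⟨h1, h2⟩ ⟨h1', h2'⟩
    refine ⟨fun A E => ?_, fun P hP E hE => ?_⟩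
    · change ω _ + ω' _ = _ * (ω E + ω' E)
      rw [h1 A E, h1' A E, mul_add]
    · change ω E + ω' E = 0 ∨ -(D P) ≤ P.ord (ω E + ω' E)
      rcases h2 P hP E hE with h3 | h3
      · rw [h3, zero_add]
        exact h2' P hP E hE
      rcases h2' P hP E hE with h4 | h4
      · rw [h4, add_zero]
        exact Or.inr h3
      by_cases h5 : ω E = 0
      · rw [h5, zero_add]
        exact Or.inr h4
      by_cases h6 : ω' E = 0
      · rw [h6, add_zero]
        exact Or.inr h3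
      by_cases h7 : ω E + ω' E = 0
      · exact Or.inl h7
      right
      have h8 := P.ord_add h5 h6 h7
      have h9 : -(D P) ≤ ((min (P.ord (ω E)) (P.ord (ω' E)) : ℤ) : ℝ) := by
        rw [Int.cast_min]
        exact le_min h3 h4
      exact h9.trans (by exact_mod_cast h8)
  zero_mem' := ⟨fun A E => by simp, fun P _ E _ => Or.inl rfl⟩
  smul_mem' := by
    rintro c ω ⟨h1, h2⟩
    refine ⟨fun A E => ?_, fun P hP E hE => ?_⟩
    · change c • ω _ = _ * (c • ω E)
      rw [h1 A E, mul_smul_comm]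
    · change c • ω E = 0 ∨ _ ≤ ((P.ord (c • ω E) : ℤ) : ℝ)
      by_cases hc : c = 0
      · exact Or.inl (by rw [hc, zero_smul])
      rcases h2 P hP E hE with h3 | h3
      · exact Or.inl (by rw [h3, smul_zero])
      by_cases h4 : ω E = 0
      · exact Or.inl (by rw [h4, smul_zero])
      right
      rw [Algebra.smul_def, P.ord_mul (by simpa using hc) h4, P.ord_const hc, zero_add]
      exact h3

theorem h0_eq (m : ℕ) (D : Place ℂ K → ℝ) : h0 y n m D = Module.finrank ℂ (secSub y n m D) := by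
  unfold h0
  have : Submodule.span ℂ {ω | IsSec y n m D ω} = secSub y n m D :=
    Submodule.span_eq (secSub y n m D)
  rw [this]

theorem finite_h0 {D : Fin n → Derivation ℂ K K} (hD : IsFrame D) {m : ℕ} {A : Place ℂ K → ℝ}
    {B : ℕ} (hB : ∀ (r : ℕ) (f : Fin r → K), LinearIndependent ℂ f →
      (∀ i, ∃ ω, IsSec y n m A ω ∧ ω D = f i) → r ≤ B) :
    Module.Finite ℂ (secSub y n m A) ∧ h0 y n m A ≤ B := by
  have h1 : Module.rank ℂ (secSub y n m A) ≤ B := by
    refine rank_le fun s hs => ?_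
    let ev : secSub y n m A →ₗ[ℂ] K :=
      { toFun := fun ω => (ω : (Fin n → Derivation ℂ K K) → K) D
        map_add' := fun _ _ => rfl
        map_smul' := fun _ _ => rfl }
    have hev : LinearMap.ker ev = ⊥ := by
      rw [LinearMap.ker_eq_bot']
      intro ω hω
      exact Subtype.ext (pluri_zero hD ω.2.1 hω)
    have h2 := hs.map' ev hev
    have h3 := h2.comp s.equivFin.symm s.equivFin.symm.injective
    exact hB _ _ h3 fun i => ⟨_, (s.equivFin.symm i).1.2, rfl⟩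
  refine ⟨?_, ?_⟩
  · exact Module.rank_lt_aleph0_iff.1 (lt_of_le_of_lt h1 Cardinal.natCast_lt_aleph0)
  · rw [h0_eq]
    exact Module.finrank_le_of_rank_le h1

theorem le_h0 {m : ℕ} {A : Place ℂ K → ℝ} (hfin : Module.Finite ℂ (secSub y n m A)) {ι : Type}
    [Fintype ι] {v : ι → (Fin n → Derivation ℂ K K) → K} (hv : LinearIndependent ℂ v)
    (h : ∀ i, IsSec y n m A (v i)) : Fintype.card ι ≤ h0 y n m A := by
  rw [h0_eq]
  have h1 : LinearIndependent ℂ (fun i => (⟨v i, h i⟩ : secSub y n m A)) :=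
    LinearIndependent.of_comp (secSub y n m A).subtype hv
  exact h1.fintype_card_le_finrank

/-- **The Kodaira dimension and the numerical dimension.** -/
theorem dims {k : ℕ} {Δ : Place ℂ K → ℝ} {D : Fin n → Derivation ℂ K K} (hD : IsFrame D)
    (hup : ∀ A, Eff y A → ∃ C : ℕ, ∀ m : ℕ, 1 ≤ m → ∀ (r : ℕ) (f : Fin r → K),
      LinearIndependent ℂ f → (∀ i, ∃ ω, IsSec y n m (m • Δ + A) ω ∧ ω D = f i) →
      r ≤ C * m ^ k)
    {m0 : ℕ} (hm0 : 1 ≤ m0) {ω : Fin (k + 1) → (Fin n → Derivation ℂ K K) → K}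
    (hω : ∀ j, IsSec y n m0 (m0 • Δ) (ω j)) {E : Fin n → Derivation ℂ K K}
    (hE : ω 0 E ≠ 0) (hind : AlgebraicIndependent ℂ (fun i : Fin k => ω i.succ E / ω 0 E)) :
    kodairaDim y n Δ = (k : WithBot ℕ) ∧ ∀ A, Eff y A → numericalDim y n Δ A = (k : EReal) := by
  classical
  have hzero : Eff y (0 : Place ℂ K → ℝ) :=
    ⟨Set.finite_empty.subset (by rintro P ⟨-, h⟩; exact h rfl), fun _ _ => le_rfl⟩
  -- the lower bound
  obtain ⟨M, hM⟩ : ∃ M : ℕ, M = (k + 1) * m0 := ⟨_, rfl⟩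
  have hM1 : 1 ≤ M := by
    rw [hM]
    exact Nat.mul_pos (Nat.succ_pos k) hm0
  have hlow : ∀ A, Eff y A → ∀ t : ℕ, 1 ≤ t → t ^ k ≤ h0 y n (t * M) ((t * M) • Δ + A) := by
    intro A hA t ht
    obtain ⟨C, hC⟩ := hup A hA
    have htM : 1 ≤ t * M := Nat.mul_pos ht hM1
    obtain ⟨hfin, -⟩ := finite_h0 hD (hC (t * M) htM)
    let T := (k + 1) * t
    let b : (Fin k → Fin (t + 1)) → Fin (k + 1) → ℕ := fun a =>
      Fin.cons (T - ∑ i, (a i : ℕ)) fun i => (a i : ℕ)
    have hle : ∀ a : Fin k → Fin (t + 1), ∑ i, (a i : ℕ) ≤ T := by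
      intro a
      have h1 : ∑ i, (a i : ℕ) ≤ ∑ _i : Fin k, t :=
        Finset.sum_le_sum fun i _ => Nat.lt_succ_iff.1 (a i).2
      rw [Finset.sum_const, Finset.card_univ, Fintype.card_fin, smul_eq_mul] at h1
      exact h1.trans (Nat.mul_le_mul_right _ (Nat.le_succ k))
    have hsum : ∀ a, ∑ i, b a i = T := by
      intro a
      rw [Fin.sum_univ_succ]
      simp only [b, Fin.cons_zero, Fin.cons_succ]
      exact Nat.sub_add_cancel (hle a)
    let v : (Fin k → Fin (t + 1)) → (Fin n → Derivation ℂ K K) → K := fun a E =>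
      ∏ i, ω i E ^ b a i
    have hv : ∀ a, IsSec y n (t * M) ((t * M) • Δ + A) (v a) := by
      intro a
      have h1 := isSec_prod hω (b a)
      rw [hsum] at h1
      have e1 : T * m0 = t * M := by
        rw [hM]
        ring
      rw [e1, smul_smul, e1] at h1
      refine h1.mono fun P hP => ?_
      have := hA.2 P hP
      simp only [Pi.add_apply]
      linarith
    have hvE : ∀ a, v a E = ω 0 E ^ T * ∏ i : Fin k, (ω i.succ E / ω 0 E) ^ (a i : ℕ) := by
      intro a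
      change ∏ i, ω i E ^ b a i = _
      rw [Fin.prod_univ_succ]
      simp only [b, Fin.cons_zero, Fin.cons_succ, div_pow, Finset.prod_div_distrib]
      have h1 : ω 0 E ^ T = ω 0 E ^ (T - ∑ i, (a i : ℕ)) * ∏ i, ω 0 E ^ (a i : ℕ) := by
        rw [Finset.prod_pow_eq_pow_sum, ← pow_add, Nat.sub_add_cancel (hle a)]
      rw [h1]
      have h2 : ∏ i, ω 0 E ^ (a i : ℕ) ≠ 0 := Finset.prod_ne_zero_iff.2 fun i _ => pow_ne_zero _ hE
      field_simp
    have hvind : LinearIndependent ℂ v := by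
      have h1 : LinearIndependent ℂ fun a : Fin k → Fin (t + 1) =>
          ∏ i : Fin k, (ω i.succ E / ω 0 E) ^ (a i : ℕ) :=
        (mono_indep hind).comp (fun (a : Fin k → Fin (t + 1)) i => (a i : ℕ)) (by
          intro a a' h
          funext i
          exact Fin.ext (congrFun h i))
      have h2 : LinearIndependent ℂ fun a => v a E := by
        have h3 := h1.map' (LinearMap.mulLeft ℂ (ω 0 E ^ T)) (by
          rw [LinearMap.ker_eq_bot]
          exact fun a b hab => mul_left_cancel₀ (pow_ne_zero _ hE) hab)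
        have h4 : (fun a => v a E) = (LinearMap.mulLeft ℂ (ω 0 E ^ T)) ∘
            fun a : Fin k → Fin (t + 1) => ∏ i : Fin k, (ω i.succ E / ω 0 E) ^ (a i : ℕ) := by
          funext a
          exact hvE a
        rw [h4]
        exact h3
      exact LinearIndependent.of_comp (LinearMap.proj E) h2
    have h1 := le_h0 hfin hvind hv
    rw [Fintype.card_fun, Fintype.card_fin, Fintype.card_fin] at h1
    exact (Nat.pow_le_pow_left (Nat.le_succ t) k).trans h1
  constructor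
  · obtain ⟨C, hC⟩ := hup 0 hzero
    have hlow0 := hlow 0 hzero
    simp only [add_zero] at hlow0 hC
    unfold kodairaDim
    rw [if_neg]
    · congr 1
      have h1 := kappa_eq (I := Set.univ) (h := fun m => h0 y n m (m • Δ)) (C := C) hM1
        (fun t ht => Set.mem_univ _) hlow0 fun m _ hm => (finite_h0 hD (hC m hm)).2
      rw [principal_univ, inf_top_eq] at h1
      exact h1
    · intro hcon
      have h1 := hcon (1 * M) (by omega)
      have h2 := hlow0 1 le_rfl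
      rw [h1, one_pow] at h2
      omega
  · intro A hA
    obtain ⟨C, hC⟩ := hup A hA
    have h1 := nu_eq (I := Set.univ) (h := fun m => h0 y n m (m • Δ + A)) (C := C) hM1
      (fun t ht => Set.mem_univ _) (hlow A hA) fun m _ hm => (finite_h0 hD (hC m hm)).2
    rw [principal_univ, inf_top_eq] at h1
    exact h1

/-- a uniform constant on a finite set -/
theorem exists_mul {S : Set (Place ℂ K)} (hS : S.Finite) (u t : Place ℂ K → ℝ)
    (ht : ∀ P ∈ S, 0 < u P → 0 < t P) : ∃ s : ℕ, ∀ P ∈ S, 0 < u P → u P ≤ s * t P := by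
  classical
  refine ⟨∑ P ∈ hS.toFinset, ⌈u P / t P⌉₊, fun P hP hu => ?_⟩
  have h1 := ht P hP hu
  have h2 : u P / t P ≤ (⌈u P / t P⌉₊ : ℝ) := Nat.le_ceil _
  have h3 : ⌈u P / t P⌉₊ ≤ ∑ Q ∈ hS.toFinset, ⌈u Q / t Q⌉₊ :=
    Finset.single_le_sum (f := fun Q => ⌈u Q / t Q⌉₊) (fun _ _ => Nat.zero_le _)
      (hS.mem_toFinset.2 hP)
  have h4 : (⌈u P / t P⌉₊ : ℝ) ≤ ((∑ Q ∈ hS.toFinset, ⌈u Q / t Q⌉₊ : ℕ) : ℝ) := by
    exact_mod_cast h3
  have h5 := (div_le_iff₀ h1).1 (h2.trans h4)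
  exact h5

/-- **The theorem for real boundaries.** -/
theorem main (htr : Algebra.trdeg ℂ K = (n : ℕ)) (hy : NormalModel y)
    {Δ Δ' β β' : Place ℂ K → ℚ} (hΔE : Effective y Δ) (hΔE' : Effective y Δ')
    (h : R885.N.PosB ℂ K n (fun P => ((β P : ℚ) : ℝ)) ∨ R885.N.NegB ℂ K n (fun P => ((β P : ℚ) : ℝ)))
    (hm : ∀ P, IsPrimeDivisor y P → β P ≤ Δ P)
    (hdisc : ∀ Q, Divisorial n Q → LogDisc y n Δ Q (1 - β Q))
    (h' : R885.N.PosB ℂ K n (fun P => ((β' P : ℚ) : ℝ)) ∨ R885.N.NegB ℂ K n (fun P => ((β' P : ℚ) : ℝ)))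
    (hm' : ∀ P, IsPrimeDivisor y P → β' P ≤ Δ' P)
    (hdisc' : ∀ Q, Divisorial n Q → LogDisc y n Δ' Q (1 - β' Q))
    (hΔ : ∀ P, IsPrimeDivisor y P → Δ P ≤ Δ' P) (hK : GA.Psef y n Δ)
    {Z : Set (Place ℂ K)} (hZ : GA.Covered y n Δ Z)
    {B : Place ℂ K → ℝ} (hB : IsDiv y B) (hΔB : ∀ P, IsPrimeDivisor y P → (Δ P : ℝ) ≤ B P)
    (hBs : ∀ P, IsPrimeDivisor y P → P ∉ Z → (B P = Δ P ↔ Δ' P = Δ P)) :
    ∃ d : ℕ, d ≤ n ∧ kodairaDim y n B = (d : WithBot ℕ) ∧
      ∀ A, Eff y A → numericalDim y n B A = (d : EReal) := by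
  classical
  obtain ⟨m1, hm1, ω₀, hω₀0, hω₀s, hω₀Z⟩ := GA.exists_cov htr hy h hm hdisc hK hZ
  obtain ⟨e, he, heP, heS⟩ := GA.exists_div hω₀s hω₀Z
  have hω₀ := hω₀s.1
  have heR : ∀ P, (0 : ℝ) ≤ (e P : ℝ) := fun P => by exact_mod_cast he P
  have hΔR : ∀ P, IsPrimeDivisor y P → (Δ P : ℝ) ≤ (Δ' P : ℝ) := fun P hP => by
    exact_mod_cast hΔ P hP
  obtain ⟨S, hSd⟩ : ∃ S : Set (Place ℂ K), S = {P | IsPrimeDivisor y P ∧
      (B P ≠ 0 ∨ Δ P ≠ 0 ∨ Δ' P ≠ 0)} := ⟨_, rfl⟩
  have hS : S.Finite := by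
    refine (((show {P | IsPrimeDivisor y P ∧ B P ≠ 0}.Finite from hB).union hΔE.2).union
      hΔE'.2).subset ?_
    rw [hSd]
    rintro P ⟨hP, h1 | h1 | h1⟩
    · exact Or.inl (Or.inl ⟨hP, h1⟩)
    · exact Or.inl (Or.inr ⟨hP, h1⟩)
    · exact Or.inr ⟨hP, h1⟩
  have hpos1 : ∀ P ∈ S, 0 < B P - Δ P → 0 < (Δ' P : ℝ) - Δ P + e P := by
    intro P hP h1
    rw [hSd] at hP
    have h2 := hΔR P hP.1
    have h3 := heR P
    by_cases h4 : P ∈ Z
    · have h5 : (0 : ℝ) < e P := by exact_mod_cast heS P h4 hP.1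
      linarith
    · have h5 : B P ≠ Δ P := by
        intro h6
        rw [h6, sub_self] at h1
        exact lt_irrefl _ h1
      have h6 : Δ' P ≠ Δ P := fun h7 => h5 ((hBs P hP.1 h4).2 h7)
      have h7 : (Δ P : ℝ) ≠ (Δ' P : ℝ) := fun h8 => h6 (by exact_mod_cast h8.symm)
      have h8 := lt_of_le_of_ne h2 h7
      linarith
  have hpos2 : ∀ P ∈ S, 0 < (Δ' P : ℝ) - Δ P → 0 < B P - Δ P + e P := by
    intro P hP h1
    rw [hSd] at hP
    have h2 := hΔB P hP.1
    have h3 := heR P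
    by_cases h4 : P ∈ Z
    · have h5 : (0 : ℝ) < e P := by exact_mod_cast heS P h4 hP.1
      linarith
    · have h5 : B P ≠ Δ P := fun h6 => by
        have h7 := (hBs P hP.1 h4).1 h6
        rw [h7, sub_self] at h1
        exact lt_irrefl _ h1
      have h7 := lt_of_le_of_ne h2 h5.symm
      linarith
  obtain ⟨s1, hs1⟩ := exists_mul hS (fun P => B P - Δ P) (fun P => (Δ' P : ℝ) - Δ P + e P) hpos1
  obtain ⟨s2, hs2⟩ := exists_mul hS (fun P => (Δ' P : ℝ) - Δ P) (fun P => B P - Δ P + e P) hpos2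
  obtain ⟨s, hsd⟩ : ∃ s : ℕ, s = s1 + s2 + 1 := ⟨_, rfl⟩
  have hs1' : (s1 : ℝ) ≤ s := by
    rw [hsd]
    push_cast
    linarith [Nat.cast_nonneg (α := ℝ) s2]
  have hs2' : (s2 : ℝ) ≤ s := by
    rw [hsd]
    push_cast
    linarith [Nat.cast_nonneg (α := ℝ) s1]
  have hs0 : 1 ≤ s := by omega
  have hc1 : ∀ P, IsPrimeDivisor y P → B P - Δ P ≤ (s : ℝ) * ((Δ' P : ℝ) - Δ P + e P) := by
    intro P hP
    have h2 : (0 : ℝ) ≤ (Δ' P : ℝ) - Δ P + e P := by linarith [hΔR P hP, heR P]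
    have h3 : (0 : ℝ) ≤ (s : ℝ) * ((Δ' P : ℝ) - Δ P + e P) := mul_nonneg (Nat.cast_nonneg _) h2
    by_cases h1 : 0 < B P - Δ P
    · have hPS : P ∈ S := by
        rw [hSd]
        refine ⟨hP, ?_⟩
        by_contra h4
        push Not at h4
        rw [h4.1, h4.2.1] at h1
        simp at h1
      exact (hs1 P hPS h1).trans (mul_le_mul_of_nonneg_right hs1' h2)
    · linarith
  have hc2 : ∀ P, IsPrimeDivisor y P → (Δ' P : ℝ) - Δ P ≤ (s : ℝ) * (B P - Δ P + e P) := by
    intro P hP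
    have h2 : (0 : ℝ) ≤ B P - Δ P + e P := by linarith [hΔB P hP, heR P]
    have h3 : (0 : ℝ) ≤ (s : ℝ) * (B P - Δ P + e P) := mul_nonneg (Nat.cast_nonneg _) h2
    by_cases h1 : 0 < (Δ' P : ℝ) - Δ P
    · have hPS : P ∈ S := by
        rw [hSd]
        refine ⟨hP, ?_⟩
        by_contra h4
        push Not at h4
        rw [h4.2.1, h4.2.2] at h1
        simp at h1
      exact (hs2 P hPS h1).trans (mul_le_mul_of_nonneg_right hs2' h2)
    · linarith
  -- the sections of the multiples of `K_X + Δ'`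
  have hpos' : R885.N.PosB ℂ K n (fun P => ((β' P : ℚ) : ℝ)) :=
    GA.pos_of_section htr hy h' hdisc' hm1 hω₀0 ⟨hω₀, fun P hP => (hω₀s.2 P hP).mono (by
      rw [Pi.smul_apply, nsmul_eq_mul, Pi.smul_apply, nsmul_eq_mul]
      have := mul_le_mul_of_nonneg_left (hΔ P hP) (Nat.cast_nonneg (α := ℚ) m1)
      linarith)⟩
  obtain ⟨d, hdn, h1, h2⟩ := hpos'
  obtain ⟨x, E, hx, hE⟩ := exists_crd htr
  have hfr : IsFrame E := fun G =>
    ⟨fun j => G (x j), (Pool.Agent.W73.PG.PULL.expand x hx E hE G).symm⟩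
  have hω₀E : ω₀ E ≠ 0 := fun h0 => hω₀0 (pluri_zero hfr hω₀ h0)
  obtain ⟨m0, hm0, ω', hω', D', hD', hind⟩ := h1
  have hω₀D' : ω₀ D' ≠ 0 := fun h0 =>
    hω₀0 (pluri_zero (frame_of_ne hfr hm0 (hω' 0).1 (hD' 0)) hω₀ h0)
  obtain ⟨w, hw⟩ : ∃ w : ℕ, w = m0 * s := ⟨_, rfl⟩
  refine ⟨d, hdn, dims hfr ?_ (m0 := m0 + m1 * w) (by omega)
    (ω := fun j E => ω' j E * ω₀ E ^ w) ?_ (E := D')
    (mul_ne_zero (hD' 0) (pow_ne_zero _ hω₀D')) ?_⟩
  · intro A hA
    obtain ⟨A', hA'd⟩ : ∃ A' : Place ℂ K → ℚ, A' = fun P => (⌈A P⌉₊ : ℚ) := ⟨_, rfl⟩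
    have hA' : Effective y A' := by
      refine ⟨fun P hP => ?_, ?_⟩
      · rw [hA'd]
        exact Nat.cast_nonneg _
      · refine (show {P | IsPrimeDivisor y P ∧ A P ≠ 0}.Finite from hA.1).subset ?_
        rintro P ⟨hP, h0⟩
        refine ⟨hP, fun h3 => h0 ?_⟩
        rw [hA'd]
        beta_reduce
        rw [h3]
        simp
    have hAA' : ∀ P, A P ≤ (A' P : ℝ) := by
      intro P
      rw [hA'd]
      have := Nat.le_ceil (A P)
      push_cast
      exact this
    obtain ⟨C, hC⟩ := _root_.Pool.Agent.R885.N.sec_bound hy hdisc' h2 hfr hA'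
    refine ⟨C * (1 + m1 * s) ^ d, fun m hm r f hf hfs => ?_⟩
    choose σ hσ hσf using hfs
    have h3 := hC ((1 + m1 * s) * m) (Nat.mul_pos (by omega) hm) r
      (fun l => f l * ω₀ E ^ (s * m)) (by
      have h4 := hf.map' (LinearMap.mulRight ℂ (ω₀ E ^ (s * m))) (by
        rw [LinearMap.ker_eq_bot]
        exact fun a b hab => mul_right_cancel₀ (pow_ne_zero _ hω₀E) hab)
      exact h4) fun l => ⟨fun D => σ l D * ω₀ D ^ (s * m), ⟨?_, ?_⟩, by
        beta_reduce
        rw [hσf]⟩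
    · refine h3.trans (le_of_eq ?_)
      rw [mul_assoc, ← mul_pow]
    · intro B D
      have h4 := (hσ l).1 B D
      have h5 := hω₀ B D
      beta_reduce
      rw [h4, h5, mul_pow, ← pow_mul]
      have e1 : (1 + m1 * s) * m = m + m1 * (s * m) := by ring
      rw [e1, pow_add]
      ring
    · intro P hP E' hE'
      beta_reduce
      by_cases hσ0 : σ l E' = 0
      · exact Or.inl (by rw [hσ0, zero_mul])
      by_cases hω₀' : ω₀ E' = 0
      · exact Or.inl (by rw [hω₀', zero_pow (Nat.mul_ne_zero (by omega) (by omega)), mul_zero])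
      right
      rw [P.ord_mul hσ0 (pow_ne_zero _ hω₀'), P.ord_pow]
      have h4 := ((hσ l).2 P hP E' hE').resolve_left hσ0
      have h5 := (heP P hP E' hE').resolve_left hω₀'
      have h5' : ((e P : ℝ) - m1 * (Δ P : ℝ)) ≤ ((P.ord (ω₀ E') : ℤ) : ℝ) := by
        exact_mod_cast h5
      have hmR : (0 : ℝ) ≤ m := Nat.cast_nonneg _
      have hsmR : (0 : ℝ) ≤ s * m := by positivity
      have h6 := mul_le_mul_of_nonneg_left h5' hsmR
      have h7 := mul_le_mul_of_nonneg_left (hc1 P hP) hmR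
      have hm1R : (1 : ℝ) ≤ m1 := by exact_mod_cast hm1
      have h8 : (s * m : ℝ) * ((Δ' P : ℝ) - Δ P) ≤
          (m + m1 * (s * m) : ℝ) * ((Δ' P : ℝ) - Δ P) := by
        refine mul_le_mul_of_nonneg_right ?_ (by linarith [hΔR P hP])
        nlinarith
      have h9 := hAA' P
      rw [Pi.add_apply, Pi.smul_apply, nsmul_eq_mul] at h4
      have h10 : -((((1 + m1 * s) * m : ℕ) : ℝ) * (Δ' P : ℝ) + (A' P : ℝ)) ≤
          ((P.ord (σ l E') + (s * m : ℕ) * P.ord (ω₀ E') : ℤ) : ℝ) := by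
        push_cast
        nlinarith
      rw [Pi.add_apply, Pi.smul_apply, nsmul_eq_mul]
      exact_mod_cast h10
  · intro j
    refine ⟨?_, fun P hP E' hE' => ?_⟩
    · intro B D
      have h4 := (hω' j).1 B D
      have h5 := hω₀ B D
      beta_reduce
      have h4' : (ω' j fun i => ∑ l, B i l • D l) = B.det ^ m0 * ω' j D := h4
      rw [h4', h5, mul_pow, ← pow_mul, pow_add]
      ring
    · beta_reduce
      by_cases hω'0 : ω' j E' = 0
      · exact Or.inl (by rw [hω'0, zero_mul])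
      by_cases hw0 : w = 0
      · exfalso
        rw [hw] at hw0
        rcases Nat.mul_eq_zero.1 hw0 with h | h
        · omega
        · omega
      by_cases hω₀' : ω₀ E' = 0
      · exact Or.inl (by rw [hω₀', zero_pow hw0, mul_zero])
      right
      rw [P.ord_mul hω'0 (pow_ne_zero _ hω₀'), P.ord_pow]
      have h5 := (heP P hP E' hE').resolve_left hω₀'
      have h5' : ((e P : ℝ) - m1 * (Δ P : ℝ)) ≤ ((P.ord (ω₀ E') : ℤ) : ℝ) := by
        exact_mod_cast h5
      rcases (hω' j).2 P (hP.divisorial hy htr) E' hE' with h6 | ⟨t, ht, ht0, h6⟩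
      · exact absurd h6 hω'0
      rw [Nat.cast_zero, zero_mul, zero_sub] at h6
      beta_reduce at h6
      have h7 : (β' P : ℝ) ≤ Δ' P := by exact_mod_cast hm' P hP
      have h8 := mul_le_mul_of_nonneg_left h7 (Nat.cast_nonneg (α := ℝ) m0)
      have h9 := mul_le_mul_of_nonneg_left h5' (Nat.cast_nonneg (α := ℝ) w)
      have h10 := mul_le_mul_of_nonneg_left (hc2 P hP) (Nat.cast_nonneg (α := ℝ) m0)
      have hwR : (w : ℝ) = m0 * s := by
        rw [hw]
        push_cast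
        ring
      have hm1R : (1 : ℝ) ≤ m1 := by exact_mod_cast hm1
      have hBΔ : 0 ≤ B P - Δ P := by linarith [hΔB P hP]
      have h11 : (w : ℝ) * (B P - Δ P) ≤ (m1 * w : ℝ) * (B P - Δ P) := by
        refine mul_le_mul_of_nonneg_right ?_ hBΔ
        have := mul_le_mul_of_nonneg_right hm1R (Nat.cast_nonneg (α := ℝ) w)
        linarith
      have h12 := mul_nonneg (Nat.cast_nonneg (α := ℝ) m0) hBΔ
      have h13 : (m0 : ℝ) * ((s : ℝ) * (B P - Δ P + e P)) = w * (B P - Δ P) + w * e P := by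
        rw [hwR]
        ring
      rw [h13] at h10
      rw [Pi.smul_apply, nsmul_eq_mul]
      push_cast
      nlinarith
  · have h3 : (fun i : Fin d => (ω' i.succ D' * ω₀ D' ^ w) / (ω' 0 D' * ω₀ D' ^ w)) =
        fun i => ω' i.succ D' / ω' 0 D' := by
      funext i
      rw [mul_div_mul_right _ _ (pow_ne_zero _ hω₀D')]
    rw [h3]
    exact hind

end

end Pool.Agent.T2H41.GR
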