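import Pool.Agent.T2H41.GR

/-!
Effective real divisors with the same support as the divisor of a section of a multiple of `K_X + Δ`.
-/

set_option autoImplicit false
set_option linter.overlappingInstances false
set_option linter.unusedSectionVars false

open FF Filter IntermediateField Pool.Agent.W602.GT Pool.Agent.W603.LV Pool.Agent.W619.PQ
  Pool.Agent.W619.TW Pool.Agent.W619.Y Pool.Agent.Y172 Pool.Agent.Y191 Pool.Agent.Y174
  Pool.Agent.R885

namespace Pool.Agent.T2H41.GS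

section

variable {K : Type} [Field K] [Algebra ℂ K] {N : ℕ}

/-- The rational function `g` on `X` is zero or has `div g + D ≥ 0`. -/
def IsFn (y : Fin (N + 1) → K) (D : Place ℂ K → ℝ) (g : K) : Prop :=
  ∀ P, IsPrimeDivisor y P → g = 0 ∨ -(D P) ≤ P.ord g

/-- `h⁰ (X, ⌊D⌋)` -/
noncomputable def hD (y : Fin (N + 1) → K) (D : Place ℂ K → ℝ) : ℕ :=
  Module.finrank ℂ (Submodule.span ℂ {g : K | IsFn y D g})

open scoped Classical in
/-- The Iitaka dimension of the real divisor `D`. -/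
noncomputable def iitakaDim (y : Fin (N + 1) → K) (D : Place ℂ K → ℝ) : WithBot ℕ :=
  if ∀ m : ℕ, 1 ≤ m → hD y (m • D) = 0 then ⊥ else
    ((sSup {k : ℕ | 0 < limsup (fun m : ℕ => (hD y (m • D) : ENNReal) / (m : ENNReal) ^ k)
      atTop} : ℕ) : WithBot ℕ)

/-- The numerical dimension of the real divisor `D` with respect to the divisor `A`. -/
noncomputable def numDim (y : Fin (N + 1) → K) (D A : Place ℂ K → ℝ) : EReal :=
  limsup (fun m : ℕ => ENNReal.log (hD y (m • D + A) : ENNReal) / (Real.log m : EReal)) atTop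

variable {y : Fin (N + 1) → K} {n : ℕ}

theorem IsFn.mul {D D' : Place ℂ K → ℝ} {g g' : K} (h : IsFn y D g) (h' : IsFn y D' g') :
    IsFn y (D + D') (g * g') := by
  intro P hP
  by_cases h1 : g = 0
  · exact Or.inl (by rw [h1, zero_mul])
  by_cases h2 : g' = 0
  · exact Or.inl (by rw [h2, mul_zero])
  right
  have h3 := (h P hP).resolve_left h1
  have h4 := (h' P hP).resolve_left h2
  rw [P.ord_mul h1 h2, Pi.add_apply]
  push_cast
  linarith

theorem isFn_one : IsFn y (0 : Place ℂ K → ℝ) (1 : K) := by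
  intro P _
  right
  rw [P.ord_one]
  simp

theorem IsFn.pow {D : Place ℂ K → ℝ} {g : K} (h : IsFn y D g) (t : ℕ) : IsFn y (t • D) (g ^ t) := by
  induction t with
  | zero =>
    rw [pow_zero, zero_smul]
    exact isFn_one
  | succ t ih =>
    rw [pow_succ, add_smul, one_smul]
    exact ih.mul h

theorem isFn_prod {D : Place ℂ K → ℝ} {r : ℕ} {g : Fin r → K} (h : ∀ i, IsFn y D (g i))
    (a : Fin r → ℕ) : IsFn y ((∑ i, a i) • D) (∏ i, g i ^ a i) := by
  induction r with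
  | zero =>
    simp only [Finset.univ_eq_empty, Finset.sum_empty, zero_smul, Finset.prod_empty]
    exact isFn_one
  | succ r ih =>
    have h1 := ((h 0).pow (a 0)).mul (ih (fun i => h i.succ) fun i => a i.succ)
    simp only [Fin.sum_univ_succ, Fin.prod_univ_succ, add_smul]
    exact h1

theorem IsFn.mono {D D' : Place ℂ K → ℝ} {g : K} (h : IsFn y D g)
    (hD : ∀ P, IsPrimeDivisor y P → D P ≤ D' P) : IsFn y D' g := by
  intro P hP
  refine (h P hP).imp_right fun h1 => ?_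
  linarith [hD P hP]

/-- the space of the functions -/
def fnSub (y : Fin (N + 1) → K) (D : Place ℂ K → ℝ) : Submodule ℂ K where
  carrier := {g | IsFn y D g}
  add_mem' := by
    intro g g' h h' P hP
    by_cases h1 : g = 0
    · rw [h1, zero_add]
      exact h' P hP
    by_cases h2 : g' = 0
    · rw [h2, add_zero]
      exact h P hP
    by_cases h3 : g + g' = 0
    · exact Or.inl h3
    right
    have h4 := (h P hP).resolve_left h1
    have h5 := (h' P hP).resolve_left h2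
    have h6 := P.ord_add h1 h2 h3
    have h7 : -(D P) ≤ ((min (P.ord g) (P.ord g') : ℤ) : ℝ) := by
      rw [Int.cast_min]
      exact le_min h4 h5
    exact h7.trans (by exact_mod_cast h6)
  zero_mem' := fun P _ => Or.inl rfl
  smul_mem' := by
    intro c g h P hP
    by_cases hc : c = 0
    · exact Or.inl (by rw [hc, zero_smul])
    rcases h P hP with h3 | h3
    · exact Or.inl (by rw [h3, smul_zero])
    by_cases h4 : g = 0
    · exact Or.inl (by rw [h4, smul_zero])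
    right
    rw [Algebra.smul_def, P.ord_mul (by simpa using hc) h4, P.ord_const hc, zero_add]
    exact h3

theorem hD_eq (D : Place ℂ K → ℝ) : hD y D = Module.finrank ℂ (fnSub y D) := by
  unfold hD
  have : Submodule.span ℂ {g | IsFn y D g} = fnSub y D := Submodule.span_eq (fnSub y D)
  rw [this]

theorem finite_hD {A : Place ℂ K → ℝ} {B : ℕ} (hB : ∀ (r : ℕ) (f : Fin r → K),
    LinearIndependent ℂ f → (∀ i, IsFn y A (f i)) → r ≤ B) :
    Module.Finite ℂ (fnSub y A) ∧ hD y A ≤ B := by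
  have h1 : Module.rank ℂ (fnSub y A) ≤ B := by
    refine _root_.rank_le fun s hs => ?_
    have h2 := hs.map' (fnSub y A).subtype (LinearMap.ker_eq_bot.2 (Submodule.injective_subtype _))
    have h3 := h2.comp s.equivFin.symm s.equivFin.symm.injective
    exact hB _ _ h3 fun i => (s.equivFin.symm i).1.2
  refine ⟨?_, ?_⟩
  · exact Module.rank_lt_aleph0_iff.1 (lt_of_le_of_lt h1 Cardinal.natCast_lt_aleph0)
  · rw [hD_eq]
    exact Module.finrank_le_of_rank_le h1

theorem le_hD {A : Place ℂ K → ℝ} (hfin : Module.Finite ℂ (fnSub y A)) {ι : Type}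
    [Fintype ι] {v : ι → K} (hv : LinearIndependent ℂ v) (h : ∀ i, IsFn y A (v i)) :
    Fintype.card ι ≤ hD y A := by
  rw [hD_eq]
  have h1 : LinearIndependent ℂ (fun i => (⟨v i, h i⟩ : fnSub y A)) :=
    LinearIndependent.of_comp (fnSub y A).subtype hv
  exact h1.fintype_card_le_finrank

/-- **The Iitaka dimension and the numerical dimension.** -/
theorem dimsD {k : ℕ} {L : Place ℂ K → ℝ}
    (hup : ∀ A, GR.Eff y A → ∃ C : ℕ, ∀ m : ℕ, 1 ≤ m → ∀ (r : ℕ) (f : Fin r → K),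
      LinearIndependent ℂ f → (∀ i, IsFn y (m • L + A) (f i)) → r ≤ C * m ^ k)
    {m0 : ℕ} (hm0 : 1 ≤ m0) {g : Fin (k + 1) → K} (hg : ∀ j, IsFn y (m0 • L) (g j))
    (hE : g 0 ≠ 0) (hind : AlgebraicIndependent ℂ (fun i : Fin k => g i.succ / g 0)) :
    iitakaDim y L = (k : WithBot ℕ) ∧ ∀ A, GR.Eff y A → numDim y L A = (k : EReal) := by
  classical
  have hzero : GR.Eff y (0 : Place ℂ K → ℝ) :=
    ⟨Set.finite_empty.subset (by rintro P ⟨-, h⟩; exact h rfl), fun _ _ => le_rfl⟩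
  -- the lower bound
  obtain ⟨M, hM⟩ : ∃ M : ℕ, M = (k + 1) * m0 := ⟨_, rfl⟩
  have hM1 : 1 ≤ M := by
    rw [hM]
    exact Nat.mul_pos (Nat.succ_pos k) hm0
  have hlow : ∀ A, GR.Eff y A → ∀ t : ℕ, 1 ≤ t → t ^ k ≤ hD y ((t * M) • L + A) := by
    intro A hA t ht
    obtain ⟨C, hC⟩ := hup A hA
    have htM : 1 ≤ t * M := Nat.mul_pos ht hM1
    obtain ⟨hfin, -⟩ := finite_hD (hC (t * M) htM)
    let T := (k + 1) * t
    let b : (Fin k → Fin (t + 1)) → Fin (k + 1) → ℕ := fun a =>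
      Fin.cons (T - ∑ i, (a i : ℕ)) fun i => (a i : ℕ)
    have hle : ∀ a : Fin k → Fin (t + 1), ∑ i, (a i : ℕ) ≤ T := by
      intro a
      have h1 : ∑ i, (a i : ℕ) ≤ ∑ _i : Fin k, t :=
        Finset.sum_le_sum fun i _ => Nat.lt_succ_iff.1 (a i).2
      rw [Finset.sum_const, Finset.card_univ, Fintype.card_fin, smul_eq_mul] at h1
      exact h1.trans (Nat.mul_le_mul_right _ (Nat.le_succ k))
    have hsum : ∀ a, ∑ i, b a i = T := by
      intro a
      rw [Fin.sum_univ_succ]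
      simp only [b, Fin.cons_zero, Fin.cons_succ]
      exact Nat.sub_add_cancel (hle a)
    let v : (Fin k → Fin (t + 1)) → K := fun a => ∏ i, g i ^ b a i
    have hv : ∀ a, IsFn y ((t * M) • L + A) (v a) := by
      intro a
      have h1 := isFn_prod hg (b a)
      rw [hsum] at h1
      have e1 : T * m0 = t * M := by
        rw [hM]
        ring
      rw [smul_smul, e1] at h1
      refine h1.mono fun P hP => ?_
      have := hA.2 P hP
      simp only [Pi.add_apply]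
      linarith
    have hvE : ∀ a, v a = g 0 ^ T * ∏ i : Fin k, (g i.succ / g 0) ^ (a i : ℕ) := by
      intro a
      change ∏ i, g i ^ b a i = _
      rw [Fin.prod_univ_succ]
      simp only [b, Fin.cons_zero, Fin.cons_succ, div_pow, Finset.prod_div_distrib]
      have h1 : g 0 ^ T = g 0 ^ (T - ∑ i, (a i : ℕ)) * ∏ i, g 0 ^ (a i : ℕ) := by
        rw [Finset.prod_pow_eq_pow_sum, ← pow_add, Nat.sub_add_cancel (hle a)]
      rw [h1]
      have h2 : ∏ i, g 0 ^ (a i : ℕ) ≠ 0 := Finset.prod_ne_zero_iff.2 fun i _ => pow_ne_zero _ hE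
      field_simp
    have hvind : LinearIndependent ℂ v := by
      have h1 : LinearIndependent ℂ fun a : Fin k → Fin (t + 1) =>
          ∏ i : Fin k, (g i.succ / g 0) ^ (a i : ℕ) :=
        (mono_indep hind).comp (fun (a : Fin k → Fin (t + 1)) i => (a i : ℕ)) (by
          intro a a' h
          funext i
          exact Fin.ext (congrFun h i))
      have h3 := h1.map' (LinearMap.mulLeft ℂ (g 0 ^ T)) (by
        rw [LinearMap.ker_eq_bot]
        exact fun a b hab => mul_left_cancel₀ (pow_ne_zero _ hE) hab)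
      have h4 : v = (LinearMap.mulLeft ℂ (g 0 ^ T)) ∘
          fun a : Fin k → Fin (t + 1) => ∏ i : Fin k, (g i.succ / g 0) ^ (a i : ℕ) := by
        funext a
        exact hvE a
      rw [h4]
      exact h3
    have h1 := le_hD hfin hvind hv
    rw [Fintype.card_fun, Fintype.card_fin, Fintype.card_fin] at h1
    exact (Nat.pow_le_pow_left (Nat.le_succ t) k).trans h1
  constructor
  · obtain ⟨C, hC⟩ := hup 0 hzero
    have hlow0 := hlow 0 hzero
    simp only [add_zero] at hlow0 hC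
    unfold iitakaDim
    rw [if_neg]
    · congr 1
      have h1 := kappa_eq (I := Set.univ) (h := fun m => hD y (m • L)) (C := C) hM1
        (fun t ht => Set.mem_univ _) hlow0 fun m _ hm => (finite_hD (hC m hm)).2
      rw [principal_univ, inf_top_eq] at h1
      exact h1
    · intro hcon
      have h1 := hcon (1 * M) (by omega)
      have h2 := hlow0 1 le_rfl
      rw [h1, one_pow] at h2
      omega
  · intro A hA
    obtain ⟨C, hC⟩ := hup A hA
    have h1 := nu_eq (I := Set.univ) (h := fun m => hD y (m • L + A)) (C := C) hM1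
      (fun t ht => Set.mem_univ _) (hlow A hA) fun m _ hm => (finite_hD (hC m hm)).2
    rw [principal_univ, inf_top_eq] at h1
    exact h1

/-- **The bounds for effective real divisors.** -/
theorem data (htr : Algebra.trdeg ℂ K = (n : ℕ)) (hy : NormalModel y)
    {Δ β : Place ℂ K → ℚ} (hΔE : Effective y Δ)
    (h : R885.N.PosB ℂ K n (fun P => ((β P : ℚ) : ℝ)) ∨
      R885.N.NegB ℂ K n (fun P => ((β P : ℚ) : ℝ)))
    (hm : ∀ P, IsPrimeDivisor y P → β P ≤ Δ P)
    (hdisc : ∀ Q, Divisorial n Q → LogDisc y n Δ Q (1 - β Q))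
    {m1 : ℕ} (hm1 : 1 ≤ m1) {ω₀ : (Fin n → Derivation ℂ K K) → K} (hω₀0 : ω₀ ≠ 0)
    (hω₀s : Y172.IsSection y n m1 (m1 • Δ) ω₀)
    {D : Place ℂ K → ℝ} (hDE : GR.Eff y D)
    (hDs : ∀ P, IsPrimeDivisor y P → (D P = 0 ↔ OrdEq P ω₀ (-(m1 * Δ P)))) :
    ∃ d : ℕ, d ≤ n ∧ kodairaDim y n Δ = (d : WithBot ℕ) ∧
      (∀ A, GR.Eff y A → ∃ C : ℕ, ∀ m : ℕ, 1 ≤ m → ∀ (r : ℕ) (f : Fin r → K),
        LinearIndependent ℂ f → (∀ i, IsFn y (m • D + A) (f i)) → r ≤ C * m ^ d) ∧
      ∃ m0 : ℕ, 1 ≤ m0 ∧ ∃ g : Fin (d + 1) → K, (∀ j, IsFn y (m0 • D) (g j)) ∧ g 0 ≠ 0 ∧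
        AlgebraicIndependent ℂ (fun i : Fin d => g i.succ / g 0) := by
  classical
  obtain ⟨d, hdn, h1, h2⟩ := GA.pos_of_section htr hy h hdisc hm1 hω₀0 hω₀s
  refine ⟨d, hdn, (dims_pair htr hy hΔE hm hdisc h1 h2).1, ?_⟩
  have hω₀ := hω₀s.1
  obtain ⟨e, he, heP, heS⟩ := GA.exists_div (Z := {P | ¬ OrdEq P ω₀ (-(m1 * Δ P))}) hω₀s
    (fun P hP => hP)
  have heR : ∀ P, (0 : ℝ) ≤ (e P : ℝ) := fun P => by exact_mod_cast he P
  -- the bounds of the two divisors by each other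
  obtain ⟨s, hs0, hsD⟩ : ∃ s : ℕ, 1 ≤ s ∧ ∀ P, IsPrimeDivisor y P → D P ≤ (s : ℝ) * e P := by
    obtain ⟨s, hs⟩ := GR.exists_mul (S := {P | IsPrimeDivisor y P ∧ D P ≠ 0}) hDE.1 D
      (fun P => (e P : ℝ)) (fun P hP _ => by
        have h3 : 0 < e P := heS P (fun h4 => hP.2 ((hDs P hP.1).2 h4)) hP.1
        exact_mod_cast h3)
    refine ⟨s + 1, by omega, fun P hP => ?_⟩
    have h3 := mul_nonneg (Nat.cast_nonneg (α := ℝ) s) (heR P)
    have h4 := heR P
    by_cases h5 : D P = 0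
    · rw [h5]
      push_cast
      linarith
    · have h6 := hs P ⟨hP, h5⟩ (lt_of_le_of_ne (hDE.2 P hP) (Ne.symm h5))
      beta_reduce at h6
      push_cast
      linarith
  obtain ⟨x, E, hx, hE⟩ := exists_crd htr
  have hfr : IsFrame E := fun G =>
    ⟨fun j => G (x j), (Pool.Agent.W73.PG.PULL.expand x hx E hE G).symm⟩
  have hω₀E : ω₀ E ≠ 0 := fun h0 => hω₀0 (pluri_zero hfr hω₀ h0)
  obtain ⟨m0, hm0, ω', hω', D', hD', hind⟩ := h1
  have hω₀D' : ω₀ D' ≠ 0 := fun h0 =>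
    hω₀0 (pluri_zero (frame_of_ne hfr hm0 (hω' 0).1 (hD' 0)) hω₀ h0)
  -- the real order of the divisor of `ω₀` along the prime divisors with `D P ≠ 0`
  obtain ⟨w, hw1, hwD⟩ : ∃ w : ℕ, 1 ≤ w ∧ ∀ P, IsPrimeDivisor y P → ∀ j,
      ((m1 : ℝ) * P.ord (ω' j D') - m0 * P.ord (ω₀ D')) + w * D P ≥ 0 := by
    have hfr' := frame_of_ne hfr hm0 (hω' 0).1 (hD' 0)
    have hz : ∀ P, IsPrimeDivisor y P → D P = 0 → ∀ j,
        0 ≤ (m1 : ℝ) * P.ord (ω' j D') - m0 * P.ord (ω₀ D') := by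
      intro P hP hDP j
      obtain ⟨-, E', hE', hω₀E', hord⟩ := (hDs P hP).1 hDP
      obtain ⟨δ, hδ⟩ := DV.frame_pluri hfr' E'
      have h3 := hδ m0 (ω' j) (hω' j).1
      have h4 := hδ m1 ω₀ hω₀
      have hδ0 : δ ≠ 0 := by
        rintro rfl
        rw [h4, zero_pow (by omega), zero_mul] at hω₀E'
        exact hω₀E' rfl
      have hω'E' : ω' j E' ≠ 0 := by
        rw [h3]
        exact mul_ne_zero (pow_ne_zero _ hδ0) (hD' j)
      have h5 : P.ord (ω' j E') = m0 * P.ord δ + P.ord (ω' j D') := by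
        rw [h3, P.ord_mul (pow_ne_zero _ hδ0) (hD' j), P.ord_pow]
      have h6 : P.ord (ω₀ E') = m1 * P.ord δ + P.ord (ω₀ D') := by
        rw [h4, P.ord_mul (pow_ne_zero _ hδ0) hω₀D', P.ord_pow]
      rcases (hω' j).2 P (hP.divisorial hy htr) E' hE' with h7 | ⟨t, ht, ht0, h7⟩
      · exact absurd h7 hω'E'
      rw [Nat.cast_zero, zero_mul, zero_sub] at h7
      beta_reduce at h7
      have h8 : (β P : ℝ) ≤ Δ P := by exact_mod_cast hm P hP
      have h9 := mul_le_mul_of_nonneg_left h8 (Nat.cast_nonneg (α := ℝ) m0)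
      have h10 : (((P.ord (ω₀ E') : ℤ) : ℚ) : ℝ) = ((-(m1 * Δ P) : ℚ) : ℝ) := by
        rw [hord]
      rw [h5] at h7
      rw [h6] at h10
      push_cast at h7 h10
      have h11 : -((m0 : ℝ) * Δ P) ≤ m0 * P.ord δ + P.ord (ω' j D') := by linarith
      have h12 := mul_le_mul_of_nonneg_left h11 (Nat.cast_nonneg (α := ℝ) m1)
      have h13 : (m0 : ℝ) * (m1 * P.ord δ + P.ord (ω₀ D')) = m0 * (-(m1 * Δ P)) := by
        rw [h10]
      nlinarith
    obtain ⟨w, hw⟩ := GR.exists_mul (S := {P | IsPrimeDivisor y P ∧ D P ≠ 0}) hDE.1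
      (fun P => ∑ j, |(m1 : ℝ) * P.ord (ω' j D') - m0 * P.ord (ω₀ D')|) D (fun P hP _ =>
        lt_of_le_of_ne (hDE.2 P hP.1) (Ne.symm hP.2))
    refine ⟨w + 1, by omega, fun P hP j => ?_⟩
    by_cases hDP : D P = 0
    · rw [hDP, mul_zero, add_zero]
      exact hz P hP hDP j
    · have h3 : |(m1 : ℝ) * P.ord (ω' j D') - m0 * P.ord (ω₀ D')| ≤
          ∑ j, |(m1 : ℝ) * P.ord (ω' j D') - m0 * P.ord (ω₀ D')| :=
        Finset.single_le_sum
          (f := fun j => |(m1 : ℝ) * P.ord (ω' j D') - m0 * P.ord (ω₀ D')|)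
          (fun _ _ => abs_nonneg _) (Finset.mem_univ j)
      have h4 := neg_abs_le ((m1 : ℝ) * P.ord (ω' j D') - m0 * P.ord (ω₀ D'))
      have h5 := hDE.2 P hP
      have h6 : (0 : ℝ) ≤ w * D P := mul_nonneg (Nat.cast_nonneg _) h5
      push_cast
      by_cases h7 : 0 < ∑ j, |(m1 : ℝ) * P.ord (ω' j D') - m0 * P.ord (ω₀ D')|
      · have h8 := hw P ⟨hP, hDP⟩ h7
        beta_reduce at h8
        nlinarith
      · nlinarith
  refine ⟨?_, w, hw1, fun j => ω' j D' ^ m1 / ω₀ D' ^ m0, ?_, ?_, ?_⟩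
  · intro A hA
    obtain ⟨A', hA'd⟩ : ∃ A' : Place ℂ K → ℚ, A' = fun P => (⌈A P⌉₊ : ℚ) := ⟨_, rfl⟩
    have hA' : Effective y A' := by
      refine ⟨fun P hP => ?_, ?_⟩
      · rw [hA'd]
        exact Nat.cast_nonneg _
      · refine (show {P | IsPrimeDivisor y P ∧ A P ≠ 0}.Finite from hA.1).subset ?_
        rintro P ⟨hP, h0⟩
        refine ⟨hP, fun h3 => h0 ?_⟩
        rw [hA'd]
        beta_reduce
        rw [h3]
        simp
    have hAA' : ∀ P, A P ≤ (A' P : ℝ) := by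
      intro P
      rw [hA'd]
      have := Nat.le_ceil (A P)
      push_cast
      exact this
    obtain ⟨C, hC⟩ := _root_.Pool.Agent.R885.N.sec_bound hy hdisc h2 hfr hA'
    refine ⟨C * (m1 * s) ^ d, fun m hm r f hf hfs => ?_⟩
    have h3 := hC ((m1 * s) * m) (Nat.mul_pos (Nat.mul_pos hm1 hs0) hm) r
      (fun l => f l * ω₀ E ^ (s * m)) (by
      have h4 := hf.map' (LinearMap.mulRight ℂ (ω₀ E ^ (s * m))) (by
        rw [LinearMap.ker_eq_bot]
        exact fun a b hab => mul_right_cancel₀ (pow_ne_zero _ hω₀E) hab)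
      exact h4) fun l => ⟨fun D => f l * ω₀ D ^ (s * m), ⟨?_, ?_⟩, rfl⟩
    · refine h3.trans (le_of_eq ?_)
      rw [mul_pow (m1 * s) m, ← mul_assoc]
    · intro B D
      have h5 := hω₀ B D
      beta_reduce
      rw [h5, mul_pow, ← pow_mul]
      have e1 : m1 * s * m = m1 * (s * m) := by ring
      rw [e1]
      ring
    · intro P hP E' hE'
      beta_reduce
      by_cases hf0 : f l = 0
      · exact Or.inl (by rw [hf0, zero_mul])
      by_cases hω₀' : ω₀ E' = 0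
      · exact Or.inl (by rw [hω₀', zero_pow (Nat.mul_ne_zero (by omega) (by omega)), mul_zero])
      right
      rw [P.ord_mul hf0 (pow_ne_zero _ hω₀'), P.ord_pow]
      have h4 := (hfs l P hP).resolve_left hf0
      have h5 := (heP P hP E' hE').resolve_left hω₀'
      have h5' : ((e P : ℝ) - m1 * (Δ P : ℝ)) ≤ ((P.ord (ω₀ E') : ℤ) : ℝ) := by
        exact_mod_cast h5
      have hmR : (0 : ℝ) ≤ m := Nat.cast_nonneg _
      have hsmR : (0 : ℝ) ≤ s * m := by positivity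
      have h6 := mul_le_mul_of_nonneg_left h5' hsmR
      have h7 := mul_le_mul_of_nonneg_left (hsD P hP) hmR
      have h9 := hAA' P
      rw [Pi.add_apply, Pi.smul_apply, nsmul_eq_mul] at h4
      have h10 : -(((m1 * s * m : ℕ) : ℝ) * (Δ P : ℝ) + (A' P : ℝ)) ≤
          ((P.ord (f l) + (s * m : ℕ) * P.ord (ω₀ E') : ℤ) : ℝ) := by
        push_cast
        nlinarith
      rw [Pi.add_apply, Pi.smul_apply, nsmul_eq_mul]
      exact_mod_cast h10
  · intro j P hP
    right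
    have h3 := hwD P hP j
    beta_reduce
    rw [div_eq_mul_inv, P.ord_mul (pow_ne_zero _ (hD' j)) (inv_ne_zero (pow_ne_zero _ hω₀D')),
      P.ord_inv, P.ord_pow, P.ord_pow, Pi.smul_apply, nsmul_eq_mul]
    push_cast
    linarith
  · exact div_ne_zero (pow_ne_zero _ (hD' 0)) (pow_ne_zero _ hω₀D')
  · have h3 : (fun i : Fin d => (ω' i.succ D' ^ m1 / ω₀ D' ^ m0) / (ω' 0 D' ^ m1 / ω₀ D' ^ m0)) =
        fun i => (ω' i.succ D' / ω' 0 D') ^ m1 := by
      funext i
      rw [div_div_div_cancel_right₀ (pow_ne_zero _ hω₀D'), div_pow]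
    rw [h3]
    exact DV.pow_indep hind fun _ => by omega

/-- upper bound of the numerical dimension -/
theorem nu_le {h : ℕ → ℕ} {k C : ℕ} (hup : ∀ m, 1 ≤ m → h m ≤ C * m ^ k) :
    limsup (fun m : ℕ => ENNReal.log (h m : ENNReal) / (Real.log m : EReal)) atTop ≤
      (k : EReal) := by
  have h1 := nu_eq (I := Set.univ) (h := fun m => max (h m) (m ^ k)) (C := C + 1) (k := k) (M := 1)
    le_rfl (fun t ht => Set.mem_univ _) (fun t _ => by
      rw [mul_one]
      exact le_max_right _ _) fun m _ hm => by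
      refine max_le ((hup m hm).trans ?_) ?_
      · exact Nat.mul_le_mul_right _ (Nat.le_succ C)
      · exact Nat.le_mul_of_pos_left _ (Nat.succ_pos C)
  rw [principal_univ, inf_top_eq] at h1
  rw [← h1]
  refine limsup_le_limsup ?_
  filter_upwards [eventually_ge_atTop 2] with m hm
  have hm1 : (1 : ℝ) < m := by exact_mod_cast hm
  have hlog : 0 < Real.log m := Real.log_pos hm1
  refine EReal.div_le_div_right_of_nonneg (by exact_mod_cast hlog.le) ?_
  refine ENNReal.log_le_log ?_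
  exact_mod_cast le_max_left _ _

/-- upper bound of the Iitaka dimension -/
theorem kappa_le {h : ℕ → ℕ} {k C : ℕ} (hup : ∀ m, 1 ≤ m → h m ≤ C * m ^ k) :
    sSup {k' : ℕ | 0 < limsup (fun m : ℕ => (h m : ENNReal) / (m : ENNReal) ^ k') atTop} ≤ k := by
  refine csSup_le' ?_
  intro k' hk'
  by_contra hlt
  push Not at hlt
  have h1 : limsup (fun m : ℕ => (h m : ENNReal) / (m : ENNReal) ^ k') atTop ≤ 0 := by
    have h2 : Tendsto (fun m : ℕ => (C : ENNReal) / (m : ENNReal)) atTop (nhds 0) := by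
      have := ENNReal.Tendsto.const_mul (a := (C : ENNReal)) ENNReal.tendsto_inv_nat_nhds_zero
        (Or.inr (ENNReal.natCast_ne_top C))
      simpa [div_eq_mul_inv] using this
    have h3 : limsup (fun m : ℕ => (C : ENNReal) / (m : ENNReal)) atTop ≤ 0 := by
      rw [h2.limsup_eq]
    refine le_trans (limsup_le_limsup ?_) h3
    filter_upwards [eventually_ge_atTop 1] with m hm
    have h4 := hup m hm
    have hm0 : (m : ENNReal) ≠ 0 := by
      have : m ≠ 0 := by omega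
      exact_mod_cast this
    have hmt : (m : ENNReal) ≠ ⊤ := ENNReal.natCast_ne_top m
    rw [ENNReal.div_le_iff (pow_ne_zero _ hm0) (ENNReal.pow_ne_top hmt)]
    have h5 : (C : ENNReal) / m * (m : ENNReal) ^ k' = C * (m : ENNReal) ^ (k' - 1) := by
      have e : k' = k' - 1 + 1 := by omega
      conv_lhs => rw [e, pow_succ']
      rw [← mul_assoc, ENNReal.div_mul_cancel hm0 hmt]
    rw [h5]
    have h6 : h m ≤ C * m ^ (k' - 1) :=
      h4.trans (Nat.mul_le_mul_left _ (Nat.pow_le_pow_right hm (by omega)))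
    exact_mod_cast h6
  exact absurd hk' (not_lt.2 h1)

/-! ### Real linear equivalence -/

/-- `K_X + B` is `ℝ`-linearly equivalent to `D`: there is a nonzero rational `n`-form `ω` and there
are nonzero rational functions `φ i` and real numbers `a i` with
`D = div ω + B + ∑ i, a i * div (φ i)`. -/
def IsAdj (y : Fin (N + 1) → K) (n : ℕ) (B D : Place ℂ K → ℝ) : Prop :=
  ∃ (ω : (Fin n → Derivation ℂ K K) → K) (k : ℕ) (φ : Fin k → K) (a : Fin k → ℝ),
    IsPluri 1 ω ∧ ω ≠ 0 ∧ (∀ i, φ i ≠ 0) ∧ ∀ P, IsPrimeDivisor y P → ∃ q : ℤ, OrdEq P ω q ∧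
      D P = q + B P + ∑ i, a i * P.ord (φ i)

/-- the invariant Iitaka dimension of `K_X + B` -/
noncomputable def invDim (y : Fin (N + 1) → K) (n : ℕ) (B : Place ℂ K → ℝ) : WithBot ℕ∞ :=
  ⨆ (D : Place ℂ K → ℝ) (_ : GR.Eff y D) (_ : IsAdj y n B D),
    (iitakaDim y D).map ((↑) : ℕ → ℕ∞)

/-- the numerical dimension of `K_X + B` -/
noncomputable def sigmaDim (y : Fin (N + 1) → K) (n : ℕ) (B : Place ℂ K → ℝ) : EReal :=
  ⨆ (A : Place ℂ K → ℝ) (_ : GR.Eff y A), GR.numericalDim y n B A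

/-- the sum of the absolute values of the orders -/
noncomputable def fA {k : ℕ} (φ : Fin k → K) : Place ℂ K → ℝ := fun P => ∑ i, |(P.ord (φ i) : ℝ)|

theorem fA_eff (hy : NormalModel y) {k : ℕ} {φ : Fin k → K} (hφ : ∀ i, φ i ≠ 0) :
    GR.Eff y (fA φ) := by
  refine ⟨?_, fun P _ => Finset.sum_nonneg fun i _ => abs_nonneg _⟩
  refine (Set.finite_iUnion fun i => finite_ord hy (hφ i)).subset ?_
  rintro P ⟨hP, h0⟩
  by_contra h1
  apply h0
  refine Finset.sum_eq_zero fun i _ => ?_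
  rw [Set.mem_iUnion] at h1
  push Not at h1
  have h2 : P.ord (φ i) = 0 := by
    by_contra h3
    exact h1 i ⟨hP, h3⟩
  rw [h2, Int.cast_zero, abs_zero]

/-- the product of the powers -/
noncomputable def pw {k : ℕ} (φ : Fin k → K) (a : Fin k → ℝ) (m : ℕ) : K :=
  ∏ i, φ i ^ ⌊(m : ℝ) * a i⌋

theorem pw_ne {k : ℕ} {φ : Fin k → K} (hφ : ∀ i, φ i ≠ 0) (a : Fin k → ℝ) (m : ℕ) :
    pw φ a m ≠ 0 :=
  Finset.prod_ne_zero_iff.2 fun i _ => zpow_ne_zero _ (hφ i)

theorem pw_ord {k : ℕ} {φ : Fin k → K} (hφ : ∀ i, φ i ≠ 0) (a : Fin k → ℝ) (m : ℕ)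
    (P : Place ℂ K) : |(m : ℝ) * (∑ i, a i * P.ord (φ i)) - P.ord (pw φ a m)| ≤ fA φ P := by
  unfold pw
  rw [R885.ord_prod_zpow P Finset.univ φ hφ, Finset.mul_sum]
  push_cast
  rw [← Finset.sum_sub_distrib]
  refine (Finset.abs_sum_le_sum_abs _ _).trans (Finset.sum_le_sum fun i _ => ?_)
  have e1 : (m : ℝ) * (a i * P.ord (φ i)) - (⌊(m : ℝ) * a i⌋ : ℝ) * P.ord (φ i) =
      ((m : ℝ) * a i - ⌊(m : ℝ) * a i⌋) * P.ord (φ i) := by ring
  rw [e1, abs_mul]
  have h1 := Int.floor_le ((m : ℝ) * a i)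
  have h2 := Int.lt_floor_add_one ((m : ℝ) * a i)
  have h3 : |(m : ℝ) * a i - ⌊(m : ℝ) * a i⌋| ≤ 1 := by
    rw [abs_le]
    constructor <;> linarith
  calc |(m : ℝ) * a i - ⌊(m : ℝ) * a i⌋| * |(P.ord (φ i) : ℝ)| ≤ 1 * |(P.ord (φ i) : ℝ)| :=
        mul_le_mul_of_nonneg_right h3 (abs_nonneg _)
    _ = |(P.ord (φ i) : ℝ)| := one_mul _

/-- from sections to functions -/
theorem fn_of_sec {E : Fin n → Derivation ℂ K K} (hfr : IsFrame E) {B D A : Place ℂ K → ℝ}
    {ω : (Fin n → Derivation ℂ K K) → K} {k : ℕ} {φ : Fin k → K} {a : Fin k → ℝ}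
    (hω : IsPluri 1 ω) (hω0 : ω E ≠ 0) (hφ : ∀ i, φ i ≠ 0)
    (hD : ∀ P, IsPrimeDivisor y P → ∃ q : ℤ, OrdEq P ω q ∧
      D P = q + B P + ∑ i, a i * P.ord (φ i)) {m : ℕ}
    {σ : (Fin n → Derivation ℂ K K) → K} (hσ : GR.IsSec y n m (m • B + A) σ) :
    IsFn y (m • D + (A + fA φ)) (σ E * (ω E ^ m * pw φ a m)⁻¹) := by
  intro P hP
  by_cases h0 : σ E = 0
  · exact Or.inl (by rw [h0, zero_mul])
  right
  obtain ⟨q, ⟨-, E', hE', hωE', hq⟩, hDP⟩ := hD P hP
  obtain ⟨δ, hδ⟩ := DV.frame_pluri hfr E'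
  have h3 := hδ m σ hσ.1
  have h4 := hδ 1 ω hω
  have hδ0 : δ ≠ 0 := by
    rintro rfl
    rw [h4, zero_pow one_ne_zero, zero_mul] at hωE'
    exact hωE' rfl
  have hσE' : σ E' ≠ 0 := by
    rw [h3]
    exact mul_ne_zero (pow_ne_zero _ hδ0) h0
  have h5 : P.ord (σ E') = m * P.ord δ + P.ord (σ E) := by
    rw [h3, P.ord_mul (pow_ne_zero _ hδ0) h0, P.ord_pow]
  have h6 : P.ord (ω E') = P.ord δ + P.ord (ω E) := by
    rw [h4, pow_one, P.ord_mul hδ0 hω0]
  have h7 := (hσ.2 P hP E' hE').resolve_left hσE'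
  have hpw := pw_ne hφ a m
  rw [P.ord_mul h0 (inv_ne_zero (mul_ne_zero (pow_ne_zero _ hω0) hpw)), P.ord_inv,
    P.ord_mul (pow_ne_zero _ hω0) hpw, P.ord_pow]
  have h8 := (abs_le.1 (pw_ord hφ a m P))
  have h9 : (q : ℝ) = P.ord δ + P.ord (ω E) := by
    have h10 : ((P.ord (ω E') : ℤ) : ℚ) = (q : ℚ) := hq
    have h11 : P.ord (ω E') = q := by exact_mod_cast h10
    rw [← h11, h6]
    push_cast
    ring
  rw [h5] at h7
  simp only [Pi.add_apply, Pi.smul_apply] at h7 ⊢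
  simp only [nsmul_eq_mul] at h7 ⊢
  rw [hDP, h9]
  push_cast at h7 ⊢
  nlinarith [h8.1, h8.2]

/-- from functions to sections -/
theorem sec_of_fn {E : Fin n → Derivation ℂ K K} (hfr : IsFrame E) {B D A : Place ℂ K → ℝ}
    {ω : (Fin n → Derivation ℂ K K) → K} {k : ℕ} {φ : Fin k → K} {a : Fin k → ℝ}
    (hω : IsPluri 1 ω) (hω0 : ω E ≠ 0) (hφ : ∀ i, φ i ≠ 0)
    (hD : ∀ P, IsPrimeDivisor y P → ∃ q : ℤ, OrdEq P ω q ∧
      D P = q + B P + ∑ i, a i * P.ord (φ i)) {m : ℕ}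
    {g : K} (hg : IsFn y (m • D + A) g) :
    GR.IsSec y n m (m • B + (A + fA φ)) (fun E => g * (ω E ^ m * pw φ a m)) := by
  refine ⟨?_, ?_⟩
  · intro C F
    have h1 := hω C F
    beta_reduce
    rw [h1, pow_one, mul_pow]
    ring
  intro P hP F hF
  beta_reduce
  by_cases h0 : g = 0
  · exact Or.inl (by rw [h0, zero_mul])
  by_cases h1 : ω F = 0
  · rcases Nat.eq_zero_or_pos m with hm | hm
    · subst hm
      right
      have hpw := pw_ne hφ a 0
      have h8 := (abs_le.1 (pw_ord hφ a 0 P))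
      have h2 := (hg P hP).resolve_left h0
      rw [pow_zero, one_mul, P.ord_mul h0 hpw]
      simp only [Pi.add_apply, Pi.smul_apply] at h2 ⊢
      simp only [nsmul_eq_mul] at h2 ⊢
      push_cast at h2 h8 ⊢
      nlinarith [h8.1, h8.2]
    · exact Or.inl (by rw [h1, zero_pow (by omega), zero_mul, mul_zero])
  right
  obtain ⟨q, ⟨hωP, -⟩, hDP⟩ := hD P hP
  have h3 := (hωP F hF).resolve_left h1
  have h4 : (q : ℝ) ≤ P.ord (ω F) := by exact_mod_cast h3
  have h2 := (hg P hP).resolve_left h0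
  have hpw := pw_ne hφ a m
  have h8 := (abs_le.1 (pw_ord hφ a m P))
  rw [P.ord_mul h0 (mul_ne_zero (pow_ne_zero _ h1) hpw), P.ord_mul (pow_ne_zero _ h1) hpw,
    P.ord_pow]
  simp only [Pi.add_apply, Pi.smul_apply] at h2 ⊢
  simp only [nsmul_eq_mul] at h2 ⊢
  rw [hDP] at h2
  have h5 := mul_le_mul_of_nonneg_left h4 (Nat.cast_nonneg (α := ℝ) m)
  push_cast at h2 ⊢
  nlinarith [h8.1, h8.2]

theorem eff_add {A A' : Place ℂ K → ℝ} (h : GR.Eff y A) (h' : GR.Eff y A') :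
    GR.Eff y (A + A') := by
  refine ⟨(h.1.union h'.1).subset ?_, fun P hP => add_nonneg (h.2 P hP) (h'.2 P hP)⟩
  rintro P ⟨hP, h0⟩
  by_cases h1 : A P = 0
  · right
    refine ⟨hP, fun h2 => h0 ?_⟩
    rw [Pi.add_apply, h1, h2, add_zero]
  · exact Or.inl ⟨hP, h1⟩

/-- **The main theorem.** -/
theorem main (htr : Algebra.trdeg ℂ K = (n : ℕ)) (hy : NormalModel y)
    {Δ β : Place ℂ K → ℚ} (hΔE : Effective y Δ)
    (h : R885.N.PosB ℂ K n (fun P => ((β P : ℚ) : ℝ)) ∨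
      R885.N.NegB ℂ K n (fun P => ((β P : ℚ) : ℝ)))
    (hm : ∀ P, IsPrimeDivisor y P → β P ≤ Δ P)
    (hdisc : ∀ Q, Divisorial n Q → LogDisc y n Δ Q (1 - β Q))
    {m1 : ℕ} (hm1 : 1 ≤ m1) {ω₀ : (Fin n → Derivation ℂ K K) → K} (hω₀0 : ω₀ ≠ 0)
    (hω₀s : Y172.IsSection y n m1 (m1 • Δ) ω₀)
    {B D : Place ℂ K → ℝ} (hDE : GR.Eff y D) (hBD : IsAdj y n B D)
    (hDs : ∀ P, IsPrimeDivisor y P → (D P = 0 ↔ OrdEq P ω₀ (-(m1 * Δ P)))) :
    ∃ d : ℕ, d ≤ n ∧ kodairaDim y n Δ = (d : WithBot ℕ) ∧ invDim y n B = (d : WithBot ℕ∞) ∧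
      sigmaDim y n B = (d : EReal) := by
  classical
  obtain ⟨d, hdn, hκ, hup, m0, hm0, g, hg, hg0, hind⟩ := data htr hy hΔE h hm hdisc hm1 hω₀0 hω₀s
    hDE hDs
  obtain ⟨hi, hnu⟩ := dimsD hup hm0 hg hg0 hind
  obtain ⟨x, E, hx, hE⟩ := exists_crd htr
  have hfr : IsFrame E := fun G =>
    ⟨fun j => G (x j), (Pool.Agent.W73.PG.PULL.expand x hx E hE G).symm⟩
  obtain ⟨ω, k, φ, a, hω, hω0, hφ, hDD⟩ := id hBD
  have hωE : ω E ≠ 0 := fun h0 => hω0 (pluri_zero hfr hω h0)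
  -- the bound of the sections
  have hupS : ∀ A, GR.Eff y A → ∃ C : ℕ, ∀ m : ℕ, 1 ≤ m → ∀ (r : ℕ) (f : Fin r → K),
      LinearIndependent ℂ f → (∀ i, ∃ ω, GR.IsSec y n m (m • B + A) ω ∧ ω E = f i) →
      r ≤ C * m ^ d := by
    intro A hA
    obtain ⟨C, hC⟩ := hup (A + fA φ) (eff_add hA (fA_eff hy hφ))
    refine ⟨C, fun m hm r f hf hfs => ?_⟩
    choose σ hσ hσf using hfs
    have hne := inv_ne_zero (mul_ne_zero (pow_ne_zero m hωE) (pw_ne hφ a m))
    refine hC m hm r (fun l => f l * (ω E ^ m * pw φ a m)⁻¹) ?_ fun l => ?_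
    · have h4 := hf.map' (LinearMap.mulRight ℂ (ω E ^ m * pw φ a m)⁻¹) (by
        rw [LinearMap.ker_eq_bot]
        exact fun a b hab => mul_right_cancel₀ hne hab)
      exact h4
    · rw [← hσf l]
      exact fn_of_sec hfr hω hωE hφ hDD (hσ l)
  refine ⟨d, hdn, hκ, le_antisymm ?_ ?_, le_antisymm ?_ ?_⟩
  · refine iSup_le fun D' => iSup_le fun hD'E => iSup_le fun hBD' => ?_
    obtain ⟨ω', k', φ', a', hω', hω'0, hφ', hD'⟩ := hBD'
    have hω'E : ω' E ≠ 0 := fun h0 => hω'0 (pluri_zero hfr hω' h0)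
    have hzero : GR.Eff y (0 : Place ℂ K → ℝ) :=
      ⟨Set.finite_empty.subset (by rintro P ⟨-, h⟩; exact h rfl), fun _ _ => le_rfl⟩
    obtain ⟨C, hC⟩ := hupS (0 + fA φ') (eff_add hzero (fA_eff hy hφ'))
    have h1 : ∀ m, 1 ≤ m → hD y (m • D') ≤ C * m ^ d := by
      intro m hm
      refine (finite_hD fun r f hf hfs => ?_).2
      have hne := mul_ne_zero (pow_ne_zero m hω'E) (pw_ne hφ' a' m)
      refine hC m hm r (fun l => f l * (ω' E ^ m * pw φ' a' m)) ?_ fun l => ?_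
      · have h4 := hf.map' (LinearMap.mulRight ℂ (ω' E ^ m * pw φ' a' m)) (by
          rw [LinearMap.ker_eq_bot]
          exact fun a b hab => mul_right_cancel₀ hne hab)
        exact h4
      · have h2 : IsFn y (m • D' + 0) (f l) := by
          rw [add_zero]
          exact hfs l
        exact ⟨_, sec_of_fn hfr hω' hω'E hφ' hD' h2, rfl⟩
    have h2 := kappa_le h1
    unfold iitakaDim
    split_ifs
    · exact bot_le
    · refine WithBot.coe_le_coe.2 ?_
      exact_mod_cast h2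
  · refine le_trans ?_ (le_iSup_of_le D (le_iSup_of_le hDE (le_iSup_of_le hBD le_rfl)))
    rw [hi]
    exact le_of_eq rfl
  · refine iSup_le fun A => iSup_le fun hA => ?_
    obtain ⟨C, hC⟩ := hupS A hA
    exact nu_le (h := fun m => GR.h0 y n m (m • B + A)) (C := C) fun m hm =>
      (GR.finite_h0 hfr (hC m hm)).2
  · have hzero : GR.Eff y (0 : Place ℂ K → ℝ) :=
      ⟨Set.finite_empty.subset (by rintro P ⟨-, h⟩; exact h rfl), fun _ _ => le_rfl⟩
    have hA0 := eff_add hzero (fA_eff hy hφ)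
    refine le_trans ?_ (le_iSup_of_le (0 + fA φ) (le_iSup_of_le hA0 le_rfl))
    rw [← hnu 0 hzero]
    obtain ⟨C, hC⟩ := hupS (0 + fA φ) hA0
    refine limsup_le_limsup ?_
    filter_upwards [eventually_ge_atTop 2] with m hm
    have hm1 : (1 : ℝ) < m := by exact_mod_cast hm
    have hlog : 0 < Real.log m := Real.log_pos hm1
    refine EReal.div_le_div_right_of_nonneg (by exact_mod_cast hlog.le) ?_
    refine ENNReal.log_le_log ?_
    obtain ⟨hfin, -⟩ := GR.finite_h0 hfr (hC m (by omega))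
    obtain ⟨C', hC'⟩ := hup 0 hzero
    have := (finite_hD (hC' m (by omega))).1
    have hb := Module.finBasis ℂ (fnSub y (m • D + 0))
    have hne := mul_ne_zero (pow_ne_zero m hωE) (pw_ne hφ a m)
    have h1 : LinearIndependent ℂ fun i => ((hb i : fnSub y (m • D + 0)) : K) :=
      hb.linearIndependent.map' (fnSub y (m • D + 0)).subtype
        (LinearMap.ker_eq_bot.2 (Submodule.injective_subtype _))
    have h2 : LinearIndependent ℂ fun i => ((hb i : fnSub y (m • D + 0)) : K) *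
        (ω E ^ m * pw φ a m) := by
      have h4 := h1.map' (LinearMap.mulRight ℂ (ω E ^ m * pw φ a m)) (by
        rw [LinearMap.ker_eq_bot]
        exact fun a b hab => mul_right_cancel₀ hne hab)
      exact h4
    have h3 : LinearIndependent ℂ fun i => (fun F : Fin n → Derivation ℂ K K =>
        ((hb i : fnSub y (m • D + 0)) : K) * (ω F ^ m * pw φ a m)) :=
      LinearIndependent.of_comp (LinearMap.proj E) h2
    have h4 := GR.le_h0 hfin h3 fun i => sec_of_fn hfr hω hωE hφ hDD (hb i).2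
    rw [Fintype.card_fin] at h4
    rw [hD_eq]
    exact_mod_cast h4

end

end Pool.Agent.T2H41.GS
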