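import Pool.Agent.W602.GT.Four

/-!
Subvarieties of toric varieties given by few monomials with large exponents.
-/

set_option autoImplicit false

open FF Pool.Agent.W603.LV MvPolynomial Pool.Agent.W602.GT

namespace Pool.Agent.T2H41.LA

/-- Each form `F e` has at most two monomials, with arbitrary exponents, or it has at most `s`
monomials, and the exponents in it of the variables `x_j`, `j` not in `U`, are divisible by some
`N' ≥ N`. -/
def ToricSparse {k : Type} [Field k] {n : ℕ} {ι : Type} (U : Set (Fin (n + 1))) (s N : ℕ)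
    (F : ι → MvPolynomial (Fin (n + 1)) k) : Prop :=
  ∀ e, IsForm (F e) ∧ ((F e).support.card ≤ 2 ∨ IsPowSparse U s N (F e))

/-- All closed subvarieties of the quasi-projective variety `X = {F = 0, x_j ≠ 0 for all j in U}` have
dimension at most `m`. -/
def DimLe {k : Type} [Field k] {n : ℕ} {ι : Type} (U : Set (Fin (n + 1)))
    (F : ι → MvPolynomial (Fin (n + 1)) k) (m : ℕ) : Prop :=
  ∀ (K : Type) [Field K] [Algebra k K] (w : ℕ) (y : Fin (n + 1) → K), SubVarU U F K w y → w ≤ m

section

variable {k : Type} [Field k] {n : ℕ} {ι : Type} {U : Set (Fin (n + 1))} {s N : ℕ}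
  {F : ι → MvPolynomial (Fin (n + 1)) k}

theorem ToricSparse.form (hF : ToricSparse U s N F) (e : ι) : IsForm (F e) := (hF e).1

theorem ToricSparse.card_le (hF : ToricSparse U s N F) (hs : 2 ≤ s) (e : ι) :
    (F e).support.card ≤ s := by
  rcases (hF e).2 with h | h
  · exact h.trans hs
  · exact h.2.1

theorem ToricSparse.two_or (hF : ToricSparse U s N F) (e : ι) :
    (F e).support.card ≤ 2 ∨ IsPowSparse U s N (F e) := (hF e).2

end

variable {k K : Type} [Field k] [Field K] [Algebra k K] {n : ℕ}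

/-- two nonzero elements with sum zero have the same order -/
theorem ord_eq_of_two {J : Type} [Fintype J] (g : J → K) (hg : ∀ j, g j ≠ 0) (hsum : ∑ j, g j = 0)
    (hJ : Fintype.card J ≤ 2) (P : Place k K) (α β : J) : P.ord (g α) = P.ord (g β) := by
  classical
  by_cases hαβ : α = β
  · rw [hαβ]
  have h1 : (Finset.univ : Finset J) = {α, β} := by
    symm
    apply Finset.eq_of_subset_of_card_le (Finset.subset_univ _)
    rw [Finset.card_univ, Finset.card_pair hαβ]
    exact hJ
  rw [h1, Finset.sum_pair hαβ] at hsum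
  have h2 : g α = (-1 : K) * g β := by linear_combination hsum
  have h3 : (-1 : K) = algebraMap k K (-1) := by rw [map_neg, map_one]
  rw [h2, h3, P.ord_mul (by rw [← h3]; exact neg_ne_zero.2 one_ne_zero) (hg β),
    P.ord_const (neg_ne_zero.2 one_ne_zero), zero_add]

/-- **Sparse systems.** A subvariety of the open part `x_j ≠ 0` (`j` in `U`) of a variety given by
forms with few monomials and large exponents outside `U` is of log general type, or the variety is
preserved at its generic point by a diagonal one-parameter group. -/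
theorem sparseT [IsAlgClosed k] [CharZero k] {ι : Type} {U : Set (Fin (n + 1))}
    {F : ι → MvPolynomial (Fin (n + 1)) k} {s N : ℕ} (hF : ToricSparse U s N F)
    (hs : 2 ≤ s) {w : ℕ} (hN : w * ((s + 1) * tn (s - 1)) ≤ N)
    (hw : 0 < w) (htr : Algebra.trdeg k K = w) {y : Fin (n + 1) → K} (hy : y ≠ 0)
    (hgen : Algebra.IsAlgebraic (coords k y) K) (hyF : ∀ e, val y (F e) = 0)
    (hyU : ∀ j ∈ U, y j ≠ 0) (hgt : ¬ LogGeneralType k K w (OffU U y)) :
    ∃ (b : Fin (n + 1) → ℤ) (i i' : Fin (n + 1)), y i ≠ 0 ∧ y i' ≠ 0 ∧ b i ≠ b i' ∧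
      ∀ e v, val y (wc b v (F e)) = 0 := by
  classical
  have hK : CharZero K := charZero_of_injective_algebraMap (algebraMap k K).injective
  let T : ∀ e, (Fin (n + 1) →₀ ℕ) → K := fun e α => algebraMap k K ((F e).coeff α) * ∏ j, y j ^ α j
  let J : ι → Type := fun e => {α : (F e).support // T e α ≠ 0}
  let g : ∀ e, J e → K := fun e α => T e α.1
  have hg : ∀ e j, g e j ≠ 0 := fun e j => j.2
  have hsub : ∀ (e : ι) (h : (Fin (n + 1) →₀ ℕ) → K), ∑ α ∈ (F e).support, h α * T e α =
      ∑ α : J e, h α.1 * g e α := by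
    intro e h
    rw [← Finset.sum_coe_sort (F e).support (fun α => h α * T e α)]
    rw [← Finset.sum_subtype (Finset.univ.filter fun α : (F e).support => T e α ≠ 0) (by simp)
      (fun α : (F e).support => h α * T e α), Finset.sum_filter_of_ne]
    intro α _ hα h0
    exact hα (by rw [h0, mul_zero])
  have hsum : ∀ e, ∑ j, g e j = 0 := by
    intro e
    have h1 := hsub e (fun _ => 1)
    simp only [one_mul] at h1
    rw [← h1, ← val_eq_sum]
    exact hyF e
  have hcard : ∀ e, Fintype.card (J e) ≤ s := fun e =>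
    (Fintype.card_subtype_le _).trans (by rw [Fintype.card_coe]; exact (hF.card_le hs e))
  have hjump : ∀ P : Place k K, ¬ OffU U y P → ∀ e (α β : J e),
      P.ord (g e α) = P.ord (g e β) ∨
      ((w * ((s + 1) * tn (s - 1)) : ℕ) : ℤ) ≤ |P.ord (g e α) - P.ord (g e β)| := by
    intro P hP e α β
    obtain ⟨μ, hμ⟩ : ∃ μ : ℤ, ∀ j ∈ U, P.ord (y j) = μ := by
      by_cases hU : ∃ j0, j0 ∈ U
      · obtain ⟨j0, hj0⟩ := hU
        refine ⟨P.ord (y j0), fun j hj => ?_⟩
        unfold OffU at hP
        push Not at hP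
        exact le_antisymm (hP j hj j0 (hyU j0 hj0)) (hP j0 hj0 j (hyU j hj))
      · exact ⟨0, fun j hj => absurd ⟨j, hj⟩ hU⟩
    rcases hF.two_or e with h2c | ⟨⟨d, hd⟩, -, N', hN', hdvd⟩
    · left
      have hJ : Fintype.card (J e) ≤ 2 :=
        (Fintype.card_subtype_le _).trans (by rw [Fintype.card_coe]; exact h2c)
      exact ord_eq_of_two (g e) (hg e) (hsum e) hJ P α β
    have hα := sum_exp hd α.1.2
    have hβ := sum_exp hd β.1.2
    have h1 : P.ord (g e α) - P.ord (g e β) =
        ∑ j, (((α.1 : Fin (n + 1) →₀ ℕ) j : ℤ) - ((β.1 : Fin (n + 1) →₀ ℕ) j : ℤ)) *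
          (P.ord (y j) - μ) := by
      change P.ord (T e α.1) - P.ord (T e β.1) = _
      rw [ord_mon P α.2, ord_mon P β.2, ← Finset.sum_sub_distrib]
      have h2 : ∑ j, (((α.1 : Fin (n + 1) →₀ ℕ) j : ℤ) - ((β.1 : Fin (n + 1) →₀ ℕ) j : ℤ)) = 0 := by
        rw [Finset.sum_sub_distrib]
        have h3 : (∑ j, ((α.1 : Fin (n + 1) →₀ ℕ) j : ℤ)) = d := by exact_mod_cast hα
        have h4 : (∑ j, ((β.1 : Fin (n + 1) →₀ ℕ) j : ℤ)) = d := by exact_mod_cast hβ
        rw [h3, h4, sub_self]
      have h5 : ∑ j, (((α.1 : Fin (n + 1) →₀ ℕ) j : ℤ) - ((β.1 : Fin (n + 1) →₀ ℕ) j : ℤ)) * μ = 0 := by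
        rw [← Finset.sum_mul, h2, zero_mul]
      rw [← sub_zero (∑ j, (((α.1 : Fin (n + 1) →₀ ℕ) j : ℤ) * P.ord (y j) - _)), ← h5,
        ← Finset.sum_sub_distrib]
      exact Finset.sum_congr rfl fun j _ => by ring
    have h2 : (N' : ℤ) ∣ P.ord (g e α) - P.ord (g e β) := by
      rw [h1]
      refine Finset.dvd_sum fun j _ => ?_
      by_cases hj : j ∈ U
      · rw [hμ j hj, sub_self, mul_zero]
        exact dvd_zero _
      · refine Dvd.dvd.mul_right (dvd_sub ?_ ?_) _
        · exact_mod_cast hdvd _ α.1.2 j hj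
        · exact_mod_cast hdvd _ β.1.2 j hj
    by_cases h : P.ord (g e α) = P.ord (g e β)
    · exact Or.inl h
    · right
      have h3 : w * ((s + 1) * tn (s - 1)) ≤ N' := hN.trans hN'
      have h4 : ((w * ((s + 1) * tn (s - 1)) : ℕ) : ℤ) ≤ N' := by exact_mod_cast h3
      refine h4.trans ?_
      exact Int.le_of_dvd (abs_pos.2 (sub_ne_zero.2 h)) ((dvd_abs _ _).2 h2)
  rcases system hw htr g hg hsum hcard (OffU U y) hjump with h | ⟨D, hD, hR⟩
  · exact absurd h hgt
  obtain ⟨i, i', hii⟩ := moves hgen hD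
  have hyi : y i ≠ 0 := by
    intro h0
    apply hii
    rw [h0, map_zero]
    ring
  have hyi' : y i' ≠ 0 := by
    intro h0
    apply hii
    rw [h0, map_zero]
    ring
  have hlam : D (y i) / y i ≠ D (y i') / y i' := by
    intro h0
    apply hii
    field_simp at h0
    linear_combination -h0
  obtain ⟨b, hb, hb2⟩ := int_weights (fun j => D (y j) / y j) hlam
  refine ⟨b, i, i', hyi, hyi', hb, fun e v => ?_⟩
  obtain ⟨R, hRe, hRD, hRs⟩ := hR e
  rw [val_wc, Finset.sum_filter]
  have h1 := hsub e (fun α => if ∑ j, (α j : ℤ) * b j = v then 1 else 0)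
  simp only [ite_mul, one_mul, zero_mul] at h1
  rw [h1]
  have h2 := weighted_sum R hRe (g e)
    (fun α => if ∑ j, ((α.1 : Fin (n + 1) →₀ ℕ) j : ℤ) * b j = v then 1 else 0) ?_ hRs
  · simpa only [ite_mul, one_mul, zero_mul] using h2
  · intro α β hαβ
    have h3 := hRD α β hαβ
    change D (T e α.1) * T e β.1 = T e α.1 * D (T e β.1) at h3
    rw [der_mon D α.2, der_mon D β.2] at h3
    have h4 : ∑ j, ((α.1 : Fin (n + 1) →₀ ℕ) j : K) * (D (y j) / y j) =
        ∑ j, ((β.1 : Fin (n + 1) →₀ ℕ) j : K) * (D (y j) / y j) := by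
      apply mul_left_cancel₀ (mul_ne_zero α.2 β.2)
      linear_combination h3
    have h5 := hb2 (fun j => ((α.1 : Fin (n + 1) →₀ ℕ) j : ℤ) - ((β.1 : Fin (n + 1) →₀ ℕ) j : ℤ)) (by
      push_cast
      simp only [sub_mul, Finset.sum_sub_distrib]
      rw [h4, sub_self])
    simp only [sub_mul, Finset.sum_sub_distrib] at h5
    rw [sub_eq_zero.1 h5]


/-- **Waring varieties.** A subvariety of a variety given by sums of few high powers of linear
forms is of general type, or every form which vanishes on the lines of the variety vanishes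
on it. -/
theorem waringT [IsAlgClosed k] [CharZero k] {ι : Type} {F : ι → MvPolynomial (Fin (n + 1)) k}
    {s N : ℕ} (hF : ∀ e, IsPowSum s N (F e)) (hN1 : 1 ≤ N) {w : ℕ} (hN : w * ((s + 1) * tn (s - 1)) ≤ N)
    (hw : 0 < w) (htr : Algebra.trdeg k K = w) {y : Fin (n + 1) → K} (hy : y ≠ 0)
    (hgen : Algebra.IsAlgebraic (coords k y) K) (hyF : ∀ e, val y (F e) = 0)
    (hgt : ¬ GeneralType k K w) :
    ∃ v : Fin (n + 1) → K, (∃ i j, y i * v j - y j * v i ≠ 0) ∧
      ∀ (c c' : K) (e : ι), val (fun l => c * y l + c' * v l) (F e) = 0 := by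
  classical
  choose r d l hr hd hFe using hF
  have hK : CharZero K := charZero_of_injective_algebraMap (algebraMap k K).injective
  let L : ∀ e, Fin (r e) → (Fin (n + 1) → K) → K := fun e j x =>
    ∑ i, algebraMap k K (l e j i) * x i
  have hval : ∀ (x : Fin (n + 1) → K) e, val x (F e) = ∑ j, L e j x ^ d e := by
    intro x e
    unfold val
    rw [hFe e, map_sum]
    refine Finset.sum_congr rfl fun j _ => ?_
    rw [map_pow, map_sum]
    simp only [map_mul, aeval_C, aeval_X]
    rfl
  have hd0 : ∀ e, 0 < d e := fun e => lt_of_lt_of_le hN1 (hd e)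
  let J : ι → Type := fun e => {j : Fin (r e) // L e j y ≠ 0}
  let g : ∀ e, J e → K := fun e j => L e j.1 y ^ d e
  have hg : ∀ e j, g e j ≠ 0 := fun e j => pow_ne_zero _ j.2
  have hsub : ∀ (e : ι) (f : Fin (r e) → K), (∀ j, L e j y = 0 → f j = 0) →
      ∑ j, f j = ∑ j : J e, f j.1 := by
    intro e f hf
    rw [← Finset.sum_subtype (Finset.univ.filter fun j => L e j y ≠ 0) (by simp) f]
    rw [Finset.sum_filter_of_ne]
    intro j _ hj h0
    exact hj (hf j h0)
  have hsum : ∀ e, ∑ j, g e j = 0 := by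
    intro e
    rw [← hsub e (fun j => L e j y ^ d e) (fun j hj => by rw [hj, zero_pow (hd0 e).ne']), ← hval]
    exact hyF e
  have hcard : ∀ e, Fintype.card (J e) ≤ s := fun e =>
    (Fintype.card_subtype_le _).trans (by rw [Fintype.card_fin]; exact hr e)
  have hjump : ∀ P : Place k K, ¬ False → ∀ e (i j : J e), P.ord (g e i) = P.ord (g e j) ∨
      ((w * ((s + 1) * tn (s - 1)) : ℕ) : ℤ) ≤ |P.ord (g e i) - P.ord (g e j)| := by
    intro P _ e i j
    change P.ord (L e i.1 y ^ d e) = P.ord (L e j.1 y ^ d e) ∨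
      _ ≤ |P.ord (L e i.1 y ^ d e) - P.ord (L e j.1 y ^ d e)|
    rw [P.ord_pow, P.ord_pow]
    by_cases h : P.ord (L e i.1 y) = P.ord (L e j.1 y)
    · left; rw [h]
    · right
      rw [← mul_sub, abs_mul, Nat.abs_cast]
      have h1 : (1 : ℤ) ≤ |P.ord (L e i.1 y) - P.ord (L e j.1 y)| :=
        Int.one_le_abs (sub_ne_zero.2 h)
      have h2 : w * ((s + 1) * tn (s - 1)) ≤ d e := hN.trans (hd e)
      have h3 : ((w * ((s + 1) * tn (s - 1)) : ℕ) : ℤ) ≤ d e := by exact_mod_cast h2
      have h4 : (0 : ℤ) ≤ d e := by positivity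
      nlinarith
  rcases system hw htr g hg hsum hcard (fun _ => False) hjump with h | ⟨D, hD, hR⟩
  · exact absurd (general_of_log h) hgt
  · refine ⟨fun i => D (y i), moves hgen hD, fun c c' e => ?_⟩
    obtain ⟨R, hRe, hRD, hRs⟩ := hR e
    have hLD : ∀ j, L e j (fun i => D (y i)) = D (L e j y) := by
      intro j
      simp only [L]
      rw [map_sum]
      refine Finset.sum_congr rfl fun i _ => ?_
      rw [D.leibniz, D.map_algebraMap, smul_zero, add_zero, smul_eq_mul]
    have hLlin : ∀ j, L e j (fun l => c * y l + c' * D (y l)) = c * L e j y + c' * D (L e j y) := by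
      intro j
      rw [← hLD]
      simp only [L, Finset.mul_sum, ← Finset.sum_add_distrib]
      exact Finset.sum_congr rfl fun i _ => by ring
    rw [hval]
    simp only [hLlin]
    rw [hsub e (fun j => (c * L e j y + c' * D (L e j y)) ^ d e) (fun j hj => by
      rw [hj, map_zero, mul_zero, mul_zero, add_zero, zero_pow (hd0 e).ne'])]
    have h1 := weighted_sum R hRe (g e) (fun j => (c + c' * (D (L e j.1 y) / L e j.1 y)) ^ d e)
      (fun i j hij => by
        have h2 := hRD i j hij
        have hi := i.2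
        have hj := j.2
        have hde : (d e : K) ≠ 0 := by exact_mod_cast (hd0 e).ne'
        change D (L e i.1 y ^ d e) * L e j.1 y ^ d e = L e i.1 y ^ d e * D (L e j.1 y ^ d e) at h2
        have hpow : ∀ x : K, x ≠ 0 → D (x ^ d e) = d e * x ^ d e * (D x / x) := by
          intro x hx
          rw [D.leibniz_pow]
          obtain ⟨q, hq⟩ : ∃ q, d e = q + 1 := ⟨d e - 1, by have := hd0 e; omega⟩
          rw [hq]
          simp only [nsmul_eq_mul, smul_eq_mul, Nat.add_sub_cancel]
          field_simp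
          ring
        rw [hpow _ hi, hpow _ hj] at h2
        have h3 : D (L e i.1 y) / L e i.1 y = D (L e j.1 y) / L e j.1 y := by
          have h4 : (d e : K) * L e i.1 y ^ d e * L e j.1 y ^ d e ≠ 0 :=
            mul_ne_zero (mul_ne_zero hde (pow_ne_zero _ hi)) (pow_ne_zero _ hj)
          apply mul_left_cancel₀ h4
          linear_combination h2
        rw [h3]) hRs
    refine Eq.trans (Finset.sum_congr rfl fun j _ => ?_) h1
    have hj := j.2
    change _ = _ * L e j.1 y ^ d e
    rw [← mul_pow]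
    congr 1
    field_simp


end Pool.Agent.T2H41.LA
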