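import Pool.Agent.T2H41.LA

/-!
Rational curves in subvarieties which are not of general type, toric case.
-/

set_option autoImplicit false

open FF Pool.Agent.W603.LV Pool.Agent.W602.GT Pool.Agent.W603.CX

namespace Pool.Agent.T2H41.LA

/-- The forms `F e` are sums of at most `s` powers of linear forms, with exponents at least `N`; or
each of them has at most two monomials, or at most `s` monomials (`s ≥ 2`) with exponents divisible
by some `N' ≥ N`. -/
def HighT {k : Type} [Field k] {n : ℕ} {ι : Type} (s N : ℕ)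
    (F : ι → MvPolynomial (Fin (n + 1)) k) : Prop :=
  (∀ e, IsPowSum s N (F e)) ∨ (2 ≤ s ∧ ToricSparse ∅ s N F)

theorem HighT.form {k : Type} [Field k] {n : ℕ} {ι : Type} {s N : ℕ}
    {F : ι → MvPolynomial (Fin (n + 1)) k} (hF : HighT s N F) (e : ι) : IsForm (F e) := by
  rcases hF with h | ⟨-, h⟩
  · exact isForm_of_powSum (h e)
  · exact h.form e

theorem DimLe.le {k : Type} [Field k] {n : ℕ} {ι : Type} {F : ι → MvPolynomial (Fin (n + 1)) k}
    {m : ℕ} (h : DimLe ∅ F m) {K : Type} [Field K] [Algebra k K] {w : ℕ} {y : Fin (n + 1) → K}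
    (hy : SubVar F K w y) : w ≤ m :=
  h K w y ⟨hy.ne, fun j hj => absurd hj (Set.notMem_empty j), hy.mem, hy.gen, hy.dim⟩

variable {k : Type} [Field k] [CharZero k] [IsAlgClosed k] {n : ℕ} {ι : Type}

/-- **Subvarieties which are not of log general type are covered by orbits.** -/
theorem closureT {ι : Type} {U : Set (Fin (n + 1))} {F : ι → MvPolynomial (Fin (n + 1)) k}
    {s N : ℕ} (hF : ToricSparse U s N F) (hs : 2 ≤ s)
    {K : Type} [Field K] [Algebra k K] {w : ℕ} (hN : w * ((s + 1) * tn (s - 1)) ≤ N) (hw : 0 < w) {y : Fin (n + 1) → K}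
    (hy : SubVarU U F K w y) (hgt : ¬ LogGeneralType k K w (OffU U y))
    {G : MvPolynomial (Fin (n + 1)) k} (hG : val y G ≠ 0) :
    ∃ x b, DiagCurve U F x b ∧ val x G ≠ 0 := by
  classical
  have hgen : Algebra.IsAlgebraic (coords k y) K := by
    rw [hy.gen]
    infer_instance
  obtain ⟨b, i, i', hi, hi', hb, hwc⟩ := sparseT hF hs hN hw hy.dim hy.ne hgen hy.mem hy.unit hgt
  let H : MvPolynomial (Fin (n + 1)) k := G * (MvPolynomial.X i * MvPolynomial.X i') *
    ∏ j ∈ Finset.univ.filter (fun j => j ∈ U), MvPolynomial.X j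
  have hH : MvPolynomial.aeval y H ≠ 0 := by
    simp only [H, map_mul, map_prod, MvPolynomial.aeval_X]
    refine mul_ne_zero (mul_ne_zero hG (mul_ne_zero hi hi')) ?_
    exact Finset.prod_ne_zero_iff.2 fun j hj => hy.unit j (Finset.mem_filter.1 hj).2
  obtain ⟨x, hx, hx0⟩ := specialise y H hH
  simp only [H, map_mul, map_prod, MvPolynomial.aeval_X] at hx
  have h1 := left_ne_zero_of_mul hx
  have h2 := right_ne_zero_of_mul hx
  have h3 := right_ne_zero_of_mul h1
  refine ⟨x, b, diag_of_wc (fun j hj => ?_) (fun e v => hx0 _ (hwc e v))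
    ⟨i, i', left_ne_zero_of_mul h3, right_ne_zero_of_mul h3, hb⟩, left_ne_zero_of_mul h1⟩
  exact Finset.prod_ne_zero_iff.1 h2 j (Finset.mem_filter.2 ⟨Finset.mem_univ _, hj⟩)


/-- **Rational curves.** A subvariety which is not of general type is covered by the images of the
nonconstant morphisms from the multiplicative group to `X`. -/
theorem gm_throughT {F : ι → MvPolynomial (Fin (n + 1)) k} {s N : ℕ} (hF : HighT s N F)
    (hN1 : 1 ≤ N) {K : Type} [Field K] [Algebra k K] {w : ℕ} (hN : w * ((s + 1) * tn (s - 1)) ≤ N)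
    (hw : 0 < w) {y : Fin (n + 1) → K} (hy : SubVar F K w y) (hgt : ¬ GeneralType k K w)
    {G : MvPolynomial (Fin (n + 1)) k} (hGf : IsForm G) (hG : val y G ≠ 0) :
    ∃ P, GmCurve F P ∧ ∃ t : k, t ≠ 0 ∧ val (fun i => (P i).eval t) G ≠ 0 := by
  have hinf : Infinite k := inferInstance
  rcases hF with h | ⟨hs, h⟩
  · have hgen : Algebra.IsAlgebraic (coords k y) K := by
      rw [hy.gen]
      infer_instance
    obtain ⟨v, hv, hl⟩ := waringT h hN1 hN hw hy.dim hy.ne hgen hy.mem hgt
    by_contra hcon
    push Not at hcon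
    apply hG
    refine mem_closure y v hv hl ?_
    intro a b hab c c'
    have hGm : ∀ P, GmCurve F P → ∀ t : k, t ≠ 0 → val (fun i => (P i).eval t) G = 0 := hcon
    by_cases hc : c = 0
    · by_cases hc' : c' = 0
      · rw [hc, hc']
        have h1 := val_zero_of hGf (line_key hGm hab)
        simpa using h1
      · have h1 := line_key hGm (line_move hab (-1) 0 1 c' (by simpa using hc'))
        have e : (-1 : k) • a + (0 : k) • b + ((1 : k) • a + c' • b) = c • a + c' • b := by
          rw [hc]
          funext i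
          simp
        rwa [e] at h1
    · have h1 := line_key hGm (line_move hab 0 (-1) c (c' + 1) (by simpa using hc))
      have e : (0 : k) • a + (-1 : k) • b + (c • a + (c' + 1) • b) = c • a + c' • b := by
        funext i
        simp
        ring
      rwa [e] at h1
  · have hy' : SubVarU ∅ F K w y := ⟨hy.ne, fun j hj => absurd hj (Set.notMem_empty j), hy.mem,
      hy.gen, hy.dim⟩
    have hgt' : ¬ LogGeneralType k K w (OffU ∅ y) := by
      intro h1
      apply hgt
      apply general_of_log
      have h2 : OffU ∅ y = fun _ : Place k K => False := by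
        funext P
        simp [OffU]
      rwa [h2] at h1
    obtain ⟨x, b, hd, hx⟩ := closureT h hs hN hw hy' hgt' hG
    obtain ⟨P, hP, hP1⟩ := gm_of_diag (fun e => h.form e) hd
    exact ⟨P, hP, 1, one_ne_zero, by rw [hP1]; exact hx⟩


/-- **Lang's criterion.** All subvarieties are of general type if and only if there are no
nonconstant morphisms from the multiplicative group. -/
theorem all_iffT {F : ι → MvPolynomial (Fin (n + 1)) k} {s N m : ℕ} (hF : HighT s N F)
    (hN1 : 1 ≤ N) (hm : DimLe ∅ F m) (hN : m * ((s + 1) * tn (s - 1)) ≤ N) :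
    AllGeneralType F ↔ ∀ P, ¬ GmCurve F P := by
  constructor
  · intro h P hP
    obtain ⟨K, _, _, y, hy, hgt⟩ := sub_of_gm (fun e => hF.form e) hP
    exact hgt (h K 1 y le_rfl hy)
  · intro h K _ _ w y hw hy
    by_contra hgt
    have h1 : val y (1 : MvPolynomial (Fin (n + 1)) k) ≠ 0 := by
      unfold val
      rw [map_one]
      exact one_ne_zero
    obtain ⟨P, hP, -⟩ := gm_throughT hF hN1 ((Nat.mul_le_mul_right _ (hm.le hy)).trans hN) hw hy hgt
      ⟨0, MvPolynomial.isHomogeneous_one _ _⟩ h1
    exact h P hP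


theorem orbits_iffT {F : ι → MvPolynomial (Fin (n + 1)) k} {s N : ℕ}
    (hF : ToricSparse ∅ s N F) (hs : 2 ≤ s) (hN : 1 * ((s + 1) * tn (s - 1)) ≤ N) :
    OrbitsConstant F ↔ ∀ P, ¬ GmCurve F P := by
  constructor
  · intro h P hP
    obtain ⟨K, _, _, y, hy, hgt⟩ := sub_of_gm (fun e => hF.form e) hP
    have hy' : SubVarU ∅ F K 1 y := ⟨hy.ne, fun j hj => absurd hj (Set.notMem_empty j), hy.mem,
      hy.gen, hy.dim⟩
    have hgt' : ¬ LogGeneralType k K 1 (OffU ∅ y) := by
      intro h1
      apply hgt
      apply general_of_log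
      have h2 : OffU ∅ y = fun _ : Place k K => False := by
        funext P
        simp [OffU]
      rwa [h2] at h1
    have h1 : val y (1 : MvPolynomial (Fin (n + 1)) k) ≠ 0 := by
      unfold val
      rw [map_one]
      exact one_ne_zero
    obtain ⟨x, b, ⟨hd, i, i', hi, hi', hb⟩, -⟩ := closureT hF hs hN one_pos hy' hgt' h1
    apply hb
    refine h x b (fun t ht e => ?_) i i' hi hi'
    have h2 := (hd t ht).2.2 e
    rw [val_eval'] at h2
    simpa only [mul_comm] using h2
  · intro h x b hx j l hj hl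
    by_contra hb
    have hd : DiagCurve ∅ F x b := by
      refine ⟨fun t ht => ⟨?_, fun j hj => absurd hj (Set.notMem_empty j), fun e => ?_⟩,
        j, l, hj, hl, hb⟩
      · intro h0
        have h1 := congrFun h0 j
        exact mul_ne_zero (zpow_ne_zero _ ht) hj h1
      · rw [val_eval']
        simpa only [mul_comm] using hx t ht e
    obtain ⟨P, hP, -⟩ := gm_of_diag (fun e => hF.form e) hd
    exact h P hP


end Pool.Agent.T2H41.LA
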