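import Pool.Agent.T2H41.LB
import Pool.Agent.TH466.QG.Top

/-!
Subvarieties of toric varieties given by few monomials: circuits, varieties dominated by them.
-/

set_option autoImplicit false
set_option linter.overlappingInstances false
set_option linter.unusedSectionVars false

open FF Pool.Agent.W603.LV Pool.Agent.TH466.QG
open IntermediateField (adjoin)
open scoped IntermediateField
open Pool.Agent.W619.PQ (IsUniruled)
open Pool.Agent.W619.TW (IsPsef NumNeg NumLe)

namespace Pool.Agent.T2H41.LA

section sp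

open MvPolynomial Pool.Agent.W602.GT

variable {k K : Type} [Field k] [Field K] [Algebra k K] {n : ℕ}

theorem sparse_circT [IsAlgClosed k] [CharZero k] {ι : Type}
    {F : ι → MvPolynomial (Fin (n + 1)) k} {s N : ℕ} (hF : ToricSparse ∅ s N F) (hs : 2 ≤ s)
    {w : ℕ} (htr : Algebra.trdeg k K = w) {y : Fin (n + 1) → K}
    (hgen : Algebra.IsAlgebraic (coords k y) K) (hyF : ∀ e, val y (F e) = 0) :
    HasCirc k s N w K ∨
    ∃ (b : Fin (n + 1) → ℤ) (i i' : Fin (n + 1)), y i ≠ 0 ∧ y i' ≠ 0 ∧ b i ≠ b i' ∧
      ∀ e v, val y (wc b v (F e)) = 0 := by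
  classical
  have hK : CharZero K := charZero_of_injective_algebraMap (algebraMap k K).injective
  let T : ∀ e, (Fin (n + 1) →₀ ℕ) → K := fun e α => algebraMap k K ((F e).coeff α) * ∏ j, y j ^ α j
  let J : ι → Type := fun e => {α : (F e).support // T e α ≠ 0}
  let g : ∀ e, J e → K := fun e α => T e α.1
  have hg : ∀ e j, g e j ≠ 0 := fun e j => j.2
  have hsub : ∀ (e : ι) (h : (Fin (n + 1) →₀ ℕ) → K), ∑ α ∈ (F e).support, h α * T e α =
      ∑ α : J e, h α.1 * g e α := by
    intro e h
    rw [← Finset.sum_coe_sort (F e).support (fun α => h α * T e α)]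
    rw [← Finset.sum_subtype (Finset.univ.filter fun α : (F e).support => T e α ≠ 0) (by simp)
      (fun α : (F e).support => h α * T e α), Finset.sum_filter_of_ne]
    intro α _ hα h0
    exact hα (by rw [h0, mul_zero])
  have hsum : ∀ e, ∑ j, g e j = 0 := by
    intro e
    have h1 := hsub e (fun _ => 1)
    simp only [one_mul] at h1
    rw [← h1, ← val_eq_sum]
    exact hyF e
  have hcard : ∀ e, Fintype.card (J e) ≤ s := fun e =>
    (Fintype.card_subtype_le _).trans (by rw [Fintype.card_coe]; exact hF.card_le hs e)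
  rcases dich_circ htr g hg hsum with ⟨e, C, a, b, hb⟩ | ⟨D, hD, hR⟩
  · left
    have hbig : ∀ i, IsPowSparse ∅ s N (F (e i)) := by
      intro i
      rcases hF.two_or (e i) with h2c | h3
      · exfalso
        have hJ : Fintype.card (J (e i)) ≤ 2 :=
          (Fintype.card_subtype_le _).trans (by rw [Fintype.card_coe]; exact h2c)
        have hm : (C i).m ≤ 1 := by
          have := Fintype.card_le_of_injective _ (C i).he
          simp only [Fintype.card_fin] at this
          omega
        obtain ⟨c, hc⟩ := ratio_const (k := k) hm (fun l => (C i).c l • g (e i) ((C i).e l))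
          (fun l => smul_ne_zero ((C i).hc l) (hg _ _)) (C i).rel (a i) (b i)
        have h4 := hb.1.transcendental i
        rw [hc] at h4
        exact h4 (isAlgebraic_algebraMap c)
      · exact h3
    choose N' hN' hdvd using fun i => (hbig i).2.2
    let U : ∀ i, Fin ((C i).m + 1) → K := fun i j =>
      ∏ l, y l ^ ((((C i).e j).1 : Fin (n + 1) →₀ ℕ) l / N' i)
    have hUpow : ∀ i j, U i j ^ N' i =
        ∏ l, y l ^ ((((C i).e j).1 : Fin (n + 1) →₀ ℕ) l) := by
      intro i j
      simp only [U]
      rw [← Finset.prod_pow]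
      refine Finset.prod_congr rfl fun l _ => ?_
      rw [← pow_mul]
      congr 1
      exact Nat.div_mul_cancel (hdvd i _ ((C i).e j).1.2 l (Set.notMem_empty l))
    let c : ∀ i, Fin ((C i).m + 1) → k := fun i j =>
      (C i).c j * (F (e i)).coeff (((C i).e j).1 : Fin (n + 1) →₀ ℕ)
    have hval : ∀ i j, c i j • U i j ^ N' i = (C i).c j • g (e i) ((C i).e j) := by
      intro i j
      rw [hUpow]
      change _ = (C i).c j • (algebraMap k K ((F (e i)).coeff _) * ∏ l, y l ^ _)
      rw [Algebra.smul_def, Algebra.smul_def, map_mul, mul_assoc]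
    have hne : ∀ i j, c i j • U i j ^ N' i ≠ 0 := by
      intro i j
      rw [hval]
      exact smul_ne_zero ((C i).hc j) (hg _ _)
    have hU1 : ∀ i j, U i j ≠ 0 := by
      intro i j h0
      have h1 := hne i j
      rcases Nat.eq_zero_or_pos (N' i) with h2 | h2
      · have h3 : ∏ l, y l ^ ((((C i).e j).1 : Fin (n + 1) →₀ ℕ) l) ≠ 0 := by
          rw [← hUpow, h2, pow_zero]
          exact one_ne_zero
        have h4 : U i j = 1 := by
          simp only [U]
          rw [h2]
          simp
        rw [h4] at h0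
        exact one_ne_zero h0
      · apply h1
        rw [h0, zero_pow h2.ne', smul_zero]
    refine ⟨fun i => (C i).m, N', U, c, a, b, fun i => ?_, fun i => hN' _,
      hU1, fun i j h0 => hne i j (by rw [h0, zero_smul]), fun i => ?_, fun i => ?_, ?_⟩
    · have := Fintype.card_le_of_injective _ (C i).he
      simp only [Fintype.card_fin] at this
      exact this.trans (hcard _)
    · rw [Finset.sum_congr rfl fun j _ => hval i j]
      exact (C i).rel
    · simp only [hval]
      exact (C i).lin
    · simp only [hval]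
      exact hb
  right
  obtain ⟨i, i', hii⟩ := moves hgen hD
  have hyi : y i ≠ 0 := by
    intro h0
    apply hii
    rw [h0, map_zero]
    ring
  have hyi' : y i' ≠ 0 := by
    intro h0
    apply hii
    rw [h0, map_zero]
    ring
  have hlam : D (y i) / y i ≠ D (y i') / y i' := by
    intro h0
    apply hii
    field_simp at h0
    linear_combination -h0
  obtain ⟨b, hb, hb2⟩ := int_weights (fun j => D (y j) / y j) hlam
  refine ⟨b, i, i', hyi, hyi', hb, fun e v => ?_⟩
  obtain ⟨R, hRe, hRD, hRs⟩ := hR e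
  rw [val_wc, Finset.sum_filter]
  have h1 := hsub e (fun α => if ∑ j, (α j : ℤ) * b j = v then 1 else 0)
  simp only [ite_mul, one_mul, zero_mul] at h1
  rw [h1]
  have h2 := weighted_sum R hRe (g e)
    (fun α => if ∑ j, ((α.1 : Fin (n + 1) →₀ ℕ) j : ℤ) * b j = v then 1 else 0) ?_ hRs
  · simpa only [ite_mul, one_mul, zero_mul] using h2
  · intro α β hαβ
    have h3 := hRD α β hαβ
    change D (T e α.1) * T e β.1 = T e α.1 * D (T e β.1) at h3
    rw [der_mon D α.2, der_mon D β.2] at h3
    have h4 : ∑ j, ((α.1 : Fin (n + 1) →₀ ℕ) j : K) * (D (y j) / y j) =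
        ∑ j, ((β.1 : Fin (n + 1) →₀ ℕ) j : K) * (D (y j) / y j) := by
      apply mul_left_cancel₀ (mul_ne_zero α.2 β.2)
      linear_combination h3
    have h5 := hb2 (fun j => ((α.1 : Fin (n + 1) →₀ ℕ) j : ℤ) - ((β.1 : Fin (n + 1) →₀ ℕ) j : ℤ)) (by
      push_cast
      simp only [sub_mul, Finset.sum_sub_distrib]
      rw [h4, sub_self])
    simp only [sub_mul, Finset.sum_sub_distrib] at h5
    rw [sub_eq_zero.1 h5]

end sp

section top

open Pool.Agent.W602.GT

variable {k : Type} [Field k] [CharZero k] [IsAlgClosed k] {n : ℕ} {ι : Type}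

/-- The dichotomy for the components of systems of high powers: a system of circuits, or generated
by a transcendental element over a subfield. -/
theorem circ_or_ruledT {F : ι → MvPolynomial (Fin (n + 1)) k} {s N : ℕ} (hF : HighT s N F)
    (hN1 : 1 ≤ N) {K : Type} [Field K] [Algebra k K] {w : ℕ}
    {y : Fin (n + 1) → K} (hy : SubVar F K w y) (hcomp : IsComponent F y) :
    HasCirc k s N w K ∨
    ∃ (C : IntermediateField k K) (σ : K), Transcendental C σ ∧ C⟮σ⟯ = ⊤ := by
  have hgen : Algebra.IsAlgebraic (coords k y) K := by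
    rw [hy.gen]
    infer_instance
  rcases hF with h | ⟨hs, h⟩
  · rcases waring_circ h hN1 hy.dim hy.mem with hc | ⟨D, Z, Q, hD, hZ, hQ, hx⟩
    · exact Or.inl hc
    right
    obtain ⟨C, i0, j0, -, h1, h2, -⟩ := flow_of_pi hy hcomp D Z Q hD hZ hQ hx
    exact ⟨C, _, h1, h2⟩
  · rcases sparse_circT h hs hy.dim hgen hy.mem with hc | ⟨b, i, i', hi, hi', hb, hwc⟩
    · exact Or.inl hc
    right
    have hyU : SubVarU ∅ F K w y :=
      ⟨hy.ne, fun j hj => absurd hj (Set.notMem_empty j), hy.mem, hy.gen, hy.dim⟩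
    have hcompU : IsComponentU ∅ F y := by
      obtain ⟨H, hH, hHy, hcone⟩ := hcomp
      exact ⟨H, hH, hHy, fun x hx hxH => hcone x (mem_cone_empty hx) hxH⟩
    obtain ⟨δ, σ, -, -, hσ0, hσ, htop, -⟩ := exists_delta hy.gen b hi hi' hb
      (fun G hG h0 v => ideal_hom hyU hcompU hwc G hG h0 v)
    refine ⟨consts δ, σ, ?_, htop⟩
    intro halg
    have h1 : Algebra.IsAlgebraic (consts δ) K := by
      have h2 : Algebra.IsAlgebraic (consts δ) (consts δ)⟮σ⟯ :=
        IntermediateField.isAlgebraic_adjoin_simple halg.isIntegral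
      constructor
      intro z
      have h3 := h2.isAlgebraic (⟨z, by rw [htop]; exact IntermediateField.mem_top⟩ : (consts δ)⟮σ⟯)
      exact h3.algebraMap (A := K)
    have h2 : Algebra.IsAlgebraic (IntermediateField.adjoin k (consts δ : Set K)) K := by
      rw [IntermediateField.adjoin_self]
      exact h1
    have h3 := der_eq_zero δ _ h2 (fun s hs => hs)
    rw [h3] at hσ
    exact hσ0 hσ.symm

/-- **The dichotomy for components of systems of high powers.** -/
theorem component_dichotomyT {F : ι → MvPolynomial (Fin (n + 1)) k} {s N : ℕ} (hF : HighT s N F) (hN1 : 1 ≤ N) {K : Type} [Field K]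
    [Algebra k K] {w : ℕ} (hw : 1 ≤ w) {y : Fin (n + 1) → K} (hy : SubVar F K w y)
    (hcomp : IsComponent F y) {r : ℕ} (hr1 : 1 ≤ r)
    (hN : r * (w * ((s + 4) * ((s - 1) * (s - 2) / 2))) ≤ N) :
    (¬ Ruled k K ∧ ∀ (K' L : Type) [Field K'] [Field L] [Algebra k K'] [Algebra k L]
        [Algebra K K'] [Algebra L K'] [IsScalarTower k K K'] [IsScalarTower k L K']
        [Algebra.IsAlgebraic K K'] [FiniteDimensional L K'], Module.finrank L K' ≤ r →
        GeneralType k L w) ∨
    (Ruled k K ∧ ∀ (L : Type) [Field L] [Algebra k L] [Algebra L K] [IsScalarTower k L K]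
        [FiniteDimensional L K],
        IsUniruled k L w ∧ ¬ Psef k L w (fun _ => False) ∧ NumNeg k L w (fun _ => False)) := by
  rcases circ_or_ruledT hF hN1 hy hcomp with h | h
  · left
    refine ⟨?_, ?_⟩
    · have h1 : GeneralType k K w := by
        refine general_corr (K' := K) hw h (r := 1) (by simp) (le_trans ?_ hN)
        exact Nat.mul_le_mul_right _ hr1
      exact not_ruled_of_general h1
    · intro K' L _ _ _ _ _ _ _ _ _ _ hr
      exact general_corr hw h hr hN
  · right
    have hK : Algebra.EssFiniteType k K := SubVar.ess hy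
    obtain ⟨C, σ, h1, h2⟩ := h
    exact ⟨⟨C, σ, h1, h2⟩, fun L _ _ _ _ _ => neg_below hy.dim ⟨C, σ, h1, h2⟩⟩

end top

section

open Pool.Agent.W602.GT (GeneralType tn val lin coords HighPowers IsPowSum IsPowSparse wc IsForm
  val_polyK)

variable {k : Type} [Field k] [CharZero k] [IsAlgClosed k] {n : ℕ} {ι : Type}
  {F : ι → MvPolynomial (Fin (n + 1)) k} {K : Type} [Field K] [Algebra k K]
  {y : Fin (n + 1) → K}

/-- sums of few high powers of monomials: monomial curves -/
theorem circ_or_curve_sparseT {s N : ℕ} (hF : ToricSparse ∅ s N F) (hs : 2 ≤ s) {w : ℕ}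
    (htr : Algebra.trdeg k K = w) (hgen : Algebra.IsAlgebraic (coords k y) K)
    (hyF : ∀ e, val y (F e) = 0) : HasCirc k s N w K ∨ RatCurve F y := by
  rcases sparse_circT hF hs htr hgen hyF with h | ⟨b, i, i', hi, hi', hb, hwc⟩
  · exact Or.inl h
  right
  obtain ⟨B, hB⟩ : ∃ B : ℤ, ∀ j, 0 ≤ b j + B := by
    refine ⟨∑ j, |b j|, fun j => ?_⟩
    have h1 := Finset.single_le_sum (f := fun j => |b j|) (fun _ _ => abs_nonneg _)
      (Finset.mem_univ j)
    have h2 := neg_abs_le (b j)
    have h3 : |b j| ≤ ∑ j, |b j| := h1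
    linarith
  let β : Fin (n + 1) → ℕ := fun j => (b j + B).toNat
  have hβ : ∀ j, (β j : ℤ) = b j + B := fun j => Int.toNat_of_nonneg (hB j)
  let P : Fin (n + 1) → Polynomial K := fun j => Polynomial.C (y j) * Polynomial.X ^ β j
  refine ⟨P, fun j => by simp [P], ⟨i, i', fun h => ?_⟩,
    fun e => aeval_zero_of_eval fun t ht => ?_⟩
  · have h1 : Polynomial.C (y i * y i') * Polynomial.X ^ β i =
        Polynomial.C (y i * y i') * Polynomial.X ^ β i' := by
      rw [Polynomial.C_mul]
      simp only [P] at h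
      linear_combination h
    have h2 : Polynomial.C (y i * y i') ≠ 0 := by
      rw [Ne, Polynomial.C_eq_zero]
      exact mul_ne_zero hi hi'
    have h3 := congrArg Polynomial.natDegree (mul_left_cancel₀ h2 h1)
    rw [Polynomial.natDegree_X_pow, Polynomial.natDegree_X_pow] at h3
    apply hb
    have h4 : (β i : ℤ) = β i' := by exact_mod_cast h3
    rw [hβ, hβ] at h4
    linarith
  · have h1 := Pool.Agent.W602.GT.val_orbit y b ht (F e) (hwc e)
    obtain ⟨dd, hdd⟩ := hF.form e
    have h2 : (fun j => (P j).eval t) = fun j => t ^ B * (t ^ b j * y j) := by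
      funext j
      simp only [P, Polynomial.eval_mul, Polynomial.eval_C, Polynomial.eval_pow,
        Polynomial.eval_X]
      rw [← zpow_natCast, hβ, zpow_add₀ ht]
      ring
    rw [h2]
    have h3 : val (fun j => t ^ B * (t ^ b j * y j)) (F e) =
        (t ^ B) ^ dd * val (fun j => t ^ b j * y j) (F e) := by
      unfold Pool.Agent.W602.GT.val
      rw [MvPolynomial.aeval_def, MvPolynomial.aeval_def, MvPolynomial.eval₂_eq,
        MvPolynomial.eval₂_eq, Finset.mul_sum]
      refine Finset.sum_congr rfl fun α hα => ?_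
      have h4 : ∑ j ∈ α.support, α j = dd := by
        have h5 := hdd (MvPolynomial.mem_support_iff.1 hα)
        rw [Finsupp.weight_apply, Finsupp.sum] at h5
        simpa using h5
      simp only [mul_pow]
      rw [Finset.prod_mul_distrib, Finset.prod_pow_eq_pow_sum, h4]
      ring
    rw [h3, h1, mul_zero]

theorem circ_or_curveT {s N : ℕ} (hF : HighT s N F) (hN1 : 1 ≤ N) {w : ℕ}
    (htr : Algebra.trdeg k K = w) (hy : y ≠ 0) (hgen : Algebra.IsAlgebraic (coords k y) K)
    (hyF : ∀ e, val y (F e) = 0) : HasCirc k s N w K ∨ RatCurve F y := by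
  rcases hF with h | ⟨hs, h⟩
  · exact circ_or_curve_waring h hN1 htr hy hgen hyF
  · exact circ_or_curve_sparseT h hs htr hgen hyF

end

end Pool.Agent.T2H41.LA
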