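import Mathlib

/-!
Elimination for the quotient of a product of two punctured vector spaces by a two-dimensional torus.
-/

set_option autoImplicit false

open MvPolynomial

namespace Pool.Agent.T2H41.NA

/-- the weight of a monomial -/
def wt {n : ℕ} (a : Fin (n + 1) → ℤ) (μ : Fin (n + 1) →₀ ℕ) : ℤ := ∑ i, (μ i : ℤ) * a i

/-- the degree of a monomial -/
def dg {n : ℕ} (μ : Fin (n + 1) →₀ ℕ) : ℕ := ∑ i, μ i

theorem wt_add {n : ℕ} (a : Fin (n + 1) → ℤ) (μ ν : Fin (n + 1) →₀ ℕ) :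
    wt a (μ + ν) = wt a μ + wt a ν := by
  unfold wt
  rw [← Finset.sum_add_distrib]
  refine Finset.sum_congr rfl fun i _ => ?_
  rw [Finsupp.add_apply]
  push_cast
  ring

theorem dg_add {n : ℕ} (μ ν : Fin (n + 1) →₀ ℕ) : dg (μ + ν) = dg μ + dg ν := by
  unfold dg
  rw [← Finset.sum_add_distrib]
  rfl

/-- the monomials of degree `D` and weight zero -/
noncomputable def BD {n : ℕ} (a : Fin (n + 1) → ℤ) (D : ℕ) : Finset (Fin (n + 1) →₀ ℕ) := by
  classical
  exact (Finset.finsuppAntidiag Finset.univ D).filter (fun μ => wt a μ = 0)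

theorem mem_BD {n : ℕ} {a : Fin (n + 1) → ℤ} {D : ℕ} {μ : Fin (n + 1) →₀ ℕ} :
    μ ∈ BD a D ↔ dg μ = D ∧ wt a μ = 0 := by
  classical
  unfold BD
  rw [Finset.mem_filter, Finset.mem_finsuppAntidiag]
  constructor
  · rintro ⟨⟨h1, -⟩, h2⟩
    exact ⟨h1, h2⟩
  · rintro ⟨h1, h2⟩
    exact ⟨⟨h1, Finset.subset_univ _⟩, h2⟩

/-- a spanning family contains a basis -/
theorem exists_basis_fun {k J B : Type} [Field k] [Fintype B] (v : J → B → k)
    (h : Submodule.span k (Set.range v) = ⊤) : ∃ f : B → J, LinearIndependent k (v ∘ f) := by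
  classical
  obtain ⟨b, hb, hspan, hli⟩ := exists_linearIndependent k (Set.range v)
  rw [h] at hspan
  let bas : Module.Basis b k (B → k) := Module.Basis.mk hli (by rw [Subtype.range_coe, hspan])
  have hfin : Finite b := Module.Finite.finite_basis bas
  have := Fintype.ofFinite b
  have hcard : Fintype.card B = Fintype.card b := by
    rw [← Module.finrank_eq_card_basis bas, Module.finrank_fintype_fun_eq_card]
  obtain ⟨e⟩ : Nonempty (B ≃ b) := Fintype.card_eq.1 hcard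
  have h1 : ∀ x : b, ∃ j, v j = x := fun x => hb x.2
  choose g hg using h1
  refine ⟨fun x => g (e x), ?_⟩
  have h2 : v ∘ (fun x => g (e x)) = (fun x : b => (x : B → k)) ∘ e := by
    funext x
    exact hg (e x)
  rw [h2]
  exact hli.comp e e.injective

section

variable {n : ℕ} {κ Λ : Type}

/-- the matrix whose columns are the products of the equations with monomials -/
noncomputable def mat (a : Fin (n + 1) → ℤ) (G : Λ → MvPolynomial (Fin (n + 1)) (MvPolynomial κ ℤ))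
    (D : ℕ) (f : BD a D → Λ × (Fin (n + 1) →₀ ℕ)) : Matrix (BD a D) (BD a D) (MvPolynomial κ ℤ) :=
  Matrix.of fun μ μ' => coeff (μ : Fin (n + 1) →₀ ℕ) (monomial (f μ').2 1 * G (f μ').1)

theorem mat_map {k : Type} [Field k] (c : κ → k) (a : Fin (n + 1) → ℤ)
    (G : Λ → MvPolynomial (Fin (n + 1)) (MvPolynomial κ ℤ))
    (D : ℕ) (f : BD a D → Λ × (Fin (n + 1) →₀ ℕ)) (μ μ' : BD a D) :
    (aeval c : MvPolynomial κ ℤ →ₐ[ℤ] k) (mat a G D f μ μ') =
      coeff (μ : Fin (n + 1) →₀ ℕ) (monomial (f μ').2 1 *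
        MvPolynomial.map (aeval c : MvPolynomial κ ℤ →ₐ[ℤ] k).toRingHom (G (f μ').1)) := by
  have h1 : (monomial (f μ').2 (1 : k) *
      MvPolynomial.map (aeval c : MvPolynomial κ ℤ →ₐ[ℤ] k).toRingHom (G (f μ').1)) =
      MvPolynomial.map (aeval c : MvPolynomial κ ℤ →ₐ[ℤ] k).toRingHom
        (monomial (f μ').2 1 * G (f μ').1) := by
    rw [RingHom.map_mul, MvPolynomial.map_monomial, RingHom.map_one]
  rw [h1, MvPolynomial.coeff_map]
  rfl

/-- all monomials of the product of a monomial and a bihomogeneous form have the same degree and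
weight -/
theorem supp_mul {k : Type} [Field k] {a : Fin (n + 1) → ℤ} {g : MvPolynomial (Fin (n + 1)) k}
    {d : ℕ} {w : ℤ} (hg : ∀ α ∈ g.support, dg α = d ∧ wt a α = w) (ν : Fin (n + 1) →₀ ℕ)
    {μ : Fin (n + 1) →₀ ℕ} (hμ : μ ∈ (monomial ν (1 : k) * g).support) :
    dg μ = dg ν + d ∧ wt a μ = wt a ν + w := by
  classical
  have h1 := MvPolynomial.support_mul _ _ hμ
  obtain ⟨ν', hν', α, hα, rfl⟩ := Finset.mem_add.1 h1
  have h2 : ν' = ν := by
    have h3 := MvPolynomial.support_monomial_subset hν'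
    rwa [Finset.mem_singleton] at h3
  subst h2
  obtain ⟨h4, h5⟩ := hg α hα
  rw [dg_add, wt_add, h4, h5]
  exact ⟨rfl, rfl⟩

theorem det_zero {k : Type} [Field k] {c : κ → k} {a : Fin (n + 1) → ℤ}
    {G : Λ → MvPolynomial (Fin (n + 1)) (MvPolynomial κ ℤ)} {d : Λ → ℕ} {w : Λ → ℤ}
    (hG : ∀ l, ∀ α ∈ (G l).support, dg α = d l ∧ wt a α = w l) {x : Fin (n + 1) → k}
    (hx : ∀ l, eval x (MvPolynomial.map (aeval c : MvPolynomial κ ℤ →ₐ[ℤ] k).toRingHom (G l)) = 0)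
    {D : ℕ} {μ0 : Fin (n + 1) →₀ ℕ} (hμ0 : μ0 ∈ BD a D) (hx0 : ∏ i, x i ^ μ0 i ≠ 0)
    (f : BD a D → Λ × (Fin (n + 1) →₀ ℕ)) :
    (aeval c : MvPolynomial κ ℤ →ₐ[ℤ] k) (mat a G D f).det = 0 := by
  classical
  rw [AlgHom.map_det]
  rw [← Matrix.exists_vecMul_eq_zero_iff]
  refine ⟨fun μ => ∏ i, x i ^ (μ : Fin (n + 1) →₀ ℕ) i, fun h0 => hx0 (congrFun h0 ⟨μ0, hμ0⟩), ?_⟩
  funext μ'
  rw [Matrix.vecMul, dotProduct, Pi.zero_apply]
  obtain ⟨⟨l, ν⟩, hf⟩ : ∃ p, f μ' = p := ⟨_, rfl⟩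
  set g := MvPolynomial.map (aeval c : MvPolynomial κ ℤ →ₐ[ℤ] k).toRingHom (G l) with hg
  have hgs : ∀ α ∈ g.support, dg α = d l ∧ wt a α = w l := fun α hα =>
    hG l α (MvPolynomial.support_map_subset _ _ hα)
  have hterm : ∀ μ : BD a D, ((AlgHom.mapMatrix (aeval c : MvPolynomial κ ℤ →ₐ[ℤ] k))
      (mat a G D f)) μ μ' = coeff (μ : Fin (n + 1) →₀ ℕ) (monomial ν (1 : k) * g) := by
    intro μ
    rw [AlgHom.mapMatrix_apply, Matrix.map_apply, mat_map, hf]
  simp only [hterm]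
  rw [Finset.sum_coe_sort (BD a D)
    (fun μ => (∏ i, x i ^ μ i) * coeff μ (monomial ν (1 : k) * g))]
  by_cases hc : dg ν + d l = D ∧ wt a ν + w l = 0
  · have h1 : eval x (monomial ν (1 : k) * g) = 0 := by rw [map_mul, hx l, mul_zero]
    rw [MvPolynomial.eval_eq'] at h1
    rw [← h1]
    symm
    have h2 : ∀ μ ∈ (monomial ν (1 : k) * g).support, μ ∈ BD a D := by
      intro μ hμ
      obtain ⟨h3, h4⟩ := supp_mul hgs ν hμ
      rw [mem_BD, h3, h4]
      exact hc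
    rw [Finset.sum_subset h2]
    · exact Finset.sum_congr rfl fun μ _ => mul_comm _ _
    · intro μ _ hμ
      rw [MvPolynomial.notMem_support_iff.1 hμ, zero_mul]
  · apply Finset.sum_eq_zero
    intro μ hμ
    have h1 : μ ∉ (monomial ν (1 : k) * g).support := by
      intro h2
      obtain ⟨h3, h4⟩ := supp_mul hgs ν h2
      rw [mem_BD, h3, h4] at hμ
      exact hc hμ
    rw [MvPolynomial.notMem_support_iff.1 h1, mul_zero]

end

end Pool.Agent.T2H41.NA
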