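import Pool.Agent.T2H41.NA

/-!
Elimination: the converse.
-/

set_option autoImplicit false

open MvPolynomial

namespace Pool.Agent.T2H41.NA

variable {n : ℕ}

/-- a monomial of weight zero and large degree has a large negative part -/
theorem big_neg {a : Fin (n + 1) → ℤ} (ha : ∀ i, a i ≠ 0) {μ : Fin (n + 1) →₀ ℕ}
    (hwt : wt a μ = 0) {R : ℕ} (hdeg : 2 * (∑ i, (a i).natAbs) * R < dg μ) :
    ∃ i, a i < 0 ∧ R ≤ μ i := by
  by_contra hcon
  push Not at hcon
  have h1 : ∀ i, (μ i : ℤ) ≤ (μ i : ℤ) * a i + 2 * (((a i).natAbs * R : ℕ) : ℤ) := by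
    intro i
    have h0 := ha i
    rcases lt_or_gt_of_ne h0 with h | h
    · have h2 := hcon i h
      have h3 : (((a i).natAbs : ℕ) : ℤ) = - a i := by omega
      push_cast
      rw [← Int.natCast_natAbs, h3]
      have h4 : (μ i : ℤ) ≤ R := by exact_mod_cast h2.le
      have h5 : (0 : ℤ) ≤ (μ i : ℤ) := Nat.cast_nonneg _
      nlinarith
    · have h3 : (((a i).natAbs : ℕ) : ℤ) = a i := by omega
      push_cast
      rw [← Int.natCast_natAbs, h3]
      have h5 : (0 : ℤ) ≤ (μ i : ℤ) := Nat.cast_nonneg _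
      have h6 : (0 : ℤ) ≤ (R : ℤ) := Nat.cast_nonneg _
      nlinarith [mul_nonneg h5 (by linarith : (0 : ℤ) ≤ a i - 1), mul_nonneg h.le h6]
  have h2 := Finset.sum_le_sum fun i (_ : i ∈ Finset.univ) => h1 i
  rw [Finset.sum_add_distrib, ← Finset.mul_sum] at h2
  have h3 : ∑ i, (μ i : ℤ) * a i = 0 := hwt
  rw [h3, zero_add] at h2
  have h4 : ((dg μ : ℕ) : ℤ) ≤ ((2 * (∑ i, (a i).natAbs) * R : ℕ) : ℤ) := by
    have h5 : ((dg μ : ℕ) : ℤ) = ∑ i, (μ i : ℤ) := by
      unfold dg
      push_cast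
      rfl
    rw [h5]
    refine h2.trans (le_of_eq ?_)
    push_cast
    rw [← Finset.sum_mul]
    ring
  have h5 : dg μ ≤ 2 * (∑ i, (a i).natAbs) * R := by exact_mod_cast h4
  omega

theorem big_pos {a : Fin (n + 1) → ℤ} (ha : ∀ i, a i ≠ 0) {μ : Fin (n + 1) →₀ ℕ}
    (hwt : wt a μ = 0) {R : ℕ} (hdeg : 2 * (∑ i, (a i).natAbs) * R < dg μ) :
    ∃ i, 0 < a i ∧ R ≤ μ i := by
  obtain ⟨i, h1, h2⟩ := big_neg (a := fun i => - a i) (fun i => neg_ne_zero.2 (ha i)) (μ := μ) (by
    unfold wt at hwt ⊢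
    simp only [mul_neg, Finset.sum_neg_distrib, hwt, neg_zero]) (R := R) (by
    simpa only [Int.natAbs_neg] using hdeg)
  exact ⟨i, by linarith, h2⟩

variable {κ Λ : Type} {k : Type} [Field k]

/-- the column vectors of the ideal -/
theorem vec_mem {g : Λ → MvPolynomial (Fin (n + 1)) k} (S : Finset (Fin (n + 1) →₀ ℕ))
    {p : MvPolynomial (Fin (n + 1)) k} (hp : p ∈ Ideal.span (Set.range g)) :
    ∀ h : MvPolynomial (Fin (n + 1)) k, (fun μ : S => coeff (μ : Fin (n + 1) →₀ ℕ) (h * p)) ∈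
      Submodule.span k (Set.range fun q : Λ × (Fin (n + 1) →₀ ℕ) =>
        fun μ : S => coeff (μ : Fin (n + 1) →₀ ℕ) (monomial q.2 (1 : k) * g q.1)) := by
  classical
  induction hp using Submodule.span_induction with
  | mem x hx =>
    obtain ⟨l, rfl⟩ := hx
    intro h
    have h1 : h * g l = ∑ ν ∈ h.support, C (coeff ν h) * (monomial ν (1 : k) * g l) := by
      conv_lhs => rw [h.as_sum, Finset.sum_mul]
      refine Finset.sum_congr rfl fun ν _ => ?_
      rw [← mul_assoc, C_mul_monomial, mul_one]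
    have h2 : (fun μ : S => coeff (μ : Fin (n + 1) →₀ ℕ) (h * g l)) =
        ∑ ν ∈ h.support, coeff ν h • (fun μ : S => coeff (μ : Fin (n + 1) →₀ ℕ)
          (monomial ν (1 : k) * g l)) := by
      funext μ
      rw [h1, coeff_sum, Finset.sum_apply]
      refine Finset.sum_congr rfl fun ν _ => ?_
      rw [coeff_C_mul]
      rfl
    rw [h2]
    refine Submodule.sum_mem _ fun ν _ => Submodule.smul_mem _ _ ?_
    exact Submodule.subset_span ⟨(l, ν), rfl⟩
  | zero =>
    intro h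
    have h1 : (fun μ : S => coeff (μ : Fin (n + 1) →₀ ℕ) (h * (0 : MvPolynomial _ k))) = 0 := by
      funext μ
      rw [mul_zero, coeff_zero]
      rfl
    rw [h1]
    exact Submodule.zero_mem _
  | add x y _ _ hx hy =>
    intro h
    have h1 : (fun μ : S => coeff (μ : Fin (n + 1) →₀ ℕ) (h * (x + y))) =
        (fun μ : S => coeff (μ : Fin (n + 1) →₀ ℕ) (h * x)) +
        (fun μ : S => coeff (μ : Fin (n + 1) →₀ ℕ) (h * y)) := by
      funext μ
      rw [mul_add, coeff_add]
      rfl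
    rw [h1]
    exact Submodule.add_mem _ (hx h) (hy h)
  | smul r x _ hx =>
    intro h
    have h1 : (fun μ : S => coeff (μ : Fin (n + 1) →₀ ℕ) (h * (r • x))) =
        (fun μ : S => coeff (μ : Fin (n + 1) →₀ ℕ) ((h * r) * x)) := by
      funext μ
      rw [smul_eq_mul, mul_assoc]
    rw [h1]
    exact hx _

theorem det_ne [IsAlgClosed k] {c : κ → k} {a : Fin (n + 1) → ℤ} (ha : ∀ i, a i ≠ 0)
    {G : Λ → MvPolynomial (Fin (n + 1)) (MvPolynomial κ ℤ)}
    (hno : ∀ x : Fin (n + 1) → k, (∃ i, a i < 0 ∧ x i ≠ 0) → (∃ i, 0 < a i ∧ x i ≠ 0) →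
      ¬ ∀ l, eval x (MvPolynomial.map (aeval c : MvPolynomial κ ℤ →ₐ[ℤ] k).toRingHom (G l)) = 0) :
    ∃ D0 : ℕ, ∀ D, D0 ≤ D → ∃ f : BD a D → Λ × (Fin (n + 1) →₀ ℕ),
      (aeval c : MvPolynomial κ ℤ →ₐ[ℤ] k) (mat a G D f).det ≠ 0 := by
  classical
  set g : Λ → MvPolynomial (Fin (n + 1)) k := fun l =>
    MvPolynomial.map (aeval c : MvPolynomial κ ℤ →ₐ[ℤ] k).toRingHom (G l) with hg
  set I : Ideal (MvPolynomial (Fin (n + 1)) k) := Ideal.span (Set.range g) with hI
  have hrad : ∀ i j, ∃ R : ℕ, a i < 0 → 0 < a j → (X i * X j : MvPolynomial (Fin (n + 1)) k) ^ R ∈ I := by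
    intro i j
    by_cases hij : a i < 0 ∧ 0 < a j
    · have h1 : (X i * X j : MvPolynomial (Fin (n + 1)) k) ∈ I.radical := by
        rw [← MvPolynomial.vanishingIdeal_zeroLocus_eq_radical (K := k)]
        rw [MvPolynomial.mem_vanishingIdeal_iff]
        intro x hx
        rw [MvPolynomial.mem_zeroLocus_iff] at hx
        rw [map_mul, aeval_X, aeval_X]
        by_contra hne
        refine hno x ⟨i, hij.1, left_ne_zero_of_mul hne⟩ ⟨j, hij.2, right_ne_zero_of_mul hne⟩
          fun l => ?_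
        have h2 := hx (g l) (Ideal.subset_span ⟨l, rfl⟩)
        rw [MvPolynomial.aeval_eq_eval] at h2
        exact h2
      obtain ⟨R, hR⟩ := h1
      exact ⟨R, fun _ _ => hR⟩
    · exact ⟨0, fun h1 h2 => absurd ⟨h1, h2⟩ hij⟩
  choose R hR using hrad
  set R0 := ∑ i, ∑ j, R i j with hR0
  have hR' : ∀ i j, a i < 0 → 0 < a j → (X i * X j : MvPolynomial (Fin (n + 1)) k) ^ R0 ∈ I := by
    intro i j hi hj
    have h1 : R i j ≤ R0 := by
      refine le_trans ?_ (Finset.single_le_sum (f := fun i => ∑ j, R i j)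
        (fun _ _ => Nat.zero_le _) (Finset.mem_univ i))
      exact Finset.single_le_sum (f := fun j => R i j) (fun _ _ => Nat.zero_le _)
        (Finset.mem_univ j)
    obtain ⟨q, hq⟩ := Nat.exists_eq_add_of_le h1
    rw [hq, pow_add]
    exact I.mul_mem_right _ (hR i j hi hj)
  refine ⟨2 * (∑ i, (a i).natAbs) * R0 + 1, fun D hD => ?_⟩
  have hmon : ∀ μ ∈ BD a D, (monomial μ (1 : k)) ∈ I := by
    intro μ hμ
    obtain ⟨h1, h2⟩ := mem_BD.1 hμ
    obtain ⟨i, hi, hRi⟩ := big_neg ha h2 (R := R0) (by omega)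
    obtain ⟨j, hj, hRj⟩ := big_pos ha h2 (R := R0) (by omega)
    have hij : i ≠ j := by
      rintro rfl
      omega
    have hle : (Finsupp.single i R0 + Finsupp.single j R0 : Fin (n + 1) →₀ ℕ) ≤ μ := by
      intro l
      rw [Finsupp.add_apply, Finsupp.single_apply, Finsupp.single_apply]
      by_cases h3 : i = l
      · subst h3
        rw [if_pos rfl, if_neg hij.symm, add_zero]
        exact hRi
      · by_cases h4 : j = l
        · subst h4
          rw [if_neg h3, if_pos rfl, zero_add]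
          exact hRj
        · rw [if_neg h3, if_neg h4]
          exact Nat.zero_le _
    have h3 : (monomial μ (1 : k)) =
        monomial (μ - (Finsupp.single i R0 + Finsupp.single j R0)) 1 * (X i * X j) ^ R0 := by
      rw [mul_pow, X_pow_eq_monomial, X_pow_eq_monomial, monomial_mul, monomial_mul, mul_one,
        mul_one, tsub_add_cancel_of_le hle]
    rw [h3]
    exact I.mul_mem_left _ (hR' i j hi hj)
  have hspan : Submodule.span k (Set.range fun q : Λ × (Fin (n + 1) →₀ ℕ) =>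
      fun μ : BD a D => coeff (μ : Fin (n + 1) →₀ ℕ) (monomial q.2 (1 : k) * g q.1)) = ⊤ := by
    rw [eq_top_iff]
    intro u _
    have h1 : u = ∑ μ : BD a D, u μ • (fun μ' : BD a D => coeff (μ' : Fin (n + 1) →₀ ℕ)
        ((1 : MvPolynomial (Fin (n + 1)) k) * monomial (μ : Fin (n + 1) →₀ ℕ) (1 : k))) := by
      funext μ'
      rw [Finset.sum_apply, Finset.sum_eq_single μ']
      · simp
      · intro μ _ hne
        rw [one_mul, Pi.smul_apply, coeff_monomial, if_neg, smul_zero]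
        intro h
        exact hne (Subtype.ext h)
      · intro h
        exact absurd (Finset.mem_univ _) h
    rw [h1]
    refine Submodule.sum_mem _ fun μ _ => Submodule.smul_mem _ _ ?_
    exact vec_mem (BD a D) (hmon μ μ.2) 1
  obtain ⟨f, hf⟩ := exists_basis_fun _ hspan
  refine ⟨f, ?_⟩
  rw [AlgHom.map_det]
  have h1 : ((AlgHom.mapMatrix (aeval c : MvPolynomial κ ℤ →ₐ[ℤ] k)) (mat a G D f)).col =
      (fun q : Λ × (Fin (n + 1) →₀ ℕ) =>
      fun μ : BD a D => coeff (μ : Fin (n + 1) →₀ ℕ) (monomial q.2 (1 : k) * g q.1)) ∘ f := by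
    funext μ' μ
    rw [Matrix.col_apply, AlgHom.mapMatrix_apply, Matrix.map_apply, mat_map]
    rfl
  rw [← h1] at hf
  have h2 := Matrix.linearIndependent_cols_iff_isUnit.1 hf
  exact ((Matrix.isUnit_iff_isUnit_det _).1 h2).ne_zero

/-- the common zeros of a set of polynomials with integer coefficients -/
def Zer (Z : Set (MvPolynomial κ ℤ)) (k : Type) [Field k] (c : κ → k) : Prop :=
  ∀ P ∈ Z, (aeval c : MvPolynomial κ ℤ →ₐ[ℤ] k) P = 0

/-- **Elimination.** -/
theorem elim {a : Fin (n + 1) → ℤ} (ha : ∀ i, a i ≠ 0)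
    (G : Λ → MvPolynomial (Fin (n + 1)) (MvPolynomial κ ℤ)) {d : Λ → ℕ} {w : Λ → ℤ}
    (hG : ∀ l, ∀ α ∈ (G l).support, dg α = d l ∧ wt a α = w l) :
    ∃ Z : Set (MvPolynomial κ ℤ), ∀ (k : Type) [Field k] [IsAlgClosed k] (c : κ → k),
      (∃ x : Fin (n + 1) → k, (∃ i, a i < 0 ∧ x i ≠ 0) ∧ (∃ i, 0 < a i ∧ x i ≠ 0) ∧
        ∀ l, eval x (MvPolynomial.map (aeval c : MvPolynomial κ ℤ →ₐ[ℤ] k).toRingHom (G l)) = 0) ↔
      Zer Z k c := by
  classical
  -- a common multiple of the degrees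
  set L : ℕ := ∏ i, ∏ j, ((a i).natAbs + (a j).natAbs) with hL
  have hLpos : 0 < L := Finset.prod_pos fun i _ => Finset.prod_pos fun j _ => by
    have := Int.natAbs_pos.2 (ha i)
    omega
  by_cases hboth : (∃ i, a i < 0) ∧ (∃ i, 0 < a i)
  · refine ⟨{P | ∃ (m : ℕ) (f : BD a (L * (m + 1)) → Λ × (Fin (n + 1) →₀ ℕ)),
      P = (mat a G (L * (m + 1)) f).det}, fun k _ _ c => ⟨?_, ?_⟩⟩
    · rintro ⟨x, ⟨i, hi, hxi⟩, ⟨j, hj, hxj⟩, hx⟩ P ⟨m, f, rfl⟩
      have hdvd : ((a i).natAbs + (a j).natAbs) ∣ L :=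
        (Finset.dvd_prod_of_mem _ (Finset.mem_univ j)).trans
          (Finset.dvd_prod_of_mem (fun i => ∏ j, ((a i).natAbs + (a j).natAbs))
            (Finset.mem_univ i))
      obtain ⟨q, hq⟩ := hdvd
      have hij : i ≠ j := by
        rintro rfl
        omega
      refine det_zero (μ0 := Finsupp.single i ((a j).natAbs * (q * (m + 1))) +
        Finsupp.single j ((a i).natAbs * (q * (m + 1)))) hG hx ?_ ?_ f
      · rw [mem_BD, dg_add, wt_add]
        have h1 : ∀ (l : Fin (n + 1)) (r : ℕ), dg (Finsupp.single l r) = r := by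
          intro l r
          unfold dg
          rw [Finset.sum_eq_single l]
          · simp
          · intro b _ hb
            simp [Finsupp.single_apply, hb.symm]
          · intro h
            exact absurd (Finset.mem_univ _) h
        have h2 : ∀ (l : Fin (n + 1)) (r : ℕ), wt a (Finsupp.single l r) = r * a l := by
          intro l r
          unfold wt
          rw [Finset.sum_eq_single l]
          · simp
          · intro b _ hb
            simp [Finsupp.single_apply, hb.symm]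
          · intro h
            exact absurd (Finset.mem_univ _) h
        rw [h1, h1, h2, h2]
        constructor
        · rw [hq]
          ring
        · have h3 : (((a i).natAbs : ℕ) : ℤ) = - a i := by omega
          have h4 : (((a j).natAbs : ℕ) : ℤ) = a j := by omega
          push_cast
          rw [← Int.natCast_natAbs, ← Int.natCast_natAbs, h3, h4]
          ring
      · rw [Finset.prod_eq_mul i j hij]
        · exact mul_ne_zero (pow_ne_zero _ hxi) (pow_ne_zero _ hxj)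
        · rintro l - ⟨hl1, hl2⟩
          simp [Finsupp.single_apply, hl1.symm, hl2.symm]
        · intro h
          exact absurd (Finset.mem_univ _) h
        · intro h
          exact absurd (Finset.mem_univ _) h
    · intro hZ
      by_contra hcon
      obtain ⟨D0, hD0⟩ := det_ne (c := c) ha (G := G) fun x h1 h2 h3 => hcon ⟨x, h1, h2, h3⟩
      have hle : D0 ≤ L * (D0 + 1) := by
        calc D0 ≤ 1 * (D0 + 1) := by omega
          _ ≤ L * (D0 + 1) := Nat.mul_le_mul_right _ hLpos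
      obtain ⟨f, hf⟩ := hD0 (L * (D0 + 1)) hle
      exact hf (hZ _ ⟨D0, f, rfl⟩)
  · refine ⟨{1}, fun k _ _ c => ⟨?_, ?_⟩⟩
    · rintro ⟨x, ⟨i, hi, -⟩, ⟨j, hj, -⟩, -⟩
      exact absurd ⟨⟨i, hi⟩, ⟨j, hj⟩⟩ hboth
    · intro hZ
      have h1 := hZ 1 (Set.mem_singleton _)
      rw [map_one] at h1
      exact absurd h1 one_ne_zero

/-- finite unions of closed sets are closed -/
theorem zer_union {τ : Type} [Fintype τ] (Z : τ → Set (MvPolynomial κ ℤ)) :
    ∃ Z' : Set (MvPolynomial κ ℤ), ∀ (k : Type) [Field k] (c : κ → k),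
      (∃ t, Zer (Z t) k c) ↔ Zer Z' k c := by
  classical
  refine ⟨{P | ∃ p : τ → MvPolynomial κ ℤ, (∀ t, p t ∈ Z t) ∧ P = ∏ t, p t},
    fun k _ c => ⟨?_, ?_⟩⟩
  · rintro ⟨t, ht⟩ P ⟨p, hp, rfl⟩
    rw [map_prod]
    exact Finset.prod_eq_zero (Finset.mem_univ t) (ht _ (hp t))
  · intro h
    by_contra hcon
    push Not at hcon
    have h1 : ∀ t, ∃ p ∈ Z t, (aeval c : MvPolynomial κ ℤ →ₐ[ℤ] k) p ≠ 0 := by
      intro t
      have h2 := hcon t
      unfold Zer at h2
      push Not at h2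
      exact h2
    choose p hp hp0 using h1
    have h2 := h _ ⟨p, hp, rfl⟩
    rw [map_prod] at h2
    exact (Finset.prod_ne_zero_iff.2 fun t _ => hp0 t) h2

end Pool.Agent.T2H41.NA
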