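import Pool.Agent.T2H41.NB
import Pool.Agent.T2H41.LC

/-!
The hyperbolic members of a family of few-monomial subvarieties of toric varieties form a Zariski open
set which is defined over the rational numbers.
-/

set_option autoImplicit false

open FF Pool.Agent.W602.GT Pool.Agent.W603.CX Pool.Agent.H159R3
open Pool.Agent.W603.LV Pool.Agent.W603.PV
open Pool.Agent.R869.Wd (NoRationalCurves PicardHyperbolic)
open Pool.Agent.Y190.PH (Brody)
open Pool.Agent.T2H41.LA

namespace Pool.Agent.T2H41.NA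

/-- the form number `e` with the exponents in `T e` and the coefficients `c (e, α)` -/
noncomputable def Fc {k : Type} [Field k] {n : ℕ} {ι : Type}
    (T : ι → Finset (Fin (n + 1) →₀ ℕ)) (c : ι × (Fin (n + 1) →₀ ℕ) → k) (e : ι) :
    MvPolynomial (Fin (n + 1)) k :=
  ∑ α ∈ T e, MvPolynomial.monomial α (c (e, α))

section

variable {k : Type} [Field k] {n : ℕ} {ι : Type} (T : ι → Finset (Fin (n + 1) →₀ ℕ))
  (c : ι × (Fin (n + 1) →₀ ℕ) → k)

theorem coeff_mem {e : ι} {α : Fin (n + 1) →₀ ℕ} (h : α ∈ T e) : (Fc T c e).coeff α = c (e, α) := by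
  classical
  unfold Fc
  rw [MvPolynomial.coeff_sum, Finset.sum_eq_single α]
  · rw [MvPolynomial.coeff_monomial, if_pos rfl]
  · intro β _ hβ
    rw [MvPolynomial.coeff_monomial, if_neg hβ]
  · intro h1
    exact absurd h h1

theorem coeff_not {e : ι} {α : Fin (n + 1) →₀ ℕ} (h : α ∉ T e) : (Fc T c e).coeff α = 0 := by
  classical
  unfold Fc
  rw [MvPolynomial.coeff_sum]
  apply Finset.sum_eq_zero
  intro β hβ
  rw [MvPolynomial.coeff_monomial, if_neg]
  rintro rfl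
  exact h hβ

theorem Fc_supp (e : ι) : (Fc T c e).support ⊆ T e := by
  intro α hα
  rw [MvPolynomial.mem_support_iff] at hα
  by_contra h
  exact hα (coeff_not T c h)

/-- the sum of the terms of weight `v` -/
def clsum (b : Fin (n + 1) → ℤ) (x : Fin (n + 1) → k) (e : ι) (v : ℤ) : k :=
  ∑ α ∈ T e with wt b α = v, c (e, α) * ∏ i, x i ^ α i

theorem val_wc_Fc (b : Fin (n + 1) → ℤ) (x : Fin (n + 1) → k) (e : ι) (v : ℤ) :
    val x (wc b v (Fc T c e)) = clsum T c b x e v := by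
  classical
  rw [val_wc]
  unfold clsum
  have h := Finset.sum_subset
    (s₁ := (Fc T c e).support.filter fun α => ∑ j, (α j : ℤ) * b j = v)
    (s₂ := (T e).filter fun α => wt b α = v) (f := fun α => c (e, α) * ∏ i, x i ^ α i)
    (fun α hα => by
      rw [Finset.mem_filter] at hα ⊢
      exact ⟨Fc_supp T c e hα.1, hα.2⟩)
    (fun α hα h1 => by
      rw [Finset.mem_filter] at hα h1
      have h2 : (Fc T c e).coeff α = 0 := by
        by_contra h3
        exact h1 ⟨MvPolynomial.mem_support_iff.2 h3, hα.2⟩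
      rw [coeff_mem T c hα.1] at h2
      rw [h2, zero_mul])
  rw [← h]
  refine Finset.sum_congr rfl fun α hα => ?_
  rw [coeff_mem T c (Fc_supp T c e (Finset.mem_filter.1 hα).1)]
  rfl

/-- there is a one-dimensional orbit of the one-parameter group with the weights `b` -/
def OrbB (b : Fin (n + 1) → ℤ) : Prop :=
  ∃ x : Fin (n + 1) → k, (∃ i j, x i ≠ 0 ∧ x j ≠ 0 ∧ b i ≠ b j) ∧ ∀ e v, clsum T c b x e v = 0

theorem orb_iff [Infinite k] : (∃ b, OrbB T c b) ↔ ¬ OrbitsConstant (Fc T c) := by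
  constructor
  · rintro ⟨b, x, ⟨i, j, hi, hj, hb⟩, h⟩ hc
    refine hb (hc x b (fun t ht e => ?_) i j hi hj)
    have h1 := val_orbit (L := k) x b ht (Fc T c e) fun v => by
      rw [val_wc_Fc]
      exact h e v
    rw [val_eval'] at h1
    have h2 : (fun j => x j * t ^ b j) = fun j => t ^ b j * (algebraMap k k) (x j) := by
      funext j
      exact mul_comm _ _
    first
      | exact h2 ▸ h1
      | (simpa only [mul_comm] using h1)
  · intro h
    unfold OrbitsConstant at h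
    push Not at h
    obtain ⟨x, b, hx, i, j, hi, hj, hb⟩ := h
    refine ⟨b, x, ⟨i, j, hi, hj, hb⟩, fun e v => ?_⟩
    rw [← val_wc_Fc]
    refine wc_of_orbit (fun t ht => ?_) v
    rw [val_eval']
    simpa only [mul_comm] using hx t ht e

/-- the combinatorial type of the weights -/
def typ (b : Fin (n + 1) → ℤ) : Set ((Fin (n + 1) × Fin (n + 1)) ⊕ (Σ e : ι, T e × T e)) :=
  {p | match p with
    | Sum.inl q => b q.1 = b q.2
    | Sum.inr q => wt b (q.2.1 : Fin (n + 1) →₀ ℕ) = wt b (q.2.2 : Fin (n + 1) →₀ ℕ)}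

theorem orb_congr {b b' : Fin (n + 1) → ℤ} (h : typ T b = typ T b') (ho : OrbB T c b) :
    OrbB T c b' := by
  classical
  obtain ⟨x, ⟨i, j, hi, hj, hb⟩, hx⟩ := ho
  have hl : ∀ i j, b i = b j ↔ b' i = b' j := by
    intro i j
    have h1 : (Sum.inl (i, j) : (Fin (n + 1) × Fin (n + 1)) ⊕ (Σ e : ι, T e × T e)) ∈ typ T b ↔
        Sum.inl (i, j) ∈ typ T b' := by rw [h]
    exact h1
  have hr : ∀ e (α β : T e), wt b (α : Fin (n + 1) →₀ ℕ) = wt b (β : Fin (n + 1) →₀ ℕ) ↔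
      wt b' (α : Fin (n + 1) →₀ ℕ) = wt b' (β : Fin (n + 1) →₀ ℕ) := by
    intro e α β
    have h1 : (Sum.inr ⟨e, (α, β)⟩ : (Fin (n + 1) × Fin (n + 1)) ⊕ (Σ e : ι, T e × T e)) ∈
        typ T b ↔ Sum.inr ⟨e, (α, β)⟩ ∈ typ T b' := by rw [h]
    exact h1
  refine ⟨x, ⟨i, j, hi, hj, fun h1 => hb ((hl i j).2 h1)⟩, fun e v => ?_⟩
  by_cases hex : ∃ α ∈ T e, wt b' α = v
  · obtain ⟨α0, hα0, rfl⟩ := hex
    rw [← hx e (wt b α0)]
    unfold clsum
    refine Finset.sum_congr ?_ fun _ _ => rfl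
    ext α
    rw [Finset.mem_filter, Finset.mem_filter]
    constructor
    · rintro ⟨h1, h2⟩
      exact ⟨h1, (hr e ⟨α, h1⟩ ⟨α0, hα0⟩).2 h2⟩
    · rintro ⟨h1, h2⟩
      exact ⟨h1, (hr e ⟨α, h1⟩ ⟨α0, hα0⟩).1 h2⟩
  · push Not at hex
    unfold clsum
    apply Finset.sum_eq_zero
    intro α hα
    rw [Finset.mem_filter] at hα
    exact absurd hα.2 (hex α hα.1)

end

variable {n : ℕ} {ι : Type}

/-- the weights of one parameter group -/
theorem orbB_closed (T : ι → Finset (Fin (n + 1) →₀ ℕ)) (hT : ∀ e, ∃ d, ∀ α ∈ T e, dg α = d)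
    (b : Fin (n + 1) → ℤ) : ∃ Z : Set (MvPolynomial (ι × (Fin (n + 1) →₀ ℕ)) ℤ),
      ∀ (k : Type) [Field k] [IsAlgClosed k] (c : ι × (Fin (n + 1) →₀ ℕ) → k),
        OrbB T c b ↔ Zer Z k c := by
  classical
  choose d hd using hT
  let G : ι × ℤ → MvPolynomial (Fin (n + 1)) (MvPolynomial (ι × (Fin (n + 1) →₀ ℕ)) ℤ) :=
    fun p => ∑ α ∈ T p.1 with wt b α = p.2, MvPolynomial.monomial α (MvPolynomial.X (p.1, α))
  have hGs : ∀ p, ∀ α ∈ (G p).support, α ∈ T p.1 ∧ wt b α = p.2 := by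
    intro p α hα
    by_contra hcon
    rw [MvPolynomial.mem_support_iff] at hα
    apply hα
    simp only [G]
    rw [MvPolynomial.coeff_sum]
    apply Finset.sum_eq_zero
    intro β hβ
    rw [MvPolynomial.coeff_monomial, if_neg]
    rintro rfl
    exact hcon (Finset.mem_filter.1 hβ)
  have hGv : ∀ (k : Type) [Field k] (c : ι × (Fin (n + 1) →₀ ℕ) → k) (x : Fin (n + 1) → k) p,
      MvPolynomial.eval x (MvPolynomial.map
        (MvPolynomial.aeval c : MvPolynomial _ ℤ →ₐ[ℤ] k).toRingHom (G p)) =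
        clsum T c b x p.1 p.2 := by
    intro k _ c x p
    simp only [G]
    unfold clsum
    rw [map_sum, map_sum]
    refine Finset.sum_congr rfl fun α _ => ?_
    rw [MvPolynomial.map_monomial, MvPolynomial.eval_monomial,
      Finsupp.prod_fintype _ _ (fun i => pow_zero _)]
    congr 1
    exact MvPolynomial.aeval_X _ _
  have hZ : ∀ i0 : Fin (n + 1), ∃ Z : Set (MvPolynomial (ι × (Fin (n + 1) →₀ ℕ)) ℤ),
      ∀ (k : Type) [Field k] [IsAlgClosed k] (c : ι × (Fin (n + 1) →₀ ℕ) → k),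
        (∃ x : Fin (n + 1) → k, (∃ i, 2 * b i - 2 * b i0 - 1 < 0 ∧ x i ≠ 0) ∧
          (∃ i, 0 < 2 * b i - 2 * b i0 - 1 ∧ x i ≠ 0) ∧ ∀ e v, clsum T c b x e v = 0) ↔
        Zer Z k c := by
    intro i0
    obtain ⟨Z, hZ⟩ := elim (a := fun i => 2 * b i - 2 * b i0 - 1) (fun i => by omega) G
      (d := fun p => d p.1) (w := fun p => 2 * p.2 - (2 * b i0 + 1) * d p.1) (fun p α hα => by
        obtain ⟨h1, h2⟩ := hGs p α hα
        have h3 := hd p.1 α h1
        refine ⟨h3, ?_⟩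
        rw [← h2, ← h3]
        unfold wt dg
        push_cast
        rw [Finset.mul_sum, Finset.mul_sum, ← Finset.sum_sub_distrib]
        exact Finset.sum_congr rfl fun i _ => by ring)
    refine ⟨Z, fun k _ _ c => ?_⟩
    rw [← hZ k c]
    refine exists_congr fun x => and_congr_right fun _ => and_congr_right fun _ => ?_
    constructor
    · intro h p
      rw [hGv]
      exact h p.1 p.2
    · intro h e v
      have h1 := h (e, v)
      rwa [hGv] at h1
  choose Z hZ using hZ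
  obtain ⟨Z', hZ'⟩ := zer_union Z
  refine ⟨Z', fun k _ _ c => ?_⟩
  rw [← hZ' k c]
  constructor
  · rintro ⟨x, ⟨i, j, hi, hj, hb⟩, hx⟩
    rcases lt_or_gt_of_ne hb with h | h
    · exact ⟨i, (hZ i k c).1 ⟨x, ⟨i, by omega, hi⟩, ⟨j, by omega, hj⟩, hx⟩⟩
    · exact ⟨j, (hZ j k c).1 ⟨x, ⟨j, by omega, hj⟩, ⟨i, by omega, hi⟩, hx⟩⟩
  · rintro ⟨i0, h⟩
    obtain ⟨x, ⟨i, hi, hxi⟩, ⟨j, hj, hxj⟩, hx⟩ := (hZ i0 k c).2 h
    exact ⟨x, ⟨i, j, hxi, hxj, by omega⟩, hx⟩

/-- **The members with orbits form a closed set defined over the integers.** -/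
theorem orb_closed [Finite ι] (T : ι → Finset (Fin (n + 1) →₀ ℕ))
    (hT : ∀ e, ∃ d, ∀ α ∈ T e, dg α = d) :
    ∃ Z : Set (MvPolynomial (ι × (Fin (n + 1) →₀ ℕ)) ℤ),
      ∀ (k : Type) [Field k] [IsAlgClosed k] (c : ι × (Fin (n + 1) →₀ ℕ) → k),
        (∃ b, OrbB T c b) ↔ Zer Z k c := by
  classical
  choose Z hZ using orbB_closed T hT
  have hfin : Finite (Set.range (typ T)) := inferInstance
  have := Fintype.ofFinite (Set.range (typ T))
  choose bt hbt using fun t : Set.range (typ T) => t.2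
  obtain ⟨Z', hZ'⟩ := zer_union (fun t : Set.range (typ T) => Z (bt t))
  refine ⟨Z', fun k _ _ c => ?_⟩
  rw [← hZ' k c]
  constructor
  · rintro ⟨b, hb⟩
    refine ⟨⟨typ T b, b, rfl⟩, (hZ _ k c).1 ?_⟩
    exact orb_congr T c (hbt ⟨typ T b, b, rfl⟩).symm hb
  · rintro ⟨t, ht⟩
    exact ⟨bt t, (hZ _ k c).2 ht⟩

theorem aeval_comp {κ : Type} {k k' : Type} [Field k] [Field k'] (φ : k →+* k') (c : κ → k)
    (P : MvPolynomial κ ℤ) : (MvPolynomial.aeval (fun i => φ (c i)) : MvPolynomial κ ℤ →ₐ[ℤ] k') P =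
      φ ((MvPolynomial.aeval c : MvPolynomial κ ℤ →ₐ[ℤ] k) P) := by
  have h : (MvPolynomial.aeval (fun i => φ (c i)) : MvPolynomial κ ℤ →ₐ[ℤ] k').toRingHom =
      φ.comp (MvPolynomial.aeval c : MvPolynomial κ ℤ →ₐ[ℤ] k).toRingHom := by
    apply MvPolynomial.ringHom_ext
    · intro r
      simp
    · intro i
      simp
  exact congrArg (fun f : MvPolynomial κ ℤ →+* k' => f P) h

end Pool.Agent.T2H41.NA
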