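import Pool.Agent.T2H41.NC

/-!
Zariski openness of hyperbolicity in the families of few-monomial subvarieties of toric varieties.
-/

set_option autoImplicit false

open FF Pool.Agent.W602.GT Pool.Agent.W603.CX Pool.Agent.H159R3
open Pool.Agent.W603.LV Pool.Agent.W603.PV
open Pool.Agent.R869.Wd (NoRationalCurves PicardHyperbolic)
open Pool.Agent.Y190.PH (Brody)
open Pool.Agent.T2H41.LA

namespace Pool.Agent.T2H41.NA

/-- For each `e` the exponent vectors in `T e` have the same degree, and `T e` has at most two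
elements, or it has at most `s` elements, and their entries are divisible by some `N' ≥ N`. -/
def Supports {n : ℕ} {ι : Type} (s N : ℕ) (T : ι → Finset (Fin (n + 1) →₀ ℕ)) : Prop :=
  ∀ e, (∃ d : ℕ, ∀ α ∈ T e, ∑ j, α j = d) ∧
    ((T e).card ≤ 2 ∨ (T e).card ≤ s ∧ ∃ N' : ℕ, N ≤ N' ∧ ∀ α ∈ T e, ∀ j, N' ∣ α j)

variable {n : ℕ} {ι : Type} {T : ι → Finset (Fin (n + 1) →₀ ℕ)} {s N : ℕ}

theorem Fc_form {k : Type} [Field k] (hT : Supports s N T) (c : ι × (Fin (n + 1) →₀ ℕ) → k)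
    (e : ι) : IsForm (Fc T c e) := by
  classical
  obtain ⟨d, hd⟩ := (hT e).1
  refine ⟨d, MvPolynomial.IsHomogeneous.sum _ _ _ fun α hα => ?_⟩
  apply MvPolynomial.isHomogeneous_monomial
  rw [Finsupp.degree_eq_sum]
  exact hd α hα

theorem Fc_high {k : Type} [Field k] (hs : 2 ≤ s) (hT : Supports s N T)
    (c : ι × (Fin (n + 1) →₀ ℕ) → k) : HighT s N (Fc T c) := by
  refine Or.inr ⟨hs, fun e => ⟨Fc_form hT c e, ?_⟩⟩
  have hsub := Fc_supp T c e
  rcases (hT e).2 with h | ⟨h, N', hN', hd⟩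
  · exact Or.inl ((Finset.card_le_card hsub).trans h)
  · exact Or.inr ⟨Fc_form hT c e, (Finset.card_le_card hsub).trans h, N', hN',
      fun α hα j _ => hd α (hsub hα) j⟩

theorem open_main [Finite ι] (hs : 2 ≤ s) (hN1 : 1 ≤ N) (hsq : (s - 1) ^ 2 ≤ N)
    (hT : Supports s N T) :
    ∃ (A : ℕ) (Z : Set (MvPolynomial (ι × (Fin (n + 1) →₀ ℕ)) ℤ)),
      (∀ (k : Type) [Field k] [IsAlgClosed k] (c : ι × (Fin (n + 1) →₀ ℕ) → k),
        OrbitsConstant (Fc T c) ↔ ∃ P ∈ Z, (MvPolynomial.aeval c : _ →ₐ[ℤ] k) P ≠ 0) ∧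
      (∀ (k : Type) [Field k] [IsAlgClosed k] [CharZero k] (c : ι × (Fin (n + 1) →₀ ℕ) → k),
        [∃ P ∈ Z, (MvPolynomial.aeval c : _ →ₐ[ℤ] k) P ≠ 0, AlgHyperbolic A (Fc T c),
          BoundedOnCurves (Fc T c), NoRationalCurves (Fc T c),
          ∀ P, ¬ GmCurve (Fc T c) P].TFAE ∧
        ∀ m, 1 ≤ m → DimLe ∅ (Fc T c) m → m * ((s + 1) * ((s - 1) * (s - 2) / 2)) ≤ N →
          (AllGeneralType (Fc T c) ↔ ∃ P ∈ Z, (MvPolynomial.aeval c : _ →ₐ[ℤ] k) P ≠ 0)) ∧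
      ∀ c : ι × (Fin (n + 1) →₀ ℕ) → ℂ,
        (Brody (Fc T c) ↔ ∃ P ∈ Z, (MvPolynomial.aeval c : _ →ₐ[ℤ] ℂ) P ≠ 0) ∧
        (PicardHyperbolic (Fc T c) ↔ ∃ P ∈ Z, (MvPolynomial.aeval c : _ →ₐ[ℤ] ℂ) P ≠ 0) ∧
        ∀ φ : ℂ →+* ℂ, Brody (Fc T (fun p => φ (c p))) ↔ Brody (Fc T c) := by
  classical
  obtain ⟨A, hA⟩ := groupless_tfae.{0, 0} T (fun e => by
    rcases (hT e).2 with hc | ⟨hc, N', hN', hd⟩
    · refine ⟨1, one_pos, ?_, fun α _ j => one_dvd _⟩
      calc ((T e).card - 1) ^ 2 ≤ 1 ^ 2 := Nat.pow_le_pow_left (by omega) 2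
        _ = 1 := by norm_num
    · refine ⟨N', lt_of_lt_of_le hN1 hN', ?_, hd⟩
      refine le_trans ?_ (le_trans hsq hN')
      exact Nat.pow_le_pow_left (by omega) 2)
  obtain ⟨Z, hZ⟩ := orb_closed T fun e => (hT e).1
  have hopen : ∀ (k : Type) [Field k] [IsAlgClosed k]
      (c : ι × (Fin (n + 1) →₀ ℕ) → k), OrbitsConstant (Fc T c) ↔
        ∃ P ∈ Z, (MvPolynomial.aeval c : _ →ₐ[ℤ] k) P ≠ 0 := by
    intro k _ _ c
    have hinf : Infinite k := inferInstance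
    have h1 := (hZ k c).symm.trans (orb_iff T c)
    unfold Zer at h1
    rw [← not_iff_not]
    push Not
    exact h1.symm
  have hfive : ∀ (k : Type) [Field k] [IsAlgClosed k] [CharZero k]
      (c : ι × (Fin (n + 1) →₀ ℕ) → k),
      [∃ P ∈ Z, (MvPolynomial.aeval c : _ →ₐ[ℤ] k) P ≠ 0, AlgHyperbolic A (Fc T c),
        BoundedOnCurves (Fc T c), NoRationalCurves (Fc T c),
        ∀ P, ¬ GmCurve (Fc T c) P].TFAE := by
    intro k _ _ _ c
    have h1 := hA k (Fc T c) (fun e => Fc_supp T c e) (fun e => Fc_form hT c e)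
    have h2 := hopen k c
    tfae_have 1 ↔ 2 := h2.symm.trans (h1.out 0 1)
    tfae_have 2 ↔ 3 := h1.out 1 2
    tfae_have 2 → 4 := fun h => rational_iffT.1 ⟨A, h⟩
    tfae_have 4 → 5 := rational_iffT.2
    tfae_have 5 → 1 := by
      intro h
      rw [← h2]
      intro x b hx j l hj hl
      by_contra hb
      have hd : DiagCurve ∅ (Fc T c) x b := by
        refine ⟨fun t ht => ⟨?_, fun j hj => absurd hj (Set.notMem_empty j), fun e => ?_⟩,
          j, l, hj, hl, hb⟩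
        · intro h0
          have h1 := congrFun h0 j
          exact mul_ne_zero (zpow_ne_zero _ ht) hj h1
        · rw [val_eval']
          simpa only [mul_comm] using hx t ht e
      obtain ⟨P, hP, -⟩ := gm_of_diag (fun e => Fc_form hT c e) hd
      exact h P hP
    tfae_finish
  refine ⟨A, Z, hopen, fun k _ _ _ c => ⟨hfive k c, fun m hm1 hm hN => ?_⟩, fun c => ?_⟩
  · have h : tn (s - 1) = (s - 1) * (s - 2) / 2 := by
      unfold tn
      rw [Fin.sum_univ_eq_sum_range (fun i => i), Finset.sum_range_id, Nat.sub_sub]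
    have hN' : m * ((s + 1) * tn (s - 1)) ≤ N := by rw [h]; exact hN
    rw [all_iffT (Fc_high hs hT c) hN1 hm hN']
    exact ((hfive k c).out 0 4).symm
  · have hb : ∀ c : ι × (Fin (n + 1) →₀ ℕ) → ℂ,
        (Brody (Fc T c) ↔ ∃ P ∈ Z, (MvPolynomial.aeval c : _ →ₐ[ℤ] ℂ) P ≠ 0) := by
      intro c
      have h5 : (∃ P ∈ Z, (MvPolynomial.aeval c : _ →ₐ[ℤ] ℂ) P ≠ 0) ↔
        ∀ P, ¬ GmCurve (Fc T c) P := (hfive ℂ c).out 0 4
      rw [h5]
      constructor
      · intro h1 P hP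
        exact (brody_iff_ec.1 h1) _ (entire_of_gm hP)
      · intro h1
        rw [brody_iff_ec]
        intro f hf
        obtain ⟨P, hP⟩ := gm_of_entireT (Fc_high hs hT c) hN1 hsq hf
        exact h1 P hP
    refine ⟨hb c, (picard_of (Fc_high hs hT c) hN1 hsq).trans (hb c), fun φ => ?_⟩
    rw [hb, hb]
    refine exists_congr fun P => and_congr_right fun _ => not_congr ?_
    rw [aeval_comp]
    exact map_eq_zero φ

end Pool.Agent.T2H41.NA
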