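import Pool.Agent.T2H41.MB
import Pool.Agent.Y221.CF.Core
import Pool.Agent.TH466.QT.Fin
import Pool.Agent.TH466.QT.Den

/-!
Subvarieties of toric varieties given by few monomials: the core fibration and special varieties.
-/

set_option autoImplicit false
set_option linter.overlappingInstances false
set_option linter.unusedSectionVars false

open FF IntermediateField Pool.Agent.W603.LV

namespace Pool.Agent.T2H41.LA

open Pool.Agent.W602.GT Pool.Agent.TH466.QG Pool.Agent.TH466.QT
open Pool.Agent.Y221.CF Pool.Agent.Y657.CF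
open Pool.Agent.Y221.AB (NB one_le_NB)
open Pool.Agent.W619.TW (TensorVanish IsUnirational)
open Pool.Agent.Y221.PB (nums)

variable {k : Type} [Field k] {K : Type} [Field K] [Algebra k K]

variable [CharZero k] [IsAlgClosed k] {n : ℕ} {ι : Type}

/-- the ratios of the members of the circuits among the monomials -/
theorem circ_const {s N : ℕ} {G : MvPolynomial (Fin (n + 1)) k}
    (hF : G.support.card ≤ 2 ∨ IsPowSparse ∅ s N G) {y : Fin (n + 1) → K} {m : ℕ}
    {em : Fin (m + 1) → JJ y G} (hem : Function.Injective em) {cc : Fin (m + 1) → k}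
    (hcc : ∀ j, cc j ≠ 0) (hrel : ∑ j, cc j • gg y G (em j) = 0)
    (hlin : LinearIndependent k (fun l => cc ((Fin.last m).succAbove l) •
      gg y G (em ((Fin.last m).succAbove l))))
    (a a' : Fin (m + 1)) :
    (∃ c : k, (cc a • gg y G (em a)) / (cc a' • gg y G (em a')) = algebraMap k K c) ∨
    (cc a • gg y G (em a)) / (cc a' • gg y G (em a')) ∈ cr k K s N := by
  classical
  rcases hF with h2 | hF
  · left
    have hJ : Fintype.card (JJ y G) ≤ 2 := (gg_card _ _).trans h2
    have hm : m ≤ 1 := by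
      have := Fintype.card_le_of_injective _ hem
      simp only [Fintype.card_fin] at this
      omega
    exact ratio_const (k := k) hm (fun l => cc l • gg y G (em l))
      (fun l => smul_ne_zero (hcc l) (gg_ne _)) hrel a a'
  · right
    obtain ⟨N', hN', hdvd⟩ := hF.2.2
    let U : Fin (m + 1) → K := fun j => ∏ l, y l ^ (ex (em j) l / N')
    have hUpow : ∀ j, U j ^ N' = ∏ l, y l ^ (ex (em j) l) := by
      intro j
      simp only [U]
      rw [← Finset.prod_pow]
      refine Finset.prod_congr rfl fun l _ => ?_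
      rw [← pow_mul]
      congr 1
      exact Nat.div_mul_cancel (hdvd _ (ex_mem (em j)) l (Set.notMem_empty l))
    let c' : Fin (m + 1) → k := fun j => cc j * G.coeff (ex (em j))
    have hval : ∀ j, c' j • U j ^ N' = cc j • gg y G (em j) := by
      intro j
      rw [hUpow, gg_eq, Algebra.smul_def, Algebra.smul_def, map_mul, mul_assoc]
    have hne : ∀ j, c' j • U j ^ N' ≠ 0 := by
      intro j
      rw [hval]
      exact smul_ne_zero (hcc j) (gg_ne _)
    have hU1 : ∀ j, U j ≠ 0 := by
      intro j h0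
      have h1 := hne j
      rcases Nat.eq_zero_or_pos N' with h2 | h2
      · have h4 : U j = 1 := by
          simp only [U]
          rw [h2]
          simp
        rw [h4] at h0
        exact one_ne_zero h0
      · apply h1
        rw [h0, zero_pow h2.ne', smul_zero]
    have hcirc : IsCirc k s N m N' U c' := by
      refine ⟨?_, hN', hU1, fun j h0 => hne j (by rw [h0, zero_smul]), ?_, ?_⟩
      · have h1 := Fintype.card_le_of_injective _ hem
        rw [Fintype.card_fin] at h1
        exact h1.trans ((gg_card _ _).trans hF.2.1)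
      · simp only [hval]
        exact hrel
      · simp only [hval]
        exact hlin
    refine ⟨m, N', U, c', a, a', hcirc, ?_⟩
    rw [hval, hval]

/-- Components with constant circuits are rational. -/
theorem rational_of_sparseT {F : ι → MvPolynomial (Fin (n + 1)) k} {s N w : ℕ}
    (hF : ToricSparse ∅ s N F) {y : Fin (n + 1) → K} (hy : SubVar F K w y)
    (hcomp : IsComponent F y) (hcr : ∀ x ∈ cr k K s N, ∃ c : k, algebraMap k K c = x) :
    ∃ t : Fin w → K, AlgebraicIndependent k t ∧ IntermediateField.adjoin k (Set.range t) = ⊤ := by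
  classical
  have hK : CharZero K := charZero_of_injective_algebraMap (algebraMap k K).injective
  have hy' : SubVarU ∅ F K w y := ⟨hy.ne, fun j hj => absurd hj (Set.notMem_empty j), hy.mem,
    hy.gen, hy.dim⟩
  have hcomp' : IsComponentU ∅ F y := by
    obtain ⟨H, hH, hH0, h⟩ := hcomp
    exact ⟨H, hH, hH0, fun x hx hxH => h x ⟨hx.1, hx.2.2⟩ hxH⟩
  obtain ⟨i0, σ, b, a, c, hT, -⟩ := tor_frame (fun e => (hF e).1) hy' hcomp' (by
    intro e C a a'
    rcases circ_const (hF e).2 C.he C.hc C.rel C.lin a a' with h | h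
    · exact h
    · obtain ⟨c0, hc0⟩ := hcr _ h
      exact ⟨c0, hc0.symm⟩)
  exact ⟨σ, hT.basis.1, hT.top⟩

/-- the sums over the classes of monomials with the same logarithmic derivative vanish -/
theorem clsT {s N : ℕ} {G : MvPolynomial (Fin (n + 1)) k}
    (hF : G.support.card ≤ 2 ∨ IsPowSparse ∅ s N G)
    {y : Fin (n + 1) → K} (hG0 : val y G = 0) (D : Derivation k K K)
    (hD : ∀ x ∈ cr k K s N, D x = 0) (j0 : JJ y G) (A : Finset (JJ y G))
    (hA : ∀ j, j ∈ A ↔ D (gg y G j0) / gg y G j0 = D (gg y G j) / gg y G j) :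
    ∑ j ∈ A, gg y G j = 0 := by
  classical
  have hRe : Equivalence (fun i j : JJ y G => D (gg y G i) / gg y G i = D (gg y G j) / gg y G j) :=
    ⟨fun _ => rfl, fun h => h.symm, fun h h' => h.trans h'⟩
  have key := class_sum (k := k) (gg y G)
    (fun i j : JJ y G => D (gg y G i) / gg y G i = D (gg y G j) / gg y G j) hRe
    (by
      intro m em hem cc hcc hrel hlin a a'
      have h0 : D ((cc a • gg y G (em a)) / (cc a' • gg y G (em a'))) = 0 := by
        rcases circ_const hF hem hcc hrel hlin a a' with ⟨c, h⟩ | h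
        · rw [h, D.map_algebraMap]
        · exact hD _ h
      have h1 := logd_of_div D (smul_ne_zero (hcc a) (gg_ne _)) (smul_ne_zero (hcc a') (gg_ne _)) h0
      rw [logd_smul D (hcc a), logd_smul D (hcc a')] at h1
      exact h1)
    (Finset.univ.filter fun j => (fun _ : JJ y G => (1 : k)) j ≠ 0).card (fun _ => 1) le_rfl
    (by simpa using gg_sum hG0) j0
  simp only [one_smul] at key
  rw [← key]
  exact Finset.sum_congr (by ext j; simp [hA]) (fun _ _ => rfl)

/-- the parts of weight `v` vanish -/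
theorem wc_zeroT {s N : ℕ} {G : MvPolynomial (Fin (n + 1)) k}
    (hF : G.support.card ≤ 2 ∨ IsPowSparse ∅ s N G)
    {y : Fin (n + 1) → K} (hG0 : val y G = 0) (D : Derivation k K K)
    (hD : ∀ x ∈ cr k K s N, D x = 0) {b : Fin (n + 1) → ℤ}
    (hb : ∀ r : Fin (n + 1) → ℤ, ∑ j, (r j : K) * (D (y j) / y j) = 0 → ∑ j, r j * b j = 0)
    (v : ℤ) : val y (wc b v G) = 0 := by
  classical
  rw [val_wc, Finset.sum_filter]
  have h1 := gg_weighted y G (fun α => if ∑ j, (α j : ℤ) * b j = v then 1 else 0)
  simp only [ite_mul, one_mul, zero_mul] at h1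
  have h2 : ∑ α ∈ G.support, (if ∑ j, (α j : ℤ) * b j = v then
      algebraMap k K (G.coeff α) * ∏ j, y j ^ α j else 0) =
      ∑ α ∈ G.support, (if ∑ j, (α j : ℤ) * b j = v then mon y G α else 0) := rfl
  rw [h2, h1]
  have h3 := weighted_sum
    (fun i j : JJ y G => D (gg y G i) / gg y G i = D (gg y G j) / gg y G j)
    ⟨fun _ => rfl, fun h => h.symm, fun h h' => h.trans h'⟩ (gg y G)
    (fun α => if ∑ j, ((ex α) j : ℤ) * b j = v then (1 : K) else 0) ?_
    (fun j0 A hA => clsT hF hG0 D hD j0 A hA)
  · simpa only [ite_mul, one_mul, zero_mul] using h3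
  · intro α β hαβ
    have hl : ∀ γ : JJ y G, D (gg y G γ) / gg y G γ = ∑ j, ((ex γ) j : K) * (D (y j) / y j) := by
      intro γ
      have h4 : gg y G γ ≠ 0 := gg_ne γ
      rw [gg_eq] at h4 ⊢
      rw [der_mon D h4, mul_div_cancel_left₀ _ h4]
    rw [hl, hl] at hαβ
    have h5 := hb (fun j => ((ex α) j : ℤ) - ((ex β) j : ℤ)) (by
      push_cast
      simp only [sub_mul, Finset.sum_sub_distrib]
      rw [hαβ, sub_self])
    simp only [sub_mul, Finset.sum_sub_distrib] at h5
    rw [sub_eq_zero.1 h5]

theorem spaT {F : ι → MvPolynomial (Fin (n + 1)) k} {s N w : ℕ} (hF : ToricSparse ∅ s N F)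
    {y : Fin (n + 1) → K} (hy : SubVar F K w y) (hcomp : IsComponent F y) (D : Derivation k K K)
    (hD : ∀ x ∈ cr k K s N, D x = 0) :
    ∃ (t : ℕ) (c : Fin t → K) (δ : Fin t → Derivation k K K),
      (∀ i, RulDer k (δ i)) ∧ ∀ x, D x = ∑ i, c i * δ i x := by
  classical
  have hK : CharZero K := charZero_of_injective_algebraMap (algebraMap k K).injective
  have hyU : SubVarU ∅ F K w y :=
    ⟨hy.ne, fun j hj => absurd hj (Set.notMem_empty j), hy.mem, hy.gen, hy.dim⟩
  have hcompU : IsComponentU ∅ F y := by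
    obtain ⟨H, hH, hHy, hcone⟩ := hcomp
    exact ⟨H, hH, hHy, fun x hx hxH => hcone x (mem_cone_empty hx) hxH⟩
  obtain ⟨j0, hj0⟩ := Function.ne_iff.1 hy.ne
  change y j0 ≠ 0 at hj0
  obtain ⟨t, c, b, hlam, hb⟩ := weights (fun j => D (y j) / y j)
  -- the partial derivations
  have hE : ∀ i : Fin t, ∃ E : Derivation k K K,
      E ∈ Submodule.span K {δ : Derivation k K K | RulDer k δ} ∧
      ∀ j, y j ≠ 0 → E (y j / y j0) = c i * ((b i j : K) - b i j0) * (y j / y j0) := by
    intro i
    by_cases hcon : ∃ j1, y j1 ≠ 0 ∧ b i j0 ≠ b i j1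
    · obtain ⟨j1, hj1, hne⟩ := hcon
      obtain ⟨δ, σ, g, b', hσ0, hσ, htop, -, hbg, hz⟩ := exists_delta hy.gen (b i) hj0 hj1 hne
        (fun G hG h0 v => ideal_hom hyU hcompU
          (fun e v => wc_zeroT (hF e).2 (hy.mem e) D hD (fun r hr => hb r hr i) v) G hG h0 v)
      refine ⟨(c i * (g : K)) • δ, Submodule.smul_mem _ _
        (Submodule.subset_span (rulDer_of hσ0 hσ htop)), fun j hj => ?_⟩
      obtain ⟨z, hz0, hδz, hjz⟩ := hz j hj
      have h1 : δ (y j / y j0) = (b' j : K) * (y j / y j0) := by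
        rw [hjz, δ.leibniz, hδz, smul_zero, add_zero, smul_eq_mul]
        have h2 : δ (σ ^ (b' j)) = (b' j : K) * σ ^ (b' j) := by
          rw [Derivation.leibniz_zpow, hσ, smul_eq_mul, zsmul_eq_mul]
          rw [← zpow_add_one₀ hσ0, sub_add_cancel]
        rw [h2]
        ring
      have h3 : ((b i j : K) - b i j0) = (g : K) * (b' j : K) := by
        have h4 := hbg j hj
        exact_mod_cast congrArg (fun x : ℤ => (x : K)) h4
      rw [Derivation.smul_apply, h1, h3, smul_eq_mul]
      ring
    · push Not at hcon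
      refine ⟨0, Submodule.zero_mem _, fun j hj => ?_⟩
      rw [hcon j hj, sub_self, mul_zero, zero_mul]
      rfl
  choose E hEs hEy using hE
  have hDE : D = ∑ i, E i := by
    have h1 : (⊤ : IntermediateField k K) ≤ consts (D - ∑ i, E i) := by
      have h2 : ∀ j, y j / y j0 ∈ consts (D - ∑ i, E i) := by
        intro j
        rw [mem_consts, Derivation.sub_apply]
        by_cases hj : y j = 0
        · rw [hj, zero_div, map_zero, map_zero, sub_zero]
        · have h3 : D (y j / y j0) = (D (y j) / y j - D (y j0) / y j0) * (y j / y j0) := by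
            have h4 : D (y j / y j0 * y j0) = (y j / y j0) • D (y j0) + y j0 • D (y j / y j0) :=
              D.leibniz _ _
            rw [div_mul_cancel₀ _ hj0, smul_eq_mul, smul_eq_mul] at h4
            rw [h4]
            field_simp
            ring
          have h5 : (∑ i, E i) (y j / y j0) = ∑ i, E i (y j / y j0) := by
            have h6 := map_sum (Derivation.coeFnAddMonoidHom (R := k) (A := K) (M := K)) E
              Finset.univ
            have h7 := congrFun h6 (y j / y j0)
            rw [Finset.sum_apply] at h7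
            exact h7
          rw [h3, h5]
          have h8 : D (y j) / y j = ∑ i, c i * (b i j : K) := hlam j
          have h9 : D (y j0) / y j0 = ∑ i, c i * (b i j0 : K) := hlam j0
          rw [h8, h9, ← Finset.sum_sub_distrib, Finset.sum_mul, ← Finset.sum_sub_distrib]
          refine Finset.sum_eq_zero fun i _ => ?_
          rw [hEy i j hj]
          ring
      rw [← hy.gen]
      unfold coords
      rw [IntermediateField.adjoin_le_iff]
      rintro _ ⟨i, j, hj, rfl⟩
      have h3 : y i / y j = (y i / y j0) / (y j / y j0) := by field_simp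
      rw [h3]
      exact div_mem (h2 i) (h2 j)
    apply Derivation.ext
    intro x
    have h2 : x ∈ consts (D - ∑ i, E i) := h1 IntermediateField.mem_top
    rw [mem_consts, Derivation.sub_apply] at h2
    exact sub_eq_zero.1 h2
  have hmem : D ∈ Submodule.span K {δ : Derivation k K K | RulDer k δ} := by
    rw [hDE]
    exact Submodule.sum_mem _ fun i _ => hEs i
  obtain ⟨m, f, g, hfg⟩ := (Submodule.mem_span_set').1 hmem
  refine ⟨m, f, fun i => (g i : Derivation k K K), fun i => (g i).2, fun x => ?_⟩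
  rw [← hfg]
  have h6 := map_sum (Derivation.coeFnAddMonoidHom (R := k) (A := K) (M := K))
    (fun i => f i • (g i : Derivation k K K)) Finset.univ
  have h7 := congrFun h6 x
  rw [Finset.sum_apply] at h7
  exact h7



section core

variable {F : ι → MvPolynomial (Fin (n + 1)) k} {s N w r : ℕ}

theorem coeff_memT {L : Type} [Field L] [Algebra k L] [Algebra L K] [IsScalarTower k L K]
    [FiniteDimensional L K] (hF : HighT s N F) (hN1 : 1 ≤ N) (hNB : NB r s ≤ N)
    {y : Fin (n + 1) → K} (hy : SubVar F K w y) (hcomp : IsComponent F y)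
    (hr : Module.finrank L K ≤ r) {x : K} (hx : x ∈ cr k K s N) (i : ℕ) :
    algebraMap L K ((minpoly L x).coeff i) ∈ E0 k K s N := by
  rw [mem_E0]
  refine alg_of_der _ fun D hD => ?_
  obtain ⟨t, c, δ, hδ, hDδ⟩ : ∃ (t : ℕ) (c : Fin t → K) (δ : Fin t → Derivation k K K),
      (∀ i, RulDer k (δ i)) ∧ ∀ x, D x = ∑ i, c i * δ i x := by
    rcases hF with h | ⟨-, h⟩
    · exact Pool.Agent.Y564.CF.war k n ι F s N h hN1 K w y hy hcomp D hD
    · exact spaT h hy hcomp D hD
  rw [hDδ]
  refine Finset.sum_eq_zero fun j _ => ?_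
  rw [hgt k K L s N r hr hNB x hx (δ j) (hδ j) i, mul_zero]

theorem rational_of_constT (hF : HighT s N F) (hN1 : 1 ≤ N) {y : Fin (n + 1) → K}
    (hy : SubVar F K w y) (hcomp : IsComponent F y)
    (hcr : ∀ x ∈ cr k K s N, ∃ c : k, algebraMap k K c = x) :
    ∃ t : Fin w → K, AlgebraicIndependent k t ∧ IntermediateField.adjoin k (Set.range t) = ⊤ := by
  rcases hF with hF | ⟨-, hF⟩
  · exact rational_of_linear hy hcomp (waring_const hF hN1 hy.mem hcr)
  · exact rational_of_sparseT hF hy hcomp hcr

/-- **The core fibration.** The number `b` depends only on the dominating component. -/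
theorem core_mainT (hF : HighT s N F) (hN1 : 1 ≤ N)
    (hNB : NB r s ≤ N) (hN : r * (w * ((s + 4) * ((s - 1) * (s - 2) / 2))) ≤ N)
    {K : Type} [Field K] [Algebra k K] {y : Fin (n + 1) → K} (hy : SubVar F K w y)
    (hcomp : IsComponent F y) (hcr : ¬ ∀ x ∈ cr k K s N, ∃ c : k, algebraMap k K c = x) :
      ∃ b : ℕ, 1 ≤ b ∧ b ≤ w ∧ ∀ (L : Type) [Field L] [Algebra k L] [Algebra L K]
        [IsScalarTower k L K] [FiniteDimensional L K], Module.finrank L K ≤ r →
        (∃ M : IntermediateField k L, GeneralType k M b) ∧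
        ¬ TensorVanish k L w ∧ ¬ Special k L w (fun _ => False) := by
  push Not at hcr
  obtain ⟨x, hx, hxc⟩ := hcr
  have hle := trdeg_le_of_injective (E0 k K s N).val (E0 k K s N).val.toRingHom.injective
  rw [hy.dim] at hle
  obtain ⟨b, hb⟩ := Cardinal.lt_aleph0.1 (hle.trans_lt Cardinal.natCast_lt_aleph0)
  have hb1 : 1 ≤ b := by
    rw [Nat.one_le_iff_ne_zero]
    rintro rfl
    rw [Nat.cast_zero, trdeg_eq_zero_iff] at hb
    have h1 : x ∈ E0 k K s N :=
      adjoin_le_E0 (IntermediateField.subset_adjoin k _ hx)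
    have h2 : IsAlgebraic k (⟨x, h1⟩ : E0 k K s N) := hb.isAlgebraic _
    obtain ⟨c, hc⟩ := const_of_alg h2
    exact hxc c (congrArg (fun z : E0 k K s N => (z : K)) hc)
  have hbw : b ≤ w := by
    rw [hb] at hle
    exact_mod_cast hle
  refine ⟨b, hb1, hbw, ?_⟩
  intro L _ _ _ _ _ hr
  have hL : Algebra.trdeg k L = w := by
    rw [← hy.dim]
    exact trdeg_alg.symm
  obtain ⟨-, M, hM⟩ := Pool.Agent.Y98.CF.sub k K L s N r w b hN1 hr hy.dim hb hb1 hN
    fun x hx i => coeff_memT hF hN1 hNB hy hcomp hr hx i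
  have hKe : Algebra.EssFiniteType k K := SubVar.ess hy
  have hLe : Algebra.EssFiniteType k L := ess_below (K := K)
  have hMe : Algebra.EssFiniteType k M := ess_inter M
  refine ⟨⟨M, hM⟩, ?_, not_special hL M hb1 hM⟩
  obtain ⟨htr, m, hm, ω, hω, hreg, D, hD0, -⟩ := hM
  exact not_vanish hL M htr hb1 hm (ω 0) (hω 0) (fun u hu => hreg u hu 0) D hD0

end core

end Pool.Agent.T2H41.LA
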