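import Pool.Agent.T2H41.PA
import Pool.Agent.W602.GT.SFin

/-!
Special subvarieties of toric varieties: unit points and entire curves, with boundary.
-/

set_option autoImplicit false
set_option linter.overlappingInstances false
set_option linter.unusedSectionVars false

open FF IntermediateField Pool.Agent.W603.LV

namespace Pool.Agent.T2H41.LA

open Pool.Agent.W602.GT

/-- The unit points of the quasi-projective variety `V = {x_j ≠ 0, j in U}` with the generic point `y`
are potentially dense: for some finitely generated group `Γ` of nonzero elements of `k` the points of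
`V` with homogeneous coordinates in `Γ`, or zero, are Zariski-dense. -/
def UnitsDense {n : ℕ} (U : Set (Fin (n + 1))) (k : Type) [Field k] {K : Type} [Field K]
    [Algebra k K] (y : Fin (n + 1) → K) : Prop :=
  ∃ T : Finset kˣ, ∀ G : MvPolynomial (Fin (n + 1)) k, IsForm G →
    (∀ z ∈ PtsU U k y, (∀ j, z j = 0 ∨ ∃ u ∈ Subgroup.closure (T : Set kˣ), z j = u) →
      val z G = 0) → val y G = 0

/-- Torus orbits: `y_j = c_j σ ^ (b_j)` for independent elements `σ_1, …, σ_w` which generate the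
function field; `V` is the closure of an orbit of a torus of dimension `w`. -/
def IsTorusOrbit {n : ℕ} (k : Type) [Field k] {K : Type} [Field K] [Algebra k K] (w : ℕ)
    (y : Fin (n + 1) → K) : Prop :=
  ∃ (i0 : Fin (n + 1)) (σ : Fin w → K) (b : Fin (n + 1) → Fin w → ℤ) (c : Fin (n + 1) → k),
    y i0 ≠ 0 ∧ AlgebraicIndependent k σ ∧ IntermediateField.adjoin k (Set.range σ) = ⊤ ∧
    ∀ j, y j ≠ 0 → y j / y i0 = algebraMap k K (c j) * ∏ l, σ l ^ b j l

variable {k : Type} [Field k] {K : Type} [Field K] [Algebra k K] {n : ℕ} {ι : Type}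

theorem isTorusOrbit_of {w : ℕ} {y : Fin (n + 1) → K} {i0 : Fin (n + 1)} {σ : Fin w → K}
    {b : Fin (n + 1) → Fin w → ℤ} {a : Fin w → Fin (n + 1) → ℤ} {c : Fin (n + 1) → k}
    (h : TorFrame k w y i0 σ b a c) : IsTorusOrbit k w y :=
  ⟨i0, σ, b, c, h.base, h.basis.1, h.top, fun j hj => (h.coord j hj).2⟩

theorem unitsDense_of [CharZero k] {U : Set (Fin (n + 1))} {w : ℕ} {y : Fin (n + 1) → K}
    {i0 : Fin (n + 1)} {σ : Fin w → K}
    {b : Fin (n + 1) → Fin w → ℤ} {a : Fin w → Fin (n + 1) → ℤ} {c : Fin (n + 1) → k}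
    (h : TorFrame k w y i0 σ b a c) (hyU : ∀ j ∈ U, y j ≠ 0) : UnitsDense U k y := by
  classical
  have hσ0 : ∀ l, σ l ≠ 0 := fun l => h.basis.1.ne_zero l
  let two : kˣ := Units.mk0 2 two_ne_zero
  let cu : Fin (n + 1) → kˣ := fun j => if hc : c j = 0 then 1 else Units.mk0 (c j) hc
  refine ⟨insert two (Finset.univ.image cu), fun G hG hz => ?_⟩
  let s : (Fin w → ℕ) → Fin w → k := fun m l => 2 ^ m l
  have hs : ∀ m l, s m l ≠ 0 := fun m l => pow_ne_zero _ two_ne_zero
  have hne : ∀ m j, y j ≠ 0 → tpt y b c (s m) j ≠ 0 := by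
    intro m j hj
    rw [tpt_on _ hj]
    refine mul_ne_zero ?_ (Finset.prod_ne_zero_iff.2 fun l _ => zpow_ne_zero _ (hs m l))
    rw [Ne, map_eq_zero]
    exact (h.coord j hj).1
  -- forms along the points
  have hkey : ∀ G : MvPolynomial (Fin (n + 1)) k, IsForm G →
      ∃ Q : MvPolynomial (Fin w) k, (val y G = 0 ↔ Q = 0) ∧
        ∀ z, val (tpt y b c (s z)) G = 0 ↔ MvPolynomial.aeval (s z) Q = 0 := by
    intro G hG
    obtain ⟨M, Q, hQ⟩ := tor_poly y b c G
    refine ⟨Q, ?_, fun z => ?_⟩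
    · rw [h.val_iff hG]
      have h1 := hQ K σ hσ0
      have h2 : (∏ l, σ l) ^ M ≠ 0 := pow_ne_zero _ (Finset.prod_ne_zero_iff.2 fun l _ => hσ0 l)
      constructor
      · intro h3
        rw [h3, mul_zero] at h1
        exact (injective_iff_map_eq_zero _).1 h.basis.1 Q h1.symm
      · intro h3
        rw [h3, map_zero] at h1
        exact (mul_eq_zero.1 h1).resolve_left h2
    · have h1 := hQ k (s z) (hs z)
      have h2 : (∏ l, s z l) ^ M ≠ 0 :=
        pow_ne_zero _ (Finset.prod_ne_zero_iff.2 fun l _ => hs z l)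
      rw [← h1]
      constructor
      · intro h3
        rw [h3, mul_zero]
      · intro h3
        exact (mul_eq_zero.1 h3).resolve_left h2
  obtain ⟨Q, hQ1, hQ2⟩ := hkey G hG
  rw [hQ1]
  have hinf : (Set.range fun m : ℕ => (2 : k) ^ m).Infinite := by
    apply Set.infinite_range_of_injective
    intro a b hab
    have h1 : ((2 ^ a : ℕ) : k) = ((2 ^ b : ℕ) : k) := by
      push_cast
      exact hab
    exact Nat.pow_right_injective (le_refl 2) (Nat.cast_injective h1)
  refine MvPolynomial.funext_set (fun _ => Set.range fun m : ℕ => (2 : k) ^ m)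
    (fun _ => hinf) fun x hx => ?_
  have hx' : ∀ l, ∃ m : ℕ, (2 : k) ^ m = x l := fun l => hx l (Set.mem_univ l)
  choose m hm using hx'
  have hxs : x = s m := funext fun l => (hm l).symm
  rw [map_zero, hxs, ← MvPolynomial.coe_aeval_eq_eval]
  refine (hQ2 m).1 (hz _ ⟨⟨fun h0 => hne m i0 h.base (congrFun h0 i0), fun G' hG' hGy => ?_⟩,
    fun j hj => hne m j (hyU j hj)⟩ fun j => ?_)
  · obtain ⟨Q', hQ1', hQ2'⟩ := hkey G' hG'
    rw [hQ2', hQ1'.1 hGy, map_zero]
  · by_cases hj : y j = 0
    · left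
      exact tpt_off _ hj
    · right
      refine ⟨cu j * ∏ l, (two ^ m l) ^ b j l, ?_, ?_⟩
      · refine mul_mem (Subgroup.subset_closure ?_) (Subgroup.prod_mem _ fun l _ =>
          Subgroup.zpow_mem _ (Subgroup.pow_mem _ (Subgroup.subset_closure ?_) _) _)
        · simp
        · simp
      · rw [tpt_on _ hj]
        have hc : c j ≠ 0 := (h.coord j hj).1
        simp only [cu, dif_neg hc, s, two]
        push_cast
        simp

/-- the transcendence bases given by generators -/
theorem basis_of {w : ℕ} {σ : Fin w → K} (hi : AlgebraicIndependent k σ)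
    (htop : IntermediateField.adjoin k (Set.range σ) = ⊤) : IsTranscendenceBasis k σ := by
  rw [hi.isTranscendenceBasis_iff_isAlgebraic]
  apply Pool.Agent.W602.GT.alg_adjoin
  rw [htop]
  exact ⟨fun x => isAlgebraic_algebraMap (A := K) (⟨x, trivial⟩ : (⊤ : IntermediateField k K))⟩

/-- torus orbits are special -/
theorem IsTorusOrbit.special [IsAlgClosed k] [CharZero k] {U : Set (Fin (n + 1))} {w : ℕ}
    {y : Fin (n + 1) → K} (h : IsTorusOrbit k w y) (hyU : ∀ j ∈ U, y j ≠ 0) :
    Special k K w (OffU U y) := by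
  obtain ⟨i0, σ, b, c, hi0, hi, htop, hco⟩ := h
  refine special_of_frame σ (basis_of hi htop) htop ?_
  rintro P hP ⟨j, hj, l, hl, hlt⟩
  have hord : ∀ j, y j ≠ 0 → P.ord (y j) = P.ord (y i0) := by
    intro j hj
    have h1 := hco j hj
    have hc : c j ≠ 0 := by
      intro h0
      rw [h0, map_zero, zero_mul] at h1
      exact div_ne_zero hj hi0 h1
    have hσ0 : ∀ l, σ l ≠ 0 := fun l => hi.ne_zero l
    have h2 : P.ord (y j / y i0) = 0 := by
      rw [h1, P.ord_mul (by rw [Ne, map_eq_zero]; exact hc)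
        (Finset.prod_ne_zero_iff.2 fun l _ => zpow_ne_zero _ (hσ0 l)), P.ord_const hc, zero_add,
        ord_prod' P _ _ fun l _ => zpow_ne_zero _ (hσ0 l)]
      exact Finset.sum_eq_zero fun l _ => by rw [P.ord_zpow, hP l, mul_zero]
    rw [P.ord_div hj hi0] at h2
    omega
  rw [hord l hl, hord j (hyU j hj)] at hlt
  exact lt_irrefl _ hlt

/-- one form of a system -/
theorem subVarU_single {U : Set (Fin (n + 1))} {F : ι → MvPolynomial (Fin (n + 1)) k} {w : ℕ}
    {y : Fin (n + 1) → K} (hy : SubVarU U F K w y) (e : ι) :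
    SubVarU U (fun _ : Unit => F e) K w y :=
  ⟨hy.ne, hy.unit, fun _ => hy.mem e, hy.gen, hy.dim⟩

theorem const_two {G : MvPolynomial (Fin (n + 1)) k} {y : Fin (n + 1) → K}
    (h2 : G.support.card ≤ 2) (C : CD k (gg y G)) (a a' : Fin (C.m + 1)) : ∃ c : k,
      (C.c a • gg y G (C.e a)) / (C.c a' • gg y G (C.e a')) = algebraMap k K c := by
  have hJ : Fintype.card (JJ y G) ≤ 2 := (gg_card _ _).trans h2
  have hm : C.m ≤ 1 := by
    have := Fintype.card_le_of_injective _ C.he
    simp only [Fintype.card_fin] at this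
    omega
  exact ratio_const (k := k) hm (fun l => C.c l • gg y G (C.e l))
    (fun l => smul_ne_zero (C.hc l) (gg_ne _)) C.rel a a'

/-- special varieties have constant circuits -/
theorem const_of_specialT [IsAlgClosed k] [CharZero k] {U : Set (Fin (n + 1))}
    {F : ι → MvPolynomial (Fin (n + 1)) k} {s N : ℕ} (hF : ToricSparse U s N F)
    (hN : n * ((s + 1) * tn (s - 1)) ≤ N) {w : ℕ}
    {y : Fin (n + 1) → K} (hy : SubVarU U F K w y) (hs : Special k K w (OffU U y)) (e : ι)
    (C : CD k (gg y (F e))) (a a' : Fin (C.m + 1)) : ∃ c : k,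
      (C.c a • gg y (F e) (C.e a)) / (C.c a' • gg y (F e) (C.e a')) = algebraMap k K c := by
  rcases hF.two_or e with h | h
  · exact const_two h C a a'
  · exact const_of_special (F := fun _ : Unit => F e) (fun _ => h) hN (subVarU_single hy e) hs () C a a'

/-- dense entire curves force constant circuits -/
theorem const_of_brodyT {K : Type} [Field K] [Algebra ℂ K] {U : Set (Fin (n + 1))}
    {F : ι → MvPolynomial (Fin (n + 1)) ℂ} {s N : ℕ} (hF : ToricSparse U s N F)
    (hN : n * ((s + 1) * ((s - 1) * (s - 2) / 2)) ≤ N)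
    {y : Fin (n + 1) → K} (hb : BrodySpecial U y) (e : ι)
    (C : CD ℂ (gg y (F e))) (a a' : Fin (C.m + 1)) : ∃ c : ℂ,
      (C.c a • gg y (F e) (C.e a)) / (C.c a' • gg y (F e) (C.e a')) = algebraMap ℂ K c := by
  rcases hF.two_or e with h | h
  · exact const_two h C a a'
  · exact const_of_brody (F := fun _ : Unit => F e) (fun _ => h) hN hb () C a a'

/-- **Special varieties are toric.** -/
theorem special_toric [IsAlgClosed k] [CharZero k] {U : Set (Fin (n + 1))}
    {F : ι → MvPolynomial (Fin (n + 1)) k} {s N : ℕ} (hF : ToricSparse U s N F)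
    (hN : n * ((s + 1) * ((s - 1) * (s - 2) / 2)) ≤ N) {w : ℕ}
    {y : Fin (n + 1) → K} (hy : SubVarU U F K w y) (hcomp : IsComponentU U F y) :
    (Special k K w (OffU U y) ↔ IsTorusOrbit k w y) ∧
      (Special k K w (OffU U y) → UnitsDense U k y) := by
  have h0 : Special k K w (OffU U y) → ∃ (i0 : Fin (n + 1)) (σ : Fin w → K)
      (b : Fin (n + 1) → Fin w → ℤ) (a : Fin w → Fin (n + 1) → ℤ) (c : Fin (n + 1) → k),
      TorFrame k w y i0 σ b a c := by
    intro h
    obtain ⟨i0, σ, b, a, c, hT, -⟩ := tor_frame (fun e => (hF e).1) hy hcomp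
      (const_of_specialT hF (by rw [tn_eq]; exact hN) hy h)
    exact ⟨i0, σ, b, a, c, hT⟩
  refine ⟨⟨fun h => ?_, fun h => h.special hy.unit⟩, fun h => ?_⟩
  · obtain ⟨i0, σ, b, a, c, hT⟩ := h0 h
    exact isTorusOrbit_of hT
  · obtain ⟨i0, σ, b, a, c, hT⟩ := h0 h
    exact unitsDense_of hT hy.unit

/-- **Special varieties and entire curves.** -/
theorem special_brody {K : Type} [Field K] [Algebra ℂ K] {U : Set (Fin (n + 1))}
    {F : ι → MvPolynomial (Fin (n + 1)) ℂ} {s N : ℕ} (hF : ToricSparse U s N F)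
    (hN : n * ((s + 1) * ((s - 1) * (s - 2) / 2)) ≤ N) {w : ℕ}
    {y : Fin (n + 1) → K} (hy : SubVarU U F K w y) (hcomp : IsComponentU U F y) :
    Special ℂ K w (OffU U y) ↔ BrodySpecial U y := by
  constructor
  · intro h
    obtain ⟨i0, σ, b, a, c, hT, -⟩ := tor_frame (fun e => (hF e).1) hy hcomp
      (const_of_specialT hF (by rw [tn_eq]; exact hN) hy h)
    exact hT.brody hy.unit
  · intro h
    obtain ⟨i0, σ, b, a, c, hT, -⟩ := tor_frame (fun e => (hF e).1) hy hcomp
      (const_of_brodyT hF hN h)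
    exact hT.special hy.unit

end Pool.Agent.T2H41.LA
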