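import Pool.Agent.T2H41.PB

/-!
Special varieties dominated by subvarieties of toric varieties: the equivalences.
-/

set_option autoImplicit false
set_option linter.overlappingInstances false
set_option linter.unusedSectionVars false

open FF IntermediateField Pool.Agent.W603.LV

namespace Pool.Agent.T2H41.LA

open Pool.Agent.W602.GT Pool.Agent.TH466.QG Pool.Agent.TH466.QT
open Pool.Agent.W619.TW (TensorVanish IsUnirational)
open Pool.Agent.Y221.CF

variable {k : Type} [Field k] [IsAlgClosed k] [CharZero k] {K : Type} [Field K] [Algebra k K]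
  {n : ℕ} {ι : Type}

/-- `V` is rational. -/
def IsRationalVar (k K : Type) [Field k] [Field K] [Algebra k K] (w : ℕ) : Prop :=
  ∃ t : Fin w → K, AlgebraicIndependent k t ∧ IntermediateField.adjoin k (Set.range t) = ⊤

theorem special_of_rat {w : ℕ} (h : IsRationalVar k K w) : Special k K w (fun _ => False) := by
  obtain ⟨σ, hi, htop⟩ := h
  exact special_of_frame σ (basis_of hi htop) htop fun _ _ h => h

/-- the field of rational functions is rational -/
theorem rat_frac (w : ℕ) : IsRationalVar k (FractionRing (MvPolynomial (Fin w) k)) w := by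
  refine ⟨fun i => algebraMap (MvPolynomial (Fin w) k) _ (MvPolynomial.X i), ?_, ?_⟩
  · have h1 : AlgebraicIndependent k (MvPolynomial.X : Fin w → MvPolynomial (Fin w) k) :=
      MvPolynomial.algebraicIndependent_X (Fin w) k
    exact h1.map' (f := IsScalarTower.toAlgHom k (MvPolynomial (Fin w) k)
      (FractionRing (MvPolynomial (Fin w) k)))
      (IsFractionRing.injective (MvPolynomial (Fin w) k) _)
  · rw [eq_top_iff]
    intro x _
    obtain ⟨a, b, hb, rfl⟩ := IsFractionRing.div_surjective (A := MvPolynomial (Fin w) k) x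
    have h1 : ∀ p : MvPolynomial (Fin w) k, algebraMap (MvPolynomial (Fin w) k)
        (FractionRing (MvPolynomial (Fin w) k)) p ∈ IntermediateField.adjoin k
          (Set.range fun i => algebraMap (MvPolynomial (Fin w) k)
            (FractionRing (MvPolynomial (Fin w) k)) (MvPolynomial.X i)) := by
      intro p
      induction p using MvPolynomial.induction_on with
      | C a =>
        have h2 : algebraMap (MvPolynomial (Fin w) k) (FractionRing (MvPolynomial (Fin w) k))
            (MvPolynomial.C a) = algebraMap k _ a := by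
          rw [← MvPolynomial.algebraMap_eq, ← IsScalarTower.algebraMap_apply]
        rw [h2]
        exact IntermediateField.algebraMap_mem _ a
      | add p q hp hq => rw [map_add]; exact add_mem hp hq
      | mul_X p i hp =>
        rw [map_mul]
        exact mul_mem hp (IntermediateField.subset_adjoin _ _ ⟨i, rfl⟩)
    exact div_mem (h1 a) (h1 b)

/-- a unirational variety which is a component of a system of high powers is rational -/
theorem rational_of_unirationalT {F : ι → MvPolynomial (Fin (n + 1)) k} {s N w : ℕ}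
    (hF : HighT s N F) (hN1 : 1 ≤ N)
    (hN : w * ((s + 4) * ((s - 1) * (s - 2) / 2)) ≤ N) {y : Fin (n + 1) → K}
    (hy : SubVar F K w y) (hcomp : IsComponent F y) (hu : IsUnirational k K w) :
    IsRationalVar k K w := by
  by_cases hcr : ∀ x ∈ cr k K s N, ∃ c : k, algebraMap k K c = x
  · exact rational_of_constT hF hN1 hy hcomp hcr
  exfalso
  push Not at hcr
  obtain ⟨φ⟩ := hu
  set E := FractionRing (MvPolynomial (Fin w) k) with hE
  letI : Algebra K E := φ.toRingHom.toAlgebra
  haveI : IsScalarTower k K E := IsScalarTower.of_algebraMap_eq fun x => (φ.commutes x).symm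
  have hsp := special_of_rat (rat_frac (k := k) w)
  have htrE : Algebra.trdeg k E = w := by
    obtain ⟨t, ht, htop⟩ := rat_frac (k := k) w
    have h1 := (basis_of ht htop).cardinalMk_eq_trdeg
    rw [Cardinal.mk_fin] at h1
    exact h1.symm
  haveI : Algebra.IsAlgebraic K E := by
    have h1 := trdeg_add_eq k K (A := E)
    rw [hy.dim, htrE] at h1
    have h2 : Algebra.trdeg K E ≤ (w : Cardinal) := by
      rw [← h1]
      exact self_le_add_left _ _
    obtain ⟨m, hm⟩ := Cardinal.lt_aleph0.1 (h2.trans_lt Cardinal.natCast_lt_aleph0)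
    rw [hm] at h1
    have h3 : w + m = w := by exact_mod_cast h1
    have h4 : m = 0 := by omega
    rw [h4, Nat.cast_zero, trdeg_eq_zero_iff] at hm
    exact hm
  have h := dom_main (K' := E) (L := E) (r := 1) hN1 hy.dim hcr (by rw [one_mul]; exact hN)
    (Or.inl ⟨inferInstance, by simp⟩)
  exact h.2.2 hsp

/-- **Varieties dominated by subvarieties of toric varieties.** -/
theorem dom_tfae {F : ι → MvPolynomial (Fin (n + 1)) k} {s N w r : ℕ}
    (hF : HighT s N F) (hw : 1 ≤ w) (hr : 1 ≤ r) (hN : w * (4 * 10 ^ s * (r + 1) ^ 7) ≤ N)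
    {y : Fin (n + 1) → K} (hy : SubVar F K w y) (hcomp : IsComponent F y) :
    [IsRationalVar k K w, Special k K w (fun _ => False), IsUnirational k K w,
      ∃ (L : Type) (_ : Field L) (_ : Algebra k L) (_ : Algebra L K), IsScalarTower k L K ∧
        FiniteDimensional L K ∧ Module.finrank L K ≤ r ∧ Special k L w (fun _ => False),
      ∃ (L : Type) (_ : Field L) (_ : Algebra k L) (_ : Algebra L K), IsScalarTower k L K ∧
        FiniteDimensional L K ∧ Module.finrank L K ≤ r ∧
        ∀ (b : ℕ) (M : IntermediateField k L), 1 ≤ b → ¬ GeneralType k M b].TFAE ∧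
    ∀ (L : Type) [Field L] [Algebra k L] [Algebra L K] [IsScalarTower k L K]
      [FiniteDimensional L K], Module.finrank L K ≤ r →
      (Special k L w (fun _ => False) ∨ TensorVanish k L w ∨
        ∀ (b : ℕ) (M : IntermediateField k L), 1 ≤ b → ¬ GeneralType k M b) →
      IsRationalVar k K w ∧ IsUnirational k L w ∧ ∀ (M : ℕ) (x : Fin (M + 1) → L), x ≠ 0 →
        coords k x = ⊤ → PotentiallyDense k x := by
  obtain ⟨hN1, -, -, hN4⟩ := Pool.Agent.Y221.PB.nums (r := r) (s := s) (N := N) hw (le_refl 1)
    (by rw [one_mul]; exact hN)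
  rw [one_mul] at hN1
  have hN0 : 1 ≤ N := (Pool.Agent.Y221.AB.one_le_NB _ s).trans hN1
  have hN5 : w * ((s + 4) * ((s - 1) * (s - 2) / 2)) ≤ N := le_trans (Nat.le_mul_of_pos_left _ hr) hN4
  have hcore : IsRationalVar k K w ∨ ∃ b : ℕ, 1 ≤ b ∧ b ≤ w ∧ ∀ (L : Type) [Field L] [Algebra k L]
        [Algebra L K] [IsScalarTower k L K] [FiniteDimensional L K], Module.finrank L K ≤ r →
        (∃ M : IntermediateField k L, GeneralType k M b) ∧
        ¬ TensorVanish k L w ∧ ¬ Special k L w (fun _ => False) := by
    by_cases hcr : ∀ x ∈ cr k K s N, ∃ c : k, algebraMap k K c = x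
    · exact Or.inl (rational_of_constT hF hN0 hy hcomp hcr)
    · exact Or.inr (core_mainT hF hN0 hN1 hN4 hy hcomp hcr)
  have hrr : Module.finrank K K ≤ r := by rw [Module.finrank_self]; exact hr
  refine ⟨?_, ?_⟩
  · tfae_have 1 → 2 := special_of_rat
    tfae_have 2 → 4 := fun h => ⟨K, inferInstance, inferInstance, inferInstance, inferInstance,
      inferInstance, hrr, h⟩
    tfae_have 4 → 1 := by
      rintro ⟨L, _, _, _, _, _, hL, h⟩
      rcases hcore with h1 | ⟨b, -, -, h1⟩
      · exact h1
      · exact absurd h (h1 L hL).2.2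
    tfae_have 2 → 5 := fun h => ⟨K, inferInstance, inferInstance, inferInstance, inferInstance,
      inferInstance, hrr, fun b M hb hM => by
        have hKe : Algebra.EssFiniteType k K := SubVar.ess hy
        have hMe : Algebra.EssFiniteType k M := ess_inter M
        exact not_special hy.dim M hb hM h⟩
    tfae_have 5 → 1 := by
      rintro ⟨L, _, _, _, _, _, hL, h⟩
      rcases hcore with h1 | ⟨b, hb, -, h1⟩
      · exact h1
      · obtain ⟨M, hM⟩ := (h1 L hL).1
        exact absurd hM (h b M hb)
    tfae_have 1 → 3 := fun ⟨t, ht, htop⟩ => unirational_of_sub ht htop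
    tfae_have 3 → 1 := rational_of_unirationalT hF hN0 hN5 hy hcomp
    tfae_finish
  · intro L _ _ _ _ _ hL h
    have h1 : IsRationalVar k K w := by
      rcases hcore with h1 | ⟨b, hb, -, h1⟩
      · exact h1
      · rcases h with h | h | h
        · exact absurd h (h1 L hL).2.2
        · exact absurd h (h1 L hL).2.1
        · obtain ⟨M, hM⟩ := (h1 L hL).1
          exact absurd hM (h b M hb)
    obtain ⟨t, ht, htop⟩ := h1
    have h2 : IsUnirational k L w := unirational_of_sub ht htop
    exact ⟨⟨t, ht, htop⟩, h2, fun M x hx _ => dense_of_unirational h2 hx⟩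

/-- **Correspondences.** -/
theorem corr_special {F : ι → MvPolynomial (Fin (n + 1)) k} {s N w r : ℕ}
    (hF : HighT s N F) (hN1 : 1 ≤ N)
    (hN : r * (w * ((s + 4) * ((s - 1) * (s - 2) / 2))) ≤ N)
    {y : Fin (n + 1) → K} (hy : SubVar F K w y) (hcomp : IsComponent F y)
    (K' L : Type) [Field K'] [Field L] [Algebra k K'] [Algebra k L] [Algebra K K'] [Algebra L K']
    [IsScalarTower k K K'] [IsScalarTower k L K'] [Algebra.IsAlgebraic K K']
    [FiniteDimensional L K'] (hr : (IsGalois L K' ∧ Module.finrank L K' ≤ r) ∨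
      (Module.finrank L K').factorial ≤ r)
    (h : Special k L w (fun _ => False) ∨ TensorVanish k L w ∨
      ∀ (b : ℕ) (M : IntermediateField k L), 1 ≤ b → ¬ GeneralType k M b) :
    IsRationalVar k K w := by
  by_cases hcr : ∀ x ∈ cr k K s N, ∃ c : k, algebraMap k K c = x
  · exact rational_of_constT hF hN1 hy hcomp hcr
  exfalso
  push Not at hcr
  obtain ⟨⟨b, hb, -, M, hM⟩, h2, h3⟩ := dom_main hN1 hy.dim hcr hN hr
  rcases h with h | h | h
  · exact h3 h
  · exact h2 h
  · exact h b M hb hM

end Pool.Agent.T2H41.LA
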