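import Pool.Agent.T2H41.QA
import Pool.Agent.R885.W9

/-!
The numerical dimension of pairs on which a torus acts.
-/

set_option autoImplicit false
set_option linter.overlappingInstances false
set_option linter.unusedSectionVars false

open FF IntermediateField Pool.Agent.W602.GT Pool.Agent.W603.LV Pool.Agent.W619.PQ
  Pool.Agent.W619.TW Pool.Agent.Y174 Pool.Agent.R885 Pool.Agent.R885.N

namespace Pool.Agent.T2H41.QB

section torus

variable {k K : Type} [Field k] [CharZero k] [IsAlgClosed k] [Field K] [Algebra k K]

/-- The pair of the torus and its full boundary has numerical dimension zero. -/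
theorem torus_num {n : ℕ} (hn : 1 ≤ n) (htr : Algebra.trdeg k K = (n : ℕ)) {x : Fin n → K}
    (hx : ∀ i, x i ≠ 0) (hgen : IntermediateField.adjoin k (Set.range x) = ⊤) {β : Place k K → ℝ}
    (hβ1 : ∀ P, β P ≤ 1) (hβ0 : ∀ P : Place k K, (∀ i, P.ord (x i) = 0) → β P ≤ 0) :
    PairNum k K n β 0 := by
  classical
  obtain ⟨f, hfd⟩ : ∃ f : Fin 0 → (Fin (n + 0) → ℤ) →₀ k, f = fun _ => 0 := ⟨_, rfl⟩
  obtain ⟨c, hcd⟩ : ∃ c : Fin 0 → ℚ, c = fun _ => 0 := ⟨_, rfl⟩
  obtain ⟨A, hAd⟩ : ∃ A : (Fin (n + 0) → ℤ) → ℚ, A = fun _ => 0 := ⟨_, rfl⟩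
  have hA : N.IsWeight A := by
    rw [hAd]
    refine ⟨fun _ _ => le_rfl, fun _ => zero_le_one, ⟨1, le_rfl, fun _ => ⟨0, by simp⟩⟩, ?_, ?_⟩
    · intro v w _ _ _
      norm_num
    · intro g v _ _
      simp
  have H : AlongP f f x := by
    intro V v c' _ _ _
    have : IsEmpty (Fin 0 ⊕ V) := by
      constructor
      rintro (l | j)
      · exact l.elim0
      · exact (j : Fin 0).elim0
    exact linearIndependent_empty_type
  have hFine : ∀ u : Fin (n + 0) → ℚ, u ∈ FineG A (fun v => ∑ j, c j * (mn v (f j) : ℚ)) f ↔
      u = 0 := by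
    intro u
    constructor
    · intro hu
      funext i
      have h1 := hu (Pi.single i 1) (by
        intro h0
        have := congrFun h0 i
        simp at this)
      have h2 := hu (Pi.single i (-1)) (by
        intro h0
        have := congrFun h0 i
        simp at this)
      rw [hAd] at h1 h2
      simp only [Finset.univ_eq_empty, Finset.sum_empty, add_zero] at h1 h2
      unfold dq at h1 h2
      rw [Finset.sum_eq_single i] at h1 h2
      · simp only [Pi.single_eq_same, Int.cast_one, mul_one, Int.cast_neg, mul_neg] at h1 h2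
        change u i = 0
        linarith
      · intro j _ hj
        simp [hj]
      · intro h
        exact absurd (Finset.mem_univ _) h
      · intro j _ hj
        simp [hj]
      · intro h
        exact absurd (Finset.mem_univ _) h
    · rintro rfl v _
      rw [hAd]
      unfold dq
      simp
  have h1 := (pair_valV (q := 0) (p := 0) hn htr (x := x) hx hgen (f := f) (fun l => l.elim0) (h := f)
    (fun j => j.elim0) H hA (c := c) (fun j => j.elim0)).2 ⟨0, (hFine 0).2 rfl⟩ 0 (by
      have h2 : {z : K | ∃ w ∈ dirsG A (fun v => ∑ j, c j * (mn v (f j) : ℚ)) f, z = mono x w} ⊆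
          {1} := by
        rintro z ⟨w, ⟨u, hu, N, hN, huN⟩, rfl⟩
        rw [hFine] at hu huN
        rw [hu] at huN
        have h3 : w = 0 := by
          funext i
          have h4 := congrFun huN i
          have h5 : (N : ℚ) ≠ 0 := by
            have : (0 : ℚ) < N := by exact_mod_cast hN
            exact this.ne'
          simp only [Pi.zero_apply, zero_add, div_eq_zero_iff, h5, or_false] at h4
          exact_mod_cast h4
        rw [h3]
        unfold mono
        simp
      have h3 : IntermediateField.adjoin k {z : K |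
          ∃ w ∈ dirsG A (fun v => ∑ j, c j * (mn v (f j) : ℚ)) f, z = mono x w} = ⊥ := by
        rw [eq_bot_iff]
        refine (IntermediateField.adjoin.mono k _ _ h2).trans ?_
        rw [IntermediateField.adjoin_le_iff]
        rintro _ rfl
        exact one_mem _
      rw [h3]
      have h4 : Algebra.IsAlgebraic k (⊥ : IntermediateField k K) := by
        constructor
        intro z
        obtain ⟨a, ha⟩ := IntermediateField.mem_bot.1 z.2
        have h5 : z = algebraMap k _ a := Subtype.ext ha.symm
        rw [h5]
        exact isAlgebraic_algebraMap a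
      have h5 : Algebra.trdeg k (⊥ : IntermediateField k K) = 0 := trdeg_eq_zero
      rw [h5, Nat.cast_zero])
  refine N.pairNum_mono (fun P _ => ?_) h1.2
  by_cases hv : vec P x = 0
  · refine (hβ0 P fun i => congrFun hv i).trans ?_
    have h2 : (0 : ℚ) ≤ bdry A c x f P := by
      unfold bdry
      rw [if_neg (by
        intro h
        exact h hv), if_neg]
      rintro ⟨j, -⟩
      exact j.elim0
    exact_mod_cast h2
  · rw [bdry_ne hv, hAd]
    have := hβ1 P
    push_cast
    linarith

end torus

end Pool.Agent.T2H41.QB
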