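import Pool.Agent.T2H41.QB

/-!
The numerical dimension of quasi-projective varieties with an action of a torus.
-/

set_option autoImplicit false
set_option linter.overlappingInstances false
set_option linter.unusedSectionVars false

open FF IntermediateField Pool.Agent.W602.GT Pool.Agent.W603.LV Pool.Agent.W619.PQ
  Pool.Agent.W619.TW Pool.Agent.Y174 Pool.Agent.R885 Pool.Agent.R885.N

namespace Pool.Agent.T2H41.QB

variable {k : Type} [Field k] {n : ℕ}

open Classical in
/-- the reduced boundary outside of the open part `x_j ≠ 0`, `j` in `U` -/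
noncomputable def redU {K : Type} [Field K] [Algebra k K] (U : Set (Fin (n + 1)))
    (y : Fin (n + 1) → K) (P : Place k K) : ℚ := if OffU U y P then 1 else 0

section

variable {K : Type} [Field K] [Algebra k K] {U : Set (Fin (n + 1))} {y : Fin (n + 1) → K}
  {P : Place k K}

theorem redU_le : redU U y P ≤ 1 := by
  unfold redU
  split_ifs
  · exact le_rfl
  · exact zero_le_one

theorem redU_nonneg : 0 ≤ redU U y P := by
  unfold redU
  split_ifs
  · exact zero_le_one
  · exact le_rfl

theorem off_of_redU (h : 0 < redU U y P) : OffU U y P := by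
  by_contra h0
  unfold redU at h
  rw [if_neg h0] at h
  exact lt_irrefl _ h

theorem redU_off (h : OffU U y P) : redU U y P = 1 := if_pos h

theorem redU_not (h : ¬ OffU U y P) : redU U y P = 0 := if_neg h

end

/-- the vector fields of the weights -/
theorem ders [CharZero k] {K : Type} [Field K] [Algebra k K] {y : Fin (n + 1) → K}
    (hgen : coords k y = ⊤) {i0 : Fin (n + 1)} (hi0 : y i0 ≠ 0) {b : Fin (n + 1) → ℤ}
    (hb0 : b i0 = 0) (hoff : ∀ j, y j = 0 → b j = 0)
    (hH : ∀ G : MvPolynomial (Fin (n + 1)) k, IsForm G → val y G = 0 →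
      ∀ v, val y (wc b v G) = 0) :
    ∃ δ : Derivation k K K, ∀ j, δ (rr y i0 j) = (b j : K) * rr y i0 j := by
  classical
  have hK : CharZero K := charZero_of_injective_algebraMap (algebraMap k K).injective
  by_cases hall : ∀ j, b j = 0
  · exact ⟨0, fun j => by rw [hall j]; simp⟩
  push Not at hall
  obtain ⟨j, hj⟩ := hall
  have hyj : y j ≠ 0 := fun h0 => hj (hoff j h0)
  obtain ⟨δ, σ, g, b', hσ0, hσ, htop, hg, hb', hz⟩ := exists_delta hgen b hi0 hyj (by
    rw [hb0]
    exact hj.symm) hH
  refine ⟨(g : K) • δ, fun j => ?_⟩
  by_cases h0 : y j = 0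
  · rw [rr_off h0, hoff j h0]
    simp
  · obtain ⟨z, hz0, hδz, h1⟩ := hz j h0
    have h2 := hb' j h0
    rw [hb0, sub_zero] at h2
    rw [rr_on h0, h1, Derivation.smul_apply, δ.leibniz, hδz, smul_zero, add_zero, der_zpow δ hσ0, hσ,
      div_self hσ0, mul_one, smul_eq_mul, smul_eq_mul, h2]
    push_cast
    ring

theorem der_chi {K : Type} [Field K] [Algebra k K] {r : Fin (n + 1) → K} (hr : ∀ j, r j ≠ 0)
    (D : Derivation k K K) (u : Fin (n + 1) → K) (hu : ∀ j, D (r j) = u j * r j)
    (γ : Fin (n + 1) → ℤ) : D (chi r γ) = (∑ j, (γ j : K) * u j) * chi r γ := by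
  classical
  unfold chi
  have hs : ∀ s : Finset (Fin (n + 1)), D (∏ j ∈ s, r j ^ γ j) =
      (∑ j ∈ s, (γ j : K) * u j) * ∏ j ∈ s, r j ^ γ j := by
    intro s
    induction s using Finset.induction_on with
    | empty => simp
    | insert j s hj ih =>
      rw [Finset.prod_insert hj, Finset.sum_insert hj, D.leibniz, ih, der_zpow D (hr j), hu]
      have := hr j
      simp only [smul_eq_mul]
      field_simp
      ring
  exact hs Finset.univ

/-- a derivation which vanishes on a subfield is linear over it -/
def overL {K : Type} [Field K] [Algebra k K] (L : IntermediateField k K) (D : Derivation k K K)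
    (h : ∀ x ∈ L, D x = 0) : Derivation L K K :=
  Derivation.mk' { toFun := D
                   map_add' := map_add D
                   map_smul' := fun c x => by
                    rw [Algebra.smul_def, D.leibniz]
                    have h1 : D (algebraMap L K c) = 0 := h _ c.2
                    rw [h1, smul_zero, add_zero, RingHom.id_apply, smul_eq_mul]
                    exact (Algebra.smul_def c (D x)).symm }
    fun a b => D.leibniz a b

theorem overL_apply {K : Type} [Field K] [Algebra k K] (L : IntermediateField k K)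
    (D : Derivation k K K) (h : ∀ x ∈ L, D x = 0) (x : K) : overL L D h x = D x := rfl

/-- **The rank of the weights is at most the relative dimension.** -/
theorem rank_le [CharZero k] [IsAlgClosed k] {K : Type} [Field K] [Algebra k K]
    {r : Fin (n + 1) → K} (hr : ∀ j, r j ≠ 0) {h p q : ℕ} {t : Fin h → K}
    (ht : AlgebraicIndependent k t) (htr : Algebra.trdeg k K = (h + p : ℕ))
    {β : Fin q → Fin (n + 1) → ℤ} {b : Fin (n + 1) → Fin q → ℤ}
    (hdual : ∀ l l', ∑ j, β l j * b j l' = if l = l' then 1 else 0)
    {δ : Fin q → Derivation k K K} (hδ : ∀ l j, δ l (r j) = (b j l : K) * r j)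
    (hδt : ∀ l i, δ l (t i) = 0) : q ≤ p := by
  classical
  have hK : CharZero K := charZero_of_injective_algebraMap (algebraMap k K).injective
  obtain ⟨L, hL⟩ : ∃ L : IntermediateField k K, L = IntermediateField.adjoin k (Set.range t) :=
    ⟨_, rfl⟩
  have hδL : ∀ l, ∀ x ∈ L, δ l x = 0 := by
    intro l x hx
    rw [hL] at hx
    have h1 : IntermediateField.adjoin k (Set.range t) ≤ consts (δ l) := by
      rw [IntermediateField.adjoin_le_iff]
      rintro _ ⟨i, rfl⟩
      exact hδt l i
    exact h1 hx
  have hL0 : CharZero L := charZero_of_injective_algebraMap (algebraMap k L).injective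
  obtain ⟨lam, hlam⟩ := exists_lam k q
  let D0 : Derivation L K K := ∑ l, algebraMap k K (lam l) • overL L (δ l) (hδL l)
  have hD0 : ∀ z, D0 z = ∑ l, algebraMap k K (lam l) * δ l z := by
    intro z
    have h0 : ∀ (s : Finset (Fin q)), (∑ l ∈ s, algebraMap k K (lam l) • overL L (δ l) (hδL l)) z =
        ∑ l ∈ s, algebraMap k K (lam l) * δ l z := by
      intro s
      induction s using Finset.induction_on with
      | empty => simp
      | insert l s hl ih =>
        rw [Finset.sum_insert hl, Finset.sum_insert hl, Derivation.add_apply, ih]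
        rfl
    exact h0 _
  have hσ0 : ∀ l, chi r (β l) ≠ 0 := fun l => chi_ne hr _
  have hchi : ∀ l m, δ l (chi r (β m)) = if m = l then chi r (β m) else 0 := by
    intro l m
    rw [der_chi hr (δ l) (fun j => (b j l : K)) (hδ l) (β m)]
    have h3 : ∑ j, (β m j : K) * (b j l : K) = if m = l then 1 else 0 := by
      have h4 := hdual m l
      exact_mod_cast congrArg (fun x : ℤ => (x : K)) h4
    rw [h3]
    split_ifs
    · rw [one_mul]
    · rw [zero_mul]
  have hind : AlgebraicIndependent L fun l => chi r (β l) := by
    refine algInd_of_eig _ hσ0 (fun l => algebraMap k L (lam l)) ?_ D0 ?_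
    · intro a b' hab
      apply hlam
      apply (algebraMap k L).injective
      rw [map_sum, map_sum]
      simpa only [map_mul, map_natCast] using hab
    · intro m
      rw [hD0, Finset.sum_eq_single m]
      · rw [hchi, if_pos rfl]
        rfl
      · intro l _ hl
        rw [hchi, if_neg (Ne.symm hl), mul_zero]
      · intro h
        exact absurd (Finset.mem_univ _) h
  have htrL : Algebra.trdeg k L = (h : ℕ) := by
    rw [hL]
    have h1 : IsTranscendenceBasis k (fun i => (⟨t i, IntermediateField.subset_adjoin k _ ⟨i, rfl⟩⟩ :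
        IntermediateField.adjoin k (Set.range t))) := by
      have h2 : AlgebraicIndependent k (fun i => (⟨t i,
          IntermediateField.subset_adjoin k _ ⟨i, rfl⟩⟩ :
          IntermediateField.adjoin k (Set.range t))) :=
        AlgebraicIndependent.of_comp (IntermediateField.adjoin k (Set.range t)).val ht
      rw [h2.isTranscendenceBasis_iff_isAlgebraic]
      apply Pool.Agent.W602.GT.alg_adjoin
      have h3 : IntermediateField.adjoin k (Set.range (fun i => (⟨t i,
          IntermediateField.subset_adjoin k _ ⟨i, rfl⟩⟩ :
          IntermediateField.adjoin k (Set.range t)))) = ⊤ := by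
        apply IntermediateField.map_injective (IntermediateField.adjoin k (Set.range t)).val
        rw [IntermediateField.adjoin_map, ← AlgHom.fieldRange_eq_map, IntermediateField.fieldRange_val]
        congr 1
        ext z
        simp only [Set.mem_image, Set.mem_range]
        constructor
        · rintro ⟨_, ⟨i, rfl⟩, rfl⟩
          exact ⟨i, rfl⟩
        · rintro ⟨i, rfl⟩
          exact ⟨_, ⟨i, rfl⟩, rfl⟩
      rw [h3]
      exact ⟨fun x => isAlgebraic_algebraMap
        (A := IntermediateField.adjoin k (Set.range t))
        (⟨x, trivial⟩ : (⊤ : IntermediateField k (IntermediateField.adjoin k (Set.range t))))⟩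
    have h4 := h1.cardinalMk_eq_trdeg
    rw [Cardinal.mk_fin] at h4
    exact h4.symm
  have h5 := trdeg_add_eq k L (A := K)
  rw [htrL, htr] at h5
  have h6 := hind.cardinalMk_le_trdeg
  rw [Cardinal.mk_fin] at h6
  have h7 : ((h : ℕ) : Cardinal) + (q : Cardinal) ≤ ((h + p : ℕ) : Cardinal) := by
    rw [← h5]
    gcongr
  have h8 : h + q ≤ h + p := by exact_mod_cast h7
  omega

end Pool.Agent.T2H41.QB
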