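import Pool.Agent.T2H41.QC

/-!
The numerical dimension of quasi-projective varieties with an action of a torus: the bound.
-/

set_option autoImplicit false
set_option linter.overlappingInstances false
set_option linter.unusedSectionVars false

open FF IntermediateField Pool.Agent.W602.GT Pool.Agent.W603.LV Pool.Agent.W619.PQ
  Pool.Agent.W619.TW Pool.Agent.Y174 Pool.Agent.R885 Pool.Agent.R885.N

namespace Pool.Agent.T2H41.QB

variable {k : Type} [Field k] [CharZero k] [IsAlgClosed k] {n : ℕ}

theorem ord_rr {K : Type} [Field K] [Algebra k K] {y : Fin (n + 1) → K} {i0 : Fin (n + 1)}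
    (hi0 : y i0 ≠ 0) {P : Place k K} (h : ∀ j, P.ord (rr y i0 j) = 0) {j : Fin (n + 1)}
    (hj : y j ≠ 0) : P.ord (y j) = P.ord (y i0) := by
  have h1 := h j
  rw [rr_on hj, P.ord_div hj hi0] at h1
  linarith

/-- **The numerical dimension is at most the dimension of the quotient by the torus.** -/
theorem num_le {U : Set (Fin (n + 1))} {K : Type} [Field K] [Algebra k K]
    {y : Fin (n + 1) → K} (hess : Algebra.EssFiniteType k K) (hyU : ∀ j ∈ U, y j ≠ 0)
    (hgen : coords k y = ⊤) {h p : ℕ} (hdim : Algebra.trdeg k K = (h + p : ℕ)) {t : Fin h → K}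
    (ht : AlgebraicIndependent k t) {i0 : Fin (n + 1)} (hi0 : y i0 ≠ 0)
    {V : Set (Fin (n + 1) → ℤ)}
    (hV : ∀ γ ∈ V, IsAlgebraic (IntermediateField.adjoin k (Set.range t)) (chi (rr y i0) γ))
    (htV : ∀ i, ∃ γ ∈ V, ∃ c : k, t i = algebraMap k K c * chi (rr y i0) γ)
    (hH : ∀ b' : Fin (n + 1) → ℤ, (∀ γ ∈ V, ∑ j, γ j * b' j = 0) →
      ∀ G : MvPolynomial (Fin (n + 1)) k, IsForm G → val y G = 0 → ∀ v, val y (wc b' v G) = 0) :
    PairNum k K (h + p) (fun P => ((redU U y P : ℚ) : ℝ)) h := by
  classical
  have hK : CharZero K := charZero_of_injective_algebraMap (algebraMap k K).injective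
  have hr : ∀ l, rr y i0 l ≠ 0 := rr_ne hi0
  have hG : ∀ P : Place k K, 0 < ((redU U y P : ℚ) : ℝ) →
      ∃ g ∈ (Finset.univ : Finset (Fin (n + 1) × Fin (n + 1))).image (fun a => y a.1 / y a.2),
        P.ord g ≠ 0 := by
    intro P hP
    obtain ⟨j, hj, l, hl, hlt⟩ := off_of_redU (by exact_mod_cast hP)
    refine ⟨y l / y j, Finset.mem_image.2 ⟨(l, j), Finset.mem_univ _, rfl⟩, ?_⟩
    rw [P.ord_div hl (hyU j hj)]
    omega
  have hδ1 : ∀ P : Place k K, ((redU U y P : ℚ) : ℝ) ≤ 1 := fun P => by
    exact_mod_cast redU_le (U := U) (y := y) (P := P)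
  rcases p with _ | m
  · exact pair_top hess hdim hG hδ1
  · refine pair_gen hess ht hdim (h := 0) hG hδ1 ?_
    intro Λ F _ _ _ _ _ _ _ φ hgenF htrF t' ht' htt' hz δ' hδ'
    have hΛ0 : CharZero Λ := charZero_of_injective_algebraMap (algebraMap k Λ).injective
    let r' : Fin (n + 1) → F := fun j => φ (rr y i0 j)
    have hr' : ∀ j, r' j ≠ 0 := fun j => by
      change φ (rr y i0 j) ≠ 0
      rw [Ne, map_eq_zero]
      exact hr j
    obtain ⟨q, β, b, hrb, hdual, hconst⟩ := lattice (k := Λ) hr'
    have hchi : ∀ γ, chi r' γ = φ (chi (rr y i0) γ) := by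
      intro γ
      unfold chi
      rw [map_prod]
      exact Finset.prod_congr rfl fun j _ => (map_zpow₀ φ _ _).symm
    have hbV : ∀ l, ∀ γ ∈ V, ∑ j, γ j * b j l = 0 := by
      intro l γ hγ
      refine hconst γ ?_ l
      obtain ⟨a, ha⟩ := hz _ (hV γ hγ)
      exact ⟨a, by rw [hchi, ha]⟩
    have hb0 : ∀ j, rr y i0 j = 1 → ∀ l, b j l = 0 := by
      intro j hj l
      have h1 := hconst (Pi.single j 1) ⟨1, by
        rw [chi_single]
        change φ (rr y i0 j) = _
        rw [hj, map_one, map_one]⟩ l
      rw [Finset.sum_eq_single j] at h1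
      · simpa using h1
      · intro i _ hi
        simp [hi]
      · intro h
        exact absurd (Finset.mem_univ _) h
    have hri0 : rr y i0 i0 = 1 := by
      rw [rr_on hi0]
      exact div_self hi0
    choose δ hδ using fun l => ders hgen hi0 (b := fun j => b j l) (hb0 i0 hri0 l)
      (fun j hj => hb0 j (rr_off hj) l) (hH (fun j => b j l) (hbV l))
    have hδt : ∀ l i, δ l (t i) = 0 := by
      intro l i
      obtain ⟨γ, hγ, c, hc⟩ := htV i
      rw [hc, (δ l).leibniz, (δ l).map_algebraMap, smul_zero, add_zero, smul_eq_mul,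
        der_chi hr (δ l) (fun j => (b j l : K)) (hδ l) γ]
      have h3 : ∑ j, (γ j : K) * (b j l : K) = 0 := by
        have h4 := hbV l γ hγ
        exact_mod_cast congrArg (fun x : ℤ => (x : K)) h4
      rw [h3, zero_mul, mul_zero]
    have hq := rank_le hr ht hdim hdual hδ hδt
    let σ : Fin q → F := fun l => chi r' (β l)
    have hσ0 : ∀ l, σ l ≠ 0 := fun l => chi_ne hr' _
    have hrtop : ∀ j, r' j ∈ IntermediateField.adjoin Λ (Set.range σ) := by
      intro j
      obtain ⟨c, hc⟩ := hrb j
      rw [hc]
      refine mul_mem (IntermediateField.algebraMap_mem _ _) (prod_mem fun l _ => zpow_mem ?_ _)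
      exact IntermediateField.subset_adjoin Λ _ ⟨l, rfl⟩
    have hgenσ : IntermediateField.adjoin Λ (Set.range σ) = ⊤ := by
      rw [eq_top_iff, ← hgenF, IntermediateField.adjoin_le_iff]
      rintro _ ⟨z, rfl⟩
      have h1 : coords k y ≤
          ((IntermediateField.adjoin Λ (Set.range σ)).restrictScalars k).comap φ := by
        unfold coords
        rw [IntermediateField.adjoin_le_iff]
        rintro _ ⟨i, j, hj, rfl⟩
        change φ (y i / y j) ∈ IntermediateField.adjoin Λ (Set.range σ)
        by_cases hi : y i = 0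
        · rw [hi, zero_div, map_zero]
          exact zero_mem _
        · have h1 := div_mem (hrtop i) (hrtop j)
          change φ (rr y i0 i) / φ (rr y i0 j) ∈ _ at h1
          rw [rr_on hi, rr_on hj, ← map_div₀] at h1
          have h2 : y i / y i0 / (y j / y i0) = y i / y j := by field_simp
          rwa [h2] at h1
      have h2 : z ∈ ((IntermediateField.adjoin Λ (Set.range σ)).restrictScalars k).comap φ :=
        h1 (by rw [hgen]; exact IntermediateField.mem_top)
      exact h2
    have hq' : m + 1 ≤ q := by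
      have halg : Algebra.IsAlgebraic (Algebra.adjoin Λ (Set.range σ)) F := by
        apply Pool.Agent.W602.GT.alg_adjoin
        rw [hgenσ]
        exact ⟨fun x => isAlgebraic_algebraMap (A := F) (⟨x, trivial⟩ : (⊤ : IntermediateField Λ F))⟩
      obtain ⟨B, -, hB2, hB⟩ := exists_isTranscendenceBasis_between (R := Λ) (A := F) ∅ (Set.range σ)
        (Set.empty_subset _) ((algebraicIndependent_empty_iff Λ F).2 (algebraMap Λ F).injective)
      have h1 := hB.cardinalMk_eq_trdeg
      rw [htrF] at h1
      have h2 : Cardinal.mk B ≤ Cardinal.mk (Set.range σ) := Cardinal.mk_le_mk_of_subset hB2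
      have h3 : Cardinal.mk (Set.range σ) ≤ Cardinal.mk (Fin q) := Cardinal.mk_range_le
      rw [Cardinal.mk_fin] at h3
      rw [h1] at h2
      exact_mod_cast h2.trans h3
    obtain rfl : q = m + 1 := by omega
    refine torus_num (k := Λ) (K := F) (by omega) htrF hσ0 hgenσ ?_ ?_
    · intro P
      rcases hδ' P with ⟨v, e, he, -, h2⟩ | h2
      · rw [h2]
        refine max_le zero_le_one ?_
        have h3 := hδ1 v
        have h4 : (0 : ℝ) ≤ e := Nat.cast_nonneg _
        nlinarith
      · rw [h2]
        exact zero_le_one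
    · intro P hP
      rcases hδ' P with ⟨v, e, he, hv, h2⟩ | h2
      · have h3 : ∀ j, v.ord (rr y i0 j) = 0 := by
          intro j
          have h4 : P.ord (r' j) = 0 := by
            obtain ⟨c, hc⟩ := hrb j
            have hc0 : c ≠ 0 := by
              rintro rfl
              rw [map_zero, zero_mul] at hc
              exact hr' j hc
            have h6 : ∀ s : Finset (Fin (m + 1)), P.ord (∏ l ∈ s, chi r' (β l) ^ b j l) = 0 := by
              intro s
              induction s using Finset.induction_on with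
              | empty => rw [Finset.prod_empty, P.ord_one]
              | insert l s hl ih =>
                rw [Finset.prod_insert hl, P.ord_mul (zpow_ne_zero _ (hσ0 l))
                  (Finset.prod_ne_zero_iff.2 fun l _ => zpow_ne_zero _ (hσ0 l)), ih, add_zero,
                  P.ord_zpow]
                have h7 : P.ord (chi r' (β l)) = 0 := hP l
                rw [h7, mul_zero]
            rw [hc, P.ord_mul (by rw [Ne, map_eq_zero]; exact hc0)
              (Finset.prod_ne_zero_iff.2 fun l _ => zpow_ne_zero _ (hσ0 l)), P.ord_const hc0, h6,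
              add_zero]
          have h5 := hv (rr y i0 j)
          change P.ord (r' j) = _ at h5
          rw [h4] at h5
          have he' : (e : ℤ) ≠ 0 := by exact_mod_cast he.ne'
          exact (mul_eq_zero.1 h5.symm).resolve_left he'
        have h4 : ¬ OffU U y v := by
          rintro ⟨j, hj, l, hl, hlt⟩
          rw [ord_rr hi0 h3 hl, ord_rr hi0 h3 (hyU j hj)] at hlt
          exact lt_irrefl _ hlt
        rw [h2, redU_not h4]
        refine max_le le_rfl ?_
        have h5 : (1 : ℝ) ≤ e := by exact_mod_cast he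
        push_cast
        linarith
      · rw [h2]

end Pool.Agent.T2H41.QB
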