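import Pool.Agent.T2H41.QD
import Pool.Agent.Y172.Cov2

/-!
Logarithmic pluricanonical forms and sections of pairs with reduced boundary; the dichotomy.
-/

set_option autoImplicit false
set_option linter.overlappingInstances false
set_option linter.unusedSectionVars false

open FF IntermediateField Pool.Agent.W602.GT Pool.Agent.W603.LV Pool.Agent.W619.PQ
  Pool.Agent.W619.TW Pool.Agent.Y174 Pool.Agent.R885 Pool.Agent.R885.N Pool.Agent.Y172

namespace Pool.Agent.T2H41.QB

section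

variable {k K : Type} [Field k] [CharZero k] [Field K] [Algebra k K] {n : ℕ}
  {P : Place k K} {y : Fin n → K} {E : Fin n → Derivation k K K} {i0 : Fin n}

theorem reg_det {A : Matrix (Fin n) (Fin n) K} (hA : ∀ i j, P.Reg (A i j)) : P.Reg A.det := by
  classical
  rw [Matrix.det_apply]
  have hsum : ∀ (S : Finset (Equiv.Perm (Fin n))) (g : Equiv.Perm (Fin n) → K),
      (∀ σ, P.Reg (g σ)) → P.Reg (∑ σ ∈ S, g σ) := by
    intro S g hg
    induction S using Finset.induction_on with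
    | empty => rw [Finset.sum_empty]; exact P.reg_zero
    | insert a s ha ih => rw [Finset.sum_insert ha]; exact P.reg_add (hg a) ih
  refine hsum _ _ fun σ => ?_
  have h1 : P.Reg (∏ i, A (σ i) i) := by
    have h2 : ∀ s : Finset (Fin n), P.Reg (∏ i ∈ s, A (σ i) i) := by
      intro s
      induction s using Finset.induction_on with
      | empty => rw [Finset.prod_empty]; exact P.reg_one
      | insert a s ha ih => rw [Finset.prod_insert ha]; exact P.reg_mul (hA _ _) ih
    exact h2 _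
  rcases Int.units_eq_one_or (Equiv.Perm.sign σ) with h | h
  · rw [h, one_smul]
    exact h1
  · rw [h, Units.neg_smul, one_smul]
    exact P.reg_neg h1

/-- the values on logarithmic vector fields -/
theorem pluri_log (h : Loc P y E i0) {m : ℕ} {ω : (Fin n → Derivation k K K) → K}
    (hω : IsPluri m ω) {D : Fin n → Derivation k K K} (hD : ∀ i, DerLog P (D i)) :
    ∃ a : K, P.Reg a ∧ ω D = a ^ m * (y i0 ^ m * ω E) := by
  classical
  have hlc : ∀ j, lc y i0 j ≠ 0 := by
    intro j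
    unfold lc
    split_ifs
    · exact h.ne
    · exact one_ne_zero
  obtain ⟨A, hA⟩ : ∃ A : Matrix (Fin n) (Fin n) K, A = Matrix.of fun i j => D i (y j) / lc y i0 j :=
    ⟨_, rfl⟩
  have hAreg : ∀ i j, P.Reg (A i j) := by
    intro i j
    rw [hA, Matrix.of_apply]
    unfold lc
    by_cases hj : j = i0
    · rw [if_pos hj, hj]
      exact hD i (y i0)
    · rw [if_neg hj, div_one]
      by_cases hy0 : y j = 0
      · rw [hy0, map_zero]
        exact P.reg_zero
      have h1 := P.reg_mul (hD i (y j)) (h.reg j)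
      rwa [div_mul_cancel₀ _ hy0] at h1
  refine ⟨A.det, reg_det hAreg, ?_⟩
  have h1 := hω A fun j => lc y i0 j • E j
  have h2 : (fun i => ∑ j, A i j • lc y i0 j • E j) = D := by
    funext i
    have h3 := Pool.Agent.W73.PG.PULL.expand y h.bas E h.dual (D i)
    rw [← h3]
    refine Finset.sum_congr rfl fun j _ => ?_
    rw [smul_smul, hA, Matrix.of_apply, div_mul_cancel₀ _ (hlc j)]
  rw [h2] at h1
  rw [h1, pluri_diag hω (lc y i0) E, prod_lc]

theorem log_ord [Algebra.EssFiniteType k K] (htr : Algebra.trdeg k K = (n : ℕ))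
    (hP : Divisorial n P) {m : ℕ} {ω : (Fin n → Derivation k K K) → K} (hω : IsPluri m ω)
    (hlog : LogAt P ω) {D : Fin n → Derivation k K K} (hD : ∀ i, DerReg P (D i))
    (h0 : ω D ≠ 0) : -(m : ℤ) ≤ P.ord (ω D) := by
  classical
  obtain ⟨y, E, i0, h⟩ := exists_loc htr hP
  have h1 := pluri_coord h.bas h.dual hω D
  have h2 : P.Reg ((y i0) ^ m * ω E) := by
    have h3 := hlog (fun i => lc y i0 i • E i) fun i => h.log i
    rwa [pluri_diag hω (lc y i0) E, prod_lc] at h3
  have h3 : P.Reg (Matrix.of fun i j => D i (y j)).det := by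
    refine reg_det fun i j => ?_
    rw [Matrix.of_apply]
    exact hD i _ (h.reg j)
  rw [h1] at h0
  have hdet : (Matrix.of fun i j => D i (y j)).det ^ m ≠ 0 := left_ne_zero_of_mul h0
  have hωE : ω E ≠ 0 := right_ne_zero_of_mul h0
  have hym : y i0 ^ m ≠ 0 := pow_ne_zero _ h.ne
  rw [h1, P.ord_mul hdet hωE]
  rw [Place.reg_iff _ (mul_ne_zero hym hωE), P.ord_mul hym hωE, P.ord_pow, h.unif, mul_one] at h2
  have h4 : P.Reg ((Matrix.of fun i j => D i (y j)).det ^ m) := by
    have h5 : ∀ q : ℕ, P.Reg ((Matrix.of fun i j => D i (y j)).det ^ q) := by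
      intro q
      induction q with
      | zero => rw [pow_zero]; exact P.reg_one
      | succ q ih => rw [pow_succ]; exact P.reg_mul ih h3
    exact h5 m
  rw [Place.reg_iff _ hdet] at h4
  linarith

/-- logarithmic forms are sections of pairs -/
theorem kod_of [Algebra.EssFiniteType k K] (htr : Algebra.trdeg k K = (n : ℕ))
    {Bd : Place k K → Prop} {δ : Place k K → ℝ} (hδ0 : ∀ P, 0 ≤ δ P) (hδ1 : ∀ P, Bd P → 1 ≤ δ P)
    {h : ℕ} (hk : Pool.Agent.W602.GT.KodGe k K n Bd h) : PairKod k K n δ h := by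
  classical
  obtain ⟨N, hN, ω, hω, D, hD, hind⟩ := hk
  refine ⟨N, hN, ω, fun l => ⟨(hω l).1, fun v hv D' hD' => ?_⟩, D, ?_, hind⟩
  · by_cases h0 : ω l D' = 0
    · exact Or.inl h0
    right
    refine ⟨1, Finset.mem_singleton_self _, one_ne_zero, ?_⟩
    rw [Nat.cast_zero, zero_mul, zero_sub]
    have hN' : (0 : ℝ) ≤ N := Nat.cast_nonneg _
    by_cases hB : Bd v
    · have h1 := log_ord htr hv (hω l).1 ((hω l).2.1 v hv) hD' h0
      have h2 := mul_le_mul_of_nonneg_left (hδ1 v hB) hN'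
      have h3 : (-(N : ℝ)) ≤ ((v.ord (ω l D') : ℤ) : ℝ) := by exact_mod_cast h1
      linarith
    · have h1 := (hω l).2.2 v hv hB D' hD'
      rw [Place.reg_iff _ h0] at h1
      have h2 := mul_nonneg hN' (hδ0 v)
      have h3 : (0 : ℝ) ≤ ((v.ord (ω l D') : ℤ) : ℝ) := by exact_mod_cast h1
      linarith
  · intro l
    refine Fin.cases hD (fun i => ?_) l
    have h1 := hind.ne_zero i
    intro h0
    apply h1
    rw [h0, zero_div]

/-- pairs with reduced boundary which are not pseudoeffective -/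
theorem neg_of [Algebra.EssFiniteType k K] (htr : Algebra.trdeg k K = (n : ℕ))
    {Bd : Place k K → Prop} {δ : Place k K → ℝ} (hδ0 : ∀ P, ¬ Bd P → δ P ≤ 0) (hδ1 : ∀ P, δ P ≤ 1)
    (h : ¬ Psef k K n Bd) : NegB k K n δ := by
  classical
  unfold Psef at h
  push Not at h
  intro T
  obtain ⟨N, hN⟩ := h (insert 1 T)
  refine ⟨max N 1, fun M hM ω hω => ?_⟩
  have hM1 : 1 ≤ M := (le_max_right _ _).trans hM
  have hNM : N ≤ M := (le_max_left _ _).trans hM
  by_cases hN0 : N = 0
  · -- the constant form would be a section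
    have h1 := hN 1 (by omega) (fun _ => 1) ⟨fun A D => by rw [hN0]; simp, fun P _ D _ =>
      Or.inr ⟨1, Finset.mem_insert_self _ _, one_ne_zero, by rw [P.ord_one]; simp⟩,
      fun P _ _ D _ =>
      Or.inr ⟨1, Finset.mem_insert_self _ _, one_ne_zero, by rw [P.ord_one]; simp⟩⟩ 0
    exact absurd h1 one_ne_zero
  have key : ∀ (P : Place k K) (f : K), f ^ N ≠ 0 → (∃ s ∈ T, s ≠ 0 ∧ P.ord s ≤ P.ord f) →
      TwReg P (insert 1 T) M (f ^ N) := by
    rintro P f hf ⟨s, hs, hs0, hle⟩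
    right
    have hNq : (N : ℤ) ≤ M := by exact_mod_cast hNM
    have hN' : (0 : ℤ) ≤ N := Int.natCast_nonneg _
    rcases le_total (P.ord s) 0 with h1 | h1
    · refine ⟨s, Finset.mem_insert_of_mem hs, hs0, ?_⟩
      rw [P.ord_pow]
      nlinarith
    · refine ⟨1, Finset.mem_insert_self _ _, one_ne_zero, ?_⟩
      rw [P.ord_pow, P.ord_one, mul_zero]
      exact mul_nonneg hN' (h1.trans hle)
  have h1 := hN M (by omega) (fun D => ω D ^ N) ⟨?_, ?_, ?_⟩
  · funext D
    exact (pow_eq_zero_iff hN0).1 (h1 D)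
  · intro A D
    have h2 : ω (fun i => ∑ j, A i j • D j) = A.det ^ M * ω D := hω.1 A D
    beta_reduce
    rw [h2, mul_pow, ← pow_mul]
  · intro P hP D hD
    by_cases h0 : ω D ^ N = 0
    · exact Or.inl h0
    apply key P _ h0
    obtain ⟨y, E, i0, hl⟩ := exists_loc htr hP
    obtain ⟨a, ha, hωD⟩ := pluri_log hl hω.1 hD
    have hD0 : ω D ≠ 0 := fun h => h0 (by rw [h, zero_pow hN0])
    rw [hωD] at hD0
    have ha0 : a ^ M ≠ 0 := left_ne_zero_of_mul hD0
    have hyE := right_ne_zero_of_mul hD0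
    have hym : y i0 ^ M ≠ 0 := left_ne_zero_of_mul hyE
    have hE0 : ω E ≠ 0 := right_ne_zero_of_mul hyE
    obtain ⟨s, hs, hs0, hle⟩ := (hω.2 P hP E hl.pres).resolve_left hE0
    refine ⟨s, hs, hs0, ?_⟩
    have ha1 : a ≠ 0 := fun h => ha0 (by rw [h, zero_pow (by omega)])
    rw [hωD, P.ord_mul ha0 hyE, P.ord_mul hym hE0, P.ord_pow, P.ord_pow, hl.unif, mul_one]
    rw [Place.reg_iff _ ha1] at ha
    have h2 : (0 : ℤ) ≤ (M : ℤ) * P.ord a := mul_nonneg (Int.natCast_nonneg _) ha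
    have h3 : ((P.ord s : ℤ) : ℝ) ≤ ((M + P.ord (ω E) : ℤ) : ℝ) := by
      have h4 := mul_le_mul_of_nonneg_left (hδ1 P) (Nat.cast_nonneg (α := ℝ) M)
      push_cast at hle ⊢
      linarith
    have h4 : P.ord s ≤ M + P.ord (ω E) := by exact_mod_cast h3
    linarith
  · intro P hP hB D hD
    by_cases h0 : ω D ^ N = 0
    · exact Or.inl h0
    apply key P _ h0
    have hD0 : ω D ≠ 0 := fun h => h0 (by rw [h, zero_pow hN0])
    obtain ⟨s, hs, hs0, hle⟩ := (hω.2 P hP D hD).resolve_left hD0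
    refine ⟨s, hs, hs0, ?_⟩
    have h4 := mul_le_mul_of_nonneg_left (hδ0 P hB) (Nat.cast_nonneg (α := ℝ) M)
    have h3 : ((P.ord s : ℤ) : ℝ) ≤ ((P.ord (ω D) : ℤ) : ℝ) := by
      push_cast at hle
      linarith
    exact_mod_cast h3

end

/-- **The dichotomy for the pairs of few-monomial subvarieties of toric varieties.** -/
theorem pair_toric {k : Type} [Field k] [CharZero k] [IsAlgClosed k] {n : ℕ} {ι : Type}
    {U : Set (Fin (n + 1))} {F : ι → MvPolynomial (Fin (n + 1)) k} {s N : ℕ}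
    (hF : Pool.Agent.T2H41.LA.ToricSparse U s N F) (hN : n * ((s + 1) * tn (s - 1)) ≤ N)
    {K : Type} [Field K] [Algebra k K] {w : ℕ} {y : Fin (n + 1) → K} (hy : SubVarU U F K w y)
    (hcomp : IsComponentU U F y) :
    ((∃ b, Contracts U k y b) ∧ NegB k K w (fun P => ((redU U y P : ℚ) : ℝ))) ∨
    ∃ (h p : ℕ) (b : Fin p → Fin (n + 1) → ℤ), h + p = w ∧ (∀ l, Acts U k y (b l)) ∧
      (∀ c : Fin p → ℤ, (∀ j j', y j ≠ 0 → y j' ≠ 0 →
        ∑ l, c l * b l j = ∑ l, c l * b l j') → c = 0) ∧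
      PairKod k K w (fun P => ((redU U y P : ℚ) : ℝ)) h ∧
      PairNum k K w (fun P => ((redU U y P : ℚ) : ℝ)) h := by
  classical
  have hess : Algebra.EssFiniteType k K := Pool.Agent.TH466.QG.SubVar.ess
    (⟨hy.ne, hy.mem, hy.gen, hy.dim⟩ : SubVar F K w y)
  rcases QA.kod_dataT hF hN hy hcomp with ⟨b, hb⟩ | ⟨h, p, b, t, i0, V, rfl, h1, h2, h3, -, h5, h6,
    h7, h8, h9⟩
  · left
    refine ⟨⟨b, hb⟩, neg_of (Bd := OffU U y) hy.dim ?_ ?_ (contracts_not_psef hy.unit hy.gen hy.dim hb)⟩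
    · intro P hP
      rw [redU_not hP, Rat.cast_zero]
    · intro P
      exact_mod_cast redU_le (U := U) (y := y) (P := P)
  · right
    refine ⟨h, p, b, rfl, h1, h2, kod_of (Bd := OffU U y) hy.dim ?_ ?_ h3,
      num_le hess hy.unit hy.gen hy.dim h5 h6 h8 h7 fun b' hb' => ?_⟩
    · intro P
      exact_mod_cast redU_nonneg (U := U) (y := y) (P := P)
    · intro P hP
      rw [redU_off hP, Rat.cast_one]
    · exact ideal_hom hy hcomp (h9 b' hb')

end Pool.Agent.T2H41.QB
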