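import Pool.Agent.T2H41.QF
import Pool.Agent.T2H41.GA

/-!
Pairs which are commensurable with few-monomial subvarieties of toric varieties: dimensions.
-/

set_option autoImplicit false
set_option linter.overlappingInstances false
set_option linter.unusedSectionVars false

open FF IntermediateField Pool.Agent.W602.GT Pool.Agent.W619.PQ Pool.Agent.W619.TW
  Pool.Agent.W603.LV Pool.Agent.Y172 Pool.Agent.Y191 Pool.Agent.Y174 Pool.Agent.R885
  Pool.Agent.R885.N

namespace Pool.Agent.T2H41.QB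

section

variable {k : Type} [Field k] [CharZero k] [IsAlgClosed k] {n : ℕ} {ι : Type}
  {U : Set (Fin (n + 1))} {F : ι → MvPolynomial (Fin (n + 1)) k} {s N : ℕ} {K : Type} [Field K]
  [Algebra k K] {w : ℕ} {y : Fin (n + 1) → K}

theorem pairKod_mono {β β' : Place k K → ℝ} (hβ : ∀ P, β P ≤ β' P) {d : ℕ}
    (h : PairKod k K w β d) : PairKod k K w β' d := by
  obtain ⟨m, hm, ω, hω, hD⟩ := h
  exact ⟨m, hm, ω, fun l => pairSec_mono (fun P _ => hβ P) (hω l), hD⟩

/-- **Boundaries between the reduced boundary `D_U` and the full boundary.** -/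
theorem pair_between (hF : Pool.Agent.T2H41.LA.ToricSparse U s N F)
    (hN : n * ((s + 1) * tn (s - 1)) ≤ N) (hy : SubVarU U F K w y) (hcomp : IsComponentU U F y)
    (hnc : ¬ ∃ b, Contracts U k y b) {β : Place k K → ℚ} (hβ0 : ∀ P, redU U y P ≤ β P)
    (hβ1 : ∀ P, β P ≤ redU {j | y j ≠ 0} y P) :
    ∃ (h p : ℕ) (b : Fin p → Fin (n + 1) → ℤ), h + p = w ∧ (∀ l, Acts U k y (b l)) ∧
      (∀ c : Fin p → ℤ, (∀ j j', y j ≠ 0 → y j' ≠ 0 →
        ∑ l, c l * b l j = ∑ l, c l * b l j') → c = 0) ∧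
      PairKod k K w (fun P => ((β P : ℚ) : ℝ)) h ∧ PairNum k K w (fun P => ((β P : ℚ) : ℝ)) h := by
  classical
  have hess : Algebra.EssFiniteType k K := Pool.Agent.TH466.QG.SubVar.ess
    (⟨hy.ne, hy.mem, hy.gen, hy.dim⟩ : SubVar F K w y)
  rcases QA.kod_dataT hF hN hy hcomp with ⟨b, hb⟩ | ⟨h, p, b, t, i0, V, rfl, h1, h2, h3, -, h5, h6,
    h7, h8, h9⟩
  · exact absurd ⟨b, hb⟩ hnc
  · refine ⟨h, p, b, rfl, h1, h2, pairKod_mono (β := fun P => ((redU U y P : ℚ) : ℝ))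
      (fun P => by exact_mod_cast hβ0 P) (kod_of (Bd := OffU U y) hy.dim ?_ ?_ h3),
      pairNum_mono (β' := fun P => ((redU {j | y j ≠ 0} y P : ℚ) : ℝ))
      (fun P _ => by exact_mod_cast hβ1 P)
      (num_le hess (fun j hj => hj) hy.gen hy.dim h5 h6 h8 h7 fun b' hb' => ?_)⟩
    · intro P
      exact_mod_cast redU_nonneg (U := U) (y := y) (P := P)
    · intro P hP
      rw [redU_off hP, Rat.cast_one]
    · exact ideal_hom hy hcomp (h9 b' hb')

theorem redU_mono {U U' : Set (Fin (n + 1))} (h : U ⊆ U') (P : Place k K) :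
    redU U y P ≤ redU U' y P := by
  by_cases h1 : OffU U y P
  · have h2 : OffU U' y P := by
      obtain ⟨j, hj, hi⟩ := h1
      exact ⟨j, h hj, hi⟩
    rw [redU_off h1, redU_off h2]
  · rw [redU_not h1]
    exact redU_nonneg

end

section

variable {n : ℕ} {ι : Type} {U : Set (Fin (n + 1))} {F : ι → MvPolynomial (Fin (n + 1)) ℂ}
  {s N : ℕ} {L : Type} [Field L] [Algebra ℂ L] {w : ℕ} {z : Fin (n + 1) → L}
  {K M : Type} [Field K] [Field M] [Algebra ℂ K] [Algebra ℂ M] [Algebra K M] [Algebra L M]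
  [IsScalarTower ℂ K M] [IsScalarTower ℂ L M] [FiniteDimensional K M] [FiniteDimensional L M]
  {m : ℕ} {y : Fin (m + 1) → K} {Δ : Place ℂ K → ℚ}

/-- The values for commensurable pairs, boundaries between `D_U` and the full boundary. -/
theorem comm_between (hF : Pool.Agent.T2H41.LA.ToricSparse U s N F)
    (hN : n * ((s + 1) * tn (s - 1)) ≤ N) (hz : SubVarU U F L w z) (hcomp : IsComponentU U F z)
    (hnc : ¬ ∃ b, Contracts U ℂ z b) {β : Place ℂ L → ℚ} (hβ0 : ∀ P, redU U z P ≤ β P)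
    (hβ1 : ∀ P, β P ≤ redU {j | z j ≠ 0} z P) (hy : R885.N.IsCommensurable M β y w Δ) :
    ∃ (h p : ℕ) (b : Fin p → Fin (n + 1) → ℤ), h + p = w ∧ (∀ l, Acts U ℂ z (b l)) ∧
      (∀ c : Fin p → ℤ, (∀ j j', z j ≠ 0 → z j' ≠ 0 →
        ∑ l, c l * b l j = ∑ l, c l * b l j') → c = 0) ∧
      PData (n := w) y Δ (fun δ => PairKod ℂ K w δ h ∧ PairNum ℂ K w δ h) := by
  have hess : Algebra.EssFiniteType ℂ L := Pool.Agent.TH466.QG.SubVar.ess
    (⟨hz.ne, hz.mem, hz.gen, hz.dim⟩ : SubVar F L w z)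
  obtain ⟨h, p, b, h1, h2, h3, h4, h5⟩ := pair_between hF hN hz hcomp hnc hβ0 hβ1
  exact ⟨h, p, b, h1, h2, h3, (qgen (M := M) hess hz.dim hy).1 h h4 h5⟩

/-- Commensurable pairs in the contracting case. -/
theorem comm_neg (hF : Pool.Agent.T2H41.LA.ToricSparse U s N F)
    (hN : n * ((s + 1) * tn (s - 1)) ≤ N) (hz : SubVarU U F L w z)
    (hc : ∃ b, Contracts U ℂ z b)
    (hy : R885.N.IsCommensurable M (redU U z) y w Δ) :
    PData (n := w) y Δ (fun δ => NegB ℂ K w δ) := by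
  have hess : Algebra.EssFiniteType ℂ L := Pool.Agent.TH466.QG.SubVar.ess
    (⟨hz.ne, hz.mem, hz.gen, hz.dim⟩ : SubVar F L w z)
  obtain ⟨b, hb⟩ := hc
  refine (qgen (M := M) hess hz.dim hy).2 (neg_of (Bd := OffU U z) hz.dim ?_ ?_
    (contracts_not_psef hz.unit hz.gen hz.dim hb))
  · intro P hP
    rw [redU_not hP, Rat.cast_zero]
  · intro P
    exact_mod_cast redU_le (U := U) (y := z) (P := P)

end

end Pool.Agent.T2H41.QB
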