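import Pool.Agent.T2H41.QG

/-!
Weak non-vanishing and the dimensions for pairs commensurable with few-monomial subvarieties of toric
varieties.
-/

set_option autoImplicit false
set_option linter.overlappingInstances false
set_option linter.unusedSectionVars false

open FF IntermediateField Filter Pool.Agent.W602.GT Pool.Agent.W619.PQ Pool.Agent.W619.TW
  Pool.Agent.W603.LV Pool.Agent.Y172 Pool.Agent.Y191 Pool.Agent.Y174 Pool.Agent.R885
  Pool.Agent.R885.N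

namespace Pool.Agent.T2H41.QB

section

variable {K : Type} [Field K] [Algebra ℂ K] {n m : ℕ} {y : Fin (m + 1) → K} {Δ : Place ℂ K → ℚ}

/-- a finite numerical dimension implies pseudoeffectivity -/
theorem psef_of_num {d : ℕ} (h : numericalDim y n Δ 0 = (d : EReal)) : GA.Psef y n Δ := by
  refine ⟨0, ⟨fun _ _ => le_rfl, by simp⟩, ?_⟩
  by_contra hcon
  push Not at hcon
  obtain ⟨M0, h0z⟩ := hcon
  have h1 : numericalDim y n Δ 0 ≤ ⊥ := by
    unfold numericalDim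
    refine limsup_le_of_le (h := ?_)
    have h2 : ∀ᶠ m : ℕ in atTop, ENNReal.log (h0 y n m (m • Δ + 0) : ENNReal) /
        (Real.log m : EReal) ≤ ⊥ := by
      filter_upwards [eventually_ge_atTop (M0 + 2)] with m hm
      rw [h0z m (by omega), Nat.cast_zero, ENNReal.log_zero, EReal.bot_div_of_pos_ne_top]
      · have h3 : 0 < Real.log m := Real.log_pos (by exact_mod_cast (by omega : 1 < m))
        exact_mod_cast h3
      · exact EReal.coe_ne_top _
    exact h2.filter_mono inf_le_left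
  rw [h] at h1
  exact absurd (le_bot_iff.1 h1) (EReal.natCast_ne_bot d)

/-- the two cases exclude each other -/
theorem pos_neg {β : Place ℂ K → ℝ} (h : PosB ℂ K n β) (h' : NegB ℂ K n β) : False := by
  classical
  obtain ⟨d, -, ⟨q, hq, ω, hω, D, hD, -⟩, -⟩ := h
  obtain ⟨M0, hM0⟩ := h' {1}
  have h1 : (fun E => ω 0 E ^ (M0 + 1)) = (0 : (Fin n → Derivation ℂ K K) → K) := by
    refine hM0 (q * (M0 + 1)) (by nlinarith) _ ⟨?_, ?_⟩
    · intro B E
      have h2 := (hω 0).1 B E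
      beta_reduce
      rw [h2, mul_pow, ← pow_mul]
    · intro P hP E hE
      beta_reduce
      rcases (hω 0).2 P hP E hE with h2 | ⟨s, hs, hs0, h2⟩
      · left
        rw [h2, zero_pow (by omega)]
      · right
        rw [Finset.mem_singleton] at hs
        refine ⟨1, Finset.mem_singleton_self _, one_ne_zero, ?_⟩
        rw [hs, P.ord_one, Int.cast_zero, mul_zero, zero_sub] at h2
        rw [P.ord_one, Int.cast_zero, mul_zero, zero_sub, P.ord_pow]
        have h8 := mul_le_mul_of_nonneg_left h2 (show (0 : ℝ) ≤ (M0 : ℝ) + 1 by positivity)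
        push_cast
        nlinarith
  have h2 := congrFun h1 D
  exact hD 0 ((pow_eq_zero_iff (by omega)).1 h2)

end

section

variable {n : ℕ} {ι : Type} {U : Set (Fin (n + 1))} {F : ι → MvPolynomial (Fin (n + 1)) ℂ}
  {s N : ℕ} {L : Type} [Field L] [Algebra ℂ L] {w : ℕ} {z : Fin (n + 1) → L}
  {K M : Type} [Field K] [Field M] [Algebra ℂ K] [Algebra ℂ M] [Algebra K M] [Algebra L M]
  [IsScalarTower ℂ K M] [IsScalarTower ℂ L M] [FiniteDimensional K M] [FiniteDimensional L M]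
  {m : ℕ} {y : Fin (m + 1) → K} {Δ : Place ℂ K → ℚ}

/-- The dichotomy for commensurable pairs. -/
theorem comm_all (hF : Pool.Agent.T2H41.LA.ToricSparse U s N F)
    (hN : n * ((s + 1) * tn (s - 1)) ≤ N) (hz : SubVarU U F L w z) (hcomp : IsComponentU U F z)
    {β : Place ℂ L → ℚ} (hβ0 : ∀ P, redU U z P ≤ β P)
    (hβ1 : ∀ P, β P ≤ redU {j | z j ≠ 0} z P) (hc : (∃ b, Contracts U ℂ z b) → β = redU U z)
    (hy : R885.N.IsCommensurable M β y w Δ) :
    ((∃ b, Contracts U ℂ z b) ∧ PData (n := w) y Δ (fun δ => NegB ℂ K w δ)) ∨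
    ((¬ ∃ b, Contracts U ℂ z b) ∧
      ∃ (h p : ℕ) (b : Fin p → Fin (n + 1) → ℤ), h + p = w ∧ (∀ l, Acts U ℂ z (b l)) ∧
      (∀ c : Fin p → ℤ, (∀ j j', z j ≠ 0 → z j' ≠ 0 →
        ∑ l, c l * b l j = ∑ l, c l * b l j') → c = 0) ∧
      PData (n := w) y Δ (fun δ => PairKod ℂ K w δ h ∧ PairNum ℂ K w δ h)) := by
  by_cases h : ∃ b, Contracts U ℂ z b
  · left
    have h1 := hc h
    subst h1
    exact ⟨h, comm_neg (M := M) hF hN hz h hy⟩
  · right
    exact ⟨h, comm_between (M := M) hF hN hz hcomp h hβ0 hβ1 hy⟩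

/-- **Weak non-vanishing and abundance.** -/
theorem final (hF : Pool.Agent.T2H41.LA.ToricSparse U s N F)
    (hN : n * ((s + 1) * tn (s - 1)) ≤ N) (hz : SubVarU U F L w z) (hcomp : IsComponentU U F z)
    {β : Place ℂ L → ℚ} (hβ0 : ∀ P, redU U z P ≤ β P)
    (hβ1 : ∀ P, β P ≤ redU {j | z j ≠ 0} z P) (hc : (∃ b, Contracts U ℂ z b) → β = redU U z)
    (hy : R885.N.IsCommensurable M β y w Δ) :
    (GA.Psef y w Δ ↔ ∃ a : ℕ, 1 ≤ a ∧ ∃ ω : (Fin w → Derivation ℂ K K) → K, ω ≠ 0 ∧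
      IsSection y w a (a • Δ) ω) ∧
    (GA.Psef y w Δ ↔ ¬ ∃ b, Contracts U ℂ z b) ∧
    (GA.Psef y w Δ → ∃ (h p : ℕ) (b : Fin p → Fin (n + 1) → ℤ), h + p = w ∧
      (∀ l, Acts U ℂ z (b l)) ∧
      (∀ c : Fin p → ℤ, (∀ j j', z j ≠ 0 → z j' ≠ 0 →
        ∑ l, c l * b l j = ∑ l, c l * b l j') → c = 0) ∧
      kodairaDim y w Δ = (h : WithBot ℕ) ∧
      ∀ A, Effective y A → Integral y A → numericalDim y w Δ A = (h : EReal)) ∧
    (¬ GA.Psef y w Δ → kodairaDim y w Δ = ⊥ ∧ ∀ A, Effective y A → numericalDim y w Δ A = ⊥) := by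
  classical
  have hyN := hy.normal
  have hyE := hy.effective
  rcases comm_all (M := M) hF hN hz hcomp hβ0 hβ1 hc hy with ⟨h1, h2⟩ | ⟨h1, h, p, b, h2, h3, h4, h5⟩
  · obtain ⟨htr, δ, hδ, hm, hdisc⟩ := h2
    have hn : ¬ GA.Psef y w Δ := fun hp =>
      pos_neg (GA.pos_of_psef htr (Or.inr hδ) hyN hdisc hp) hδ
    have h6 : ¬ ∃ a : ℕ, 1 ≤ a ∧ ∃ ω : (Fin w → Derivation ℂ K K) → K, ω ≠ 0 ∧
        IsSection y w a (a • Δ) ω := by
      rintro ⟨a, ha, ω, hω0, hω⟩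
      exact pos_neg (GA.pos_of_section htr hyN (Or.inr hδ) hdisc ha hω0 hω) hδ
    have h7 := neg_pair htr hyN hdisc hδ
    refine ⟨⟨fun hp => absurd hp hn, fun hp => absurd hp h6⟩, ⟨fun hp => absurd hp hn,
      fun hp => absurd h1 hp⟩, fun hp => absurd hp hn, fun _ => ⟨h7.1, fun A hA => (h7.2 A hA).2⟩⟩
  · have hd := h5.dims hyN hyE
    obtain ⟨htr, δ, ⟨hδ1, hδ2⟩, hm, hdisc⟩ := h5
    have hpos : PosB ℂ K w (fun P => ((δ P : ℚ) : ℝ)) := ⟨h, by omega, hδ1, hδ2⟩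
    have hp : GA.Psef y w Δ := psef_of_num (hd.2 0 ⟨fun _ _ => le_rfl, by simp⟩
      fun P _ => ⟨0, by simp⟩)
    have h6 : ∃ a : ℕ, 1 ≤ a ∧ ∃ ω : (Fin w → Derivation ℂ K K) → K, ω ≠ 0 ∧
        IsSection y w a (a • Δ) ω := by
      obtain ⟨a, ha, ω, hω0, hω, -⟩ := GA.exists_cov htr hyN (Or.inl hpos) hm hdisc hp
        (Z := ∅) (Or.inl fun P hP => absurd hP (Set.notMem_empty P))
      exact ⟨a, ha, ω, hω0, hω⟩
    exact ⟨⟨fun _ => h6, fun _ => hp⟩, ⟨fun _ => h1, fun _ => hp⟩,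
      fun _ => ⟨h, p, b, h2, h3, h4, hd.1, hd.2⟩, fun hnp => absurd hp hnp⟩

end

end Pool.Agent.T2H41.QB
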