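import Pool.Agent.R885.V1
import Pool.Agent.R885.U11

/-!
Piecewise linear functions, and finitely many inequalities which suffice for all members of a family
of polytopes.
-/

set_option autoImplicit false
set_option linter.overlappingInstances false
set_option linter.unusedSectionVars false

open Pool.Agent.R885 Pool.Agent.R885.N

namespace Pool.Agent.T2H41.RA

variable {r : ℕ}

/-- `Ψ` is linear on the cells of an arrangement of finitely many rational hyperplanes. -/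
def PW (Ψ : (Fin r → ℤ) → ℚ) : Prop :=
  ∃ Λ : Finset (Fin r → ℤ), ∀ v w : Fin r → ℤ,
    (∀ l ∈ Λ, (0 ≤ l ⬝ᵥ v ∧ 0 ≤ l ⬝ᵥ w) ∨ (l ⬝ᵥ v ≤ 0 ∧ l ⬝ᵥ w ≤ 0)) → Ψ (v + w) = Ψ v + Ψ w

/-- sums in one cell -/
theorem sum_cell {Ψ : (Fin r → ℤ) → ℚ} {Λ : Finset (Fin r → ℤ)}
    (h : ∀ v w : Fin r → ℤ,
      (∀ l ∈ Λ, (0 ≤ l ⬝ᵥ v ∧ 0 ≤ l ⬝ᵥ w) ∨ (l ⬝ᵥ v ≤ 0 ∧ l ⬝ᵥ w ≤ 0)) → Ψ (v + w) = Ψ v + Ψ w)
    {ι : Type} (T : Finset ι) (s : ι → Fin r → ℤ)
    (hs : ∀ l ∈ Λ, (∀ j ∈ T, 0 ≤ l ⬝ᵥ s j) ∨ ∀ j ∈ T, l ⬝ᵥ s j ≤ 0) :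
    Ψ (∑ j ∈ T, s j) = ∑ j ∈ T, Ψ (s j) := by
  classical
  induction T using Finset.induction_on with
  | empty =>
    have h1 := h 0 0 fun l _ => Or.inl ⟨by simp, by simp⟩
    rw [add_zero] at h1
    rw [Finset.sum_empty, Finset.sum_empty]
    linarith
  | insert a T ha ih =>
    rw [Finset.sum_insert ha, Finset.sum_insert ha, ← ih fun l hl => ?_]
    · refine h _ _ fun l hl => ?_
      rcases hs l hl with h1 | h1
      · left
        refine ⟨h1 a (Finset.mem_insert_self a T), ?_⟩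
        rw [dotProduct_sum]
        exact Finset.sum_nonneg fun j hj => h1 j (Finset.mem_insert_of_mem hj)
      · right
        refine ⟨h1 a (Finset.mem_insert_self a T), ?_⟩
        rw [dotProduct_sum]
        exact Finset.sum_nonpos fun j hj => h1 j (Finset.mem_insert_of_mem hj)
    · exact (hs l hl).imp (fun h1 j hj => h1 j (Finset.mem_insert_of_mem hj))
        fun h1 j hj => h1 j (Finset.mem_insert_of_mem hj)

/-- the Laurent polynomial `1 + x ^ l` -/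
noncomputable def lp (k : Type) [Field k] (l : Fin r → ℤ) : (Fin r → ℤ) →₀ k :=
  Finsupp.indicator {0, l} fun _ _ => 1

theorem mem_lp (k : Type) [Field k] (l m : Fin r → ℤ) : m ∈ (lp k l).support ↔ m = 0 ∨ m = l := by
  classical
  unfold lp
  rw [Finsupp.mem_support_iff, Finsupp.indicator_apply]
  by_cases h : m ∈ ({0, l} : Finset (Fin r → ℤ))
  · rw [dif_pos h]
    simpa using h
  · rw [dif_neg h]
    simpa using h

theorem lp_ne (k : Type) [Field k] (l : Fin r → ℤ) : lp k l ≠ 0 := by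
  intro h
  have h1 := (mem_lp k l 0).2 (Or.inl rfl)
  rw [h] at h1
  simp at h1

theorem mn_lp (k : Type) [Field k] (l v : Fin r → ℤ) : mn v (lp k l) = min 0 (l ⬝ᵥ v) := by
  apply le_antisymm
  · refine le_min ?_ ?_
    · have h1 := mn_le (v := v) ((mem_lp k l 0).2 (Or.inl rfl))
      rwa [zero_dotProduct] at h1
    · exact mn_le ((mem_lp k l l).2 (Or.inr rfl))
  · refine le_mn (lp_ne k l) fun m hm => ?_
    rcases (mem_lp k l m).1 hm with h1 | h1
    · rw [h1, zero_dotProduct]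
      exact min_le_left _ _
    · rw [h1]
      exact min_le_right _ _

theorem same_sign {ι : Type} (T : Finset ι) (a : ι → ℤ)
    (h : min 0 (∑ j ∈ T, a j) = ∑ j ∈ T, min 0 (a j)) :
    (∀ j ∈ T, 0 ≤ a j) ∨ ∀ j ∈ T, a j ≤ 0 := by
  rcases le_total 0 (∑ j ∈ T, a j) with h1 | h1
  · left
    rw [min_eq_left h1] at h
    have h2 := (Finset.sum_eq_zero_iff_of_nonpos fun j _ => min_le_left 0 (a j)).1 h.symm
    intro j hj
    exact min_eq_left_iff.1 (h2 j hj)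
  · right
    rw [min_eq_right h1] at h
    have h2 : ∑ j ∈ T, (a j - min 0 (a j)) = 0 := by
      rw [Finset.sum_sub_distrib, h, sub_self]
    have h3 := (Finset.sum_eq_zero_iff_of_nonneg fun j _ => sub_nonneg.2 (min_le_right 0 (a j))).1
      h2
    intro j hj
    have h4 := h3 j hj
    have h5 := min_le_left 0 (a j)
    omega

variable {k : Type} [Field k] {J : Type} [Fintype J] {f : J → (Fin r → ℤ) →₀ k} {s : ℕ}

/-- the linear combination of the functions `A i` with the coefficients `t i` -/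
def lc {α : Type} (A : Fin s → α → ℚ) (t : Fin s → ℚ) : α → ℚ := fun v => ∑ i, t i * A i v

/-- Finitely many vectors suffice, uniformly in `ε` and in the parameter `t`. -/
theorem fin_redU {A Ψ : Fin s → (Fin r → ℤ) → ℚ} (hf0 : ∀ l, f l ≠ 0)
    (hA : ∀ i, (Set.range (A i)).Finite) (hΨ : ∀ i, PW (Ψ i)) :
    ∃ V0 : Finset (Fin r → ℤ), (∀ v ∈ V0, v ≠ 0) ∧ ∀ t : Fin s → ℚ,
      (∀ v, v ≠ 0 → 0 ≤ lc A t v) → PLin (lc Ψ t) → ∀ (u : Fin r → ℚ) (ε : ℚ), 0 ≤ ε →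
      (∀ v ∈ V0, lc A t v + (lc Ψ t v - ε * n1 v) + ∑ l, (mn v (f l) : ℚ) ≤ dq u v) →
      ∀ v, v ≠ 0 → lc A t v + (lc Ψ t v - ε * n1 v) + ∑ l, (mn v (f l) : ℚ) ≤ dq u v := by
  classical
  choose Λ0 hΛ0 using hΨ
  obtain ⟨Λ, hΛ⟩ : ∃ Λ : Finset (Fin r → ℤ), Λ = Finset.univ.biUnion Λ0 := ⟨_, rfl⟩
  obtain ⟨g, hg⟩ : ∃ g : J ⊕ ({l // l ∈ Λ} ⊕ Fin r) → (Fin r → ℤ) →₀ k,
    g = Sum.elim f (Sum.elim (fun l => lp k l.1) fun i => v1_h k i) := ⟨_, rfl⟩
  have hg0 : ∀ l, g l ≠ 0 := by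
    rintro (l | l | l)
    · rw [hg]
      exact hf0 l
    · rw [hg]
      exact lp_ne k l.1
    · rw [hg]
      exact v1_h_ne l
  have hgU : ∀ v : Fin r → ℤ, (∀ l, ∀ m ∈ (g l).support, ∀ m' ∈ (g l).support,
      m ⬝ᵥ v = m' ⬝ᵥ v) → v = 0 := by
    intro v hv
    funext i
    have h1 := hv (Sum.inr (Sum.inr i)) (Pi.single i 1) (by rw [hg]; exact v1_mem1 i)
      (-Pi.single i 1) (by rw [hg]; exact v1_mem2 i)
    rw [neg_dotProduct, single_one_dotProduct] at h1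
    rw [Pi.zero_apply]
    omega
  obtain ⟨C, _, M, hM0, hM⟩ := u7_dec hg0 hgU
  obtain ⟨Lab, hLab⟩ : ∃ Lab : Finset (Fin s → ℚ),
    Lab = Fintype.piFinset fun i => (hA i).toFinset := ⟨_, rfl⟩
  obtain ⟨P, hP⟩ : ∃ P : (a : C) → (Fin s → ℚ) → ({m // m ∈ M a} → ℕ) → Prop, ∀ a α c,
      P a α c ↔ (∑ m : {m // m ∈ M a}, c m • m.1 ≠ 0 ∧
        (fun i => A i (∑ m : {m // m ∈ M a}, c m • m.1)) = α) := ⟨fun a α c => _, fun _ _ _ => Iff.rfl⟩
  have hfin : ∀ a α, {c | Minimal (P a α) c}.Finite := fun a α =>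
    WellQuasiOrderedLE.finite_of_isAntichain (setOfPred_minimal_antichain _)
  refine ⟨(Finset.univ.biUnion fun a : C => M a) ∪ (Finset.univ.biUnion fun a : C =>
    Lab.biUnion fun α => (hfin a α).toFinset.image
      fun c => ∑ m : {m // m ∈ M a}, c m • m.1), fun v hv => ?_,
    fun t A0 P0 u ε hε hV v hv => ?_⟩
  · rw [Finset.mem_union] at hv
    rcases hv with hv | hv
    · rw [Finset.mem_biUnion] at hv
      obtain ⟨a, _, ha⟩ := hv
      exact hM0 a v ha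
    · rw [Finset.mem_biUnion] at hv
      obtain ⟨a, _, hv⟩ := hv
      rw [Finset.mem_biUnion] at hv
      obtain ⟨α, _, hv⟩ := hv
      rw [Finset.mem_image] at hv
      obtain ⟨c, hc, rfl⟩ := hv
      rw [Set.Finite.mem_toFinset] at hc
      exact ((hP a α c).1 hc.1).1
  obtain ⟨φ, hφ⟩ : ∃ φ : (Fin r → ℤ) → ℚ, ∀ w, φ w = dq u w - (lc Ψ t w - ε * n1 w) -
    ∑ l, (mn w (f l) : ℚ) := ⟨_, fun _ => rfl⟩
  obtain ⟨a, n, s', hn, hs, hsv, hsl⟩ := hM v hv
  obtain ⟨s'', hs''⟩ : ∃ s'' : Fin n → {m // m ∈ M a}, ∀ j, (s'' j).1 = s' j :=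
    ⟨fun j => ⟨s' j, hs j⟩, fun _ => rfl⟩
  obtain ⟨c, hc⟩ : ∃ c : {m // m ∈ M a} → ℕ, ∀ m, c m =
    (Finset.univ.filter fun j => s'' j = m).card := ⟨_, fun _ => rfl⟩
  have hvc : ∑ m : {m // m ∈ M a}, c m • m.1 = v := by
    have h1 := v1_countv s'' (fun m => m.1)
    simp only [hs'', ← hc] at h1
    rw [← h1, hsv]
  -- additivity of `φ`
  have hmnf : ∀ l, mn v (f l) = ∑ j, mn (s' j) (f l) := by
    intro l
    have := hsl (Sum.inl l)
    rw [hg] at this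
    exact this
  have hmnh : ∀ i, mn v (v1_h k i) = ∑ j, mn (s' j) (v1_h k i) := by
    intro i
    have := hsl (Sum.inr (Sum.inr i))
    rw [hg] at this
    exact this
  have hcell : ∀ l ∈ Λ, (∀ j ∈ Finset.univ, 0 ≤ l ⬝ᵥ s' j) ∨ ∀ j ∈ Finset.univ, l ⬝ᵥ s' j ≤ 0 := by
    intro l hl
    apply same_sign
    have := hsl (Sum.inr (Sum.inl ⟨l, hl⟩))
    rw [hg] at this
    simp only [Sum.elim_inr, Sum.elim_inl, mn_lp] at this
    rw [← this, ← hsv, dotProduct_sum]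
  have hadd : φ v = ∑ j, φ (s' j) := by
    simp only [hφ]
    rw [Finset.sum_sub_distrib, Finset.sum_sub_distrib, Finset.sum_sub_distrib]
    have e1 : dq u v = ∑ j, dq u (s' j) := by rw [← hsv, u7_dq_sum]
    have e2 : lc Ψ t v = ∑ j, lc Ψ t (s' j) := by
      unfold lc
      rw [Finset.sum_comm]
      refine Finset.sum_congr rfl fun i _ => ?_
      rw [← Finset.mul_sum, ← hsv, sum_cell (hΛ0 i) Finset.univ s' fun l hl => hcell l (by
        rw [hΛ]
        exact Finset.mem_biUnion.2 ⟨i, Finset.mem_univ i, hl⟩)]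
    have e3 : n1 v = ∑ j, n1 (s' j) := by
      rw [v1_n1 (k := k)]
      simp only [v1_n1 (k := k) (s' _)]
      rw [Finset.sum_neg_distrib, Finset.sum_comm]
      congr 1
      refine Finset.sum_congr rfl fun i _ => ?_
      rw [hmnh]
      push_cast
      rfl
    have e4 : ∑ l, (mn v (f l) : ℚ) = ∑ j, ∑ l, (mn (s' j) (f l) : ℚ) := by
      rw [Finset.sum_comm]
      refine Finset.sum_congr rfl fun l _ => ?_
      rw [hmnf]
      push_cast
      rfl
    rw [e1, e2, e3, e4, Finset.mul_sum]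
  have hadd' : φ v = ∑ m : {m // m ∈ M a}, (c m : ℚ) * φ m.1 := by
    have h1 := v1_count s'' (fun m => φ m.1)
    simp only [hs'', ← hc] at h1
    rw [← h1, hadd]
  -- superadditivity
  have hsup : ∀ b : {m // m ∈ M a} → ℕ, φ (∑ m : {m // m ∈ M a}, b m • m.1) ≤
      ∑ m : {m // m ∈ M a}, (b m : ℚ) * φ m.1 := by
    intro b
    have e1 := v1_dq_smul u (fun m : {m // m ∈ M a} => m.1) b
    have e2 : ∑ m : {m // m ∈ M a}, (b m : ℚ) * lc Ψ t m.1 ≤
        lc Ψ t (∑ m : {m // m ∈ M a}, b m • m.1) := by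
      refine le_trans (le_of_eq ?_) (P0.sum_le Finset.univ fun m : {m // m ∈ M a} => b m • m.1)
      refine Finset.sum_congr rfl fun m _ => ?_
      have h7 := P0.zsmul (g := (b m : ℤ)) (Int.natCast_nonneg _) m.1
      rw [natCast_zsmul] at h7
      rw [h7]
      push_cast
      rfl
    have e3 : n1 (∑ m : {m // m ∈ M a}, b m • m.1) ≤ ∑ m : {m // m ∈ M a}, (b m : ℚ) * n1 m.1 := by
      refine (n1_sum _ _).trans (le_of_eq ?_)
      refine Finset.sum_congr rfl fun m _ => ?_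
      rw [← natCast_zsmul, n1_smul]
      simp
    have e4 : ∑ m : {m // m ∈ M a}, (b m : ℚ) * ∑ l, (mn m.1 (f l) : ℚ) ≤
        ∑ l, (mn (∑ m : {m // m ∈ M a}, b m • m.1) (f l) : ℚ) := by
      simp only [Finset.mul_sum]
      rw [Finset.sum_comm]
      refine Finset.sum_le_sum fun l _ => ?_
      have h1 := v1_mn_sup (hf0 l) (fun m : {m // m ∈ M a} => m.1) b
      exact_mod_cast h1
    have e5 := mul_le_mul_of_nonneg_left e3 hε
    have e6 : ∑ m : {m // m ∈ M a}, (b m : ℚ) * φ m.1 =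
        ∑ m : {m // m ∈ M a}, (b m : ℚ) * dq u m.1 -
          (∑ m : {m // m ∈ M a}, (b m : ℚ) * lc Ψ t m.1 -
          ε * ∑ m : {m // m ∈ M a}, (b m : ℚ) * n1 m.1) -
          ∑ m : {m // m ∈ M a}, (b m : ℚ) * ∑ l, (mn m.1 (f l) : ℚ) := by
      rw [Finset.mul_sum, ← Finset.sum_sub_distrib, ← Finset.sum_sub_distrib,
        ← Finset.sum_sub_distrib]
      refine Finset.sum_congr rfl fun m _ => ?_
      rw [hφ]
      ring
    rw [e6, hφ, e1]
    linarith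
  have hVφ : ∀ w, w ≠ 0 → w ∈ ((Finset.univ.biUnion fun a : C => M a) ∪
      (Finset.univ.biUnion fun a : C => Lab.biUnion fun α =>
        (hfin a α).toFinset.image fun c => ∑ m : {m // m ∈ M a}, c m • m.1)) →
        lc A t w ≤ φ w := by
    intro w _ hw
    have := hV w hw
    rw [hφ]
    linarith
  have hm0 : ∀ m : {m // m ∈ M a}, 0 ≤ φ m.1 := by
    intro m
    have h0 := hM0 a m.1 m.2
    refine (A0 _ h0).trans (hVφ _ h0 ?_)
    rw [Finset.mem_union]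
    left
    rw [Finset.mem_biUnion]
    exact ⟨a, Finset.mem_univ a, m.2⟩
  -- the value of `A`
  have hPc : P a (fun i => A i v) c := by
    rw [hP, hvc]
    exact ⟨hv, rfl⟩
  obtain ⟨b, hbc, hb⟩ := exists_minimal_le_of_wellFoundedLT (P a fun i => A i v) c hPc
  have hPb := (hP _ _ _).1 hb.1
  have hAb : lc A t (∑ m : {m // m ∈ M a}, b m • m.1) = lc A t v := by
    unfold lc
    refine Finset.sum_congr rfl fun i _ => ?_
    rw [congrFun hPb.2 i]
  have hb1 : lc A t (∑ m : {m // m ∈ M a}, b m • m.1) ≤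
      φ (∑ m : {m // m ∈ M a}, b m • m.1) := by
    refine hVφ _ hPb.1 ?_
    rw [Finset.mem_union]
    right
    rw [Finset.mem_biUnion]
    refine ⟨a, Finset.mem_univ a, ?_⟩
    rw [Finset.mem_biUnion]
    refine ⟨fun i => A i v, ?_, ?_⟩
    · rw [hLab, Fintype.mem_piFinset]
      intro i
      exact (Set.Finite.mem_toFinset _).2 ⟨v, rfl⟩
    rw [Finset.mem_image]
    exact ⟨b, (Set.Finite.mem_toFinset _).2 hb, rfl⟩
  have hb2 : ∑ m : {m // m ∈ M a}, (b m : ℚ) * φ m.1 ≤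
      ∑ m : {m // m ∈ M a}, (c m : ℚ) * φ m.1 := by
    refine Finset.sum_le_sum fun m _ => ?_
    have : (b m : ℚ) ≤ c m := by exact_mod_cast hbc m
    exact mul_le_mul_of_nonneg_right this (hm0 m)
  have hfinal : lc A t v ≤ φ v := by
    rw [← hAb, hadd']
    exact hb1.trans ((hsup b).trans hb2)
  rw [hφ] at hfinal
  linarith

end Pool.Agent.T2H41.RA
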