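import Pool.Agent.R885.V10
import Pool.Agent.T2H41.RA

/-!
The step of the induction, with circuits in a given finite set.
-/

set_option autoImplicit false
set_option linter.overlappingInstances false
set_option linter.unusedSectionVars false

open FF IntermediateField Pool.Agent.W603.LV Pool.Agent.W619.PQ Pool.Agent.W619.PL
  Pool.Agent.Y173.QA Pool.Agent.W619.TW Pool.Agent.TH165.ACC Pool.Agent.TH122.AB
  Pool.Agent.W619.Y Pool.Agent.W824.PG Pool.Agent.Y174 Pool.Agent.R885 Pool.Agent.R885.N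

namespace Pool.Agent.T2H41.RA

section

variable {r : ℕ}

/-- finitely many conditions on small positive numbers -/
theorem rb_delta {α : Type} (V : Finset α) (P : α → ℚ → Prop)
    (h : ∀ v ∈ V, ∃ δ0 : ℚ, 0 < δ0 ∧ ∀ δ : ℚ, 0 < δ → δ ≤ δ0 → P v δ) :
    ∃ δ0 : ℚ, 0 < δ0 ∧ ∀ δ : ℚ, 0 < δ → δ ≤ δ0 → ∀ v ∈ V, P v δ := by
  classical
  induction V using Finset.induction_on with
  | empty => exact ⟨1, one_pos, fun δ _ _ v hv => absurd hv (Finset.notMem_empty v)⟩
  | insert a V ha ih =>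
    obtain ⟨δ1, h1, h1'⟩ := h a (Finset.mem_insert_self a V)
    obtain ⟨δ2, h2, h2'⟩ := ih fun v hv => h v (Finset.mem_insert_of_mem hv)
    refine ⟨min δ1 δ2, lt_min h1 h2, fun δ hδ hδ' v hv => ?_⟩
    rcases Finset.mem_insert.1 hv with rfl | hv
    · exact h1' δ hδ (hδ'.trans (min_le_left _ _))
    · exact h2' δ hδ (hδ'.trans (min_le_right _ _)) v hv

theorem rb_pert {V0 : Finset (Fin r → ℤ)} {Φ : (Fin r → ℤ) → ℚ} {u q : Fin r → ℚ}
    (hu : ∀ v ∈ V0, Φ v ≤ dq u v) (hq : ∀ v ∈ V0, Φ v = dq u v → 0 ≤ dq q v) :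
    ∃ δ0 : ℚ, 0 < δ0 ∧ ∀ δ : ℚ, 0 < δ → δ ≤ δ0 →
      ∀ v ∈ V0, Φ v ≤ dq (fun i => u i + δ * q i) v := by
  refine rb_delta V0 (fun v δ => Φ v ≤ dq (fun i => u i + δ * q i) v) fun v hv => ?_
  by_cases h : Φ v = dq u v
  · refine ⟨1, one_pos, fun δ hδ _ => ?_⟩
    rw [dq_add_smul, h]
    have := mul_nonneg hδ.le (hq v hv h)
    linarith
  · have h1 : 0 < dq u v - Φ v := by
      have := lt_of_le_of_ne (hu v hv) h
      linarith
    refine ⟨(dq u v - Φ v) / (|dq q v| + 1), by positivity, fun δ hδ hδ' => ?_⟩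
    rw [dq_add_smul]
    have h2 : δ * (|dq q v| + 1) ≤ dq u v - Φ v := by
      rwa [le_div_iff₀ (by positivity)] at hδ'
    have h3 := mul_le_mul_of_nonneg_left (neg_abs_le (dq q v)) hδ.le
    linarith

/-- the point with the fewest tight vectors -/
theorem rb_rat {V0 : Finset (Fin r → ℤ)} {Φ : (Fin r → ℤ) → ℚ} {F : Set (Fin r → ℚ)}
    (hF : ∀ u, u ∈ F ↔ ∀ v ∈ V0, Φ v ≤ dq u v) (hne : F.Nonempty) :
    ∃ (u : Fin r → ℚ) (S0 : Finset (Fin r → ℤ)), u ∈ F ∧ S0 ⊆ V0 ∧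
      (∀ u' ∈ F, ∀ s ∈ S0, dq u' s = Φ s) ∧
      ∀ q : Fin r → ℚ, (∀ s ∈ S0, 0 ≤ dq q s) → ∃ δ0 : ℚ, 0 < δ0 ∧
        ∀ δ : ℚ, 0 < δ → δ ≤ δ0 → (fun i => u i + δ * q i) ∈ F := by
  classical
  obtain ⟨u, hu, hmin⟩ : ∃ u ∈ F, ∀ u' ∈ F, (V0.filter fun v => Φ v = dq u v).card ≤
      (V0.filter fun v => Φ v = dq u' v).card := by
    have h1 : ∃ n, ∃ u ∈ F, (V0.filter fun v => Φ v = dq u v).card = n := by
      obtain ⟨u, hu⟩ := hne
      exact ⟨_, u, hu, rfl⟩
    obtain ⟨u, hu, hun⟩ := Nat.find_spec h1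
    refine ⟨u, hu, fun u' hu' => ?_⟩
    rw [hun]
    exact Nat.find_min' h1 ⟨u', hu', rfl⟩
  refine ⟨u, V0.filter fun v => Φ v = dq u v, hu, Finset.filter_subset _ _, ?_, ?_⟩
  · intro u' hu' s hs
    have hdm : ∀ v, dq (fun i => u i + 1 / 2 * (u' i - u i)) v = (dq u v + dq u' v) / 2 := by
      intro v
      rw [dq_add_smul]
      have h2 : dq (fun i => u' i - u i) v = dq u' v - dq u v := by
        unfold dq
        rw [← Finset.sum_sub_distrib]
        exact Finset.sum_congr rfl fun i _ => by ring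
      rw [h2]
      ring
    have h1 := (hF u).1 hu
    have h2 := (hF u').1 hu'
    have hmid : (fun i => u i + 1 / 2 * (u' i - u i)) ∈ F := by
      rw [hF]
      intro v hv
      rw [hdm]
      have := h1 v hv
      have := h2 v hv
      linarith
    have hsub : (V0.filter fun v => Φ v = dq (fun i => u i + 1 / 2 * (u' i - u i)) v) ⊆
        V0.filter fun v => Φ v = dq u v := by
      intro v hv
      obtain ⟨hv0, hv1⟩ := Finset.mem_filter.1 hv
      refine Finset.mem_filter.2 ⟨hv0, ?_⟩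
      rw [hdm] at hv1
      have := h1 v hv0
      have := h2 v hv0
      linarith
    have heq := Finset.eq_of_subset_of_card_le hsub (hmin _ hmid)
    have hs' := hs
    rw [← heq] at hs'
    have h3 := (Finset.mem_filter.1 hs').2
    have h4 := (Finset.mem_filter.1 hs).2
    rw [hdm] at h3
    linarith
  · intro q hq
    obtain ⟨δ0, h0, h1⟩ := rb_pert ((hF u).1 hu) (q := q)
      (fun v hv hv' => hq v (Finset.mem_filter.2 ⟨hv, hv'⟩))
    exact ⟨δ0, h0, fun δ hδ hδ' => (hF _).2 (h1 δ hδ hδ')⟩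

theorem rb_dq_neg (q : Fin r → ℚ) (v : Fin r → ℤ) :
    dq (fun i => -q i) v = -dq q v := by
  unfold dq
  rw [← Finset.sum_neg_distrib]
  exact Finset.sum_congr rfl fun i _ => by ring

end

/-- **The step of the induction**, with circuits in `V0`. -/
theorem stepU {k K : Type} [Field k] [CharZero k] [Field K] [Algebra k K] {n : ℕ}
    {β : Place k K → ℝ} {r q : ℕ} {J' : Type} [Fintype J'] {x : Fin r → K}
    {f : Fin q → (Fin r → ℤ) →₀ k} {y : J' → K} {cw : J' → ℚ} {A Ψ : (Fin r → ℤ) → ℚ}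
    [IsAlgClosed k] (hn : 1 ≤ n) (htr : Algebra.trdeg k K = (n : ℕ))
    (hB : VSys n β x f y cw A Ψ) {V0 : Finset (Fin r → ℤ)} (hV0 : ∀ v ∈ V0, v ≠ 0)
    (hred : ∀ (u : Fin r → ℚ) (ε : ℚ), 0 ≤ ε →
      (∀ v ∈ V0, A v + (Ψ v - ε * n1 v) + ∑ l, (mn v (f l) : ℚ) ≤ dq u v) →
      ∀ v, v ≠ 0 → A v + (Ψ v - ε * n1 v) + ∑ l, (mn v (f l) : ℚ) ≤ dq u v) :
    (FineG A Ψ f).Nonempty ∨ NegB k K n β ∨ ∃ (m : ℕ) (s : Fin (m + 1) → Fin r → ℤ),
      1 ≤ m ∧ (∀ a, s a ∈ V0) ∧ Exc x f s ∧ SubD f A Ψ s := by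
  classical
  have hr := hB.hr
  have hx := hB.hx
  have hgen := hB.hgen
  have hf := hB.hf
  have hnd := hB.hnd
  have hf0 := hn_ne0 hnd hf
  have hli := hn_ne hnd hf
  have hK0 : CharZero K := charZero_of_injective_algebraMap (algebraMap k K).injective
  obtain ⟨ε, hε0, hF, hmax⟩ := exists_epsV hf0 hB.A0 hB.A1 hB.AD hB.P0
  have htrE : ∀ E : IntermediateField k K, ∃ d : ℕ, d ≤ n ∧ Algebra.trdeg k E = (d : ℕ) := by
    intro E
    have h1 : Algebra.trdeg k E ≤ n := by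
      rw [← htr]
      exact trdeg_le_of_injective E.val E.val.injective
    obtain ⟨d, hd⟩ := Cardinal.lt_aleph0.1 (h1.trans_lt Cardinal.natCast_lt_aleph0)
    refine ⟨d, ?_, hd⟩
    rw [hd] at h1
    exact_mod_cast h1
  rcases hε0.lt_or_eq with hε | hε
  swap
  · left
    have h1 : (fun v => Ψ v - ε * n1 v) = Ψ := by
      funext v
      rw [← hε, zero_mul, sub_zero]
    rw [h1] at hF
    exact hF
  right
  obtain ⟨d, hdn, hd⟩ := htrE (IntermediateField.adjoin k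
    {z : K | ∃ w ∈ dirsG A (fun v => Ψ v - ε * n1 v) f, z = mono x w})
  rcases hdn.lt_or_eq with hdlt | hdeq
  · left
    exact hB.neg hn htr hε hF hdlt hd
  right
  rw [hdeq] at hd
  -- the tight vectors
  let Φ : (Fin r → ℤ) → ℚ := fun v => A v + (Ψ v - ε * n1 v) + ∑ l, (mn v (f l) : ℚ)
  have hΦ : ∀ v, Φ v = A v + (Ψ v - ε * n1 v) + ∑ l, (mn v (f l) : ℚ) := fun v => rfl
  have hFV : ∀ u, u ∈ FineG A (fun v => Ψ v - ε * n1 v) f ↔ ∀ v ∈ V0, Φ v ≤ dq u v := by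
    intro u
    constructor
    · intro hu v hv
      exact hu v (hV0 v hv)
    · intro hu v hv
      exact hred u ε hε0 (fun v hv => hu v hv) v hv
  obtain ⟨u, S0, huF, hS0V, hconst, hpert⟩ := rb_rat hFV hF
  have hS0 : ∀ s ∈ S0, s ≠ 0 := fun s hs => hV0 s (hS0V hs)
  have hFu : ∀ v, v ≠ 0 → A v + (Ψ v - ε * n1 v) + ∑ l, (mn v (f l) : ℚ) ≤ dq u v :=
    fun v hv => huF v hv
  have hpos0 : ∀ q : Fin r → ℚ, (∀ s ∈ S0, 0 ≤ dq q s) → ∀ s ∈ S0, dq q s = 0 := by
    intro q hq s hs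
    obtain ⟨δ, hδ, h1⟩ := hpert q hq
    have h2 := hconst _ (h1 δ hδ le_rfl) s hs
    rw [dq_add_smul, hconst u huF s hs] at h2
    have h3 : δ * dq q s = 0 := by linarith
    exact (mul_eq_zero.1 h3).resolve_left hδ.ne'
  have horth1 : ∀ q : Fin r → ℚ, (∀ s ∈ S0, 0 ≤ dq q s) → ∀ v, v ≠ 0 → dq u v = Φ v →
      0 ≤ dq q v := by
    intro q hq v hv hv1
    obtain ⟨δ, hδ, h1⟩ := hpert q hq
    have h2 : Φ v ≤ _ := h1 δ hδ le_rfl v hv
    rw [dq_add_smul, hv1] at h2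
    have h3 : 0 ≤ δ * dq q v := by linarith
    exact nonneg_of_mul_nonneg_right h3 hδ
  have horth : ∀ q : Fin r → ℚ, (∀ s ∈ S0, dq q s = 0) → ∀ v, v ≠ 0 → dq u v = Φ v →
      dq q v = 0 := by
    intro q hq v hv hv1
    have h1 := horth1 q (fun s hs => (hq s hs).ge) v hv hv1
    have h2 := horth1 (fun i => -q i) (fun s hs => by rw [rb_dq_neg, hq s hs, neg_zero]) v hv hv1
    rw [rb_dq_neg] at h2
    linarith
  have hqint : ∀ (w : Fin r → ℤ) (s : Fin r → ℤ), w ⬝ᵥ s = 0 ↔ dq (fun i => (w i : ℚ)) s = 0 := by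
    intro w s
    rw [dq_int]
    exact_mod_cast Iff.rfl
  have hdirs : ∀ w ∈ dirsG A (fun v => Ψ v - ε * n1 v) f, ∀ s ∈ S0, w ⬝ᵥ s = 0 := by
    rintro w ⟨y, hy, N, hN, hyN⟩ s hs
    have h1 := hconst y hy s hs
    have h2 := hconst _ hyN s hs
    have h3 : dq (fun i => y i + (w i : ℚ) / N) s = dq y s + (1 / (N : ℚ)) *
        dq (fun i => (w i : ℚ)) s := by
      rw [← dq_add_smul]
      congr 1
      funext i
      ring
    rw [h3, h1] at h2
    have hN' : (0 : ℚ) < N := by exact_mod_cast hN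
    have h4 : (1 / (N : ℚ)) * dq (fun i => (w i : ℚ)) s = 0 := by linarith
    rw [hqint]
    exact (mul_eq_zero.1 h4).resolve_left (by positivity)
  have hSne : S0.Nonempty := by
    by_contra hcon
    rw [Finset.not_nonempty_iff_eq_empty] at hcon
    obtain ⟨v, hv, hvt⟩ := hmax hε u huF
    have h3 : dq (fun i => (v i : ℚ)) v = 0 := horth _ (fun s hs => by
      rw [hcon] at hs
      exact absurd hs (Finset.notMem_empty _)) v hv hvt
    rw [← hqint] at h3
    exact hv (dotProduct_self_eq_zero.1 h3)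
  obtain ⟨m, s, c', hm, hsS, hrel, huniq⟩ := exists_circuit hS0 hSne hpos0
  have hlis := circ_li (fun i => (hsS i).2) huniq
  -- the monomials
  obtain ⟨Y, hYG, hYind, -⟩ := exists_mono_basis hd
  choose w hw hwY using hYG
  have hYw : Y = fun j => mono x (w j) := funext hwY
  rw [hYw] at hYind
  have hws : ∀ j i, w j ⬝ᵥ s i = 0 := fun j i => hdirs (w j) (hw j) (s i) (hsS i).1
  have heta : ∀ (N : ℕ) (s' : Fin N → Fin r → ℤ) (c : Fin N → K), (∀ j i, w j ⬝ᵥ s' i = 0) →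
      (∀ l, ∑ j, gr x (f l) j * (∑ i, c i * (s' i j : K)) = 0) →
      (fun j => ∑ i, c i * (s' i j : K)) = 0 := by
    intro N s' c hws' h1
    refine eta_zero htr hx hgen (J := Fin q) (by rw [Fintype.card_fin, hr, add_comm]) hf hli hYind
      h1 fun j => ?_
    have h2 : ∑ i, (w j i : K) * ∑ i', c i' * (s' i' i : K) =
        ∑ i', c i' * ((w j ⬝ᵥ s' i' : ℤ) : K) := by
      simp only [Finset.mul_sum]
      rw [Finset.sum_comm]
      refine Finset.sum_congr rfl fun i' _ => ?_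
      rw [← dot_intCast, Finset.mul_sum]
      exact Finset.sum_congr rfl fun i _ => by ring
    rw [h2]
    exact Finset.sum_eq_zero fun i' _ => by rw [hws', Int.cast_zero, mul_zero]
  have hcardf := card_JC hf hlis fun c hc => heta m (fun i => s i.succ) c
    (fun j i => hws j i.succ) hc
  have hsu : ∀ i, dq u (s i) =
      A (s i) + (Ψ (s i) - ε * n1 (s i)) + ∑ l, (mn (s i) (f l) : ℚ) :=
    fun i => hconst u huF _ (hsS i).1
  obtain ⟨h1, h2, h3, hsub⟩ := exc_arithV hf0 hm (fun i => (hsS i).2) hrel huniq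
    hB.A0 hB.A1 hB.P0 hB.AP hε hFu hsu hcardf
  refine ⟨m, s, hm, fun a => hS0V (hsS a).1, ⟨hx, hf, h1, h2, h3, fun c hc => ?_⟩, hsub⟩
  have h5 := heta (m + 1) s c hws hc
  have h6 := Fintype.linearIndependent_iff.1 (li_field (F := K) hlis)
    (fun i => c i.succ - c 0) (by
      funext j
      rw [Finset.sum_apply]
      have h7 := congrFun h5 j
      beta_reduce at h7
      rw [Fin.sum_univ_succ, Pi.zero_apply] at h7
      have h8 : (s 0 j : K) + ∑ i : Fin m, (s i.succ j : K) = 0 := by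
        have h9 := congrFun h1 j
        rw [Finset.sum_apply, Fin.sum_univ_succ, Pi.zero_apply] at h9
        exact_mod_cast h9
      have h9 : ∑ i : Fin m, (c i.succ - c 0) * (s i.succ j : K) =
          ∑ i : Fin m, c i.succ * (s i.succ j : K) - c 0 * ∑ i : Fin m, (s i.succ j : K) := by
        rw [Finset.mul_sum, ← Finset.sum_sub_distrib]
        exact Finset.sum_congr rfl fun i _ => by ring
      change ∑ i : Fin m, (c i.succ - c 0) * (s i.succ j : K) = 0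
      rw [h9]
      linear_combination h7 - c 0 * h8)
  intro i
  refine Fin.cases rfl (fun i => ?_) i
  exact sub_eq_zero.1 (h6 i)

end Pool.Agent.T2H41.RA
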