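import Pool.Agent.T2H41.RC

/-!
The finite tree of the eliminations for a family of systems.
-/

set_option autoImplicit false
set_option linter.overlappingInstances false
set_option linter.unusedSectionVars false

open FF Pool.Agent.W603.LV Pool.Agent.W619.PQ Pool.Agent.R885 Pool.Agent.R885.N

namespace Pool.Agent.T2H41.RA

section

variable {r r' m : ℕ} {k : Type} [Field k]

theorem exists_fun (F : (Fin r' → ℤ) →+ ℤ) : ∃ l : Fin r' → ℤ, ∀ w, F w = l ⬝ᵥ w := by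
  classical
  refine ⟨fun j => F (Pi.single j 1), fun w => ?_⟩
  have h1 : w = ∑ j, w j • (Pi.single j 1 : Fin r' → ℤ) := by
    funext i
    rw [Finset.sum_apply, Finset.sum_eq_single i]
    · simp
    · intro j _ hj
      rw [Pi.smul_apply, Pi.single_eq_of_ne hj.symm, smul_zero]
    · intro h
      exact absurd (Finset.mem_univ i) h
  conv_lhs => rw [h1]
  rw [map_sum]
  unfold dotProduct
  refine Finset.sum_congr rfl fun j _ => ?_
  rw [map_zsmul, smul_eq_mul, mul_comm]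

/-- piecewise linear functions and elimination -/
theorem PW.new {Ψ : (Fin r → ℤ) → ℚ} (hΨ : PW Ψ) (L : (Fin r' → ℤ) →+ (Fin r → ℤ))
    {Δ : Fin (m + 1) → (Fin r → ℤ) →₀ k} (hΔ : ∀ a, Δ a ≠ 0) (s : Fin (m + 1) → Fin r → ℤ)
    (lam : Fin (m + 1) → ℚ) :
    PW fun w => Ψ (v0f L Δ s w) + ∑ a, lam a * (dlt L Δ a w : ℚ) := by
  classical
  obtain ⟨Λ, hΛ⟩ := hΨ
  -- the functionals
  have hd : ∀ m0 : Fin r → ℤ, ∃ l : Fin r' → ℤ, ∀ w, m0 ⬝ᵥ L w = l ⬝ᵥ w := fun m0 => by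
    obtain ⟨l, hl⟩ := exists_fun (AddMonoidHom.mk' (fun w => m0 ⬝ᵥ L w) fun v w => by
      rw [map_add, dotProduct_add])
    exact ⟨l, fun w => hl w⟩
  choose Lt hLt using hd
  let Ch := (a : Fin (m + 1)) → {m0 // m0 ∈ (Δ a).support}
  obtain ⟨Fc, hFc⟩ : ∃ Fc : Ch → (Fin r → ℤ) → Fin r' → ℤ,
      Fc = fun c l => Lt l + ∑ a, (l ⬝ᵥ s a) • Lt (c a) := ⟨_, rfl⟩
  have hFc' : ∀ c l w, Fc c l ⬝ᵥ w = l ⬝ᵥ L w + ∑ a, (l ⬝ᵥ s a) * ((c a : Fin r → ℤ) ⬝ᵥ L w) := by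
    intro c l w
    rw [hFc]
    beta_reduce
    rw [add_dotProduct, ← hLt, sum_dotProduct]
    congr 1
    refine Finset.sum_congr rfl fun a _ => ?_
    rw [smul_dotProduct, smul_eq_mul, ← hLt]
  refine ⟨(Finset.univ.biUnion fun a : Fin (m + 1) => ((Δ a).support ×ˢ (Δ a).support).image
    fun p => Lt (p.1 - p.2)) ∪ (Finset.univ.biUnion fun c : Ch => Λ.image fun l => Fc c l),
    fun v w hvw => ?_⟩
  have h1 : ∀ (a : Fin (m + 1)) (m1 m2 : Fin r → ℤ), m1 ∈ (Δ a).support → m2 ∈ (Δ a).support →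
      (0 ≤ (m1 - m2) ⬝ᵥ L v ∧ 0 ≤ (m1 - m2) ⬝ᵥ L w) ∨
        ((m1 - m2) ⬝ᵥ L v ≤ 0 ∧ (m1 - m2) ⬝ᵥ L w ≤ 0) := by
    intro a m1 m2 hm1 hm2
    rw [hLt, hLt]
    refine hvw _ (Finset.mem_union_left _ (Finset.mem_biUnion.2 ⟨a, Finset.mem_univ a,
      Finset.mem_image.2 ⟨(m1, m2), Finset.mem_product.2 ⟨hm1, hm2⟩, rfl⟩⟩))
  have h2 : ∀ (c : Ch) (l : Fin r → ℤ), l ∈ Λ → (0 ≤ Fc c l ⬝ᵥ v ∧ 0 ≤ Fc c l ⬝ᵥ w) ∨
      (Fc c l ⬝ᵥ v ≤ 0 ∧ Fc c l ⬝ᵥ w ≤ 0) := by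
    intro c l hl
    exact hvw _ (Finset.mem_union_right _ (Finset.mem_biUnion.2 ⟨c, Finset.mem_univ c,
      Finset.mem_image.2 ⟨l, hl, rfl⟩⟩))
  -- the common minimal elements
  choose c hc hcm using fun a => exists_mn (hΔ a) (L (v + w))
  have h3 : ∀ a, c a ⬝ᵥ L v = mn (L v) (Δ a) ∧ c a ⬝ᵥ L w = mn (L w) (Δ a) := by
    intro a
    have h4 : ∀ m' ∈ (Δ a).support, c a ⬝ᵥ L v ≤ m' ⬝ᵥ L v ∧ c a ⬝ᵥ L w ≤ m' ⬝ᵥ L w := by
      intro m' hm'
      have h5 := mn_le (v := L (v + w)) hm'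
      rw [← hcm a, map_add, dotProduct_add, dotProduct_add] at h5
      have h6 := h1 a m' (c a) hm' (hc a)
      rw [sub_dotProduct, sub_dotProduct] at h6
      rcases h6 with h6 | h6
      · exact ⟨by linarith [h6.1], by linarith [h6.2]⟩
      · exact ⟨by linarith [h6.1, h6.2], by linarith [h6.1, h6.2]⟩
    exact ⟨le_antisymm (le_mn (hΔ a) fun m' hm' => (h4 m' hm').1) (mn_le (hc a)),
      le_antisymm (le_mn (hΔ a) fun m' hm' => (h4 m' hm').2) (mn_le (hc a))⟩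
  have h4 : ∀ a, dlt L Δ a (v + w) = dlt L Δ a v + dlt L Δ a w := by
    intro a
    unfold dlt
    rw [← hcm a, ← (h3 a).1, ← (h3 a).2, map_add, dotProduct_add]
  have h5 : v0f L Δ s (v + w) = v0f L Δ s v + v0f L Δ s w := by
    unfold v0f
    rw [map_add, Finset.sum_congr rfl fun a _ => by rw [h4 a, add_smul], Finset.sum_add_distrib]
    abel
  have h6 : ∀ l : Fin r → ℤ, l ⬝ᵥ v0f L Δ s v = Fc (fun a => ⟨c a, hc a⟩) l ⬝ᵥ v ∧
      l ⬝ᵥ v0f L Δ s w = Fc (fun a => ⟨c a, hc a⟩) l ⬝ᵥ w := by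
    intro l
    have h7 : ∀ z : Fin r' → ℤ, (∀ a, c a ⬝ᵥ L z = mn (L z) (Δ a)) →
        l ⬝ᵥ v0f L Δ s z = Fc (fun a => ⟨c a, hc a⟩) l ⬝ᵥ z := by
      intro z hz
      rw [hFc']
      unfold v0f dlt
      rw [dotProduct_add, dotProduct_sum]
      congr 1
      refine Finset.sum_congr rfl fun a _ => ?_
      rw [dotProduct_smul, smul_eq_mul, ← hz a, mul_comm]
    exact ⟨h7 v fun a => (h3 a).1, h7 w fun a => (h3 a).2⟩
  have h7 : Ψ (v0f L Δ s (v + w)) = Ψ (v0f L Δ s v) + Ψ (v0f L Δ s w) := by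
    rw [h5]
    refine hΛ _ _ fun l hl => ?_
    rw [(h6 l).1, (h6 l).2]
    exact h2 _ l hl
  have h8 : ∑ a, lam a * (dlt L Δ a (v + w) : ℚ) =
      ∑ a, lam a * (dlt L Δ a v : ℚ) + ∑ a, lam a * (dlt L Δ a w : ℚ) := by
    rw [← Finset.sum_add_distrib]
    refine Finset.sum_congr rfl fun a _ => ?_
    rw [h4 a]
    push_cast
    ring
  beta_reduce
  rw [h7, h8]
  ring

/-- minima of finitely many linear functions -/
theorem PW.mn {h : (Fin r → ℤ) →₀ k} (hh : h ≠ 0) : PW fun v => (mn v h : ℚ) := by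
  classical
  refine ⟨(h.support ×ˢ h.support).image fun p => p.1 - p.2, fun v w hvw => ?_⟩
  obtain ⟨c, hc, hcm⟩ := exists_mn hh (v + w)
  have h4 : ∀ m' ∈ h.support, c ⬝ᵥ v ≤ m' ⬝ᵥ v ∧ c ⬝ᵥ w ≤ m' ⬝ᵥ w := by
    intro m' hm'
    have h5 := mn_le (v := v + w) hm'
    rw [← hcm, dotProduct_add, dotProduct_add] at h5
    have h6 := hvw (m' - c) (Finset.mem_image.2 ⟨(m', c), Finset.mem_product.2 ⟨hm', hc⟩, rfl⟩)
    rw [sub_dotProduct, sub_dotProduct] at h6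
    rcases h6 with h6 | h6
    · exact ⟨by linarith [h6.1], by linarith [h6.2]⟩
    · exact ⟨by linarith [h6.1, h6.2], by linarith [h6.1, h6.2]⟩
  have h3 : c ⬝ᵥ v = R885.mn v h ∧ c ⬝ᵥ w = R885.mn w h :=
    ⟨le_antisymm (le_mn hh fun m' hm' => (h4 m' hm').1) (mn_le hc),
      le_antisymm (le_mn hh fun m' hm' => (h4 m' hm').2) (mn_le hc)⟩
  have h5 : R885.mn (v + w) h = R885.mn v h + R885.mn w h := by
    rw [← hcm, ← h3.1, ← h3.2, dotProduct_add]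
  beta_reduce
  rw [h5]
  push_cast
  ring

theorem PW.sum {ι : Type} (T : Finset ι) {Ψ : ι → (Fin r → ℤ) → ℚ} (h : ∀ i ∈ T, PW (Ψ i))
    (c : ι → ℚ) : PW fun v => ∑ i ∈ T, c i * Ψ i v := by
  classical
  choose! Λ hΛ using h
  refine ⟨T.biUnion Λ, fun v w hvw => ?_⟩
  rw [← Finset.sum_add_distrib]
  refine Finset.sum_congr rfl fun i hi => ?_
  rw [hΛ i hi v w fun l hl => hvw l (Finset.mem_biUnion.2 ⟨i, hi, hl⟩)]
  ring

end

section

/-- A system which depends linearly on a parameter, with conditions on the parameter. -/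
structure Leaf (k K : Type) [Field k] [Field K] [Algebra k K] (s : ℕ) : Type 1 where
  r : ℕ
  q : ℕ
  J : Type
  fin : Fintype J
  z : Fin r → K
  g : Fin q → (Fin r → ℤ) →₀ k
  y : J → K
  cw : Fin s → J → ℚ
  A : Fin s → (Fin r → ℤ) → ℚ
  Ψ : Fin s → (Fin r → ℤ) → ℚ
  cond : Finset (Fin s → ℚ)
  V : Finset (Fin r → ℤ)

variable {k K : Type} [Field k] [Field K] [Algebra k K] {s : ℕ}

/-- the system with the parameter `t` -/
def Leaf.sys (l : Leaf k K s) (n : ℕ) (t : Fin s → ℚ) (β : Place k K → ℝ) : Prop :=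
  letI := l.fin
  VSys n β l.z l.g l.y (lc l.cw t) (lc l.A t) (lc l.Ψ t)

/-- the polytope is not empty -/
def Leaf.ne (l : Leaf k K s) (t : Fin s → ℚ) : Prop :=
  (FineG (lc l.A t) (lc l.Ψ t) l.g).Nonempty

/-- the parameter satisfies the conditions -/
def Leaf.ok (l : Leaf k K s) (t : Fin s → ℚ) : Prop := ∀ c ∈ l.cond, 0 ≤ ∑ i, c i * t i

/-- the finitely many inequalities suffice -/
def Leaf.red (l : Leaf k K s) : Prop :=
  (∀ v ∈ l.V, v ≠ 0) ∧ ∀ t : Fin s → ℚ, (∀ v, v ≠ 0 → 0 ≤ lc l.A t v) → PLin (lc l.Ψ t) →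
    ∀ (u : Fin l.r → ℚ) (ε : ℚ), 0 ≤ ε →
      (∀ v ∈ l.V, lc l.A t v + (lc l.Ψ t v - ε * n1 v) + ∑ j, (mn v (l.g j) : ℚ) ≤ dq u v) →
      ∀ v, v ≠ 0 → lc l.A t v + (lc l.Ψ t v - ε * n1 v) + ∑ j, (mn v (l.g j) : ℚ) ≤ dq u v

theorem exists_cond {r m : ℕ} {J : Type} [Fintype J] (f : J → (Fin r → ℤ) →₀ k)
    (A Ψ : Fin s → (Fin r → ℤ) → ℚ) (σ : Fin (m + 1) → Fin r → ℤ) :
    ∃ C : Finset (Fin s → ℚ), ∀ t : Fin s → ℚ, ∑ i, t i = 1 →
      (SubD f (lc A t) (lc Ψ t) σ ↔ ∀ c ∈ C, 0 ≤ ∑ i, c i * t i) := by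
  classical
  obtain ⟨c1, hc1⟩ : ∃ c1 : Finset (Fin (m + 1)) → Fin s → ℚ, c1 = fun T i =>
      (∑ a ∈ T, (A i (σ a) + Ψ i (σ a)) - (A i (∑ a ∈ T, σ a) + Ψ i (∑ a ∈ T, σ a))) -
        ((∑ l, (mn (∑ a ∈ T, σ a) (f l) - ∑ a ∈ T, mn (σ a) (f l)) : ℤ) : ℚ) := ⟨_, rfl⟩
  obtain ⟨c2, hc2⟩ : ∃ c2 : Fin s → ℚ, c2 = fun i => ∑ a, (A i (σ a) + Ψ i (σ a)) - (m : ℚ) :=
    ⟨_, rfl⟩
  obtain ⟨c3, hc3⟩ : ∃ c3 : Fin s → ℚ, c3 = fun i =>
    (m : ℚ) + 1 - ∑ a, (A i (σ a) + Ψ i (σ a)) := ⟨_, rfl⟩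
  refine ⟨((Finset.univ.filter fun T : Finset (Fin (m + 1)) => T.Nonempty ∧ T ≠ Finset.univ).image
    c1) ∪ {c2, c3}, fun t ht => ?_⟩
  have hlin : ∀ (T : Finset (Fin (m + 1))), ∑ a ∈ T, (lc A t (σ a) + lc Ψ t (σ a)) =
      ∑ i, t i * ∑ a ∈ T, (A i (σ a) + Ψ i (σ a)) := by
    intro T
    unfold lc
    simp only [Finset.mul_sum, ← Finset.sum_add_distrib, ← mul_add]
    rw [Finset.sum_comm]
  have hcst : ∀ z : ℚ, z = ∑ i, t i * z := by
    intro z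
    rw [← Finset.sum_mul, ht, one_mul]
  have e1 : ∀ T : Finset (Fin (m + 1)), ∑ i, c1 T i * t i =
      (∑ a ∈ T, (lc A t (σ a) + lc Ψ t (σ a)) -
        (lc A t (∑ a ∈ T, σ a) + lc Ψ t (∑ a ∈ T, σ a))) -
        ((∑ l, (mn (∑ a ∈ T, σ a) (f l) - ∑ a ∈ T, mn (σ a) (f l)) : ℤ) : ℚ) := by
    intro T
    rw [hlin, hcst ((∑ l, (mn (∑ a ∈ T, σ a) (f l) - ∑ a ∈ T, mn (σ a) (f l)) : ℤ) : ℚ)]
    unfold lc
    rw [← Finset.sum_add_distrib, ← Finset.sum_sub_distrib, ← Finset.sum_sub_distrib, hc1]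
    exact Finset.sum_congr rfl fun i _ => by ring
  have e2 : ∑ i, c2 i * t i = ∑ a, (lc A t (σ a) + lc Ψ t (σ a)) - m := by
    rw [hlin, hcst (m : ℚ), ← Finset.sum_sub_distrib, hc2]
    refine Finset.sum_congr rfl fun i _ => ?_
    ring
  have e3 : ∑ i, c3 i * t i = m + 1 - ∑ a, (lc A t (σ a) + lc Ψ t (σ a)) := by
    rw [hlin, hcst ((m : ℚ) + 1), ← Finset.sum_sub_distrib, hc3]
    refine Finset.sum_congr rfl fun i _ => ?_
    ring
  constructor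
  · rintro ⟨h1, h2, h3⟩ c hc
    rw [Finset.mem_union, Finset.mem_image] at hc
    rcases hc with ⟨T, hT, rfl⟩ | hc
    · rw [Finset.mem_filter] at hT
      have := h1 T hT.2.1 hT.2.2
      rw [e1]
      linarith
    · rw [Finset.mem_insert, Finset.mem_singleton] at hc
      rcases hc with rfl | rfl
      · rw [e2]
        linarith
      · rw [e3]
        linarith
  · intro h
    refine ⟨fun T hT hTu => ?_, ?_, ?_⟩
    · have := h (c1 T) (Finset.mem_union_left _ (Finset.mem_image.2 ⟨T, Finset.mem_filter.2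
        ⟨Finset.mem_univ _, hT, hTu⟩, rfl⟩))
      rw [e1] at this
      linarith
    · have := h c2 (Finset.mem_union_right _ (by simp))
      rw [e2] at this
      linarith
    · have := h c3 (Finset.mem_union_right _ (by simp))
      rw [e3] at this
      linarith

theorem lc_new {r r' m : ℕ} (A Ψ : Fin s → (Fin r → ℤ) → ℚ) (L : (Fin r' → ℤ) →+ (Fin r → ℤ))
    (Δ : Fin (m + 1) → (Fin r → ℤ) →₀ k) (σ : Fin (m + 1) → Fin r → ℤ) {t : Fin s → ℚ}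
    (ht : ∑ i, t i = 1) : Pnew (lc A t) (lc Ψ t) L Δ σ =
      lc (fun i w => Ψ i (v0f L Δ σ w) + ∑ a, (1 - (A i (σ a) + Ψ i (σ a))) *
        (dlt L Δ a w : ℚ)) t := by
  funext w
  have hcst : ∀ z : ℚ, z = ∑ i, t i * z := by
    intro z
    rw [← Finset.sum_mul, ht, one_mul]
  have h1 : ∀ a, lamG (lc A t) (lc Ψ t) σ a = ∑ i, t i * (1 - (A i (σ a) + Ψ i (σ a))) := by
    intro a
    unfold lamG lc
    rw [hcst 1, ← Finset.sum_add_distrib, ← Finset.sum_sub_distrib]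
    refine Finset.sum_congr rfl fun i _ => ?_
    rw [← hcst]
    ring
  unfold Pnew
  rw [Finset.sum_congr rfl fun a _ => by rw [h1 a]]
  unfold lc
  simp only [mul_add, Finset.sum_add_distrib, Finset.mul_sum, Finset.sum_mul]
  congr 1
  rw [Finset.sum_comm]
  exact Finset.sum_congr rfl fun i _ => Finset.sum_congr rfl fun a _ => by ring

theorem lc_cw {r m : ℕ} {J' : Type} (cw : Fin s → J' → ℚ) (A Ψ : Fin s → (Fin r → ℤ) → ℚ)
    (σ : Fin (m + 1) → Fin r → ℤ) {t : Fin s → ℚ} (ht : ∑ i, t i = 1) :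
    Sum.elim (lc cw t) (lamG (lc A t) (lc Ψ t) σ) =
      lc (fun i => Sum.elim (cw i) fun a => 1 - (A i (σ a) + Ψ i (σ a))) t := by
  have hcst : ∀ z : ℚ, z = ∑ i, t i * z := by
    intro z
    rw [← Finset.sum_mul, ht, one_mul]
  funext j
  rcases j with j | a
  · rfl
  · change lamG (lc A t) (lc Ψ t) σ a = ∑ i, t i * (1 - (A i (σ a) + Ψ i (σ a)))
    unfold lamG lc
    rw [hcst 1, ← Finset.sum_add_distrib, ← Finset.sum_sub_distrib]
    refine Finset.sum_congr rfl fun i _ => ?_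
    rw [← hcst]
    ring

/-- **The finite tree.** -/
theorem tree [CharZero k] [IsAlgClosed k] {n : ℕ} (hn : 1 ≤ n)
    (htr : Algebra.trdeg k K = (n : ℕ)) (N : ℕ) :
    ∀ (r q : ℕ) (J' : Type) (_ : Fintype J') (x : Fin r → K) (f : Fin q → (Fin r → ℤ) →₀ k)
      (y : J' → K) (cw : Fin s → J' → ℚ) (A Ψ : Fin s → (Fin r → ℤ) → ℚ),
      q ≤ N → (∀ i, (Set.range (A i)).Finite) → (∀ i, PW (Ψ i)) →
      ∃ S : Set (Leaf k K s), S.Finite ∧ (∀ l ∈ S, l.red ∧ ∀ (t : Fin s → ℚ) (β : Place k K → ℝ),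
          ∑ i, t i = 1 → VSys n β x f y (lc cw t) (lc A t) (lc Ψ t) → l.ok t → l.sys n t β) ∧
        ∀ (t : Fin s → ℚ) (β : Place k K → ℝ), ∑ i, t i = 1 →
          VSys n β x f y (lc cw t) (lc A t) (lc Ψ t) → ¬ NegB k K n β → ∃ l ∈ S, l.ok t ∧ l.ne t := by
  classical
  induction N with
  | zero =>
    intro r q J' _ x f y cw A Ψ hq hA hΨ
    by_cases hex : ∃ (t : Fin s → ℚ) (β : Place k K → ℝ), ∑ i, t i = 1 ∧
        VSys n β x f y (lc cw t) (lc A t) (lc Ψ t)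
    swap
    · refine ⟨∅, Set.finite_empty, fun l hl => absurd hl (Set.notMem_empty l),
        fun t β ht hB _ => absurd ⟨t, β, ht, hB⟩ hex⟩
    obtain ⟨t0, β0, ht0, hB0⟩ := hex
    obtain ⟨V0, hV0, hred⟩ := fin_redU (hn_ne0 hB0.hnd hB0.hf) hA hΨ
    refine ⟨{⟨r, q, J', inferInstance, x, f, y, cw, A, Ψ, ∅, V0⟩}, Set.finite_singleton _, ?_, ?_⟩
    · intro l hl
      rw [Set.mem_singleton_iff] at hl
      subst hl
      exact ⟨⟨hV0, hred⟩, fun t β ht hB _ => hB⟩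
    · intro t β ht hB hN
      refine ⟨_, Set.mem_singleton _, fun c hc => absurd hc (Finset.notMem_empty c), ?_⟩
      rcases stepU hn htr hB hV0 (hred t hB.A0 hB.P0) with h1 | h1 | ⟨m, σ, hm, -, hs, -⟩
      · exact h1
      · exact absurd h1 hN
      · exfalso
        have h1 := Finset.card_le_univ (JC f σ)
        rw [hs.card, Fintype.card_fin] at h1
        omega
  | succ N ih =>
    intro r q J' _ x f y cw A Ψ hq hA hΨ
    by_cases hex : ∃ (t : Fin s → ℚ) (β : Place k K → ℝ), ∑ i, t i = 1 ∧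
        VSys n β x f y (lc cw t) (lc A t) (lc Ψ t)
    swap
    · refine ⟨∅, Set.finite_empty, fun l hl => absurd hl (Set.notMem_empty l),
        fun t β ht hB _ => absurd ⟨t, β, ht, hB⟩ hex⟩
    obtain ⟨t0, β0, ht0, hB0⟩ := hex
    obtain ⟨V0, hV0, hred⟩ := fin_redU (hn_ne0 hB0.hnd hB0.hf) hA hΨ
    -- the candidates
    obtain ⟨Cd, hCd⟩ : ∃ Cd : Set (Σ m : Fin (q + 1), (Fin (m + 1) → {v // v ∈ V0})),
        Cd = {p | 1 ≤ (p.1 : ℕ) ∧ Exc x f fun a => (p.2 a : Fin r → ℤ)} := ⟨_, rfl⟩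
    have hCf : Cd.Finite := Set.toFinite _
    have hstep : ∀ p : Σ m : Fin (q + 1), (Fin (m + 1) → {v // v ∈ V0}), ∃ S : Set (Leaf k K s),
        S.Finite ∧ (p ∈ Cd → (∀ l ∈ S, l.red ∧ ∀ (t : Fin s → ℚ) (β : Place k K → ℝ),
          ∑ i, t i = 1 → VSys n β x f y (lc cw t) (lc A t) (lc Ψ t) → l.ok t → l.sys n t β) ∧
        ∀ (t : Fin s → ℚ) (β : Place k K → ℝ), ∑ i, t i = 1 →
          VSys n β x f y (lc cw t) (lc A t) (lc Ψ t) → ¬ NegB k K n β →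
          SubD f (lc A t) (lc Ψ t) (fun a => (p.2 a : Fin r → ℤ)) →
          ∃ l ∈ S, l.ok t ∧ l.ne t) := by
      rintro ⟨⟨m, hm'⟩, σ⟩
      by_cases hp : (⟨⟨m, hm'⟩, σ⟩ : Σ m : Fin (q + 1), (Fin (m + 1) → {v // v ∈ V0})) ∈ Cd
      swap
      · exact ⟨∅, Set.finite_empty, fun h => absurd h hp⟩
      have hp' := hp
      rw [hCd] at hp'
      obtain ⟨hm, hs⟩ := hp'
      change 1 ≤ m at hm
      change Exc x f fun a : Fin (m + 1) => (σ a : Fin r → ℤ) at hs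
      obtain ⟨r', q', z, g, L, Δ, hq', hΔ, hel⟩ := elimU hm hB0.hr hB0.hgen hB0.hnd hs
      obtain ⟨C, hC⟩ := exists_cond f A Ψ fun a : Fin (m + 1) => (σ a : Fin r → ℤ)
      obtain ⟨S, hS, hS1, hS2⟩ := ih r' q' (J' ⊕ Fin (m + 1)) inferInstance z g
        (Sum.elim y fun a => ev x (Δ a))
        (fun i => Sum.elim (cw i) fun a => 1 - (A i (σ a) + Ψ i (σ a)))
        (fun i => Anew (A i) L Δ fun a => (σ a : Fin r → ℤ))
        (fun i w => Ψ i (v0f L Δ (fun a => (σ a : Fin r → ℤ)) w) +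
          ∑ a, (1 - (A i (σ a) + Ψ i (σ a))) * (dlt L Δ a w : ℚ)) (by omega)
        (fun i => (hA i).subset (by
          rintro _ ⟨w, rfl⟩
          exact ⟨_, rfl⟩))
        (fun i => (hΨ i).new L hΔ _ _)
      have key : ∀ (t : Fin s → ℚ) (β : Place k K → ℝ), ∑ i, t i = 1 →
          VSys n β x f y (lc cw t) (lc A t) (lc Ψ t) →
          SubD f (lc A t) (lc Ψ t) (fun a => (σ a : Fin r → ℤ)) →
          VSys n β z g (Sum.elim y fun a => ev x (Δ a))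
            (lc (fun i => Sum.elim (cw i) fun a => 1 - (A i (σ a) + Ψ i (σ a))) t)
            (lc (fun i => Anew (A i) L Δ fun a => (σ a : Fin r → ℤ)) t)
            (lc (fun i w => Ψ i (v0f L Δ (fun a => (σ a : Fin r → ℤ)) w) +
              ∑ a, (1 - (A i (σ a) + Ψ i (σ a))) * (dlt L Δ a w : ℚ)) t) := by
        intro t β ht hB hsub
        have h1 := hel β J' y _ _ _ hB hsub
        rw [lc_new A Ψ L Δ _ ht, lc_cw cw A Ψ _ ht] at h1
        exact h1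
      refine ⟨(fun l : Leaf k K s => { l with cond := l.cond ∪ C }) '' S, hS.image _, fun _ =>
        ⟨?_, ?_⟩⟩
      · rintro _ ⟨l, hl, rfl⟩
        refine ⟨(hS1 l hl).1, fun t β ht hB hok => ?_⟩
        refine (hS1 l hl).2 t β ht (key t β ht hB ((hC t ht).2 fun c hc =>
          hok c (Finset.mem_union_right _ hc))) fun c hc => hok c (Finset.mem_union_left _ hc)
      · intro t β ht hB hN hsub
        obtain ⟨l, hl, hok, hne⟩ := hS2 t β ht (key t β ht hB hsub) hN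
        refine ⟨_, ⟨l, hl, rfl⟩, fun c hc => ?_, hne⟩
        rcases Finset.mem_union.1 hc with hc | hc
        · exact hok c hc
        · exact (hC t ht).1 hsub c hc
    choose S hS hS' using hstep
    refine ⟨{⟨r, q, J', inferInstance, x, f, y, cw, A, Ψ, ∅, V0⟩} ∪ ⋃ p ∈ Cd, S p,
      (Set.finite_singleton _).union (hCf.biUnion fun p _ => hS p), ?_, ?_⟩
    · intro l hl
      rcases hl with hl | hl
      · rw [Set.mem_singleton_iff] at hl
        subst hl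
        exact ⟨⟨hV0, hred⟩, fun t β ht hB _ => hB⟩
      · obtain ⟨p, hp, hl⟩ := Set.mem_iUnion₂.1 hl
        exact (hS' p hp).1 l hl
    · intro t β ht hB hN
      rcases stepU hn htr hB hV0 (hred t hB.A0 hB.P0) with h1 | h1 | ⟨m, σ, hm, hσ, hs, hsub⟩
      · exact ⟨_, Or.inl (Set.mem_singleton _), fun c hc => absurd hc (Finset.notMem_empty c), h1⟩
      · exact absurd h1 hN
      · have h2 := Finset.card_le_univ (JC f σ)
        rw [hs.card, Fintype.card_fin] at h2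
        obtain ⟨p, hpd⟩ : ∃ p : Σ m : Fin (q + 1), (Fin (m + 1) → {v // v ∈ V0}),
            p = ⟨⟨m, by omega⟩, fun a => ⟨σ a, hσ a⟩⟩ := ⟨_, rfl⟩
        have hp : p ∈ Cd := by
          rw [hCd, hpd]
          exact ⟨hm, hs⟩
        have hsub' : SubD f (lc A t) (lc Ψ t) (fun a => (p.2 a : Fin r → ℤ)) := by
          rw [hpd]
          exact hsub
        obtain ⟨l, hl, hok, hne⟩ := (hS' p hp).2 t β ht hB hN hsub'
        exact ⟨l, Or.inr (Set.mem_iUnion₂.2 ⟨p, hp, hl⟩), hok, hne⟩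

end

end Pool.Agent.T2H41.RA
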