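import Pool.Agent.R885.V14
import Pool.Agent.T2H41.RD

/-!
Limits of rational boundaries: the effective divisor on the nondegenerate variety.
-/

set_option autoImplicit false
set_option linter.overlappingInstances false
set_option linter.unusedSectionVars false

open FF Filter Topology Pool.Agent.W603.LV Pool.Agent.W619.PQ Pool.Agent.W619.TW Pool.Agent.W619.Y
  Pool.Agent.Y174 Pool.Agent.R885 Pool.Agent.R885.N

namespace Pool.Agent.T2H41.RA

section

variable {k K : Type} [Field k] [Field K] [Algebra k K]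

/-- `K + β` is linearly equivalent over `ℝ` to an effective divisor. -/
def EffF (k K : Type) [Field k] [Field K] [Algebra k K] (n : ℕ) (β : Place k K → ℝ) : Prop :=
  ∃ (ι : Type) (_ : Fintype ι) (φ : ι → K) (ρ : ι → ℝ) (m : ℕ)
    (ω : (Fin n → Derivation k K K) → K), 1 ≤ m ∧ (∀ i, φ i ≠ 0) ∧ ω ≠ 0 ∧
      PairSec k K n (fun P => β P + ∑ i, ρ i * (P.ord (φ i) : ℝ)) {1} m 0 ω

/-- the boundary with real weights -/
noncomputable def bR {s r p : ℕ} (A : Fin s → (Fin r → ℤ) → ℚ) (c : Fin s → Fin p → ℚ)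
    (x : Fin r → K) (h : Fin p → (Fin r → ℤ) →₀ k) (τ : Fin s → ℝ) (P : Place k K) : ℝ :=
  open scoped Classical in
  if vec P x ≠ 0 then 1 - ∑ i, τ i * (A i (vec P x) : ℝ)
  else if ∃ j, 0 < P.ord (ev x (h j)) then
    max 0 (1 - ∑ j ∈ Finset.univ.filter (fun j => 0 < P.ord (ev x (h j))),
      ∑ i, τ i * (1 - (c i j : ℝ)))
  else 0

theorem bR_mono {s r p : ℕ} {A : Fin s → (Fin r → ℤ) → ℚ} (hA : ∀ i v, v ≠ 0 → 0 ≤ A i v)
    {c : Fin s → Fin p → ℚ} (hc : ∀ i j, c i j ≤ 1) {x : Fin r → K} {h : Fin p → (Fin r → ℤ) →₀ k}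
    {τ τ' : Fin s → ℝ} (hτ : ∀ i, τ i ≤ τ' i) (P : Place k K) :
    bR A c x h τ' P ≤ bR A c x h τ P := by
  classical
  unfold bR
  by_cases h1 : vec P x ≠ 0
  · rw [if_pos h1, if_pos h1]
    have h2 : ∑ i, τ i * (A i (vec P x) : ℝ) ≤ ∑ i, τ' i * (A i (vec P x) : ℝ) := by
      refine Finset.sum_le_sum fun i _ => mul_le_mul_of_nonneg_right (hτ i) ?_
      exact_mod_cast hA i _ h1
    linarith
  · rw [if_neg h1, if_neg h1]
    split_ifs
    · refine max_le_max le_rfl (sub_le_sub_left (Finset.sum_le_sum fun j _ =>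
        Finset.sum_le_sum fun i _ => mul_le_mul_of_nonneg_right (hτ i) ?_) _)
      have : ((c i j : ℚ) : ℝ) ≤ 1 := by exact_mod_cast hc i j
      linarith
    · exact le_rfl

theorem bR_tendsto {s r p : ℕ} {A : Fin s → (Fin r → ℤ) → ℚ} {c : Fin s → Fin p → ℚ}
    {x : Fin r → K} {h : Fin p → (Fin r → ℤ) →₀ k} {τ : ℕ → Fin s → ℝ} {t : Fin s → ℝ}
    (hτ : ∀ i, Tendsto (fun m => τ m i) atTop (𝓝 (t i))) (P : Place k K) :
    Tendsto (fun m => bR A c x h (τ m) P) atTop (𝓝 (bR A c x h t P)) := by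
  classical
  unfold bR
  by_cases h1 : vec P x ≠ 0
  · simp only [if_pos h1]
    exact tendsto_const_nhds.sub (tendsto_finsetSum _ fun i _ => (hτ i).mul_const _)
  · simp only [if_neg h1]
    split_ifs
    · exact tendsto_const_nhds.max (tendsto_const_nhds.sub (tendsto_finsetSum _ fun j _ =>
        tendsto_finsetSum _ fun i _ => (hτ i).mul_const _))
    · exact tendsto_const_nhds

/-- the system of a nondegenerate pair -/
theorem root_sys {k K : Type} [Field k] [CharZero k] [IsAlgClosed k] [Field K] [Algebra k K]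
    {n q p : ℕ} {x : Fin (n + q) → K}
    (hx : ∀ i, x i ≠ 0) (hgen : IntermediateField.adjoin k (Set.range x) = ⊤)
    {f : Fin q → (Fin (n + q) → ℤ) →₀ k} (hf : ∀ l, ev x (f l) = 0)
    {h : Fin p → (Fin (n + q) → ℤ) →₀ k} (hhx : ∀ j, ev x (h j) ≠ 0) (H : AlongP f h x)
    {A : (Fin (n + q) → ℤ) → ℚ} (hA : N.IsWeight A) {c : Fin p → ℚ}
    (hc : ∀ j, 0 ≤ c j ∧ c j ≤ 1) :
    VSys n (fun P => ((bdry A c x h P : ℚ) : ℝ)) x f (fun j => ev x (h j)) c A
      (fun v => ∑ j, c j * (mn v (h j) : ℚ)) := by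
  classical
  have hndf := hn_of_alongP' hx H
  have hndh := hn_of_alongP hx H
  have hf0 := hn_ne0 hndf hf
  have hh0 : ∀ j, h j ≠ 0 := by
    intro j h0
    apply hhx j
    rw [h0]
    unfold ev
    exact Finsupp.sum_zero_index
  have e : Fin q ⊕ Fin n ≃ Fin (n + q) := Fintype.equivOfCardEq (by
    rw [Fintype.card_sum, Fintype.card_fin, Fintype.card_fin, Fintype.card_fin, add_comm])
  obtain ⟨C0, hC0⟩ := exists_C0 hx e hf0 hf hndf.self
  have hlow := base_low hx hf0 hf hC0 hh0 hhx (fun P => hndf.places P)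
    (fun P V => (hndh V).places P) fun j => (hc j).2
  have hP0 : PLin fun v => ∑ j, c j * (mn v (h j) : ℚ) := PLin.of_sum hh0 fun j => (hc j).1
  have hge : ∀ (P : Place k K) j, mn (vec P x) (h j) ≤ P.ord (ev x (h j)) := fun P j =>
    (ge_mn P hx (h j)).resolve_left (hhx j)
  have hth : ∀ P : Place k K, ((∑ j, c j * (mn (vec P x) (h j) : ℚ) : ℚ) : ℝ) ≤
      Th (fun j => ev x (h j)) c P := by
    intro P
    unfold Th
    push_cast
    refine Finset.sum_le_sum fun j _ => mul_le_mul_of_nonneg_left ?_ ?_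
    · exact_mod_cast hge P j
    · exact_mod_cast (hc j).1
  refine
    { hr := rfl
      hx := hx
      hgen := hgen
      hf := hf
      hy := hhx
      hnd := hndf
      A0 := hA.nonneg
      A1 := hA.le_one
      AD := hA.denom
      A3 := hA.smul
      P0 := hP0
      AP := ?_
      le1 := ?_
      low := ⟨e, C0, hC0, fun P hP D hD hO => ?_⟩
      th0 := ?_
      th1 := fun P _ => hth P
      up0 := ?_
      up1 := ?_ }
  · intro v w hv hw hvw
    have h1 := hA.add v w hv hw hvw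
    have h2 := hP0.superadd v w
    linarith
  · intro P
    have h1 : bdry A c x h P ≤ 1 := v14_bdry_le hA.nonneg fun j => (hc j).2
    exact_mod_cast h1
  · have h1 := hlow P hP D hD hO
    beta_reduce at h1
    have h2 : ∑ j, ((c j : ℚ) : ℝ) * (P.ord (ev x (h j)) : ℝ) =
        Th (fun j => ev x (h j)) c P := rfl
    rw [h2] at h1
    beta_reduce
    by_cases hv : vec P x = 0
    · rw [if_pos hv] at h1 ⊢
      rw [v14_zero_eq (A' := fun _ => 1) hv]
      have h3 : ∑ j, ((c j : ℚ) : ℝ) * (mn (vec P x) (h j) : ℝ) = 0 := by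
        refine Finset.sum_eq_zero fun j _ => ?_
        rw [hv, mn_zero (hh0 j), Int.cast_zero, mul_zero]
      rw [h3] at h1
      linarith
    · rw [if_neg hv] at h1 ⊢
      rw [bdry_ne hv, sub_self, Rat.cast_zero] at h1
      rw [bdry_ne hv]
      push_cast at h1 ⊢
      linarith
  · intro P hv
    have h1 := hth P
    rw [Finset.sum_eq_zero fun j _ => by rw [hv, mn_zero (hh0 j), Int.cast_zero, mul_zero],
      Rat.cast_zero] at h1
    exact h1
  · intro P hv
    have h1 := bdry_up0 hx hh0 hhx (fun j => (hc j).1) P hv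
    rw [v14_zero_eq (A' := fun _ => 1) hv]
    have h3 := (Rat.cast_le (K := ℝ)).2 h1
    unfold Th
    push_cast at h3 ⊢
    exact h3
  · intro P hv
    have h1 := hth P
    rw [bdry_ne hv]
    push_cast at h1 ⊢
    linarith

/-- convex combinations of weights -/
theorem weight_convex {r s : ℕ} {A : Fin s → (Fin r → ℤ) → ℚ} (hA : ∀ i, N.IsWeight (A i))
    {t : Fin s → ℚ} (ht : ∀ i, 0 ≤ t i) (ht1 : ∑ i, t i = 1) : N.IsWeight (lc A t) := by
  classical
  refine ⟨fun v hv => Finset.sum_nonneg fun i _ => mul_nonneg (ht i) ((hA i).nonneg v hv),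
    fun v => ?_, ?_, fun v w hv hw hvw => ?_, fun g v hg hv => ?_⟩
  · unfold lc
    rw [← ht1]
    exact Finset.sum_le_sum fun i _ => mul_le_of_le_one_right (ht i) ((hA i).le_one v)
  · choose D hD hDz using fun i => (hA i).denom
    choose z hz using hDz
    refine ⟨∏ i, (D i * (t i).den), Nat.one_le_iff_ne_zero.2 (Finset.prod_ne_zero_iff.2
      fun i _ => Nat.mul_ne_zero (by have := hD i; omega) (t i).den_nz), fun v => ?_⟩
    refine ⟨∑ i, (∏ j ∈ Finset.univ.erase i, ((D j : ℤ) * (t j).den)) * ((t i).num * z i v), ?_⟩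
    unfold lc
    push_cast
    rw [Finset.mul_sum]
    refine Finset.sum_congr rfl fun i _ => ?_
    rw [← Finset.mul_prod_erase Finset.univ (fun j => (D j : ℚ) * (t j).den) (Finset.mem_univ i),
      ← hz i v]
    have h1 : t i * (t i).den = (t i).num := Rat.mul_den_eq_num (t i)
    rw [← h1]
    ring
  · unfold lc
    have h1 : ∑ i, t i * (A i v + A i w - 1) ≤ ∑ i, t i * A i (v + w) :=
      Finset.sum_le_sum fun i _ => mul_le_mul_of_nonneg_left ((hA i).add v w hv hw hvw) (ht i)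
    have h2 : ∑ i, t i * (A i v + A i w - 1) = ∑ i, t i * A i v + ∑ i, t i * A i w - 1 := by
      simp only [mul_sub, mul_add, mul_one, Finset.sum_sub_distrib, Finset.sum_add_distrib, ht1]
    linarith
  · unfold lc
    rw [Finset.mul_sum]
    refine Finset.sum_le_sum fun i _ => ?_
    have h1 := mul_le_mul_of_nonneg_left ((hA i).smul g v hg hv) (ht i)
    linarith

theorem range_fin {r : ℕ} {A : (Fin r → ℤ) → ℚ} (hA : N.IsWeight A) : (Set.range A).Finite := by
  obtain ⟨D, hD, hz⟩ := hA.denom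
  refine ((v3a_fin hD).union (Set.finite_singleton (A 0))).subset ?_
  rintro _ ⟨v, rfl⟩
  by_cases hv : v = 0
  · right
    rw [hv]
    exact Set.mem_singleton _
  · exact Or.inl ⟨hA.nonneg v hv, hA.le_one v, hz v⟩

/-- the weight zero -/
theorem weight_zero {r : ℕ} : N.IsWeight (fun _ : Fin r → ℤ => (0 : ℚ)) :=
  ⟨fun _ _ => le_rfl, fun _ => zero_le_one, ⟨1, le_rfl, fun _ => ⟨0, by simp⟩⟩,
    fun _ _ _ _ _ => by norm_num, fun _ _ _ _ => by simp⟩

/-- rational approximations from below -/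
theorem exists_below {s : ℕ} {t : Fin s → ℝ} (ht : ∀ i, 0 ≤ t i) : ∃ τ : ℕ → Fin s → ℚ,
    (∀ m i, 0 ≤ τ m i) ∧ (∀ m i, ((τ m i : ℚ) : ℝ) ≤ t i) ∧
      ∀ i, Tendsto (fun m => ((τ m i : ℚ) : ℝ)) atTop (𝓝 (t i)) := by
  have h1 : ∀ (m : ℕ) i, ∃ q : ℚ, 0 ≤ q ∧ (q : ℝ) ≤ t i ∧ t i - 1 / ((m : ℝ) + 1) ≤ q := by
    intro m i
    have hm : (0 : ℝ) < 1 / ((m : ℝ) + 1) := by positivity
    by_cases h0 : t i - 1 / ((m : ℝ) + 1) ≤ 0
    · exact ⟨0, le_rfl, by exact_mod_cast ht i, by exact_mod_cast h0⟩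
    · push Not at h0
      obtain ⟨q, h2, h3⟩ := exists_rat_btwn (show t i - 1 / ((m : ℝ) + 1) < t i by linarith)
      refine ⟨q, ?_, h3.le, h2.le⟩
      have : (0 : ℝ) < q := h0.trans h2
      have h4 : (0 : ℚ) < q := by exact_mod_cast this
      exact h4.le
  choose τ h2 h3 h4 using h1
  refine ⟨τ, h2, h3, fun i => ?_⟩
  have h5 : Tendsto (fun m : ℕ => t i - 1 / ((m : ℝ) + 1)) atTop (𝓝 (t i)) := by
    have := (tendsto_const_nhds (x := t i)).sub (tendsto_one_div_add_atTop_nhds_zero_nat (𝕜 := ℝ))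
    rwa [sub_zero] at this
  exact tendsto_of_tendsto_of_tendsto_of_le_of_le h5 tendsto_const_nhds (fun m => h4 m i)
    fun m => h3 m i

/-- pigeonhole for finite sets -/
theorem freq_of_finite {α : Type 1} {S : Set α} (hS : S.Finite) {P : α → ℕ → Prop}
    (h : ∀ m, ∃ a ∈ S, P a m) : ∃ a ∈ S, ∃ᶠ m in atTop, P a m := by
  by_contra hcon
  push Not at hcon
  have h2 := (Filter.eventually_all_finite hS).2 hcon
  obtain ⟨m, hm⟩ := h2.exists
  obtain ⟨a, ha, hP⟩ := h m
  exact hm a ha hP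

theorem freq_of_fintype {α : Type} [Finite α] {P : α → ℕ → Prop}
    (h : ∃ᶠ m in atTop, ∃ a, P a m) : ∃ a, ∃ᶠ m in atTop, P a m := by
  by_contra hcon
  push Not at hcon
  have h2 := Filter.eventually_all.2 hcon
  obtain ⟨m, ⟨a, ha⟩, hm⟩ := (h.and_eventually h2).exists
  exact hm a ha

end

end Pool.Agent.T2H41.RA
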