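import Pool.Agent.T2H41.RE

/-!
The limit of the points of the polytopes.
-/

set_option autoImplicit false
set_option linter.overlappingInstances false
set_option linter.unusedSectionVars false

open FF Filter Topology Pool.Agent.W603.LV Pool.Agent.W619.PQ Pool.Agent.W619.TW Pool.Agent.W619.Y
  Pool.Agent.Y174 Pool.Agent.R885 Pool.Agent.R885.N

namespace Pool.Agent.T2H41.RA

/-- the order of the section given by a point of the polytope -/
theorem sys_ineq {k K : Type} [Field k] [CharZero k] [Field K] [Algebra k K] {n : ℕ}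
    {β : Place k K → ℝ} {r q : ℕ} {J' : Type} [Fintype J'] {x : Fin r → K}
    {f : Fin q → (Fin r → ℤ) →₀ k} {y : J' → K} {cw : J' → ℚ} {A Ψ : (Fin r → ℤ) → ℚ}
    (hf0 : ∀ l, f l ≠ 0) {e : Fin q ⊕ Fin n ≃ Fin r}
    {C0 : Fin n → Fin r → ℤ} (hlow : GLow e x f C0 y cw (fun v => A v + Ψ v) β) {u : Fin r → ℚ}
    (hu : u ∈ FineG A Ψ f) {P : Place k K} (hP : IsDivisorial P n)
    {D : Fin n → Derivation k K K} (hD : ∀ a, Pres P (D a)) (hO : Om e x f C0 D ≠ 0) :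
    0 ≤ (P.ord (Om e x f C0 D) : ℝ) + (β P + (∑ i, (u i : ℝ) * (P.ord (x i) : ℝ) -
      ∑ j, ((cw j : ℚ) : ℝ) * (P.ord (y j) : ℝ))) := by
  have h1 := hlow P hP D hD hO
  beta_reduce at h1
  have h2 : Th y cw P = ∑ j, ((cw j : ℚ) : ℝ) * (P.ord (y j) : ℝ) := rfl
  rw [h2] at h1
  have h3 : ((dq u (vec P x) : ℚ) : ℝ) = ∑ i, (u i : ℝ) * (P.ord (x i) : ℝ) := by
    unfold dq
    push_cast
    rfl
  by_cases hv : vec P x = 0
  · have h4 : ∑ i, (u i : ℝ) * (P.ord (x i) : ℝ) = 0 := by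
      refine Finset.sum_eq_zero fun i _ => ?_
      have : P.ord (x i) = 0 := congrFun hv i
      rw [this, Int.cast_zero, mul_zero]
    rw [if_pos hv, Finset.sum_eq_zero fun l _ => by rw [hv, mn_zero (hf0 l)]] at h1
    rw [h4]
    push_cast at h1
    linarith
  · rw [if_neg hv] at h1
    have h4 := hu _ hv
    have h5 := (Rat.cast_le (K := ℝ)).2 h4
    rw [h3] at h5
    push_cast at h1 h5
    linarith

/-- bounds for the points of the polytopes -/
theorem sys_bound {k : Type} [Field k] {r q s : ℕ} {f : Fin q → (Fin r → ℤ) →₀ k}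
    (A Ψ : Fin s → (Fin r → ℤ) → ℚ) : ∃ R : ℚ, ∀ (t : Fin s → ℚ), (∀ i, 0 ≤ t i) → ∑ i, t i = 1 →
      (∀ v, v ≠ 0 → 0 ≤ lc A t v) → ∀ u ∈ FineG (lc A t) (lc Ψ t) f, ∀ i, |u i| ≤ R := by
  classical
  obtain ⟨B, hB⟩ : ∃ B : (Fin r → ℤ) → ℚ, B = fun v => ∑ i, |Ψ i v| + ∑ l, |(mn v (f l) : ℚ)| :=
    ⟨_, rfl⟩
  have hB0 : ∀ v, 0 ≤ B v := fun v => by
    rw [hB]
    exact add_nonneg (Finset.sum_nonneg fun _ _ => abs_nonneg _)
      (Finset.sum_nonneg fun _ _ => abs_nonneg _)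
  refine ⟨∑ i, (B (Pi.single i 1) + B (-Pi.single i 1)), fun t ht ht1 hA u hu i => ?_⟩
  have h1 : ∀ v, v ≠ 0 → -B v ≤ dq u v := by
    intro v hv
    have h2 := hu v hv
    have h3 := hA v hv
    have h4 : -∑ i, |Ψ i v| ≤ lc Ψ t v := by
      unfold lc
      rw [← Finset.sum_neg_distrib]
      refine Finset.sum_le_sum fun i _ => ?_
      have h5 : t i ≤ 1 := by
        rw [← ht1]
        exact Finset.single_le_sum (fun j _ => ht j) (Finset.mem_univ i)
      have h6 : t i * |Ψ i v| ≤ |Ψ i v| := mul_le_of_le_one_left (abs_nonneg _) h5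
      have h7 := mul_le_mul_of_nonneg_left (neg_abs_le (Ψ i v)) (ht i)
      linarith
    have h5 : -∑ l, |(mn v (f l) : ℚ)| ≤ ∑ l, (mn v (f l) : ℚ) := by
      rw [← Finset.sum_neg_distrib]
      exact Finset.sum_le_sum fun l _ => neg_abs_le _
    rw [hB]
    beta_reduce
    linarith
  have hi : (Pi.single i 1 : Fin r → ℤ) ≠ 0 := by
    intro h0
    have := congrFun h0 i
    simp at this
  have h2 := h1 _ hi
  have h3 := h1 _ (neg_ne_zero.2 hi)
  have h4 : dq u (Pi.single i 1) = u i := by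
    unfold dq
    rw [Finset.sum_eq_single i]
    · simp
    · intro j _ hj
      rw [Pi.single_eq_of_ne hj]
      simp
    · intro h
      exact absurd (Finset.mem_univ i) h
  have h5 : dq u (-Pi.single i 1) = -u i := by
    rw [← h4]
    unfold dq
    rw [← Finset.sum_neg_distrib]
    refine Finset.sum_congr rfl fun j _ => ?_
    rw [Pi.neg_apply]
    push_cast
    ring
  rw [h4] at h2
  rw [h5] at h3
  have h6 := Finset.single_le_sum (f := fun i => B (Pi.single i 1) + B (-Pi.single i 1))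
    (fun i _ => add_nonneg (hB0 _) (hB0 _)) (Finset.mem_univ i)
  beta_reduce at h6
  have h7 := hB0 (Pi.single i 1)
  have h8 := hB0 (-Pi.single i 1)
  rw [abs_le]
  constructor <;> linarith

/-- **The limit.** -/
theorem limL {k K : Type} [Field k] [CharZero k] [IsAlgClosed k] [Field K] [Algebra k K]
    {n q p s : ℕ} (hn : 1 ≤ n) (htr : Algebra.trdeg k K = (n : ℕ)) {x : Fin (n + q) → K}
    (hx : ∀ i, x i ≠ 0) (hgen : IntermediateField.adjoin k (Set.range x) = ⊤)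
    {f : Fin q → (Fin (n + q) → ℤ) →₀ k} (hf : ∀ l, ev x (f l) = 0)
    {h : Fin p → (Fin (n + q) → ℤ) →₀ k} (hhx : ∀ j, ev x (h j) ≠ 0) (H : AlongP f h x)
    {A : Fin s → (Fin (n + q) → ℤ) → ℚ} (hA : ∀ i, N.IsWeight (A i)) {c : Fin s → Fin p → ℚ}
    (hc : ∀ i j, 0 ≤ c i j ∧ c i j ≤ 1) {t : Fin s → ℝ} (ht : ∀ i, 0 ≤ t i) (ht1 : ∑ i, t i ≤ 1)
    (hN : ¬ NegB k K n (bR A c x h t)) : EffF k K n (bR A c x h t) := by
  classical
  have hh0 : ∀ j, h j ≠ 0 := by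
    intro j h0
    apply hhx j
    rw [h0]
    unfold ev
    exact Finsupp.sum_zero_index
  obtain ⟨τ, hτ0, hτle, hτt⟩ := exists_below ht
  have hτ1 : ∀ m, ∑ i, τ m i ≤ 1 := by
    intro m
    have h1 : ∑ i, ((τ m i : ℚ) : ℝ) ≤ 1 := (Finset.sum_le_sum fun i _ => hτle m i).trans ht1
    exact_mod_cast h1
  -- the extended family
  obtain ⟨A', hA'⟩ : ∃ A' : Fin (s + 1) → (Fin (n + q) → ℤ) → ℚ,
    A' = Fin.cons (fun _ => 0) A := ⟨_, rfl⟩
  obtain ⟨c', hc'⟩ : ∃ c' : Fin (s + 1) → Fin p → ℚ, c' = Fin.cons (fun _ => 1) c := ⟨_, rfl⟩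
  obtain ⟨Ψ', hΨ'⟩ : ∃ Ψ' : Fin (s + 1) → (Fin (n + q) → ℤ) → ℚ,
    Ψ' = fun i v => ∑ j, c' i j * (mn v (h j) : ℚ) := ⟨_, rfl⟩
  obtain ⟨T, hT⟩ : ∃ T : ℕ → Fin (s + 1) → ℚ, T = fun m => Fin.cons (1 - ∑ i, τ m i) (τ m) :=
    ⟨_, rfl⟩
  have hT0 : ∀ m i, 0 ≤ T m i := by
    intro m i
    rw [hT]
    beta_reduce
    refine Fin.cases ?_ (fun i => ?_) i
    · rw [Fin.cons_zero]
      linarith [hτ1 m]
    · rw [Fin.cons_succ]
      exact hτ0 m i
  have hT1 : ∀ m, ∑ i, T m i = 1 := by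
    intro m
    rw [hT]
    beta_reduce
    rw [Fin.sum_univ_succ]
    simp only [Fin.cons_zero, Fin.cons_succ]
    ring
  have hA'w : ∀ i, N.IsWeight (A' i) := by
    intro i
    rw [hA']
    refine Fin.cases ?_ (fun i => ?_) i
    · rw [Fin.cons_zero]
      exact weight_zero
    · rw [Fin.cons_succ]
      exact hA i
  have hc'w : ∀ i j, 0 ≤ c' i j ∧ c' i j ≤ 1 := by
    intro i j
    rw [hc']
    refine Fin.cases ?_ (fun i => ?_) i
    · rw [Fin.cons_zero]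
      exact ⟨zero_le_one, le_rfl⟩
    · rw [Fin.cons_succ]
      exact hc i j
  have hlcA : ∀ m v, lc A' (T m) v = ∑ i, τ m i * A i v := by
    intro m v
    unfold lc
    rw [Fin.sum_univ_succ, hT, hA']
    simp only [Fin.cons_zero, Fin.cons_succ, mul_zero, zero_add]
  have hlcc : ∀ m j, lc c' (T m) j = 1 - ∑ i, τ m i * (1 - c i j) := by
    intro m j
    unfold lc
    rw [Fin.sum_univ_succ, hT, hc']
    simp only [Fin.cons_zero, Fin.cons_succ, mul_one, mul_sub, Finset.sum_sub_distrib]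
    ring
  have hlcΨ : ∀ m, lc Ψ' (T m) = fun v => ∑ j, lc c' (T m) j * (mn v (h j) : ℚ) := by
    intro m
    funext v
    unfold lc
    rw [hΨ']
    simp only [Finset.mul_sum, Finset.sum_mul]
    rw [Finset.sum_comm]
    exact Finset.sum_congr rfl fun i _ => Finset.sum_congr rfl fun a _ => by ring
  -- the boundaries
  obtain ⟨β, hβ⟩ : ∃ β : ℕ → Place k K → ℝ, β = fun m => bR A c x h fun i => ((τ m i : ℚ) : ℝ) :=
    ⟨_, rfl⟩
  have hβb : ∀ m, β m = fun P => ((bdry (lc A' (T m)) (lc c' (T m)) x h P : ℚ) : ℝ) := by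
    intro m
    funext P
    rw [hβ]
    beta_reduce
    unfold bR
    by_cases h1 : vec P x ≠ 0
    · rw [if_pos h1, bdry_ne h1, hlcA]
      push_cast
      rfl
    · rw [if_neg h1]
      push Not at h1
      by_cases h2 : ∃ j, 0 < P.ord (ev x (h j))
      · rw [if_pos h2, bdry_van h1 h2]
        push_cast
        congr 2
        refine Finset.sum_congr rfl fun j _ => ?_
        rw [hlcc]
        push_cast
        ring
      · rw [if_neg h2]
        push Not at h2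
        rw [bdry_no h1 fun j => not_lt.2 (h2 j), Rat.cast_zero]
  have hβle : ∀ m P, bR A c x h t P ≤ β m P := by
    intro m P
    rw [hβ]
    exact bR_mono (fun i v hv => (hA i).nonneg v hv) (fun i j => (hc i j).2) (fun i => hτle m i) P
  have hβt : ∀ P, Tendsto (fun m => β m P) atTop (𝓝 (bR A c x h t P)) := by
    intro P
    rw [hβ]
    exact bR_tendsto hτt P
  have hNm : ∀ m, ¬ NegB k K n (β m) := fun m h1 => hN (negB_mono (fun P _ => hβle m P) h1)
  have hsys : ∀ m, VSys n (β m) x f (fun j => ev x (h j)) (lc c' (T m)) (lc A' (T m))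
      (lc Ψ' (T m)) := by
    intro m
    rw [hβb, hlcΨ]
    refine root_sys hx hgen hf hhx H (weight_convex hA'w (hT0 m) (hT1 m)) fun j => ?_
    unfold lc
    refine ⟨Finset.sum_nonneg fun i _ => mul_nonneg (hT0 m i) (hc'w i j).1, ?_⟩
    rw [← hT1 m]
    exact Finset.sum_le_sum fun i _ => mul_le_of_le_one_right (hT0 m i) (hc'w i j).2
  -- the tree
  obtain ⟨S, hS, hS1, hS2⟩ := tree (k := k) (K := K) (s := s + 1) hn htr q (n + q) q (Fin p)
    inferInstance x f (fun j => ev x (h j)) c' A' Ψ' le_rfl (fun i => range_fin (hA'w i))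
    (fun i => by
      rw [hΨ']
      exact PW.sum Finset.univ (fun j _ => PW.mn (hh0 j)) (c' i))
  obtain ⟨l, hl, hfr⟩ := freq_of_finite hS (P := fun l m => l.sys n (T m) (β m) ∧ l.ne (T m))
    fun m => by
      obtain ⟨l, hl, hok, hne⟩ := hS2 (T m) (β m) (hT1 m) (hsys m) (hNm m)
      exact ⟨l, hl, (hS1 l hl).2 (T m) (β m) (hT1 m) (hsys m) hok, hne⟩
  let _ := l.fin
  obtain ⟨e, hfr⟩ := freq_of_fintype (α := Fin l.q ⊕ Fin n ≃ Fin l.r)
    (P := fun e m => l.sys n (T m) (β m) ∧ l.ne (T m) ∧ ∃ C0 : Fin n → Fin l.r → ℤ,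
      dt e (fun a => gr l.z (l.g a)) C0 ≠ 0 ∧ GLow e l.z l.g C0 l.y (lc l.cw (T m))
        (fun v => lc l.A (T m) v + lc l.Ψ (T m) v) (β m)) (hfr.mono fun m hm => by
    obtain ⟨h1, h2⟩ := hm
    obtain ⟨e, C0, h3, h4⟩ := VSys.low h1
    exact ⟨e, h1, h2, C0, h3, h4⟩)
  obtain ⟨φ, hφ, hP⟩ := Filter.extraction_of_frequently_atTop hfr
  have hv : ∀ m, VSys n (β (φ m)) l.z l.g l.y (lc l.cw (T (φ m))) (lc l.A (T (φ m)))
    (lc l.Ψ (T (φ m))) := fun m => (hP m).1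
  choose u hu using fun m => (hP m).2.1
  choose C0 hC0 hlow using fun m => (hP m).2.2
  obtain ⟨R, hR⟩ := sys_bound (f := l.g) l.A l.Ψ
  have hbd : ∀ m i, |u m i| ≤ R := fun m => hR (T (φ m)) (hT0 _) (hT1 _) (hv m).A0 (u m) (hu m)
  -- convergence
  obtain ⟨a, ψ, hψ, hψa⟩ : ∃ (a : Fin l.r → ℝ) (ψ : ℕ → ℕ), StrictMono ψ ∧
      Tendsto (fun m => fun i => ((u (ψ m) i : ℚ) : ℝ)) atTop (𝓝 a) := by
    have h1 : ∀ m, (fun i => ((u m i : ℚ) : ℝ)) ∈ Metric.closedBall (0 : Fin l.r → ℝ) |(R : ℝ)| := by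
      intro m
      rw [mem_closedBall_zero_iff, pi_norm_le_iff_of_nonneg (abs_nonneg _)]
      intro i
      rw [Real.norm_eq_abs]
      have : |((u m i : ℚ) : ℝ)| ≤ (R : ℝ) := by exact_mod_cast hbd m i
      exact this.trans (le_abs_self _)
    obtain ⟨a, -, ψ, hψ, h2⟩ := tendsto_subseq_of_bounded Metric.isBounded_closedBall h1
    exact ⟨a, ψ, hψ, h2⟩
  have hφψ : Tendsto (fun m => φ (ψ m)) atTop atTop := hφ.tendsto_atTop.comp hψ.tendsto_atTop
  have hua : ∀ i, Tendsto (fun m => ((u (ψ m) i : ℚ) : ℝ)) atTop (𝓝 (a i)) := fun i =>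
    (tendsto_pi_nhds.1 hψa) i
  -- the limits of the coefficients
  obtain ⟨T', hT'⟩ : ∃ T' : Fin (s + 1) → ℝ, T' = Fin.cons (1 - ∑ i, t i) t := ⟨_, rfl⟩
  have hTt : ∀ i, Tendsto (fun m => ((T m i : ℚ) : ℝ)) atTop (𝓝 (T' i)) := by
    intro i
    rw [hT, hT']
    refine Fin.cases ?_ (fun i => ?_) i
    · simp only [Fin.cons_zero]
      push_cast
      exact tendsto_const_nhds.sub (tendsto_finsetSum _ fun i _ => hτt i)
    · simp only [Fin.cons_succ]
      exact hτt i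
  have hcw : ∀ j, Tendsto (fun m => ((lc l.cw (T m) j : ℚ) : ℝ)) atTop
      (𝓝 (∑ i, T' i * (l.cw i j : ℝ))) := by
    intro j
    unfold lc
    push_cast
    exact tendsto_finsetSum _ fun i _ => (hTt i).mul_const _
  -- the form
  have hz := (hv 0).hx
  have hgz := (hv 0).hf
  have hg0 := hn_ne0 (hv 0).hnd hgz
  have hOm : ∀ m D, Om e l.z l.g (C0 m) D = Om e l.z l.g (C0 0) D := fun m D =>
    om_eq hz hgz (hC0 m) (hC0 0) D
  obtain ⟨Z, hZ⟩ := Pool.Agent.W636.PG.exists_basis k K n htr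
  obtain ⟨D0, hD0'⟩ := Pool.Agent.W602.GT.exists_dual hZ
  have hD0 : ∀ i j, D0 i (Z j) = if i = j then 1 else 0 := by
    intro i j
    have h1 := congrFun (congrFun hD0' i) j
    rw [Matrix.of_apply, Matrix.one_apply] at h1
    exact h1
  have hOm0 := om_ne hz (hv 0).hgen hgz (hC0 0) hZ hD0
  refine ⟨Fin l.r ⊕ l.J, inferInstance, Sum.elim l.z l.y,
    Sum.elim a fun j => -∑ i, T' i * (l.cw i j : ℝ), 1, fun D => Om e l.z l.g (C0 0) D ^ 1,
    le_rfl, ?_, ?_, om_pluri e l.z l.g (C0 0) 1, ?_⟩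
  · rintro (i | j)
    · exact hz i
    · exact (hv 0).hy j
  · intro h0
    have := congrFun h0 D0
    beta_reduce at this
    rw [pow_one] at this
    exact hOm0 this
  · intro P hPd D hD
    beta_reduce
    rw [pow_one]
    by_cases hO : Om e l.z l.g (C0 0) D = 0
    · exact Or.inl hO
    right
    refine ⟨1, Finset.mem_singleton_self _, one_ne_zero, ?_⟩
    rw [Nat.cast_zero, zero_mul, zero_sub, Nat.cast_one, one_mul, Fintype.sum_sum_type]
    simp only [Sum.elim_inl, Sum.elim_inr]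
    have h1 : ∀ m, 0 ≤ (P.ord (Om e l.z l.g (C0 0) D) : ℝ) + (β (φ (ψ m)) P +
        (∑ i, ((u (ψ m) i : ℚ) : ℝ) * (P.ord (l.z i) : ℝ) -
          ∑ j, ((lc l.cw (T (φ (ψ m))) j : ℚ) : ℝ) * (P.ord (l.y j) : ℝ))) := by
      intro m
      have h2 := sys_ineq hg0 (hlow (ψ m)) (hu (ψ m)) hPd hD (by rw [hOm]; exact hO)
      rw [hOm] at h2
      exact h2
    have h2 : Tendsto (fun m => (P.ord (Om e l.z l.g (C0 0) D) : ℝ) + (β (φ (ψ m)) P +
        (∑ i, ((u (ψ m) i : ℚ) : ℝ) * (P.ord (l.z i) : ℝ) -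
          ∑ j, ((lc l.cw (T (φ (ψ m))) j : ℚ) : ℝ) * (P.ord (l.y j) : ℝ)))) atTop
        (𝓝 ((P.ord (Om e l.z l.g (C0 0) D) : ℝ) + (bR A c x h t P +
        (∑ i, a i * (P.ord (l.z i) : ℝ) -
          ∑ j, (∑ i, T' i * (l.cw i j : ℝ)) * (P.ord (l.y j) : ℝ))))) := by
      refine tendsto_const_nhds.add (((hβt P).comp hφψ).add ((tendsto_finsetSum _ fun i _ =>
        (hua i).mul_const _).sub (tendsto_finsetSum _ fun j _ =>
          ((hcw j).comp hφψ).mul_const _)))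
    have h3 := ge_of_tendsto' h2 h1
    have h4 : ∑ j, -(∑ i, T' i * (l.cw i j : ℝ)) * (P.ord (l.y j) : ℝ) =
        -∑ j, (∑ i, T' i * (l.cw i j : ℝ)) * (P.ord (l.y j) : ℝ) := by
      rw [← Finset.sum_neg_distrib]
      exact Finset.sum_congr rfl fun j _ => by ring
    rw [h4]
    linarith

end Pool.Agent.T2H41.RA
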