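import Pool.Agent.R885.W9
import Pool.Agent.T2H41.RF

/-!
Effective divisors and finite covers.
-/

set_option autoImplicit false
set_option linter.overlappingInstances false
set_option linter.unusedSectionVars false

open FF Filter Topology IntermediateField Pool.Agent.W603.LV Pool.Agent.W619.PQ Pool.Agent.W619.PL
  Pool.Agent.W619.TW Pool.Agent.W619.Y Pool.Agent.W672.PG Pool.Agent.W824.PG
  Pool.Agent.Y174 Pool.Agent.R885 Pool.Agent.R885.N

namespace Pool.Agent.T2H41.RA

section

variable {k : Type} [Field k] [CharZero k] {K L : Type} [Field K] [Field L] [Algebra k K]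
  [Algebra k L] [Algebra K L] [IsScalarTower k K L]

/-- Pull-back. -/
theorem eff_up [FiniteDimensional K L] (hess : Algebra.EssFiniteType k K) {n : ℕ}
    (hn : Algebra.trdeg k K = n) {δ : Place k K → ℝ} {δ' : Place k L → ℝ}
    (hδ' : ∀ v, IsDivisorial v n → ∀ w e, LiesOn w v e → 1 - e * (1 - δ v) ≤ δ' w)
    (h : EffF k K n δ) : EffF k L n δ' := by
  classical
  obtain ⟨ι, hι, φ, ρ, m, ω, hm, hφ, hω0, hω⟩ := h
  obtain ⟨y, hy⟩ := Pool.Agent.W636.PG.exists_basis k K n hn
  obtain ⟨E, hE⟩ := Pool.Agent.W636.PG.exists_duals k K n y hy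
  have hyL : IsTranscendenceBasis k (algebraMap K L ∘ y) := hy.algebraMap_comp
  obtain ⟨E', hE'⟩ := Pool.Agent.W636.PG.exists_duals k L n _ hyL
  have hE0 : ω E ≠ 0 := by
    intro h0
    apply hω0
    funext D
    rw [Pool.Agent.W636.PG.form_eq k K n m y hy E hE ω hω.1 D, h0, mul_zero]
    rfl
  have hdet : (Matrix.of fun a b => E' a (algebraMap K L (y b))).det = 1 := by
    have h1 : (Matrix.of fun a b => E' a (algebraMap K L (y b))) = 1 := by
      ext a b
      rw [Matrix.of_apply, Matrix.one_apply]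
      exact hE' a b
    rw [h1, Matrix.det_one]
  refine ⟨ι, hι, fun i => algebraMap K L (φ i), ρ, m,
    fun D => (Matrix.of fun a b => D a (algebraMap K L (y b))).det ^ m * algebraMap K L (ω E),
    hm, fun i => (map_ne_zero_iff _ (algebraMap K L).injective).2 (hφ i), ?_, ?_⟩
  · intro h0
    have h1 := congrFun h0 E'
    beta_reduce at h1
    rw [hdet, one_pow, one_mul] at h1
    exact hE0 ((map_eq_zero _).1 h1)
  · have h1 := w0_pull (δ' := fun w => δ' w + ∑ i, ρ i * (w.ord (algebraMap K L (φ i)) : ℝ))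
      hess hn (fun v hv w e hwv => by
        have h2 := hδ' v hv w e hwv
        have h3 : ∑ i, ρ i * (w.ord (algebraMap K L (φ i)) : ℝ) =
            e * ∑ i, ρ i * (v.ord (φ i) : ℝ) := by
          rw [Finset.mul_sum]
          refine Finset.sum_congr rfl fun i _ => ?_
          rw [hwv.2]
          push_cast
          ring
        rw [h3]
        linarith) y E hy hE hω
    rw [Finset.image_singleton, map_one] at h1
    exact h1

end

section

variable {k : Type} {L : Type} [Field k] [CharZero k] [Field L] [Algebra k L]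

theorem geR_prod {K : Type} [Field K] [Algebra k K] {w : Place k K} {ι : Type*} (s : Finset ι)
    (c : ι → ℝ) (f : ι → K) (h : ∀ i ∈ s, GeR w (c i) (f i)) :
    GeR w (∑ i ∈ s, c i) (∏ i ∈ s, f i) := by
  classical
  induction s using Finset.induction_on with
  | empty =>
    right
    rw [Finset.prod_empty, w.ord_one]
    simp
  | insert b s hb ih =>
    rw [Finset.prod_insert hb, Finset.sum_insert hb]
    exact (h b (Finset.mem_insert_self _ _)).mul
      (ih fun i hi => h i (Finset.mem_insert_of_mem hi))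

theorem ord_prod' {K : Type} [Field K] [Algebra k K] (w : Place k K) {ι : Type*} (s : Finset ι)
    (f : ι → K) (h : ∀ i ∈ s, f i ≠ 0) : w.ord (∏ i ∈ s, f i) = ∑ i ∈ s, w.ord (f i) := by
  classical
  induction s using Finset.induction_on with
  | empty => simp [w.ord_one]
  | insert b s hb ih =>
    rw [Finset.prod_insert hb, Finset.sum_insert hb, w.ord_mul (h b (Finset.mem_insert_self _ _))
      (Finset.prod_ne_zero_iff.2 fun i hi => h i (Finset.mem_insert_of_mem hi)),
      ih fun i hi => h i (Finset.mem_insert_of_mem hi)]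

/-- Descent. -/
theorem eff_desc {n : ℕ} (hn : Algebra.trdeg k L = n) (hessL : Algebra.EssFiniteType k L)
    (G : Subgroup (L ≃ₐ[k] L)) [Finite G] (δ : Place k (fixedField G) → ℝ)
    (δ' : Place k L → ℝ)
    (hδ' : ∀ v, IsDivisorial v n → ∀ w e, LiesOn w v e → δ' w ≤ 1 - e * (1 - δ v))
    (hL : EffF k L n δ') : EffF k (fixedField G) n δ := by
  classical
  have halgK := Pool.Agent.W721.PG.EFF2.alg_fixed G
  have hfin := fixed_finite G
  have := Fintype.ofFinite G
  obtain ⟨ι, hι, φ, ρ, m, ω, hm, hφ, hω0, hω⟩ := hL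
  obtain ⟨hnK, z, hz⟩ := Pool.Agent.W721.PG.EFF2.exists_basis (fixedField G) n hn
  have hessK : Algebra.EssFiniteType k (fixedField G) := ess_down hessL z hz
  choose ext hext hext2 hext3 using Pool.Agent.Y174.pEXT k (fixedField G) L n hnK
  have hfix : ∀ (g : G) (f : fixedField G), (g : L ≃ₐ[k] L) (algebraMap (fixedField G) L f) =
      algebraMap (fixedField G) L f := fun g f => f.2 g
  -- the frame
  obtain ⟨E, hE⟩ := Pool.Agent.W636.PG.exists_duals k (fixedField G) n z hz
  have hzL : IsTranscendenceBasis k (algebraMap (fixedField G) L ∘ z) := hz.algebraMap_comp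
  have hE' : ∀ i j, ext (E i) ((algebraMap (fixedField G) L ∘ z) j) = if i = j then 1 else 0 := by
    intro i j
    rw [Function.comp_apply, hext, hE]
    split_ifs <;> simp
  have hωE0 : ω (fun j => ext (E j)) ≠ 0 := by
    intro h0
    apply hω0
    funext D
    rw [Pool.Agent.W636.PG.form_eq k L n m _ hzL _ hE' ω hω.1 D, h0, mul_zero]
    rfl
  -- invariance
  have hprod : ∀ (a : L) (g : G), (g : L ≃ₐ[k] L) (∏ g' : G, (g' : L ≃ₐ[k] L) a) =
      ∏ g' : G, (g' : L ≃ₐ[k] L) a := by
    intro a g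
    rw [map_prod]
    exact Fintype.prod_equiv (Equiv.mulLeft g) _ _ fun g' => rfl
  have hnz : ∀ a : L, a ≠ 0 → (∏ g' : G, (g' : L ≃ₐ[k] L) a) ≠ 0 := fun a ha =>
    Finset.prod_ne_zero_iff.2 fun g _ => (map_ne_zero_iff _ (g : L ≃ₐ[k] L).injective).2 ha
  obtain ⟨R, hR⟩ : ∃ R : ℕ, R = Fintype.card G := ⟨_, rfl⟩
  have hR0 : 0 < R := by
    rw [hR]
    exact Fintype.card_pos
  have hR0' : (R : ℝ) ≠ 0 := by exact_mod_cast hR0.ne'
  refine ⟨ι, hι, fun i => ⟨∏ g' : G, (g' : L ≃ₐ[k] L) (φ i), fun g => hprod _ g⟩,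
    fun i => ρ i / R, m * R,
    fun D => ⟨∏ g' : G, (g' : L ≃ₐ[k] L) (ω fun j => ext (D j)), fun g => hprod _ g⟩,
    Nat.mul_pos hm hR0, fun i h0 => hnz _ (hφ i) (congrArg Subtype.val h0), fun h0 => ?_, ?_, ?_⟩
  · exact hnz _ hωE0 (congrArg Subtype.val (congrFun h0 E))
  · intro X D
    apply Subtype.ext
    change (∏ g' : G, (g' : L ≃ₐ[k] L) (ω fun j => ext (∑ l, X j l • D l))) =
      algebraMap (fixedField G) L (X.det ^ (m * R) * ⟨_, fun g => hprod _ g⟩)
    have e1 : (fun j => ext (∑ l, X j l • D l)) = fun j => ∑ l,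
        (X.map (algebraMap (fixedField G) L)) j l • ext (D l) := by
      funext j
      symm
      apply hext2
      intro f
      rw [Pool.Agent.W721.PG.EFF2.der_sum, Pool.Agent.W721.PG.EFF2.der_sum, map_sum]
      refine Finset.sum_congr rfl fun l _ => ?_
      rw [hext, map_mul]
      rfl
    have e3 : (X.map (algebraMap (fixedField G) L)).det = algebraMap (fixedField G) L X.det := by
      rw [RingHom.map_det]
      rfl
    have e4 : ∀ g' : G, (g' : L ≃ₐ[k] L) (ω fun j => ext (∑ l, X j l • D l)) =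
        (algebraMap (fixedField G) L X.det) ^ m * (g' : L ≃ₐ[k] L) (ω fun j => ext (D j)) := by
      intro g'
      rw [e1, hω.1, e3, map_mul, map_pow, hfix]
    rw [Finset.prod_congr rfl fun g' _ => e4 g', Finset.prod_mul_distrib, Finset.prod_const,
      Finset.card_univ, ← hR, ← pow_mul, map_mul, map_pow]
    rfl
  · intro v hv D hD
    obtain ⟨w, e, I, hwv, hcard, hI⟩ := exists_inertia G v
    have he0 : 0 < e := hwv.1
    have hg : ∀ g : G, GeR w (-((m : ℝ) * (e * δ v + ∑ i, ρ i *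
        (w.ord ((g : L ≃ₐ[k] L) (φ i)) : ℝ)))) ((g : L ≃ₐ[k] L) (ω fun j => ext (D j))) := by
      intro g
      rw [← GeR.comp]
      have hov := over_comp hwv (g : L ≃ₐ[k] L) (fun z => z.2 g)
      have hdv := divisorial_up hov hv
      have hdel := hδ' v hv (w.comp (g : L ≃ₐ[k] L)) e hov
      have hreg : ∀ D' : Fin n → Derivation k L L, (∀ j, Pres (w.comp (g : L ≃ₐ[k] L)) (D' j)) →
          GeR (w.comp (g : L ≃ₐ[k] L)) (-(m * (δ' (w.comp (g : L ≃ₐ[k] L)) +
            ∑ i, ρ i * (((w.comp (g : L ≃ₐ[k] L)).ord (φ i) : ℤ) : ℝ)))) (ω D') := by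
        intro D' hD'
        rcases hω.2 _ hdv D' hD' with h | ⟨s', hs', hs0', hle⟩
        · exact Or.inl h
        · refine Or.inr ?_
          simpa using hle
      have h1 := ge_formR hn hessL hnK hessK hov hv ω hω.1 hreg ext
        (fun D f => hext D f) (fun D D'' h => hext2 D D'' h) D hD
      refine h1.mono ?_
      simp only [Place.comp_ord]
      have h8 : (0 : ℝ) ≤ m := Nat.cast_nonneg m
      have h9 := mul_le_mul_of_nonneg_left hdel h8
      nlinarith
    have h1 := geR_prod (w := w) Finset.univ _ (fun g : G => (g : L ≃ₐ[k] L)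
      (ω fun j => ext (D j))) fun g _ => hg g
    have hsum : ∑ g : G, -((m : ℝ) * (e * δ v + ∑ i, ρ i *
        (w.ord ((g : L ≃ₐ[k] L) (φ i)) : ℝ))) = e * (-((m * R : ℕ) * (δ v + ∑ i, ρ i / R *
          (v.ord (⟨∏ g' : G, (g' : L ≃ₐ[k] L) (φ i), fun g => hprod _ g⟩ : fixedField G) :
            ℝ)))) := by
      have h2 : ∀ i, (e : ℝ) * (v.ord (⟨∏ g' : G, (g' : L ≃ₐ[k] L) (φ i),
          fun g => hprod _ g⟩ : fixedField G) : ℝ) =
          ∑ g : G, (w.ord ((g : L ≃ₐ[k] L) (φ i)) : ℝ) := by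
        intro i
        have h3 := hwv.2 (⟨∏ g' : G, (g' : L ≃ₐ[k] L) (φ i), fun g => hprod _ g⟩ : fixedField G)
        have h4 : w.ord (∏ g' : G, (g' : L ≃ₐ[k] L) (φ i)) = ∑ g : G,
            w.ord ((g : L ≃ₐ[k] L) (φ i)) := ord_prod' w _ _ fun g _ =>
              (map_ne_zero_iff _ (g : L ≃ₐ[k] L).injective).2 (hφ i)
        have h5 : w.ord (∏ g' : G, (g' : L ≃ₐ[k] L) (φ i)) = e *
          v.ord (⟨∏ g' : G, (g' : L ≃ₐ[k] L) (φ i), fun g => hprod _ g⟩ : fixedField G) := h3
        rw [h4] at h5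
        exact_mod_cast h5.symm
      have h6 : (e : ℝ) * ∑ i, ρ i / R * (v.ord (⟨∏ g' : G, (g' : L ≃ₐ[k] L) (φ i),
          fun g => hprod _ g⟩ : fixedField G) : ℝ) =
          (∑ g : G, ∑ i, ρ i * (w.ord ((g : L ≃ₐ[k] L) (φ i)) : ℝ)) / R := by
        rw [Finset.sum_comm, Finset.mul_sum, Finset.sum_div]
        refine Finset.sum_congr rfl fun i _ => ?_
        rw [← Finset.mul_sum, ← h2]
        ring
      rw [Finset.sum_neg_distrib, ← Finset.mul_sum, Finset.sum_add_distrib, Finset.sum_const,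
        Finset.card_univ, ← hR, nsmul_eq_mul]
      push_cast
      have h7 : (e : ℝ) * (-((m : ℝ) * R * (δ v + ∑ i, ρ i / R * (v.ord
          (⟨∏ g' : G, (g' : L ≃ₐ[k] L) (φ i), fun g => hprod _ g⟩ : fixedField G) : ℝ)))) =
          -((m : ℝ) * (R * (e * δ v) + R * (e * ∑ i, ρ i / R * (v.ord
          (⟨∏ g' : G, (g' : L ≃ₐ[k] L) (φ i), fun g => hprod _ g⟩ : fixedField G) : ℝ)))) := by
        ring
      rw [h7, h6, mul_div_cancel₀ _ hR0']
    rw [hsum] at h1
    have h2 : GeR v (-((m * R : ℕ) * (δ v + ∑ i, ρ i / R *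
          (v.ord (⟨∏ g' : G, (g' : L ≃ₐ[k] L) (φ i), fun g => hprod _ g⟩ : fixedField G) :
            ℝ)))) (⟨∏ g' : G, (g' : L ≃ₐ[k] L) (ω fun j => ext (D j)), fun g => hprod _ g⟩ :
              fixedField G) := by
      apply GeR.down hwv
      exact h1
    rcases h2 with h2 | h2
    · exact Or.inl h2
    · right
      refine ⟨1, by simp, one_ne_zero, ?_⟩
      simpa using h2

end

section

variable {k : Type} [Field k] [CharZero k] {K L : Type} [Field K] [Field L] [Algebra k K]
  [Algebra k L] [Algebra K L] [IsScalarTower k K L] [FiniteDimensional K L]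

/-- The equivalence for finite covers. -/
theorem eff_all (hess : Algebra.EssFiniteType k K) {n : ℕ}
    (hn : Algebra.trdeg k K = n) {δ : Place k K → ℝ} {δ' : Place k L → ℝ}
    (hδ' : ∀ v, IsDivisorial v n → ∀ w e, LiesOn w v e → δ' w = 1 - e * (1 - δ v))
    (h : EffF k L n δ') : EffF k K n δ := by
  classical
  obtain ⟨N, iN, ikN, iKN, iLN, t1, t2, t3, hfin, G, hG, ia, t4, hfin2, hφ, hsurj⟩ :=
    exists_closure (k := k) (K := K) (L := L)
  have hfinL : FiniteDimensional L N := FiniteDimensional.right K L N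
  have hnL : Algebra.trdeg k L = n := w6_trdeg (K := K) hn
  have hnN : Algebra.trdeg k N = n := w6_trdeg (K := K) hn
  have hessL : Algebra.EssFiniteType k L := w6_ess (K := K) hess
  have hessN : Algebra.EssFiniteType k N := w6_ess (K := K) hess
  have halg := Pool.Agent.W721.PG.EFF2.alg_fixed G
  have hfinG := fixed_finite G
  obtain ⟨hnF, z, hz⟩ := Pool.Agent.W721.PG.EFF2.exists_basis (fixedField G) n hnN
  have hessF : Algebra.EssFiniteType k (fixedField G) := ess_down hessN z hz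
  -- the multiplicities
  choose eN vN hvN using fun w : Place k N =>
    Pool.Agent.W73.PG.PULL.exists_over' (K := K) w
  obtain ⟨δN, hδN⟩ : ∃ δN : Place k N → ℝ, δN = fun w => 1 - eN w * (1 - δ (vN w)) := ⟨_, rfl⟩
  have hδN' : ∀ (v : Place k K) (w : Place k N) e, LiesOn w v e → δN w = 1 - e * (1 - δ v) := by
    intro v w e h
    obtain ⟨h1, h2⟩ := over_uniq h (hvN w)
    rw [hδN, h1, h2]
  choose wF eF hwF using fun v : Place k (fixedField G) =>
    Pool.Agent.Y172.exists_above (k := k) (K := fixedField G) (L := K) v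
  obtain ⟨δF, hδF⟩ : ∃ δF : Place k (fixedField G) → ℝ, δF = fun v => δ (wF v) := ⟨_, rfl⟩
  -- over the fixed field
  have h1F : ∀ (v : Place k (fixedField G)) (w : Place k K) e, LiesOn w v e →
      e = 1 ∧ w = wF v := by
    intro v w e h
    have h1 : ∀ (u : Place k K) a, LiesOn u v a → a = 1 := by
      intro u a hu
      obtain ⟨t, ht0, ht⟩ := u.surj
      obtain ⟨s, hs⟩ := hsurj t
      rw [← hs, hu.2] at ht
      have h2 : (a : ℤ) ∣ 1 := ⟨_, ht.symm⟩
      have h3 := Int.natAbs_dvd_natAbs.2 h2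
      simpa using h3
    refine ⟨h1 w e h, ?_⟩
    ext f
    obtain ⟨s, hs⟩ := hsurj f
    rw [← hs, h.2, (hwF v).2, h1 w e h, h1 _ _ (hwF v)]
  have h2F : ∀ (v : Place k (fixedField G)) (w : Place k N) e, LiesOn w v e →
      LiesOn w (wF v) e := by
    intro v w e h
    refine ⟨h.1, fun f => ?_⟩
    obtain ⟨s, hs⟩ := hsurj f
    rw [← hs, hφ, h.2, (hwF v).2, (h1F v (wF v) (eF v) (hwF v)).1, Nat.cast_one, one_mul]
  have h3F : ∀ v, IsDivisorial v n → ∀ (w : Place k N) e, LiesOn w v e →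
      δN w = 1 - e * (1 - δF v) := by
    intro v hv w e h
    rw [hδF]
    exact hδN' _ _ _ (h2F v w e h)
  have h4F : ∀ v, IsDivisorial v n → ∀ (w : Place k K) e, LiesOn w v e →
      1 - e * (1 - δF v) ≤ δ w := by
    intro v hv w e h
    obtain ⟨h1, h2⟩ := h1F v w e h
    rw [h1, h2, hδF]
    simp
  have h5L : ∀ v, IsDivisorial v n → ∀ (w : Place k N) e, LiesOn w v e →
      1 - e * (1 - δ' v) ≤ δN w := by
    intro v hv w e h
    obtain ⟨e', u, hu⟩ := Pool.Agent.W73.PG.PULL.exists_over' (K := K) v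
    have hu' := Pool.Agent.Y174.pDIVI k K L n u v e' hu hv
    rw [hδ' u hu' v e' hu, hδN' u w _ (over_comp2 h hu)]
    push_cast
    apply le_of_eq
    ring
  have h1 := eff_up (K := L) (L := N) hessL hnL h5L h
  have h2 := eff_desc hnN hessN G δF δN (fun v hv w e hw => (h3F v hv w e hw).le) h1
  exact eff_up (K := fixedField G) (L := K) hessF hnF h4F h2

end

end Pool.Agent.T2H41.RA
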