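import Pool.Agent.T2H41.RG
import Pool.Agent.T2H07.Cls
import Pool.Agent.Y172.Nil

/-!
The effective divisor on the projective model.
-/

set_option autoImplicit false
set_option linter.overlappingInstances false
set_option linter.unusedSectionVars false

open FF Filter Topology IntermediateField Pool.Agent.W602.GT Pool.Agent.W603.LV
  Pool.Agent.W619.PQ Pool.Agent.W619.TW Pool.Agent.W619.Y Pool.Agent.Y172 Pool.Agent.Y191
  Pool.Agent.Y174 Pool.Agent.R885 Pool.Agent.R885.N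

namespace Pool.Agent.T2H41.RA

section

variable {K : Type} [Field K] [Algebra ℂ K] {N n : ℕ} {y : Fin (N + 1) → K}

theorem det_pluri (x : Fin n → K) :
    IsPluri 1 (fun D : Fin n → Derivation ℂ K K => (Matrix.of fun i j => D i (x j)).det) := by
  intro A D
  beta_reduce
  have e : (Matrix.of fun a b => (∑ j, A a j • D j) (x b)) =
      A * Matrix.of fun a b => D a (x b) := by
    ext a b
    rw [Matrix.of_apply, Matrix.mul_apply, Pool.Agent.W73.PG.PULL.sum_app]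
    rfl
  rw [e, Matrix.det_mul, pow_one]

/-- The effective divisor on the projective model. -/
theorem eff_X (htr : Algebra.trdeg ℂ K = (n : ℕ)) (hy : NormalModel y) {B β : Place ℂ K → ℝ}
    (hB : T2H07.IsRDiv y B) (hβ : ∀ P, IsPrimeDivisor y P → β P = B P) (h : EffF ℂ K n β) :
    ∃ E, T2H07.EffR y E ∧ T2H07.RLin y n B E := by
  classical
  have hess := hy.ess
  obtain ⟨ι, hι, φ, ρ, m, ω, hm, hφ, hω0, hω⟩ := h
  obtain ⟨x, F, hx, hF⟩ := exists_crd htr
  have hfr : IsFrame F := fun G =>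
    ⟨fun j => G (x j), (Pool.Agent.W73.PG.PULL.expand x hx F hF G).symm⟩
  obtain ⟨c, hc⟩ : ∃ c : K, c = ω F := ⟨_, rfl⟩
  have hωP : IsPluri m ω := hω.1
  have hc0 : c ≠ 0 := by
    rw [hc]
    exact fun h0 => hω0 (pluri_zero hfr hωP h0)
  obtain ⟨ω₀, hω₀⟩ : ∃ ω₀ : (Fin n → Derivation ℂ K K) → K,
      ω₀ = fun D => (Matrix.of fun i j => D i (x j)).det := ⟨_, rfl⟩
  have hω₀P : IsPluri 1 ω₀ := by
    rw [hω₀]
    exact det_pluri x
  have hωD : ∀ D, ω D = ω₀ D ^ m * c := by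
    intro D
    rw [hc, hω₀]
    exact pluri_coord hx hF hωP D
  have hω₀F : ω₀ F ≠ 0 := by
    intro h0
    have h1 := hωD F
    rw [h0, zero_pow (by omega), zero_mul] at h1
    exact hc0 (hc.trans h1)
  have hω₀0 : ω₀ ≠ 0 := fun h0 => hω₀F (by rw [h0]; rfl)
  have hm0 : (0 : ℝ) < m := by exact_mod_cast hm
  have hch : ∀ P, ∃ a : ℤ, IsPrimeDivisor y P → OrdEq P ω₀ a ∧
      0 ≤ (a : ℝ) + B P + ((1 / m : ℝ) * P.ord c + ∑ i, ρ i * (P.ord (φ i) : ℝ)) := by
    intro P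
    by_cases hP : IsPrimeDivisor y P
    · obtain ⟨z, G, i0, hl⟩ := exists_loc htr (hP.divisorial hy htr)
      have h1 : ω₀ G ≠ 0 := loc_ne hl hω₀P hω₀0
      refine ⟨P.ord (ω₀ G), fun _ => ⟨(ordEq_iff hl hω₀P h1).2 rfl, ?_⟩⟩
      have h2 : ω G ≠ 0 := loc_ne hl hωP hω0
      rcases hω.2 P (hP.divisorial hy htr) G hl.pres with h3 | ⟨s, hs, hs0, h3⟩
      · exact absurd h3 h2
      rw [Nat.cast_zero, zero_mul, zero_sub, hωD, P.ord_mul (pow_ne_zero _ h1) hc0,
        P.ord_pow] at h3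
      beta_reduce at h3
      rw [hβ P hP] at h3
      push_cast at h3
      have h4 : 0 ≤ (m : ℝ) * ((P.ord (ω₀ G) : ℝ) + B P + ((1 / m : ℝ) * P.ord c +
          ∑ i, ρ i * (P.ord (φ i) : ℝ))) := by
        have h5 : (m : ℝ) * ((1 / m : ℝ) * P.ord c) = P.ord c := by
          field_simp
        have h6 : (m : ℝ) * ((P.ord (ω₀ G) : ℝ) + B P + ((1 / m : ℝ) * P.ord c +
          ∑ i, ρ i * (P.ord (φ i) : ℝ))) = m * (P.ord (ω₀ G) : ℝ) + m * (B P +
            ∑ i, ρ i * (P.ord (φ i) : ℝ)) + (m : ℝ) * ((1 / m : ℝ) * P.ord c) := by ring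
        rw [h6, h5]
        linarith
      exact nonneg_of_mul_nonneg_right h4 hm0
    · exact ⟨0, fun h' => absurd h' hP⟩
  choose a ha using hch
  obtain ⟨E, hE⟩ : ∃ E : Place ℂ K → ℝ, E = fun P => (a P : ℝ) + B P +
      ((1 / m : ℝ) * P.ord c + ∑ i, ρ i * (P.ord (φ i) : ℝ)) := ⟨_, rfl⟩
  refine ⟨E, ⟨?_, fun P hP => ?_⟩, ω₀, Fintype.card ι + 1,
    Fin.cons c fun i => φ ((Fintype.equivFin ι).symm i),
    Fin.cons (1 / m : ℝ) fun i => ρ ((Fintype.equivFin ι).symm i), hω₀P, hω₀0, fun i => ?_,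
    fun P hP => ⟨a P, (ha P hP).1, ?_⟩⟩
  · have h1 : (⋃ i, {P : Place ℂ K | IsPrimeDivisor y P ∧ P.ord (φ i) ≠ 0}).Finite :=
      Set.finite_iUnion fun i => finite_ord hy (hφ i)
    have h2 : {P | IsPrimeDivisor y P ∧ B P ≠ 0}.Finite := hB
    refine (((finite_ordEq hy htr hω₀P hω₀F).union h2).union
      ((finite_ord hy hc0).union h1)).subset ?_
    rintro P ⟨hP, hP0⟩
    by_contra hcon
    simp only [Set.mem_union, Set.mem_iUnion, not_or, not_exists, Set.mem_ofPred_eq, not_and,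
      not_not] at hcon
    obtain ⟨⟨h3, h4⟩, h5, h6⟩ := hcon
    apply hP0
    rw [hE]
    beta_reduce
    obtain ⟨z, G, i0, hl⟩ := exists_loc htr (hP.divisorial hy htr)
    obtain ⟨-, h7⟩ := T2H07.ordEq_loc hl hω₀P (h3 hP)
    obtain ⟨-, h8⟩ := T2H07.ordEq_loc hl hω₀P (ha P hP).1
    have h9 : (a P : ℚ) = 0 := by rw [← h8, h7]
    have h10 : a P = 0 := by exact_mod_cast h9
    rw [h10, h4 hP, h5 hP, Finset.sum_eq_zero fun i _ => by rw [h6 i hP, Int.cast_zero, mul_zero]]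
    simp
  · rw [hE]
    exact (ha P hP).2
  · refine Fin.cases ?_ (fun i => ?_) i
    · rw [Fin.cons_zero]
      exact hc0
    · rw [Fin.cons_succ]
      exact hφ _
  · rw [hE, Fin.sum_univ_succ]
    simp only [Fin.cons_zero, Fin.cons_succ]
    congr 2
    exact (Equiv.sum_comp (Fintype.equivFin ι).symm fun i => ρ i * (P.ord (φ i) : ℝ)).symm

end

end Pool.Agent.T2H41.RA
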