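import Pool.Agent.T2H41.RH
import Pool.Agent.T2H41.GR

/-!
Sections of multiples of a real pair, at the places over the variety.
-/

set_option autoImplicit false
set_option linter.overlappingInstances false
set_option linter.unusedSectionVars false

open FF Filter Topology IntermediateField Pool.Agent.W602.GT Pool.Agent.W603.LV
  Pool.Agent.W619.PQ Pool.Agent.W619.TW Pool.Agent.W619.Y Pool.Agent.Y172 Pool.Agent.Y191
  Pool.Agent.Y174 Pool.Agent.R885 Pool.Agent.R885.N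

namespace Pool.Agent.T2H41.RA

section

variable {K : Type} [Field K] [Algebra ℂ K] {N n : ℕ} {y : Fin (N + 1) → K}

/-- **The order of a section at a place over a variety.** -/
theorem disc_bound' (hy : NormalModel y) {A : Place ℂ K → ℚ} (hA : Effective y A)
    {D : Fin n → Derivation ℂ K K} (hD : IsFrame D) (j : Fin (N + 1)) :
    ∃ s ∈ chart y j, s ≠ 0 ∧ ∀ (Δ : Place ℂ K → ℚ) (Q : Place ℂ K), Centred y j Q → ∀ α : ℚ,
      LogDisc y n Δ Q α → ∀ m : ℕ, 1 ≤ m →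
      ∀ ω, IsSection y n m (m • Δ + A) ω → OrdGe Q ω (m * (α - 1) - (Q.ord s : ℤ)) := by
  classical
  obtain ⟨s, hs, hs0, hsP⟩ := exists_high (y := y) (j := j)
    (S := {P | IsPrimeDivisor y P ∧ Centred y j P ∧ A P ≠ 0})
    (hA.2.subset (by
      rintro P ⟨h1, -, h2⟩
      exact ⟨h1, h2⟩)) (fun P hP => hP.2.1) (fun P hP => hP.1) (fun P => ⌈A P⌉₊)
  have hsA : ∀ P, IsPrimeDivisor y P → Centred y j P → A P ≤ (P.ord s : ℚ) := by
    intro P hP hPc
    by_cases hAP : A P = 0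
    · rw [hAP]
      have := (P.reg_iff hs0).1 (hPc.reg s hs)
      exact_mod_cast this
    · have h6 := hsP P ⟨hP, hPc, hAP⟩
      have h7 : A P ≤ (⌈A P⌉₊ : ℚ) := Nat.le_ceil _
      exact h7.trans (by exact_mod_cast h6)
  refine ⟨s, hs, hs0, fun Δ Q hj α hα m hm ω hω E' hE' => ?_⟩
  have hm' : (0 : ℚ) < m := by exact_mod_cast hm
  rcases hα with ⟨hQ, hα⟩ | ⟨r, hr, η, hη, hηP, hηQ⟩
  · refine (hω.2 Q hQ E' hE').imp_right fun h1 => le_trans ?_ h1
    have h2 := hsA Q hQ hj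
    rw [Pi.add_apply, Pi.smul_apply, nsmul_eq_mul]
    nlinarith
  by_cases hωD : ω E' = 0
  · exact Or.inl hωD
  right
  have hfr := frame_of_ne hD hm hω.1 hωD
  have hηD : η E' ≠ 0 := by
    intro h
    obtain ⟨P, hP, hPQ⟩ := exists_through hy Q
    obtain ⟨-, E, -, hE0, -⟩ := hηP P hP hPQ
    have h1 := pluri_zero hfr hη h
    rw [h1] at hE0
    exact hE0 rfl
  have hηo : (r : ℚ) * (α - 1) ≤ Q.ord (η E') := (hηQ E' hE').resolve_left hηD
  obtain ⟨F, hF⟩ : ∃ F, F = ω E' ^ r * s ^ r / η E' ^ m := ⟨_, rfl⟩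
  have h1 : ω E' ^ r ≠ 0 := pow_ne_zero _ hωD
  have h2 : s ^ r ≠ 0 := pow_ne_zero _ hs0
  have h3 : η E' ^ m ≠ 0 := pow_ne_zero _ hηD
  have hF0 : F ≠ 0 := by
    rw [hF]
    exact div_ne_zero (mul_ne_zero h1 h2) h3
  have hr' : (0 : ℚ) < r := by exact_mod_cast hr
  have hFreg : F ∈ localRing y Q := by
    refine mem_localRing_of_reg hy fun P hP hPQ => ?_
    have hPc := hPQ.centred hj
    obtain ⟨-, E, hE, hE0, hEo⟩ := hηP P hP hPQ
    choose C hC using fun i => hfr (E i)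
    have e1 : E = fun i => ∑ j, Matrix.of C i j • E' j := funext hC
    have hE1 : η E = (Matrix.of C).det ^ r * η E' := by
      conv_lhs => rw [e1]
      exact hη _ _
    have hE2 : ω E = (Matrix.of C).det ^ m * ω E' := by
      conv_lhs => rw [e1]
      exact hω.1 _ _
    obtain ⟨c, hc⟩ : ∃ c, c = (Matrix.of C).det := ⟨_, rfl⟩
    rw [← hc] at hE1 hE2
    have hc0 : c ≠ 0 := by
      rintro rfl
      rw [zero_pow hr.ne', zero_mul] at hE1
      exact hE0 hE1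
    have hωE : ω E ≠ 0 := by
      rw [hE2]
      exact mul_ne_zero (pow_ne_zero _ hc0) hωD
    have hF' : F = ω E ^ r * s ^ r / η E ^ m := by
      rw [hF, hE1, hE2, mul_pow, mul_pow, ← pow_mul, ← pow_mul, mul_comm r m]
      have h4 : c ^ (m * r) ≠ 0 := pow_ne_zero _ hc0
      field_simp
    have h4 : -(m * Δ P + A P) ≤ (P.ord (ω E) : ℚ) := by
      have := (hω.2 P hP E hE).resolve_left hωE
      rwa [Pi.add_apply, Pi.smul_apply, nsmul_eq_mul] at this
    have h5 := hsA P hP hPc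
    rw [P.reg_iff hF0, hF', P.ord_div (mul_ne_zero (pow_ne_zero _ hωE) h2) (pow_ne_zero _ hE0),
      P.ord_mul (pow_ne_zero _ hωE) h2, P.ord_pow, P.ord_pow, P.ord_pow]
    have h6 : (0 : ℚ) ≤ (r * P.ord (ω E) + r * P.ord s - m * P.ord (η E) : ℚ) := by
      rw [hEo]
      nlinarith
    exact_mod_cast h6
  have h4 := (Q.reg_iff hF0).1 (localRing_reg hFreg)
  rw [hF, Q.ord_div (mul_ne_zero h1 h2) h3, Q.ord_mul h1 h2, Q.ord_pow, Q.ord_pow,
    Q.ord_pow] at h4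
  have h4' : (0 : ℚ) ≤ r * Q.ord (ω E') + r * Q.ord s - m * Q.ord (η E') := by exact_mod_cast h4
  have h6 := mul_le_mul_of_nonneg_left hηo hm'.le
  have h5 : (r : ℚ) * (m * (α - 1)) ≤ r * (Q.ord (ω E') + Q.ord s) := by
    nlinarith
  have h7 := le_of_mul_le_mul_left h5 hr'
  linarith

/-- rational convex combinations near a real convex combination -/
theorem exists_conv {s : ℕ} {t : Fin s → ℝ} (ht : ∀ i, 0 ≤ t i) (ht1 : ∑ i, t i = 1) :
    ∃ τ : ℕ → Fin s → ℚ, (∀ m i, 0 ≤ τ m i) ∧ (∀ m, ∑ i, τ m i = 1) ∧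
      ∀ i, Tendsto (fun m => ((τ m i : ℚ) : ℝ)) atTop (𝓝 (t i)) := by
  classical
  have hs : 0 < s := by
    rcases Nat.eq_zero_or_pos s with rfl | h0
    · simp at ht1
    · exact h0
  obtain ⟨τ, h1, h2, h3⟩ := exists_below ht
  have h4 : ∀ m, ∑ i, τ m i ≤ 1 := by
    intro m
    have h5 : ∑ i, ((τ m i : ℚ) : ℝ) ≤ 1 := (Finset.sum_le_sum fun i _ => h2 m i).trans ht1.le
    exact_mod_cast h5
  refine ⟨fun m i => τ m i + if i = ⟨0, hs⟩ then 1 - ∑ i, τ m i else 0, fun m i => ?_,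
    fun m => ?_, fun i => ?_⟩
  · beta_reduce
    split_ifs
    · linarith [h1 m i, h4 m]
    · linarith [h1 m i]
  · rw [Finset.sum_add_distrib, Finset.sum_ite_eq' Finset.univ, if_pos (Finset.mem_univ _)]
    ring
  · have h5 : Tendsto (fun m => 1 - ∑ i, ((τ m i : ℚ) : ℝ)) atTop (𝓝 (1 - ∑ i, t i)) :=
      tendsto_const_nhds.sub (tendsto_finsetSum _ fun i _ => h3 i)
    rw [ht1, sub_self] at h5
    by_cases hi : i = ⟨0, hs⟩
    · simp only [if_pos hi]
      have h6 := (h3 i).add h5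
      rw [add_zero] at h6
      refine h6.congr fun m => ?_
      push_cast
      ring
    · simp only [if_neg hi, add_zero]
      exact h3 i

/-- **Sections of real pairs.** -/
theorem real_disc (htr : Algebra.trdeg ℂ K = (n : ℕ)) (hy : NormalModel y) {s : ℕ}
    {Δ : Fin s → Place ℂ K → ℚ} (hΔ : ∀ i, Effective y (Δ i)) {t : Fin s → ℝ}
    (ht : ∀ i, 0 ≤ t i) (ht1 : ∑ i, t i = 1) {B H : Place ℂ K → ℝ}
    (hB : ∀ P, IsPrimeDivisor y P → B P = ∑ i, t i * Δ i P) (hH : GR.Eff y H)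
    {a : Place ℂ K → ℝ} (ha : ∀ Q, Divisorial n Q → ∃ α : Fin s → ℚ,
      (∀ i, LogDisc y n (Δ i) Q (α i)) ∧ 1 - a Q = ∑ i, t i * (α i : ℝ)) :
    ∃ T : Finset K, ∀ m : ℕ, 1 ≤ m → ∀ ω, GR.IsSec y n m (m • B + H) ω →
      PairSec ℂ K n a T m 1 ω := by
  classical
  obtain ⟨x, E, hx, hE⟩ := exists_crd htr
  have hfr : IsFrame E := fun G =>
    ⟨fun j => G (x j), (Pool.Agent.W73.PG.PULL.expand x hx E hE G).symm⟩
  -- the support
  obtain ⟨S, hS⟩ : ∃ S : Set (Place ℂ K), S = {P | IsPrimeDivisor y P ∧ (H P ≠ 0 ∨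
    ∃ i, Δ i P ≠ 0)} := ⟨_, rfl⟩
  have hSfin : S.Finite := by
    have h1 : {P | IsPrimeDivisor y P ∧ H P ≠ 0}.Finite := hH.1
    refine (h1.union (Set.finite_iUnion fun i => (hΔ i).2)).subset ?_
    rw [hS]
    rintro P ⟨hP, h2 | ⟨i, h2⟩⟩
    · exact Or.inl ⟨hP, h2⟩
    · exact Or.inr (Set.mem_iUnion.2 ⟨i, hP, h2⟩)
  obtain ⟨A, hA⟩ : ∃ A : Place ℂ K → ℚ, A = fun P => if P ∈ S then (⌈H P⌉₊ : ℚ) + 1 else 0 :=
    ⟨_, rfl⟩
  have hAe : Effective y A := by
    refine ⟨fun P _ => ?_, hSfin.subset ?_⟩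
    · rw [hA]
      beta_reduce
      split_ifs
      · positivity
      · exact le_rfl
    · rintro P ⟨-, h0⟩
      by_contra hP
      apply h0
      rw [hA]
      beta_reduce
      rw [if_neg hP]
  choose g hg hg0 hgQ using fun j => disc_bound' (n := n) hy hAe hfr j
  obtain ⟨τ, hτ0, hτ1, hτt⟩ := exists_conv ht ht1
  refine ⟨Finset.univ.image fun j => (g j)⁻¹, fun m hm ω hω => ⟨hω.1, fun Q hQ E' hE' => ?_⟩⟩
  obtain ⟨j, hj⟩ := exists_centred hy Q
  by_cases hω0 : ω E' = 0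
  · exact Or.inl hω0
  right
  refine ⟨(g j)⁻¹, Finset.mem_image_of_mem _ (Finset.mem_univ j), inv_ne_zero (hg0 j), ?_⟩
  obtain ⟨α, hα, hα1⟩ := ha Q hQ
  have hm0 : (0 : ℝ) < m := by exact_mod_cast hm
  -- the sections of the rational pairs
  have hev : ∀ᶠ k in atTop, ∀ P ∈ S, (m : ℝ) * B P ≤ m * ∑ i, ((τ k i : ℚ) : ℝ) * Δ i P + 1 := by
    rw [Filter.eventually_all_finite hSfin]
    intro P hP
    have h1 : Tendsto (fun k => (m : ℝ) * ∑ i, ((τ k i : ℚ) : ℝ) * Δ i P + 1) atTop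
        (𝓝 ((m : ℝ) * ∑ i, t i * Δ i P + 1)) :=
      ((tendsto_finsetSum _ fun i _ => (hτt i).mul_const _).const_mul _).add_const _
    rw [hS] at hP
    rw [← hB P hP.1] at h1
    filter_upwards [h1.eventually_const_lt (show (m : ℝ) * B P < m * B P + 1 by linarith)]
      with k hk
    exact hk.le
  have hlim : Tendsto (fun k => (m : ℝ) * (∑ i, ((τ k i : ℚ) : ℝ) * (α i : ℝ) - 1) -
      (Q.ord (g j) : ℝ)) atTop (𝓝 ((m : ℝ) * (∑ i, t i * (α i : ℝ) - 1) - (Q.ord (g j) : ℝ))) :=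
    (((tendsto_finsetSum _ fun i _ => (hτt i).mul_const _).sub_const _).const_mul _).sub_const _
  rw [← hα1] at hlim
  have hle : ∀ᶠ k in atTop, (m : ℝ) * (∑ i, ((τ k i : ℚ) : ℝ) * (α i : ℝ) - 1) -
      (Q.ord (g j) : ℝ) ≤ (Q.ord (ω E') : ℝ) := by
    filter_upwards [hev] with k hk
    have h1 := T2H07.logDisc_convex htr hy hQ hα (hτ0 k) (hτ1 k)
    have h2 : IsSection y n m (m • (fun P => ∑ i, τ k i * Δ i P) + A) ω := by
      refine ⟨hω.1, fun P hP G hG => ?_⟩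
      refine (hω.2 P hP G hG).imp_right fun h3 => ?_
      rw [Pi.add_apply, Pi.smul_apply, nsmul_eq_mul] at h3 ⊢
      by_cases hPS : P ∈ S
      · have h4 := hk P hPS
        have h5 : A P = (⌈H P⌉₊ : ℚ) + 1 := by
          rw [hA]
          beta_reduce
          rw [if_pos hPS]
        have h6 : H P ≤ (⌈H P⌉₊ : ℝ) := Nat.le_ceil _
        have h7 : (((-(m * ∑ i, τ k i * Δ i P + A P)) : ℚ) : ℝ) ≤ ((P.ord (ω G) : ℚ) : ℝ) := by
          rw [h5]
          push_cast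
          linarith
        exact_mod_cast h7
      · have h4 : H P = 0 ∧ ∀ i, Δ i P = 0 := by
          rw [hS] at hPS
          simp only [Set.mem_ofPred_eq, not_and, not_or, not_exists, not_not] at hPS
          exact hPS hP
        have h5 : A P = 0 := by
          rw [hA]
          beta_reduce
          rw [if_neg hPS]
        rw [hB P hP, h4.1, Finset.sum_eq_zero fun i _ => by rw [h4.2 i, Rat.cast_zero, mul_zero]]
          at h3
        rw [h5, Finset.sum_eq_zero fun i _ => by rw [h4.2 i, mul_zero]]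
        simp only [mul_zero, add_zero, neg_zero] at h3 ⊢
        exact_mod_cast h3
    have h3 := (hgQ j _ Q hj _ h1 m hm ω h2 E' hE').resolve_left hω0
    have h4 : (((m : ℚ) * (∑ i, τ k i * α i - 1) - (Q.ord (g j) : ℤ) : ℚ) : ℝ) ≤
        ((Q.ord (ω E') : ℚ) : ℝ) := by exact_mod_cast h3
    push_cast at h4
    exact h4
  have h5 := le_of_tendsto hlim hle
  rw [Q.ord_inv, Nat.cast_one, one_mul]
  push_cast
  linarith

/-- a real divisor is pseudoeffective: then high multiples have sections -/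
theorem not_neg (htr : Algebra.trdeg ℂ K = (n : ℕ)) (hy : NormalModel y) {s : ℕ}
    {Δ : Fin s → Place ℂ K → ℚ} (hΔ : ∀ i, Effective y (Δ i)) {t : Fin s → ℝ}
    (ht : ∀ i, 0 ≤ t i) (ht1 : ∑ i, t i = 1) {B H : Place ℂ K → ℝ}
    (hB : ∀ P, IsPrimeDivisor y P → B P = ∑ i, t i * Δ i P) (hH : GR.Eff y H)
    {a : Place ℂ K → ℝ} (ha : ∀ Q, Divisorial n Q → ∃ α : Fin s → ℚ,
      (∀ i, LogDisc y n (Δ i) Q (α i)) ∧ 1 - a Q = ∑ i, t i * (α i : ℝ))
    (hps : ∀ M : ℕ, ∃ m, M ≤ m ∧ GR.h0 y n m (m • B + H) ≠ 0) : ¬ NegB ℂ K n a := by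
  intro hneg
  obtain ⟨T, hT⟩ := real_disc htr hy hΔ ht ht1 hB hH ha
  obtain ⟨M0, hM0⟩ := hneg T
  obtain ⟨m, hm, hm0⟩ := hps (M0 + 1)
  apply hm0
  unfold GR.h0
  have h1 : {ω | GR.IsSec y n m (m • B + H) ω} ⊆ {0} := by
    intro ω hω
    exact hM0 m (by omega) ω (hT m (by omega) ω hω)
  have h2 : Submodule.span ℂ {ω | GR.IsSec y n m (m • B + H) ω} = ⊥ := by
    rw [Submodule.span_eq_bot]
    exact fun ω hω => h1 hω
  rw [h2, finrank_bot]

end

section

variable {k : Type} [Field k] [CharZero k] {K L : Type} [Field K] [Field L] [Algebra k K]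
  [Algebra k L] [Algebra K L] [IsScalarTower k K L] [FiniteDimensional K L]

/-- the bounds for the multiplicities -/
theorem exists_boundsR (β : Place k L → ℝ) (v : Place k K) : ∃ a b : ℝ,
    (∀ w e, LiesOn w v e → a ≤ 1 - (1 - β w) / e ∧ 1 - (1 - β w) / e ≤ b) ∧
      ∃ w e, LiesOn w v e ∧ a = 1 - (1 - β w) / e := by
  classical
  obtain ⟨S, T, hS, hT, -⟩ := exists_places_over (K' := L) v
  obtain ⟨w0, e0, hw0⟩ := Pool.Agent.Y172.exists_above (k := k) (K := K) (L := L) v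
  have hne : (S.filter fun w => ∃ e, LiesOn w v e).Nonempty :=
    ⟨w0, Finset.mem_filter.2 ⟨hS w0 e0 hw0, e0, hw0⟩⟩
  choose! e he using fun (w : Place k L) (hw : ∃ e, LiesOn w v e) => hw
  obtain ⟨a, ha, hamin⟩ := Finset.exists_min_image _ (fun w => 1 - (1 - β w) / (e w : ℝ)) hne
  obtain ⟨b, hb, hbmax⟩ := Finset.exists_max_image _ (fun w => 1 - (1 - β w) / (e w : ℝ)) hne
  refine ⟨1 - (1 - β a) / (e a : ℝ), 1 - (1 - β b) / (e b : ℝ), fun w e' hw => ?_,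
    a, e a, he a (Finset.mem_filter.1 ha).2, rfl⟩
  have h1 : w ∈ S.filter fun w => ∃ e, LiesOn w v e :=
    Finset.mem_filter.2 ⟨hS w e' hw, e', hw⟩
  have h2 : e' = e w := (over_uniq hw (he w ⟨e', hw⟩)).1
  rw [h2]
  exact ⟨hamin w h1, hbmax w h1⟩

/-- Descent of effective divisors. -/
theorem eff_down (hess : Algebra.EssFiniteType k K) {n : ℕ}
    (hn : Algebra.trdeg k K = n) {δ : Place k K → ℝ} {δ' : Place k L → ℝ}
    (hδ' : ∀ v, IsDivisorial v n → ∀ w e, LiesOn w v e → δ' w ≤ 1 - e * (1 - δ v))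
    (h : EffF k L n δ') : EffF k K n δ := by
  choose e v hv using fun w : Place k L => Pool.Agent.W73.PG.PULL.exists_over' (K := K) w
  have h1 : ∀ v', IsDivisorial v' n → ∀ (w : Place k L) e', LiesOn w v' e' →
      (fun w => 1 - (e w : ℝ) * (1 - δ (v w))) w = 1 - e' * (1 - δ v') := by
    intro v' hv' w e' hw
    obtain ⟨h2, h3⟩ := over_uniq hw (hv w)
    beta_reduce
    rw [h2, h3]
  refine eff_all hess hn h1 ?_
  obtain ⟨ι, hι, φ, ρ, m, ω, hm, hφ, hω0, hω⟩ := h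
  refine ⟨ι, hι, φ, ρ, m, ω, hm, hφ, hω0, hω.1, fun w hw D hD => ?_⟩
  rcases hω.2 w hw D hD with h2 | ⟨s, hs, hs0, h2⟩
  · exact Or.inl h2
  · refine Or.inr ⟨s, hs, hs0, le_trans ?_ h2⟩
    have h3 := hδ' (v w) (Pool.Agent.Y174.pDIVI k K L n (v w) w (e w) (hv w) hw) w (e w) (hv w)
    have h4 := mul_le_mul_of_nonneg_left h3 (Nat.cast_nonneg (α := ℝ) m)
    beta_reduce
    linarith

end

end Pool.Agent.T2H41.RA
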