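import Pool.Agent.T2H41.RI

/-!
Nonvanishing for real boundaries.
-/

set_option autoImplicit false
set_option linter.overlappingInstances false
set_option linter.unusedSectionVars false

open FF Filter Topology IntermediateField Pool.Agent.W602.GT Pool.Agent.W603.LV
  Pool.Agent.W619.PQ Pool.Agent.W619.TW Pool.Agent.W619.Y Pool.Agent.Y172 Pool.Agent.Y191
  Pool.Agent.Y174 Pool.Agent.R885 Pool.Agent.R885.N

namespace Pool.Agent.T2H41.RA

section

variable {L : Type} [Field L] [Algebra ℂ L]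

theorem conv_subR {s : ℕ} {t : Fin s → ℝ} (ht1 : ∑ i, t i = 1) (a : Fin s → ℝ) :
    ∑ i, t i * (1 - a i) = 1 - ∑ i, t i * a i := by
  simp only [mul_sub, mul_one, Finset.sum_sub_distrib, ht1]

theorem bR_convex {r s p : ℕ} {A : Fin s → (Fin r → ℤ) → ℚ} {c : Fin s → Fin p → ℚ}
    (hc : ∀ i j, 0 ≤ c i j ∧ c i j ≤ 1) (hcell : T2H07.SameCell c) {t : Fin s → ℝ}
    (ht : ∀ i, 0 ≤ t i) (ht1 : ∑ i, t i = 1) (x : Fin r → L) (h : Fin p → (Fin r → ℤ) →₀ ℂ)
    (P : Place ℂ L) : bR A c x h t P = ∑ i, t i * ((bdry (A i) (c i) x h P : ℚ) : ℝ) := by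
  classical
  unfold bR
  by_cases h1 : vec P x ≠ 0
  · rw [if_pos h1, ← conv_subR ht1 fun i => (A i (vec P x) : ℝ)]
    refine Finset.sum_congr rfl fun i _ => ?_
    rw [bdry_ne h1]
    push_cast
    rfl
  · rw [if_neg h1]
    push Not at h1
    by_cases h2 : ∃ j, 0 < P.ord (ev x (h j))
    · rw [if_pos h2]
      obtain ⟨V, hV⟩ : ∃ V : Finset (Fin p),
          V = Finset.univ.filter (fun j => 0 < P.ord (ev x (h j))) := ⟨_, rfl⟩
      have hb : ∀ i, bdry (A i) (c i) x h P = max 0 (1 - ∑ j ∈ V, (1 - c i j)) := by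
        intro i
        rw [bdry_van h1 h2, hV]
      rw [← hV]
      have h3 : 1 - ∑ j ∈ V, ∑ i, t i * (1 - (c i j : ℝ)) =
          ∑ i, t i * (((1 - ∑ j ∈ V, (1 - c i j) : ℚ)) : ℝ) := by
        have h5 : ∀ i, ((1 - ∑ j ∈ V, (1 - c i j) : ℚ) : ℝ) = 1 - ∑ j ∈ V, (1 - (c i j : ℝ)) := by
          intro i
          push_cast
          rfl
        have h6 : ∑ i, t i * (((1 - ∑ j ∈ V, (1 - c i j) : ℚ)) : ℝ) =
            ∑ i, t i * (1 - ∑ j ∈ V, (1 - (c i j : ℝ))) :=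
          Finset.sum_congr rfl fun i _ => by rw [h5 i]
        rw [h6, conv_subR ht1, Finset.sum_comm]
        congr 1
        exact Finset.sum_congr rfl fun i _ => (Finset.mul_sum _ _ _).symm
      rw [h3]
      have h6 : (∀ i, 0 ≤ 1 - ∑ j ∈ V, (1 - c i j)) ∨ ∀ i, 1 - ∑ j ∈ V, (1 - c i j) ≤ 0 := by
        rcases Nat.lt_or_ge V.card 2 with h7 | h7
        · left
          intro i
          have h8 : V.card = 0 ∨ V.card = 1 := by omega
          rcases h8 with h8 | h8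
          · rw [Finset.card_eq_zero.1 h8]
            simp
          · obtain ⟨j, hj⟩ := Finset.card_eq_one.1 h8
            rw [hj, Finset.sum_singleton]
            linarith [(hc i j).1]
        · exact hcell V h7
      rcases h6 with h6 | h6
      · rw [max_eq_right (Finset.sum_nonneg fun i _ => mul_nonneg (ht i) (by
          exact_mod_cast h6 i))]
        exact Finset.sum_congr rfl fun i _ => by rw [hb i, max_eq_right (h6 i)]
      · rw [max_eq_left (Finset.sum_nonpos fun i _ => mul_nonpos_of_nonneg_of_nonpos (ht i) (by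
          exact_mod_cast h6 i))]
        rw [Finset.sum_eq_zero fun i _ => by rw [hb i, max_eq_left (h6 i), Rat.cast_zero, mul_zero]]
    · rw [if_neg h2]
      push Not at h2
      rw [Finset.sum_eq_zero fun i _ => by
        rw [bdry_no h1 fun j => not_lt.2 (h2 j), Rat.cast_zero, mul_zero]]

end

section

variable {K L : Type} [Field K] [Field L] [Algebra ℂ K] [Algebra ℂ L]

/-- **Nonvanishing.** -/
theorem nonvan {n q p s : ℕ} (hn : 1 ≤ n) {M : Type} [Field M] [Algebra ℂ M] [Algebra K M]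
    [Algebra L M] [IsScalarTower ℂ K M] [IsScalarTower ℂ L M] [FiniteDimensional K M]
    [FiniteDimensional L M] {x : Fin (n + q) → L}
    {f : Fin q → (Fin (n + q) → ℤ) →₀ ℂ} {h : Fin p → (Fin (n + q) → ℤ) →₀ ℂ}
    (hx : T2H07.IsGenericPoint n f h x) (hfh : T2H07.Nondegenerate f h x)
    {A : Fin s → (Fin (n + q) → ℤ) → ℚ} (hA : ∀ i, T2H07.IsWeight (A i)) {c : Fin s → Fin p → ℚ}
    (hc : ∀ i j, 0 ≤ c i j ∧ c i j ≤ 1) (hcell : T2H07.SameCell c) {N : ℕ} {y : Fin (N + 1) → K}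
    {Δ : Fin s → Place ℂ K → ℚ}
    (hy : ∀ i, T2H07.IsCommensurable M (bdry (A i) (c i) x h) y n (Δ i)) {t : Fin s → ℝ}
    (ht : ∀ i, 0 ≤ t i) (ht1 : ∑ i, t i = 1) {B H : Place ℂ K → ℝ}
    (hB : ∀ P, IsPrimeDivisor y P → B P = ∑ i, t i * Δ i P) (hH : GR.Eff y H)
    (hps : ∀ M : ℕ, ∃ m, M ≤ m ∧ GR.h0 y n m (m • B + H) ≠ 0) :
    ∃ E, T2H07.EffR y E ∧ T2H07.RLin y n B E := by
  classical
  have hs : 0 < s := by
    rcases Nat.eq_zero_or_pos s with rfl | h0
    · simp at ht1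
    · exact h0
  have hNM : NormalModel y := (hy ⟨0, hs⟩).normal
  obtain ⟨hx1, hf, hhx, hgen, htr⟩ := hx
  have hessL : Algebra.EssFiniteType ℂ L := ess_of_gen hgen
  have hessM : Algebra.EssFiniteType ℂ M := w6_ess (K := L) hessL
  have htrM : Algebra.trdeg ℂ M = (n : ℕ) := w6_trdeg (K := L) htr
  have htrK : Algebra.trdeg ℂ K = (n : ℕ) := by
    have h1 := trdeg_add_eq ℂ K (A := M)
    have h2 : Algebra.trdeg K M = 0 := trdeg_eq_zero
    rw [h2, add_zero, htrM] at h1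
    exact h1
  obtain ⟨z', hz'⟩ := Pool.Agent.W636.PG.exists_basis ℂ K n htrK
  have hessK : Algebra.EssFiniteType ℂ K := ess_down hessM z' hz'
  -- the multiplicities
  obtain ⟨βL, hβL⟩ : ∃ βL : Place ℂ L → ℝ, βL = bR A c x h t := ⟨_, rfl⟩
  have hβL1 : ∀ R, 1 - βL R = ∑ i, t i * (1 - ((bdry (A i) (c i) x h R : ℚ) : ℝ)) := by
    intro R
    rw [hβL, bR_convex hc hcell ht ht1, conv_subR ht1]
  choose e v hv using fun w : Place ℂ M => Pool.Agent.W73.PG.PULL.exists_over' (K := L) w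
  obtain ⟨βM, hβM⟩ : ∃ βM : Place ℂ M → ℝ, βM = fun w => 1 - (e w : ℝ) * (1 - βL (v w)) :=
    ⟨_, rfl⟩
  have hβM' : ∀ v', IsDivisorial v' n → ∀ (w : Place ℂ M) e', LiesOn w v' e' →
      βM w = 1 - e' * (1 - βL v') := by
    intro v' _ w e' hw
    obtain ⟨h1, h2⟩ := over_uniq hw (hv w)
    rw [hβM, h1, h2]
  choose a b hab w0 e0 hw0 ha0 using fun P : Place ℂ K => exists_boundsR (L := M) βM P
  -- the log discrepancies
  have hα : ∀ Q, Divisorial n Q → ∃ α : Fin s → ℚ,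
      (∀ i, LogDisc y n (Δ i) Q (α i)) ∧ 1 - a Q = ∑ i, t i * (α i : ℝ) := by
    intro Q hQ
    refine ⟨fun i => e (w0 Q) * (1 - bdry (A i) (c i) x h (v (w0 Q))) / e0 Q, fun i =>
      (hy i).disc Q hQ (w0 Q) (v (w0 Q)) (e0 Q) (e (w0 Q)) (hw0 Q) (hv (w0 Q)), ?_⟩
    rw [ha0, sub_sub_cancel, hβM]
    beta_reduce
    rw [sub_sub_cancel, hβL1, Finset.mul_sum, Finset.sum_div]
    refine Finset.sum_congr rfl fun i _ => ?_
    push_cast
    ring
  have h1 := not_neg htrK hNM (fun i => (hy i).effective) ht ht1 hB hH hα hps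
  have hepos : ∀ {Q : Place ℂ K} {w : Place ℂ M} {e' : ℕ}, LiesOn w Q e' → (0 : ℝ) < e' := by
    intro Q w e' hw
    have := hw.1
    exact_mod_cast this
  have h2 : ¬ NegB ℂ M n βM := by
    intro h0
    refine h1 (neg_pull hessK htrK (fun Q _ w e' hw => ?_) h0)
    have h3 := (hab Q w e' hw).1
    have h4 := hepos hw
    have h5 : (1 - βM w) / e' ≤ 1 - a Q := by linarith
    rw [div_le_iff₀ h4] at h5
    linarith
  have h3 : ¬ NegB ℂ L n βL := fun h0 => h2 ((fin_all (K := L) (L := M) hessL htr hβM').2.2.2 h0)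
  rw [hβL] at h3
  have h4 := limL hn htr hx1 hgen hf hhx hfh (fun i => (⟨(hA i).nonneg, (hA i).le_one,
    (hA i).denom, (hA i).add, (hA i).smul⟩ : R885.N.IsWeight (A i))) hc ht ht1.le h3
  rw [← hβL] at h4
  have h5 : EffF ℂ M n βM := eff_up hessL htr (fun Q hQ w e' hw => (hβM' Q hQ w e' hw).ge) h4
  have h6 : EffF ℂ K n (fun P => if IsPrimeDivisor y P then B P else b P) := by
    refine eff_down hessK htrK (fun Q hQ w e' hw => ?_) h5
    beta_reduce
    have h4 := hepos hw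
    split_ifs with hP
    · rw [hB Q hP]
      have h7 : (e' : ℝ) * (1 - ∑ i, t i * (Δ i Q : ℝ)) = 1 - βM w := by
        rw [← conv_subR ht1 fun i => ((Δ i Q : ℚ) : ℝ), hβM, sub_sub_cancel, hβL1, Finset.mul_sum,
          Finset.mul_sum]
        refine Finset.sum_congr rfl fun i _ => ?_
        have h8 := (hy i).mult Q hP w (v w) e' (e w) hw (hv w)
        have h9 : (e' : ℝ) * (1 - (Δ i Q : ℝ)) =
            e w * (1 - ((bdry (A i) (c i) x h (v w) : ℚ) : ℝ)) := by exact_mod_cast h8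
        linear_combination t i * h9
      rw [h7]
      linarith
    · have h7 := (hab Q w e' hw).2
      have h8 : 1 - b Q ≤ (1 - βM w) / e' := by linarith
      rw [le_div_iff₀ h4] at h8
      linarith
  refine eff_X htrK hNM ?_ (fun P hP => if_pos hP) h6
  refine (Set.finite_iUnion fun i => (hy i).effective.2).subset ?_
  rintro P ⟨hP, hP0⟩
  rw [hB P hP] at hP0
  obtain ⟨i, -, hi⟩ := Finset.exists_ne_zero_of_sum_ne_zero hP0
  refine Set.mem_iUnion.2 ⟨i, hP, fun h0 => hi ?_⟩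
  rw [h0, Rat.cast_zero, mul_zero]

end

section

variable {K : Type} [Field K] [Algebra ℂ K] {N : ℕ}

/-- **The theorem.** -/
theorem main_real {n : ℕ} (hn : 1 ≤ n) {y : Fin (N + 1) → K} {B : Place ℂ K → ℝ}
    (hB : T2H07.IsRealNondegeneratePair y n B) {H : Place ℂ K → ℝ} (hH : GR.Eff y H)
    (hps : ∀ M : ℕ, ∃ m, M ≤ m ∧ GR.h0 y n m (m • B + H) ≠ 0) :
    (∃ E, T2H07.EffR y E ∧ T2H07.RLin y n B E) ∧
      ∃ d : ℕ, d ≤ n ∧ ∀ E, T2H07.EffR y E → T2H07.RLin y n B E →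
        T2H07.iitakaDim y E = (d : WithBot ℕ) ∧
          ∀ A, T2H07.EffR y A → T2H07.numDim y E A = (d : EReal) := by
  have h := hB
  obtain ⟨q, p, s, f, h, L, M, i1, i2, i3, i4, i5, i6, i7, i8, x, A, c, Δ, t, h1, h2, hx, hfh, hA,
    hc, hcell, hy, ht, ht1, hBt⟩ := h
  have heff := nonvan hn hx hfh hA hc hcell hy ht ht1 hBt hH hps
  exact ⟨heff, T2H07.final hn hB heff⟩

end

end Pool.Agent.T2H41.RA
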