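import Pool.Agent.T2H07.Rat

/-!
Rational polytopes: a bounded set which is given by finitely many rational inequalities is the convex
hull of finitely many rational points, and its rational points are dense.
-/

set_option autoImplicit false

open Filter Topology

namespace Pool.Agent.T2H41.RA

section

variable {ι J : Type} [Fintype ι] [Finite J]

/-- the polyhedron -/
def Ply (a : J → ι → ℚ) (b : J → ℚ) : Set (ι → ℝ) :=
  {x | ∀ j, (b j : ℝ) ≤ ∑ i, (a j i : ℝ) * x i}

/-- a rational point near a real point, with the same relations -/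
theorem ply_approx (a : J → ι → ℚ) (b : J → ℚ) {x : ι → ℝ} (hx : x ∈ Ply a b) :
    ∃ x' : ℕ → ι → ℚ, (∀ m j, b j ≤ ∑ i, a j i * x' m i) ∧
      (∀ m j, (b j : ℝ) = ∑ i, (a j i : ℝ) * x i → b j = ∑ i, a j i * x' m i) ∧
      ∀ i, Tendsto (fun m => ((x' m i : ℚ) : ℝ)) atTop (𝓝 (x i)) := by
  classical
  obtain ⟨z, hz, hrel⟩ := T2H07.exists_approx_seq (Sum.elim (fun _ : Unit => (1 : ℝ)) x)
  have hz1 : Tendsto (fun m => ((z m (Sum.inl ()) : ℚ) : ℝ)) atTop (𝓝 1) := hz (Sum.inl ())
  have hzi : ∀ i, Tendsto (fun m => ((z m (Sum.inr i) : ℚ) : ℝ)) atTop (𝓝 (x i)) :=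
    fun i => hz (Sum.inr i)
  have hlim : ∀ i, Tendsto (fun m => ((z m (Sum.inr i) / z m (Sum.inl ()) : ℚ) : ℝ)) atTop
      (𝓝 (x i)) := by
    intro i
    have h1 := (hzi i).div hz1 one_ne_zero
    rw [div_one] at h1
    refine h1.congr fun m => ?_
    rw [Pi.div_apply]
    push_cast
    rfl
  have hpos : ∀ᶠ m in atTop, 0 < z m (Sum.inl ()) := by
    filter_upwards [hz1.eventually_const_lt one_pos] with m hm
    exact_mod_cast hm
  have heq : ∀ m, 0 < z m (Sum.inl ()) → ∀ j, (b j : ℝ) = ∑ i, (a j i : ℝ) * x i →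
      b j = ∑ i, a j i * (z m (Sum.inr i) / z m (Sum.inl ())) := by
    intro m hm j hj
    have h1 := hrel m (Sum.elim (fun _ => -b j) (a j)) (by
      rw [Fintype.sum_sum_type]
      simp only [Sum.elim_inl, Sum.elim_inr, Finset.univ_unique, Finset.sum_singleton]
      rw [← hj]
      push_cast
      ring)
    rw [Fintype.sum_sum_type] at h1
    simp only [Sum.elim_inl, Sum.elim_inr, Finset.univ_unique, Finset.sum_singleton] at h1
    have h2 : (default : Unit) = () := rfl
    rw [h2] at h1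
    have h3 : ∑ i, a j i * (z m (Sum.inr i) / z m (Sum.inl ())) =
        (∑ i, a j i * z m (Sum.inr i)) / z m (Sum.inl ()) := by
      rw [Finset.sum_div]
      exact Finset.sum_congr rfl fun i _ => by ring
    rw [h3, eq_div_iff hm.ne']
    linarith
  have hev : ∀ᶠ m in atTop, ∀ j, b j ≤ ∑ i, a j i * (z m (Sum.inr i) / z m (Sum.inl ())) := by
    rw [Filter.eventually_all]
    intro j
    rcases (hx j).eq_or_lt with h0 | h0
    · filter_upwards [hpos] with m hm
      exact (heq m hm j h0).le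
    · have h1 : Tendsto (fun m => ∑ i, (a j i : ℝ) *
          ((z m (Sum.inr i) / z m (Sum.inl ()) : ℚ) : ℝ)) atTop (𝓝 (∑ i, (a j i : ℝ) * x i)) :=
        tendsto_finsetSum _ fun i _ => (hlim i).const_mul _
      filter_upwards [h1.eventually_const_lt h0] with m hm
      have : ((b j : ℚ) : ℝ) ≤ ((∑ i, a j i * (z m (Sum.inr i) / z m (Sum.inl ())) : ℚ) : ℝ) := by
        push_cast
        push_cast at hm
        exact hm.le
      exact_mod_cast this
  obtain ⟨M, hM⟩ := (hpos.and hev).exists_forall_of_atTop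
  refine ⟨fun m i => z (m + M) (Sum.inr i) / z (m + M) (Sum.inl ()),
    fun m j => (hM (m + M) (by omega)).2 j, fun m j hj => heq _ (hM (m + M) (by omega)).1 j hj,
    fun i => (hlim i).comp (tendsto_add_atTop_nat M)⟩

/-- an extreme point is determined by the tight inequalities -/
theorem ext_uniq (a : J → ι → ℚ) (b : J → ℚ) {x x' : ι → ℝ}
    (hx : x ∈ (Ply a b).extremePoints ℝ)
    (h : ∀ j, (b j : ℝ) = ∑ i, (a j i : ℝ) * x i → (b j : ℝ) = ∑ i, (a j i : ℝ) * x' i) :
    x' = x := by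
  classical
  have hlin : ∀ (ε : ℝ) j, ∑ i, (a j i : ℝ) * (x + ε • (x' - x)) i =
      ∑ i, (a j i : ℝ) * x i + ε * ∑ i, (a j i : ℝ) * (x' - x) i := by
    intro ε j
    rw [Finset.mul_sum, ← Finset.sum_add_distrib]
    refine Finset.sum_congr rfl fun i _ => ?_
    rw [Pi.add_apply, Pi.smul_apply, smul_eq_mul]
    ring
  have hd : ∀ j, (b j : ℝ) = ∑ i, (a j i : ℝ) * x i → ∑ i, (a j i : ℝ) * (x' - x) i = 0 := by
    intro j hj
    have h1 : ∑ i, (a j i : ℝ) * (x' - x) i =
        ∑ i, (a j i : ℝ) * x' i - ∑ i, (a j i : ℝ) * x i := by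
      rw [← Finset.sum_sub_distrib]
      refine Finset.sum_congr rfl fun i _ => ?_
      rw [Pi.sub_apply]
      ring
    rw [h1, ← hj, ← h j hj, sub_self]
  have hev : ∀ᶠ ε : ℝ in 𝓝 0, x + ε • (x' - x) ∈ Ply a b := by
    change ∀ᶠ ε : ℝ in 𝓝 0, ∀ j, (b j : ℝ) ≤ ∑ i, (a j i : ℝ) * (x + ε • (x' - x)) i
    rw [Filter.eventually_all]
    intro j
    rcases (hx.1 j).eq_or_lt with h0 | h0
    · refine Filter.Eventually.of_forall fun ε => ?_
      rw [hlin, hd j h0, mul_zero, add_zero]
      exact h0.le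
    · have h1 : Tendsto (fun ε : ℝ => ∑ i, (a j i : ℝ) * x i +
          ε * ∑ i, (a j i : ℝ) * (x' - x) i) (𝓝 0) (𝓝 (∑ i, (a j i : ℝ) * x i +
          0 * ∑ i, (a j i : ℝ) * (x' - x) i)) :=
        tendsto_const_nhds.add (tendsto_id.mul_const _)
      rw [zero_mul, add_zero] at h1
      filter_upwards [h1.eventually_const_lt h0] with ε hε
      rw [hlin]
      exact hε.le
  have hev' : ∀ᶠ ε : ℝ in 𝓝 0, x + (-ε) • (x' - x) ∈ Ply a b := by
    have h1 : Tendsto (fun ε : ℝ => -ε) (𝓝 0) (𝓝 0) := by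
      have := (continuous_neg (G := ℝ)).tendsto 0
      rwa [neg_zero] at this
    exact h1.eventually hev
  obtain ⟨ε, ⟨h1, h2⟩, hε⟩ : ∃ ε : ℝ, (x + ε • (x' - x) ∈ Ply a b ∧
      x + (-ε) • (x' - x) ∈ Ply a b) ∧ 0 < ε := by
    have h3 := (hev.and hev').filter_mono (nhdsWithin_le_nhds (s := Set.Ioi (0 : ℝ)))
    exact (h3.and self_mem_nhdsWithin).exists
  have h3 : x ∈ openSegment ℝ (x + ε • (x' - x)) (x + (-ε) • (x' - x)) := by
    refine ⟨1 / 2, 1 / 2, by norm_num, by norm_num, by norm_num, ?_⟩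
    rw [← smul_add, neg_smul]
    have : x + ε • (x' - x) + (x + -(ε • (x' - x))) = (2 : ℝ) • x := by
      rw [two_smul]
      abel
    rw [this, smul_smul]
    norm_num
  have h4 := hx.2 h1 h2 h3
  have h5 : ε • (x' - x) = 0 := by
    have := congrArg (fun z => z - x) h4
    simpa using this
  have h6 := (smul_eq_zero.1 h5).resolve_left hε.ne'
  exact sub_eq_zero.1 h6

/-- **Minkowski-Weyl**: bounded rational polyhedra are rational polytopes. -/
theorem ply_hull (a : J → ι → ℚ) (b : J → ℚ) (hbd : Bornology.IsBounded (Ply a b)) :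
    ∃ V : Finset (ι → ℚ), Ply a b = convexHull ℝ ((fun v i => ((v i : ℚ) : ℝ)) ''
      (V : Set (ι → ℚ))) := by
  classical
  have hclosed : IsClosed (Ply a b) := by
    have h1 : Ply a b = ⋂ j, {x | (b j : ℝ) ≤ ∑ i, (a j i : ℝ) * x i} := by
      ext x
      rw [Set.mem_iInter]
      rfl
    rw [h1]
    refine isClosed_iInter fun j => isClosed_le continuous_const ?_
    exact continuous_finsetSum _ fun i _ => continuous_const.mul (continuous_apply i)
  have hcpt := Metric.isCompact_of_isClosed_isBounded hclosed hbd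
  have hconv : Convex ℝ (Ply a b) := by
    intro x hx x' hx' α β hα hβ hαβ j
    have h1 := mul_le_mul_of_nonneg_left (hx j) hα
    have h2 := mul_le_mul_of_nonneg_left (hx' j) hβ
    have h3 : ∑ i, (a j i : ℝ) * (α • x + β • x') i =
        α * ∑ i, (a j i : ℝ) * x i + β * ∑ i, (a j i : ℝ) * x' i := by
      rw [Finset.mul_sum, Finset.mul_sum, ← Finset.sum_add_distrib]
      refine Finset.sum_congr rfl fun i _ => ?_
      rw [Pi.add_apply, Pi.smul_apply, Pi.smul_apply, smul_eq_mul, smul_eq_mul]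
      ring
    rw [h3]
    calc (b j : ℝ) = α * b j + β * b j := by rw [← add_mul, hαβ, one_mul]
      _ ≤ _ := add_le_add h1 h2
  -- the extreme points are rational
  have hrat : ∀ x ∈ (Ply a b).extremePoints ℝ, ∃ v : ι → ℚ, (fun i => ((v i : ℚ) : ℝ)) = x := by
    intro x hx
    obtain ⟨x', -, h2, -⟩ := ply_approx a b hx.1
    refine ⟨x' 0, ext_uniq a b hx fun j hj => ?_⟩
    have h3 := h2 0 j hj
    have h4 := congrArg (fun z : ℚ => (z : ℝ)) h3
    push_cast at h4
    exact h4
  have hfin : ((Ply a b).extremePoints ℝ).Finite := by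
    have h1 : Set.InjOn (fun x : ι → ℝ => {j | (b j : ℝ) = ∑ i, (a j i : ℝ) * x i})
        ((Ply a b).extremePoints ℝ) := by
      intro x hx x' hx' h
      beta_reduce at h
      refine (ext_uniq a b hx fun j hj => ?_).symm
      have h2 : j ∈ {j | (b j : ℝ) = ∑ i, (a j i : ℝ) * x i} := hj
      rw [h] at h2
      exact h2
    exact Set.Finite.of_finite_image (Set.toFinite _) h1
  choose! v hv using hrat
  refine ⟨hfin.toFinset.image v, ?_⟩
  have h1 : (fun v i => ((v i : ℚ) : ℝ)) '' ((hfin.toFinset.image v : Finset (ι → ℚ)) :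
      Set (ι → ℚ)) = (Ply a b).extremePoints ℝ := by
    rw [Finset.coe_image, Set.Finite.coe_toFinset, Set.image_image]
    ext x
    constructor
    · rintro ⟨z, hz, rfl⟩
      beta_reduce
      rw [hv z hz]
      exact hz
    · intro hx
      exact ⟨x, hx, hv x hx⟩
  rw [h1]
  have h2 := closure_convexHull_extremePoints hcpt hconv
  rw [(hfin.isClosed_convexHull ℝ).closure_eq] at h2
  exact h2.symm

end

end Pool.Agent.T2H41.RA
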