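import Pool.Agent.T2H41.RK
import Pool.Agent.T2H41.RF

/-!
The polytope of the boundaries for which `K + β` is effective.
-/

set_option autoImplicit false
set_option linter.overlappingInstances false
set_option linter.unusedSectionVars false

open FF Filter Topology Pool.Agent.W603.LV Pool.Agent.W619.PQ Pool.Agent.W619.TW Pool.Agent.W619.Y
  Pool.Agent.Y174 Pool.Agent.R885 Pool.Agent.R885.N

namespace Pool.Agent.T2H41.RA

section

variable {k K : Type} [Field k] [CharZero k] [IsAlgClosed k] [Field K] [Algebra k K]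

/-- the system at the root -/
theorem rootL {n q p s : ℕ} {x : Fin (n + q) → K}
    (hx : ∀ i, x i ≠ 0) (hgen : IntermediateField.adjoin k (Set.range x) = ⊤)
    {f : Fin q → (Fin (n + q) → ℤ) →₀ k} (hf : ∀ l, ev x (f l) = 0)
    {h : Fin p → (Fin (n + q) → ℤ) →₀ k} (hhx : ∀ j, ev x (h j) ≠ 0) (H : AlongP f h x)
    {A : Fin s → (Fin (n + q) → ℤ) → ℚ} (hA : ∀ i, N.IsWeight (A i)) {c : Fin s → Fin p → ℚ}
    (hc : ∀ i j, 0 ≤ c i j ∧ c i j ≤ 1) {A' : Fin (s + 1) → (Fin (n + q) → ℤ) → ℚ}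
    (hA' : A' = Fin.cons (fun _ => 0) A) {c' : Fin (s + 1) → Fin p → ℚ}
    (hc' : c' = Fin.cons (fun _ => 1) c) {Ψ' : Fin (s + 1) → (Fin (n + q) → ℤ) → ℚ}
    (hΨ' : Ψ' = fun i v => ∑ j, c' i j * (mn v (h j) : ℚ)) {T : Fin (s + 1) → ℚ}
    (hT0 : ∀ i, 0 ≤ T i) (hT1 : ∑ i, T i = 1) :
    VSys n (bR A c x h fun i => ((T i.succ : ℚ) : ℝ)) x f (fun j => ev x (h j)) (lc c' T)
      (lc A' T) (lc Ψ' T) := by
  classical
  have hA'w : ∀ i, N.IsWeight (A' i) := by
    intro i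
    rw [hA']
    refine Fin.cases ?_ (fun i => ?_) i
    · rw [Fin.cons_zero]
      exact weight_zero
    · rw [Fin.cons_succ]
      exact hA i
  have hc'w : ∀ i j, 0 ≤ c' i j ∧ c' i j ≤ 1 := by
    intro i j
    rw [hc']
    refine Fin.cases ?_ (fun i => ?_) i
    · rw [Fin.cons_zero]
      exact ⟨zero_le_one, le_rfl⟩
    · rw [Fin.cons_succ]
      exact hc i j
  have hT0' : T 0 = 1 - ∑ i : Fin s, T i.succ := by
    rw [Fin.sum_univ_succ] at hT1
    linarith
  have hlcA : ∀ v, lc A' T v = ∑ i : Fin s, T i.succ * A i v := by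
    intro v
    unfold lc
    rw [Fin.sum_univ_succ, hA']
    simp only [Fin.cons_zero, Fin.cons_succ, mul_zero, zero_add]
  have hlcc : ∀ j, lc c' T j = 1 - ∑ i : Fin s, T i.succ * (1 - c i j) := by
    intro j
    unfold lc
    rw [Fin.sum_univ_succ, hc', hT0']
    simp only [Fin.cons_zero, Fin.cons_succ, mul_one, mul_sub, Finset.sum_sub_distrib]
    ring
  have hlcΨ : lc Ψ' T = fun v => ∑ j, lc c' T j * (mn v (h j) : ℚ) := by
    funext v
    unfold lc
    rw [hΨ']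
    simp only [Finset.mul_sum, Finset.sum_mul]
    rw [Finset.sum_comm]
    exact Finset.sum_congr rfl fun i _ => Finset.sum_congr rfl fun a _ => by ring
  have hβb : (bR A c x h fun i => ((T i.succ : ℚ) : ℝ)) =
      fun P => ((bdry (lc A' T) (lc c' T) x h P : ℚ) : ℝ) := by
    funext P
    unfold bR
    by_cases h1 : vec P x ≠ 0
    · rw [if_pos h1, bdry_ne h1, hlcA]
      push_cast
      rfl
    · rw [if_neg h1]
      push Not at h1
      by_cases h2 : ∃ j, 0 < P.ord (ev x (h j))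
      · rw [if_pos h2, bdry_van h1 h2]
        push_cast
        congr 2
        refine Finset.sum_congr rfl fun j _ => ?_
        rw [hlcc]
        push_cast
        ring
      · rw [if_neg h2]
        push Not at h2
        rw [bdry_no h1 fun j => not_lt.2 (h2 j), Rat.cast_zero]
  rw [hβb, hlcΨ]
  refine root_sys hx hgen hf hhx H (weight_convex hA'w hT0 hT1) fun j => ?_
  unfold lc
  refine ⟨Finset.sum_nonneg fun i _ => mul_nonneg (hT0 i) (hc'w i j).1, ?_⟩
  rw [← hT1]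
  exact Finset.sum_le_sum fun i _ => mul_le_of_le_one_right (hT0 i) (hc'w i j).2

/-- **Limits of the points of the polytopes.** -/
theorem limM {n s : ℕ} (htr : Algebra.trdeg k K = (n : ℕ)) {l : Leaf k K s}
    {T : ℕ → Fin s → ℚ} {T' : Fin s → ℝ}
    (hT : ∀ i, Tendsto (fun m => ((T m i : ℚ) : ℝ)) atTop (𝓝 (T' i))) {β : ℕ → Place k K → ℝ}
    {β' : Place k K → ℝ} (hβ : ∀ P, Tendsto (fun m => β m P) atTop (𝓝 (β' P)))
    (hsys : ∀ m, l.sys n (T m) (β m)) {u : ℕ → Fin l.r → ℚ} {a : Fin l.r → ℝ}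
    (hu : ∀ m, u m ∈ FineG (lc l.A (T m)) (lc l.Ψ (T m)) l.g)
    (hua : ∀ i, Tendsto (fun m => ((u m i : ℚ) : ℝ)) atTop (𝓝 (a i))) : EffF k K n β' := by
  classical
  let _ := l.fin
  obtain ⟨e, hfr⟩ := freq_of_fintype (α := Fin l.q ⊕ Fin n ≃ Fin l.r)
    (P := fun e m => ∃ C0 : Fin n → Fin l.r → ℤ,
      dt e (fun a => gr l.z (l.g a)) C0 ≠ 0 ∧ GLow e l.z l.g C0 l.y (lc l.cw (T m))
        (fun v => lc l.A (T m) v + lc l.Ψ (T m) v) (β m)) (Filter.Eventually.frequently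
          (Filter.Eventually.of_forall fun m => by
    obtain ⟨e, C0, h3, h4⟩ := VSys.low (hsys m)
    exact ⟨e, C0, h3, h4⟩))
  obtain ⟨φ, hφ, hP⟩ := Filter.extraction_of_frequently_atTop hfr
  have hφt : Tendsto φ atTop atTop := hφ.tendsto_atTop
  have hv : ∀ m, VSys n (β (φ m)) l.z l.g l.y (lc l.cw (T (φ m))) (lc l.A (T (φ m)))
    (lc l.Ψ (T (φ m))) := fun m => hsys (φ m)
  choose C0 hC0 hlow using hP
  have hcw : ∀ j, Tendsto (fun m => ((lc l.cw (T m) j : ℚ) : ℝ)) atTop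
      (𝓝 (∑ i, T' i * (l.cw i j : ℝ))) := by
    intro j
    unfold lc
    push_cast
    exact tendsto_finsetSum _ fun i _ => (hT i).mul_const _
  -- the form
  have hz := (hv 0).hx
  have hgz := (hv 0).hf
  have hg0 := hn_ne0 (hv 0).hnd hgz
  have hOm : ∀ m D, Om e l.z l.g (C0 m) D = Om e l.z l.g (C0 0) D := fun m D =>
    om_eq hz hgz (hC0 m) (hC0 0) D
  obtain ⟨Z, hZ⟩ := Pool.Agent.W636.PG.exists_basis k K n htr
  obtain ⟨D0, hD0'⟩ := Pool.Agent.W602.GT.exists_dual hZ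
  have hD0 : ∀ i j, D0 i (Z j) = if i = j then 1 else 0 := by
    intro i j
    have h1 := congrFun (congrFun hD0' i) j
    rw [Matrix.of_apply, Matrix.one_apply] at h1
    exact h1
  have hOm0 := om_ne hz (hv 0).hgen hgz (hC0 0) hZ hD0
  refine ⟨Fin l.r ⊕ l.J, inferInstance, Sum.elim l.z l.y,
    Sum.elim a fun j => -∑ i, T' i * (l.cw i j : ℝ), 1, fun D => Om e l.z l.g (C0 0) D ^ 1,
    le_rfl, ?_, ?_, om_pluri e l.z l.g (C0 0) 1, ?_⟩
  · rintro (i | j)
    · exact hz i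
    · exact (hv 0).hy j
  · intro h0
    have := congrFun h0 D0
    beta_reduce at this
    rw [pow_one] at this
    exact hOm0 this
  · intro P hPd D hD
    beta_reduce
    rw [pow_one]
    by_cases hO : Om e l.z l.g (C0 0) D = 0
    · exact Or.inl hO
    right
    refine ⟨1, Finset.mem_singleton_self _, one_ne_zero, ?_⟩
    rw [Nat.cast_zero, zero_mul, zero_sub, Nat.cast_one, one_mul, Fintype.sum_sum_type]
    simp only [Sum.elim_inl, Sum.elim_inr]
    have h1 : ∀ m, 0 ≤ (P.ord (Om e l.z l.g (C0 0) D) : ℝ) + (β (φ m) P +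
        (∑ i, ((u (φ m) i : ℚ) : ℝ) * (P.ord (l.z i) : ℝ) -
          ∑ j, ((lc l.cw (T (φ m)) j : ℚ) : ℝ) * (P.ord (l.y j) : ℝ))) := by
      intro m
      have h2 := sys_ineq hg0 (hlow m) (hu (φ m)) hPd hD (by rw [hOm]; exact hO)
      rw [hOm] at h2
      exact h2
    have h2 : Tendsto (fun m => (P.ord (Om e l.z l.g (C0 0) D) : ℝ) + (β (φ m) P +
        (∑ i, ((u (φ m) i : ℚ) : ℝ) * (P.ord (l.z i) : ℝ) -
          ∑ j, ((lc l.cw (T (φ m)) j : ℚ) : ℝ) * (P.ord (l.y j) : ℝ)))) atTop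
        (𝓝 ((P.ord (Om e l.z l.g (C0 0) D) : ℝ) + (β' P +
        (∑ i, a i * (P.ord (l.z i) : ℝ) -
          ∑ j, (∑ i, T' i * (l.cw i j : ℝ)) * (P.ord (l.y j) : ℝ))))) := by
      refine tendsto_const_nhds.add (((hβ P).comp hφt).add ((tendsto_finsetSum _ fun i _ =>
        ((hua i).comp hφt).mul_const _).sub (tendsto_finsetSum _ fun j _ =>
          ((hcw j).comp hφt).mul_const _)))
    have h3 := ge_of_tendsto' h2 h1
    have h4 : ∑ j, -(∑ i, T' i * (l.cw i j : ℝ)) * (P.ord (l.y j) : ℝ) =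
        -∑ j, (∑ i, T' i * (l.cw i j : ℝ)) * (P.ord (l.y j) : ℝ) := by
      rw [← Finset.sum_neg_distrib]
      exact Finset.sum_congr rfl fun j _ => by ring
    rw [h4]
    linarith

/-- the inequalities of a leaf: the coefficients -/
def Leaf.pa {s : ℕ} (l : Leaf k K (s + 1)) :
    ((Fin s ⊕ Bool) ⊕ {c // c ∈ l.cond}) ⊕ ({v // v ∈ l.V} ⊕ (Fin l.r ⊕ Fin l.r)) →
      Fin s ⊕ Fin l.r → ℚ :=
  Sum.elim (Sum.elim (Sum.elim (fun i => Sum.elim (Pi.single i 1) 0)
    fun b => Sum.elim (fun _ => if b then 1 else -1) 0)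
    fun c => Sum.elim (fun i => c.1 i.succ) 0)
    (Sum.elim (fun v => Sum.elim (fun i => -(l.A i.succ v.1 + l.Ψ i.succ v.1)) fun i => (v.1 i : ℚ))
      (Sum.elim (fun i => Sum.elim 0 (Pi.single i 1)) fun i => Sum.elim 0 (Pi.single i (-1))))

/-- the inequalities of a leaf: the constants -/
noncomputable def Leaf.pb {s : ℕ} (l : Leaf k K (s + 1)) (R : ℚ) :
    ((Fin s ⊕ Bool) ⊕ {c // c ∈ l.cond}) ⊕ ({v // v ∈ l.V} ⊕ (Fin l.r ⊕ Fin l.r)) → ℚ :=
  Sum.elim (Sum.elim (Sum.elim (fun _ => 0) fun b => if b then 1 else -1) fun _ => 0)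
    (Sum.elim (fun v => ((∑ j, mn v.1 (l.g j) : ℤ) : ℚ)) fun _ => -R)

theorem sum_single {α : Type} [Fintype α] [DecidableEq α] (i : α) (c : ℚ) (u : α → ℝ) :
    ∑ j, ((Pi.single i c : α → ℚ) j : ℝ) * u j = c * u i := by
  rw [Finset.sum_eq_single i]
  · rw [Pi.single_eq_same]
  · intro j _ hj
    rw [Pi.single_eq_of_ne hj]
    simp
  · intro h
    exact absurd (Finset.mem_univ i) h

theorem mem_ply {s : ℕ} (l : Leaf k K (s + 1)) (R : ℚ) (t : Fin s → ℝ) (u : Fin l.r → ℝ) :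
    Sum.elim t u ∈ Ply l.pa (l.pb R) ↔ (∀ i, 0 ≤ t i) ∧ ∑ i, t i = 1 ∧
      (∀ c ∈ l.cond, 0 ≤ ∑ i : Fin s, (c i.succ : ℝ) * t i) ∧
      (∀ v ∈ l.V, ((∑ j, mn v (l.g j) : ℤ) : ℝ) + ∑ i : Fin s, t i * ((l.A i.succ v : ℝ) +
        (l.Ψ i.succ v : ℝ)) ≤ ∑ i, u i * (v i : ℝ)) ∧ ∀ i, |u i| ≤ R := by
  classical
  have key : Sum.elim t u ∈ Ply l.pa (l.pb R) ↔ ∀ j, ((l.pb R j : ℚ) : ℝ) ≤
      ∑ i : Fin s, (l.pa j (Sum.inl i) : ℝ) * t i +
        ∑ i : Fin l.r, (l.pa j (Sum.inr i) : ℝ) * u i := by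
    unfold Ply
    rw [Set.mem_ofPred_eq]
    refine forall_congr' fun j => ?_
    rw [Fintype.sum_sum_type]
    rfl
  rw [key]
  constructor
  · intro h
    refine ⟨fun i => ?_, le_antisymm ?_ ?_, fun c hc => ?_, fun v hv => ?_, fun i => ?_⟩
    · have h1 := h (Sum.inl (Sum.inl (Sum.inl i)))
      simp only [Leaf.pa, Leaf.pb, Sum.elim_inl, Sum.elim_inr, Pi.zero_apply, Rat.cast_zero,
        zero_mul, Finset.sum_const_zero, add_zero] at h1
      rw [sum_single] at h1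
      simpa using h1
    · have h1 := h (Sum.inl (Sum.inl (Sum.inr false)))
      simp only [Leaf.pa, Leaf.pb, Sum.elim_inl, Sum.elim_inr, Pi.zero_apply, Rat.cast_zero,
        zero_mul, Finset.sum_const_zero, add_zero, Bool.false_eq_true, if_false, Rat.cast_neg,
        Rat.cast_one, neg_mul, one_mul, Finset.sum_neg_distrib] at h1
      linarith
    · have h1 := h (Sum.inl (Sum.inl (Sum.inr true)))
      simp only [Leaf.pa, Leaf.pb, Sum.elim_inl, Sum.elim_inr, Pi.zero_apply, Rat.cast_zero,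
        zero_mul, Finset.sum_const_zero, add_zero, if_true, Rat.cast_one, one_mul] at h1
      exact h1
    · have h1 := h (Sum.inl (Sum.inr ⟨c, hc⟩))
      simp only [Leaf.pa, Leaf.pb, Sum.elim_inl, Sum.elim_inr, Pi.zero_apply, Rat.cast_zero,
        zero_mul, Finset.sum_const_zero, add_zero] at h1
      exact h1
    · have h1 := h (Sum.inr (Sum.inl ⟨v, hv⟩))
      simp only [Leaf.pa, Leaf.pb, Sum.elim_inl, Sum.elim_inr] at h1
      push_cast at h1 ⊢
      have h2 : ∑ i : Fin s, (-((l.A i.succ v : ℝ) + (l.Ψ i.succ v : ℝ))) * t i =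
          -∑ i : Fin s, t i * ((l.A i.succ v : ℝ) + (l.Ψ i.succ v : ℝ)) := by
        rw [← Finset.sum_neg_distrib]
        exact Finset.sum_congr rfl fun i _ => by ring
      have h3 : ∑ i, (v i : ℝ) * u i = ∑ i, u i * (v i : ℝ) :=
        Finset.sum_congr rfl fun i _ => mul_comm _ _
      rw [h3, h2] at h1
      linarith
    · have h1 := h (Sum.inr (Sum.inr (Sum.inl i)))
      have h2 := h (Sum.inr (Sum.inr (Sum.inr i)))
      simp only [Leaf.pa, Leaf.pb, Sum.elim_inl, Sum.elim_inr, Pi.zero_apply, Rat.cast_zero,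
        zero_mul, Finset.sum_const_zero, zero_add] at h1 h2
      rw [sum_single] at h1 h2
      push_cast at h1 h2
      rw [abs_le]
      constructor <;> linarith
  · rintro ⟨h1, h2, h3, h4, h5⟩ (((i | b) | c) | (v | (i | i)))
    · simp only [Leaf.pa, Leaf.pb, Sum.elim_inl, Sum.elim_inr, Pi.zero_apply, Rat.cast_zero,
        zero_mul, Finset.sum_const_zero, add_zero]
      rw [sum_single]
      simpa using h1 i
    · cases b
      · simp only [Leaf.pa, Leaf.pb, Sum.elim_inl, Sum.elim_inr, Pi.zero_apply, Rat.cast_zero,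
          zero_mul, Finset.sum_const_zero, add_zero, Bool.false_eq_true, if_false, Rat.cast_neg,
          Rat.cast_one, neg_mul, one_mul, Finset.sum_neg_distrib]
        linarith
      · simp only [Leaf.pa, Leaf.pb, Sum.elim_inl, Sum.elim_inr, Pi.zero_apply, Rat.cast_zero,
          zero_mul, Finset.sum_const_zero, add_zero, if_true, Rat.cast_one, one_mul]
        linarith
    · simp only [Leaf.pa, Leaf.pb, Sum.elim_inl, Sum.elim_inr, Pi.zero_apply, Rat.cast_zero,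
        zero_mul, Finset.sum_const_zero, add_zero]
      exact h3 c.1 c.2
    · simp only [Leaf.pa, Leaf.pb, Sum.elim_inl, Sum.elim_inr]
      have h6 := h4 v.1 v.2
      push_cast at h6 ⊢
      have h2 : ∑ i : Fin s, (-((l.A i.succ v.1 : ℝ) + (l.Ψ i.succ v.1 : ℝ))) * t i =
          -∑ i : Fin s, t i * ((l.A i.succ v.1 : ℝ) + (l.Ψ i.succ v.1 : ℝ)) := by
        rw [← Finset.sum_neg_distrib]
        exact Finset.sum_congr rfl fun i _ => by ring
      have h3 : ∑ i, (v.1 i : ℝ) * u i = ∑ i, u i * (v.1 i : ℝ) :=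
        Finset.sum_congr rfl fun i _ => mul_comm _ _
      rw [h3, h2]
      linarith
    · simp only [Leaf.pa, Leaf.pb, Sum.elim_inl, Sum.elim_inr, Pi.zero_apply, Rat.cast_zero,
        zero_mul, Finset.sum_const_zero, zero_add]
      rw [sum_single]
      push_cast
      linarith [(abs_le.1 (h5 i)).1]
    · simp only [Leaf.pa, Leaf.pb, Sum.elim_inl, Sum.elim_inr, Pi.zero_apply, Rat.cast_zero,
        zero_mul, Finset.sum_const_zero, zero_add]
      rw [sum_single]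
      push_cast
      linarith [(abs_le.1 (h5 i)).2]

end

end Pool.Agent.T2H41.RA
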