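import Pool.Agent.T2H41.RL

/-!
The boundaries for which `K + β` is effective form a finite union of rational polytopes.
-/

set_option autoImplicit false
set_option linter.overlappingInstances false
set_option linter.unusedSectionVars false

open FF Filter Topology Pool.Agent.W603.LV Pool.Agent.W619.PQ Pool.Agent.W619.TW Pool.Agent.W619.Y
  Pool.Agent.Y174 Pool.Agent.R885 Pool.Agent.R885.N

namespace Pool.Agent.T2H41.RA

/-- the inclusion of the rational points -/
def rc {ι : Type} (v : ι → ℚ) : ι → ℝ := fun i => ((v i : ℚ) : ℝ)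

section

variable {k K : Type} [Field k] [CharZero k] [IsAlgClosed k] [Field K] [Algebra k K]

theorem ply_bounded {s : ℕ} (l : Leaf k K (s + 1)) (R : ℚ) :
    Bornology.IsBounded (Ply l.pa (l.pb R)) := by
  refine (Metric.isBounded_closedBall (x := (0 : Fin s ⊕ Fin l.r → ℝ))
    (r := max 1 |(R : ℝ)|)).subset fun x hx => ?_
  have hx' : Sum.elim (fun i => x (Sum.inl i)) (fun i => x (Sum.inr i)) ∈ Ply l.pa (l.pb R) := by
    have : Sum.elim (fun i => x (Sum.inl i)) (fun i => x (Sum.inr i)) = x := by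
      funext i
      rcases i with i | i <;> rfl
    rw [this]
    exact hx
  obtain ⟨h1, h2, -, -, h5⟩ := (mem_ply l R _ _).1 hx'
  rw [mem_closedBall_zero_iff, pi_norm_le_iff_of_nonneg (le_max_of_le_left zero_le_one)]
  rintro (i | i)
  · rw [Real.norm_eq_abs, abs_of_nonneg (h1 i)]
    refine le_max_of_le_left ?_
    rw [← h2]
    exact Finset.single_le_sum (f := fun i => x (Sum.inl i)) (fun j _ => h1 j) (Finset.mem_univ i)
  · rw [Real.norm_eq_abs]
    exact (h5 i).trans ((le_abs_self _).trans (le_max_right _ _))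

theorem ply_fst {s r : ℕ} (V : Finset (Fin s ⊕ Fin r → ℚ)) (t : Fin s → ℝ) :
    (∃ u : Fin r → ℝ, Sum.elim t u ∈ convexHull ℝ (rc '' (V : Set (Fin s ⊕ Fin r → ℚ)))) ↔
      t ∈ convexHull ℝ (rc '' ((fun z : Fin s ⊕ Fin r → ℚ => fun i => z (Sum.inl i)) ''
        (V : Set (Fin s ⊕ Fin r → ℚ)))) := by
  have h1 : rc '' ((fun z : Fin s ⊕ Fin r → ℚ => fun i => z (Sum.inl i)) ''
        (V : Set (Fin s ⊕ Fin r → ℚ))) = (LinearMap.funLeft ℝ ℝ (Sum.inl : Fin s → Fin s ⊕ Fin r)) ''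
        (rc '' (V : Set (Fin s ⊕ Fin r → ℚ))) := by
    rw [Set.image_image, Set.image_image]
    rfl
  rw [h1, ← LinearMap.image_convexHull]
  constructor
  · rintro ⟨u, hu⟩
    exact ⟨_, hu, rfl⟩
  · rintro ⟨x, hx, hxt⟩
    refine ⟨fun i => x (Sum.inr i), ?_⟩
    have : Sum.elim t (fun i => x (Sum.inr i)) = x := by
      funext i
      rcases i with i | i
      · exact (congrFun hxt i).symm
      · rfl
    rw [this]
    exact hx

/-- **The boundaries for which `K + β` is effective.** -/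
theorem polyL {n q p s : ℕ} (hn : 1 ≤ n) (htr : Algebra.trdeg k K = (n : ℕ))
    {x : Fin (n + q) → K}
    (hx : ∀ i, x i ≠ 0) (hgen : IntermediateField.adjoin k (Set.range x) = ⊤)
    {f : Fin q → (Fin (n + q) → ℤ) →₀ k} (hf : ∀ l, ev x (f l) = 0)
    {h : Fin p → (Fin (n + q) → ℤ) →₀ k} (hhx : ∀ j, ev x (h j) ≠ 0) (H : AlongP f h x)
    {A : Fin s → (Fin (n + q) → ℤ) → ℚ} (hA : ∀ i, N.IsWeight (A i)) {c : Fin s → Fin p → ℚ}
    (hc : ∀ i j, 0 ≤ c i j ∧ c i j ≤ 1) :
    ∃ F : Finset (Finset (Fin s → ℚ)), (∀ V ∈ F, ∀ v ∈ V, (∀ i, 0 ≤ v i) ∧ ∑ i, v i = 1) ∧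
      ∀ t : Fin s → ℝ, (∀ i, 0 ≤ t i) → ∑ i, t i = 1 →
        (¬ NegB k K n (bR A c x h t) → ∃ V ∈ F, t ∈ convexHull ℝ (rc '' (V : Set (Fin s → ℚ)))) ∧
        ((∃ V ∈ F, t ∈ convexHull ℝ (rc '' (V : Set (Fin s → ℚ)))) →
          EffF k K n (bR A c x h t)) := by
  classical
  have hh0 : ∀ j, h j ≠ 0 := by
    intro j h0
    apply hhx j
    rw [h0]
    unfold ev
    exact Finsupp.sum_zero_index
  -- the extended family
  obtain ⟨A', hA'⟩ : ∃ A' : Fin (s + 1) → (Fin (n + q) → ℤ) → ℚ,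
    A' = Fin.cons (fun _ => 0) A := ⟨_, rfl⟩
  obtain ⟨c', hc'⟩ : ∃ c' : Fin (s + 1) → Fin p → ℚ, c' = Fin.cons (fun _ => 1) c := ⟨_, rfl⟩
  obtain ⟨Ψ', hΨ'⟩ : ∃ Ψ' : Fin (s + 1) → (Fin (n + q) → ℤ) → ℚ,
    Ψ' = fun i v => ∑ j, c' i j * (mn v (h j) : ℚ) := ⟨_, rfl⟩
  have hA'w : ∀ i, N.IsWeight (A' i) := by
    intro i
    rw [hA']
    refine Fin.cases ?_ (fun i => ?_) i
    · rw [Fin.cons_zero]
      exact weight_zero
    · rw [Fin.cons_succ]
      exact hA i
  have hroot : ∀ T : Fin (s + 1) → ℚ, (∀ i, 0 ≤ T i) → ∑ i, T i = 1 →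
      VSys n (bR A c x h fun i => ((T i.succ : ℚ) : ℝ)) x f (fun j => ev x (h j)) (lc c' T)
        (lc A' T) (lc Ψ' T) := fun T hT0 hT1 =>
    rootL hx hgen hf hhx H hA hc hA' hc' hΨ' hT0 hT1
  -- the tree
  obtain ⟨S, hS, hS1, hS2⟩ := tree (k := k) (K := K) (s := s + 1) hn htr q (n + q) q (Fin p)
    inferInstance x f (fun j => ev x (h j)) c' A' Ψ' le_rfl (fun i => range_fin (hA'w i))
    (fun i => by
      rw [hΨ']
      exact PW.sum Finset.univ (fun j _ => PW.mn (hh0 j)) (c' i))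
  choose R hR using fun l : Leaf k K (s + 1) => sys_bound (f := l.g) l.A l.Ψ
  choose V hV using fun l : Leaf k K (s + 1) => ply_hull l.pa (l.pb (R l)) (ply_bounded l (R l))
  have hV' : ∀ l : Leaf k K (s + 1), Ply l.pa (l.pb (R l)) =
      convexHull ℝ (rc '' (V l : Set (Fin s ⊕ Fin l.r → ℚ))) := hV
  refine ⟨hS.toFinset.image fun l => (V l).image fun z i => z (Sum.inl i), ?_,
    fun t ht ht1 => ⟨fun hN => ?_, ?_⟩⟩
  · intro W hW v hv
    rw [Finset.mem_image] at hW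
    obtain ⟨l, -, rfl⟩ := hW
    rw [Finset.mem_image] at hv
    obtain ⟨z, hz, rfl⟩ := hv
    have h1 : rc z ∈ Ply l.pa (l.pb (R l)) := by
      rw [hV']
      exact subset_convexHull ℝ _ ⟨z, hz, rfl⟩
    have h2 : Sum.elim (fun i => rc z (Sum.inl i)) (fun i => rc z (Sum.inr i)) = rc z := by
      funext i
      rcases i with i | i <;> rfl
    rw [← h2, mem_ply] at h1
    obtain ⟨h3, h4, -⟩ := h1
    refine ⟨fun i => ?_, ?_⟩
    · have := h3 i
      unfold rc at this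
      exact_mod_cast this
    · unfold rc at h4
      exact_mod_cast h4
  · -- the limit of the leaves
    obtain ⟨τ, hτ0, hτle, hτt⟩ := exists_below ht
    have hτ1 : ∀ m, ∑ i, τ m i ≤ 1 := by
      intro m
      have h1 : ∑ i, ((τ m i : ℚ) : ℝ) ≤ 1 :=
        (Finset.sum_le_sum fun i _ => hτle m i).trans ht1.le
      exact_mod_cast h1
    obtain ⟨T, hT⟩ : ∃ T : ℕ → Fin (s + 1) → ℚ, T = fun m => Fin.cons (1 - ∑ i, τ m i) (τ m) :=
      ⟨_, rfl⟩
    have hTs : ∀ m (i : Fin s), T m i.succ = τ m i := by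
      intro m i
      rw [hT]
      exact Fin.cons_succ _ _ _
    have hT0 : ∀ m i, 0 ≤ T m i := by
      intro m i
      rw [hT]
      beta_reduce
      refine Fin.cases ?_ (fun i => ?_) i
      · rw [Fin.cons_zero]
        linarith [hτ1 m]
      · rw [Fin.cons_succ]
        exact hτ0 m i
    have hT1 : ∀ m, ∑ i, T m i = 1 := by
      intro m
      rw [hT]
      beta_reduce
      rw [Fin.sum_univ_succ]
      simp only [Fin.cons_zero, Fin.cons_succ]
      ring
    have hNm : ∀ m, ¬ NegB k K n (bR A c x h fun i => ((T m i.succ : ℚ) : ℝ)) := by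
      intro m h1
      refine hN (negB_mono (fun P _ => ?_) h1)
      refine bR_mono (fun i v hv => (hA i).nonneg v hv) (fun i j => (hc i j).2) (fun i => ?_) P
      rw [hTs]
      exact hτle m i
    obtain ⟨l, hl, hfr⟩ := freq_of_finite hS (P := fun l m => l.ok (T m) ∧
        l.sys n (T m) (bR A c x h fun i => ((T m i.succ : ℚ) : ℝ)) ∧ l.ne (T m))
      fun m => by
        have h1 := hroot (T m) (hT0 m) (hT1 m)
        obtain ⟨l, hl, hok, hne⟩ := hS2 (T m) _ (hT1 m) h1 (hNm m)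
        exact ⟨l, hl, hok, (hS1 l hl).2 (T m) _ (hT1 m) h1 hok, hne⟩
    obtain ⟨φ, hφ, hP⟩ := Filter.extraction_of_frequently_atTop hfr
    have hφt : Tendsto φ atTop atTop := hφ.tendsto_atTop
    choose u hu using fun m => (hP m).2.2
    have hbd : ∀ m i, |u m i| ≤ R l := by
      intro m
      let _ := l.fin
      exact hR l (T (φ m)) (hT0 _) (hT1 _) (VSys.A0 (hP m).2.1) (u m) (hu m)
    obtain ⟨a, ψ, hψ, hψa⟩ : ∃ (a : Fin l.r → ℝ) (ψ : ℕ → ℕ), StrictMono ψ ∧
        Tendsto (fun m => fun i => ((u (ψ m) i : ℚ) : ℝ)) atTop (𝓝 a) := by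
      have h1 : ∀ m, (fun i => ((u m i : ℚ) : ℝ)) ∈
          Metric.closedBall (0 : Fin l.r → ℝ) |((R l : ℚ) : ℝ)| := by
        intro m
        rw [mem_closedBall_zero_iff, pi_norm_le_iff_of_nonneg (abs_nonneg _)]
        intro i
        rw [Real.norm_eq_abs]
        have : |((u m i : ℚ) : ℝ)| ≤ ((R l : ℚ) : ℝ) := by exact_mod_cast hbd m i
        exact this.trans (le_abs_self _)
      obtain ⟨a, -, ψ, hψ, h2⟩ := tendsto_subseq_of_bounded Metric.isBounded_closedBall h1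
      exact ⟨a, ψ, hψ, h2⟩
    have hφψ : Tendsto (fun m => φ (ψ m)) atTop atTop := hφt.comp hψ.tendsto_atTop
    have hua : ∀ i, Tendsto (fun m => ((u (ψ m) i : ℚ) : ℝ)) atTop (𝓝 (a i)) := fun i =>
      (tendsto_pi_nhds.1 hψa) i
    have hTt : ∀ i, Tendsto (fun m => ((T (φ (ψ m)) i : ℚ) : ℝ)) atTop
        (𝓝 ((Fin.cons 0 t : Fin (s + 1) → ℝ) i)) := by
      intro i
      refine Tendsto.comp (g := fun m => ((T m i : ℚ) : ℝ)) ?_ hφψ
      rw [hT]
      refine Fin.cases ?_ (fun i => ?_) i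
      · simp only [Fin.cons_zero]
        push_cast
        have h1 : Tendsto (fun m => 1 - ∑ i, ((τ m i : ℚ) : ℝ)) atTop (𝓝 (1 - ∑ i, t i)) :=
          tendsto_const_nhds.sub (tendsto_finsetSum _ fun i _ => hτt i)
        rwa [ht1, sub_self] at h1
      · simp only [Fin.cons_succ]
        exact hτt i
    have hsum : ∀ g : Fin (s + 1) → ℝ, ∑ i, g i * (Fin.cons 0 t : Fin (s + 1) → ℝ) i =
        ∑ i : Fin s, g i.succ * t i := by
      intro g
      rw [Fin.sum_univ_succ]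
      simp only [Fin.cons_zero, Fin.cons_succ, mul_zero, zero_add]
    have hmem : Sum.elim t a ∈ Ply l.pa (l.pb (R l)) := by
      rw [mem_ply]
      refine ⟨ht, ht1, fun cc hcc => ?_, fun v hv => ?_, fun i => ?_⟩
      · have h1 : Tendsto (fun m => ∑ i, (cc i : ℝ) * ((T (φ (ψ m)) i : ℚ) : ℝ)) atTop
            (𝓝 (∑ i, (cc i : ℝ) * (Fin.cons 0 t : Fin (s + 1) → ℝ) i)) :=
          tendsto_finsetSum _ fun i _ => (hTt i).const_mul _
        rw [hsum] at h1
        refine ge_of_tendsto' h1 fun m => ?_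
        have h2 := (hP (ψ m)).1 cc hcc
        exact_mod_cast h2
      · have hv0 := (hS1 l hl).1.1 v hv
        have h1 : Tendsto (fun m => ((∑ j, mn v (l.g j) : ℤ) : ℝ) + ∑ i,
            ((l.A i v : ℝ) + (l.Ψ i v : ℝ)) * ((T (φ (ψ m)) i : ℚ) : ℝ)) atTop
            (𝓝 (((∑ j, mn v (l.g j) : ℤ) : ℝ) + ∑ i,
            ((l.A i v : ℝ) + (l.Ψ i v : ℝ)) * (Fin.cons 0 t : Fin (s + 1) → ℝ) i)) :=
          tendsto_const_nhds.add (tendsto_finsetSum _ fun i _ => (hTt i).const_mul _)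
        have h2 : Tendsto (fun m => ∑ i, ((u (ψ m) i : ℚ) : ℝ) * (v i : ℝ)) atTop
            (𝓝 (∑ i, a i * (v i : ℝ))) := tendsto_finsetSum _ fun i _ => (hua i).mul_const _
        have h3 := le_of_tendsto_of_tendsto' h1 h2 fun m => by
          have h4 := hu (ψ m) v hv0
          have h5 := (Rat.cast_le (K := ℝ)).2 h4
          unfold lc dq at h5
          push_cast at h5 ⊢
          have h6 : ∑ i, ((l.A i v : ℝ) + (l.Ψ i v : ℝ)) * ((T (φ (ψ m)) i : ℚ) : ℝ) =
              ∑ i, ((T (φ (ψ m)) i : ℚ) : ℝ) * (l.A i v : ℝ) +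
                ∑ i, ((T (φ (ψ m)) i : ℚ) : ℝ) * (l.Ψ i v : ℝ) := by
            rw [← Finset.sum_add_distrib]
            exact Finset.sum_congr rfl fun i _ => by ring
          rw [h6]
          linarith
        rw [hsum] at h3
        have h4 : ∑ i : Fin s, t i * ((l.A i.succ v : ℝ) + (l.Ψ i.succ v : ℝ)) =
            ∑ i : Fin s, ((l.A i.succ v : ℝ) + (l.Ψ i.succ v : ℝ)) * t i :=
          Finset.sum_congr rfl fun i _ => mul_comm _ _
        rw [h4]
        exact h3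
      · refine le_of_tendsto' (hua i).abs fun m => ?_
        exact_mod_cast hbd (ψ m) i
    refine ⟨_, Finset.mem_image.2 ⟨l, hS.mem_toFinset.2 hl, rfl⟩, ?_⟩
    rw [Finset.coe_image, ← ply_fst]
    exact ⟨a, by rw [← hV']; exact hmem⟩
  · rintro ⟨W, hW, htW⟩
    rw [Finset.mem_image] at hW
    obtain ⟨l, hl, rfl⟩ := hW
    rw [hS.mem_toFinset] at hl
    rw [Finset.coe_image, ← ply_fst] at htW
    obtain ⟨a, ha⟩ := htW
    rw [← hV'] at ha
    obtain ⟨z, hz1, -, hz⟩ := ply_approx _ _ ha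
    have hz2 : ∀ m, Sum.elim (fun i => ((z m (Sum.inl i) : ℚ) : ℝ))
        (fun i => ((z m (Sum.inr i) : ℚ) : ℝ)) ∈ Ply l.pa (l.pb (R l)) := by
      intro m j
      have h1 := (Rat.cast_le (K := ℝ)).2 (hz1 m j)
      rw [Fintype.sum_sum_type] at h1 ⊢
      push_cast at h1
      exact h1
    obtain ⟨T, hT⟩ : ∃ T : ℕ → Fin (s + 1) → ℚ,
      T = fun m => Fin.cons 0 fun i => z m (Sum.inl i) := ⟨_, rfl⟩
    have hTs : ∀ m (i : Fin s), T m i.succ = z m (Sum.inl i) := by
      intro m i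
      rw [hT]
      exact Fin.cons_succ _ _ _
    have hTz : ∀ m, T m 0 = 0 := by
      intro m
      rw [hT]
      exact Fin.cons_zero _ _
    have hT0 : ∀ m i, 0 ≤ T m i := by
      intro m i
      refine Fin.cases ?_ (fun i => ?_) i
      · rw [hTz]
      · rw [hTs]
        have := ((mem_ply _ _ _ _).1 (hz2 m)).1 i
        exact_mod_cast this
    have hT1 : ∀ m, ∑ i, T m i = 1 := by
      intro m
      rw [Fin.sum_univ_succ, hTz, zero_add, Finset.sum_congr rfl fun i _ => hTs m i]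
      have := ((mem_ply _ _ _ _).1 (hz2 m)).2.1
      exact_mod_cast this
    have hok : ∀ m, l.ok (T m) := by
      intro m cc hcc
      rw [Fin.sum_univ_succ, hTz, mul_zero, zero_add,
        Finset.sum_congr rfl fun i _ => by rw [hTs m i]]
      have := ((mem_ply _ _ _ _).1 (hz2 m)).2.2.1 cc hcc
      exact_mod_cast this
    have hsys : ∀ m, l.sys n (T m) (bR A c x h fun i => ((T m i.succ : ℚ) : ℝ)) := fun m =>
      (hS1 l hl).2 (T m) _ (hT1 m) (hroot (T m) (hT0 m) (hT1 m)) (hok m)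
    have hu : ∀ m, (fun i => z m (Sum.inr i)) ∈ FineG (lc l.A (T m)) (lc l.Ψ (T m)) l.g := by
      intro m v hv
      let _ := l.fin
      have h1 := (hS1 l hl).1.2 (T m) (VSys.A0 (hsys m)) (VSys.P0 (hsys m))
        (fun i => z m (Sum.inr i)) 0 le_rfl ?_ v hv
      · linarith
      intro w hw
      have h2 := ((mem_ply _ _ _ _).1 (hz2 m)).2.2.2.1 w hw
      have h3 : (((lc l.A (T m) w + (lc l.Ψ (T m) w - 0 * n1 w) + ∑ j, (mn w (l.g j) : ℚ) : ℚ)) :
          ℝ) ≤ ((dq (fun i => z m (Sum.inr i)) w : ℚ) : ℝ) := by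
        unfold lc dq
        push_cast
        rw [Fin.sum_univ_succ, Fin.sum_univ_succ, hTz, Rat.cast_zero, zero_mul, zero_mul,
          zero_add, zero_add, zero_mul, sub_zero]
        push_cast at h2
        have h6 : ∑ i : Fin s, ((z m (Sum.inl i) : ℚ) : ℝ) * ((l.A i.succ w : ℝ) +
              (l.Ψ i.succ w : ℝ)) =
              ∑ i : Fin s, ((T m i.succ : ℚ) : ℝ) * (l.A i.succ w : ℝ) +
                ∑ i : Fin s, ((T m i.succ : ℚ) : ℝ) * (l.Ψ i.succ w : ℝ) := by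
            rw [← Finset.sum_add_distrib]
            exact Finset.sum_congr rfl fun i _ => by rw [hTs]; ring
        rw [h6] at h2
        linarith
      exact_mod_cast h3
    refine limM htr (T' := Fin.cons 0 t) (fun i => ?_) (fun P => ?_) hsys hu
      (fun i => hz (Sum.inr i))
    · refine Fin.cases ?_ (fun i => ?_) i
      · simp only [Fin.cons_zero, hTz, Rat.cast_zero]
        exact tendsto_const_nhds
      · simp only [Fin.cons_succ, hTs]
        exact hz (Sum.inl i)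
    · refine bR_tendsto (fun i => ?_) P
      simp only [hTs]
      exact hz (Sum.inl i)

end

end Pool.Agent.T2H41.RA
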