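import Pool.Agent.T2H41.RM
import Pool.Agent.T2H41.RJ

/-!
The polytope of the pseudoeffective boundaries.
-/

set_option autoImplicit false
set_option linter.overlappingInstances false
set_option linter.unusedSectionVars false

open FF Filter Topology IntermediateField Pool.Agent.W602.GT Pool.Agent.W603.LV
  Pool.Agent.W619.PQ Pool.Agent.W619.TW Pool.Agent.W619.Y Pool.Agent.Y172 Pool.Agent.Y191
  Pool.Agent.Y174 Pool.Agent.R885 Pool.Agent.R885.N

namespace Pool.Agent.T2H41.RA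

section

variable {k K : Type} [Field k] [CharZero k] [Field K] [Algebra k K] {n : ℕ}

/-- effective divisors in the class of `K + β`, for a fixed form -/
def EffN (k K : Type) [Field k] [Field K] [Algebra k K] {n : ℕ} (x : Fin n → K)
    (β : Place k K → ℝ) : Prop :=
  ∃ (ι : Type) (_ : Fintype ι) (φ : ι → K) (ρ : ι → ℝ), (∀ i, φ i ≠ 0) ∧
    ∀ P : Place k K, IsDivisorial P n → ∀ D : Fin n → Derivation k K K,
      (∀ l, ∀ f, P.Reg f → P.Reg (D l f)) →
        (Matrix.of fun i j => D i (x j)).det = 0 ∨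
          0 ≤ (P.ord (Matrix.of fun i j => D i (x j)).det : ℝ) + β P +
            ∑ i, ρ i * (P.ord (φ i) : ℝ)

theorem det_form (x : Fin n → K) :
    IsPluriForm k K n 1 (fun D : Fin n → Derivation k K K =>
      (Matrix.of fun i j => D i (x j)).det) := by
  intro A D
  beta_reduce
  have e : (Matrix.of fun a b => (∑ j, A a j • D j) (x b)) =
      A * Matrix.of fun a b => D a (x b) := by
    ext a b
    rw [Matrix.of_apply, Matrix.mul_apply, Pool.Agent.W73.PG.PULL.sum_app]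
    rfl
  rw [e, Matrix.det_mul, pow_one]

theorem eff_to_N {x : Fin n → K} {E : Fin n → Derivation k K K}
    (hx : IsTranscendenceBasis k x) (hE : ∀ i j, E i (x j) = if i = j then 1 else 0)
    {β : Place k K → ℝ} (h : EffF k K n β) : EffN k K x β := by
  classical
  obtain ⟨ι, hι, φ, ρ, m, ω, hm, hφ, hω0, hω⟩ := h
  have hωD : ∀ D, ω D = (Matrix.of fun i j => D i (x j)).det ^ m * ω E := fun D =>
    Pool.Agent.W636.PG.form_eq k K n m x hx E hE ω hω.1 D
  have hE0 : ω E ≠ 0 := by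
    intro h0
    apply hω0
    funext D
    rw [hωD, h0, mul_zero]
    rfl
  have hm0 : (0 : ℝ) < m := by exact_mod_cast hm
  refine ⟨Option ι, inferInstance, fun o => o.elim (ω E) φ, fun o => o.elim (1 / m) ρ, ?_,
    fun P hP D hD => ?_⟩
  · rintro (_ | i)
    · exact hE0
    · exact hφ i
  · by_cases h0 : (Matrix.of fun i j => D i (x j)).det = 0
    · exact Or.inl h0
    right
    rw [Fintype.sum_option]
    simp only [Option.elim_none, Option.elim_some]
    have h1 : ω D ≠ 0 := by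
      rw [hωD]
      exact mul_ne_zero (pow_ne_zero _ h0) hE0
    rcases hω.2 P hP D hD with h2 | ⟨s, hs, hs0, h2⟩
    · exact absurd h2 h1
    rw [Nat.cast_zero, zero_mul, zero_sub, hωD, P.ord_mul (pow_ne_zero _ h0) hE0, P.ord_pow] at h2
    beta_reduce at h2
    push_cast at h2
    have h3 : 0 ≤ (m : ℝ) * ((P.ord (Matrix.of fun i j => D i (x j)).det : ℝ) + β P +
        (1 / (m : ℝ) * (P.ord (ω E) : ℝ) + ∑ i, ρ i * (P.ord (φ i) : ℝ))) := by
      have h5 : (m : ℝ) * (1 / (m : ℝ) * (P.ord (ω E) : ℝ)) = P.ord (ω E) := by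
        field_simp
      have h6 : (m : ℝ) * ((P.ord (Matrix.of fun i j => D i (x j)).det : ℝ) + β P +
        (1 / (m : ℝ) * (P.ord (ω E) : ℝ) + ∑ i, ρ i * (P.ord (φ i) : ℝ))) =
        m * (P.ord (Matrix.of fun i j => D i (x j)).det : ℝ) + m * (β P +
          ∑ i, ρ i * (P.ord (φ i) : ℝ)) + (m : ℝ) * (1 / (m : ℝ) * (P.ord (ω E) : ℝ)) := by ring
      rw [h6, h5]
      linarith
    exact nonneg_of_mul_nonneg_right h3 hm0

theorem eff_of_N {x : Fin n → K} {E : Fin n → Derivation k K K}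
    (hE : ∀ i j, E i (x j) = if i = j then 1 else 0)
    {β : Place k K → ℝ} (h : EffN k K x β) : EffF k K n β := by
  classical
  obtain ⟨ι, hι, φ, ρ, hφ, h⟩ := h
  refine ⟨ι, hι, φ, ρ, 1, _, le_rfl, hφ, ?_, det_form x, fun P hP D hD => ?_⟩
  · intro h0
    have h1 := congrFun h0 E
    beta_reduce at h1
    have h2 : (Matrix.of fun i j => E i (x j)) = 1 := by
      ext i j
      rw [Matrix.of_apply, Matrix.one_apply]
      exact hE i j
    rw [h2, Matrix.det_one] at h1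
    exact one_ne_zero h1
  · rcases h P hP D hD with h1 | h1
    · exact Or.inl h1
    · refine Or.inr ⟨1, Finset.mem_singleton_self _, one_ne_zero, ?_⟩
      rw [Nat.cast_zero, zero_mul, zero_sub, Nat.cast_one, one_mul]
      linarith

/-- **Convexity.** -/
theorem eff_conv (htr : Algebra.trdeg k K = (n : ℕ)) {β β' : Place k K → ℝ}
    (h : EffF k K n β) (h' : EffF k K n β') {α α' : ℝ} (hα : 0 ≤ α) (hα' : 0 ≤ α')
    (h1 : α + α' = 1) : EffF k K n (fun P => α * β P + α' * β' P) := by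
  classical
  obtain ⟨x, hx⟩ := Pool.Agent.W636.PG.exists_basis k K n htr
  obtain ⟨E, hE⟩ := Pool.Agent.W636.PG.exists_duals k K n x hx
  obtain ⟨ι, hι, φ, ρ, hφ, hd⟩ := eff_to_N hx hE h
  obtain ⟨ι', hι', φ', ρ', hφ', hd'⟩ := eff_to_N hx hE h'
  refine eff_of_N hE ⟨ι ⊕ ι', inferInstance, Sum.elim φ φ',
    Sum.elim (fun i => α * ρ i) fun i => α' * ρ' i, ?_, fun P hP D hD => ?_⟩
  · rintro (i | i)
    · exact hφ i
    · exact hφ' i
  · rcases hd P hP D hD with h2 | h2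
    · exact Or.inl h2
    rcases hd' P hP D hD with h3 | h3
    · exact Or.inl h3
    right
    rw [Fintype.sum_sum_type]
    simp only [Sum.elim_inl, Sum.elim_inr, mul_assoc, ← Finset.mul_sum]
    have h4 := mul_nonneg hα h2
    have h5 := mul_nonneg hα' h3
    have h6 : (P.ord (Matrix.of fun i j => D i (x j)).det : ℝ) =
        α * (P.ord (Matrix.of fun i j => D i (x j)).det : ℝ) +
          α' * (P.ord (Matrix.of fun i j => D i (x j)).det : ℝ) := by
      rw [← add_mul, h1, one_mul]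
    rw [h6]
    linarith

end

section

variable {K : Type} [Field K] [Algebra ℂ K] {N n : ℕ} {y : Fin (N + 1) → K}

/-- `K_X + B` is pseudoeffective. -/
def Pse (y : Fin (N + 1) → K) (n : ℕ) (B : Place ℂ K → ℝ) : Prop :=
  ∃ H, GR.Eff y H ∧ ∀ M : ℕ, ∃ m, M ≤ m ∧ ∃ ω, ω ≠ 0 ∧ GR.IsSec y n m (m • B + H) ω

/-- effective divisors are pseudoeffective -/
theorem pse_of_eff (hy : NormalModel y) {B E : Place ℂ K → ℝ} (hE : T2H07.EffR y E)
    (h : T2H07.RLin y n B E) : Pse y n B := by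
  classical
  obtain ⟨ω, l, φ, r, hω, hω0, hφ, hP⟩ := h
  refine ⟨fun P => ∑ i, |(P.ord (φ i) : ℝ)|, ⟨?_, fun P _ => Finset.sum_nonneg fun i _ =>
    abs_nonneg _⟩, fun M => ⟨M + 1, by omega, fun D => ω D ^ (M + 1) *
      ∏ i, φ i ^ ⌊((M + 1 : ℕ) : ℝ) * r i⌋, ?_, ?_, ?_⟩⟩
  · refine (Set.finite_iUnion fun i => finite_ord hy (hφ i)).subset ?_
    rintro P ⟨hP, hP0⟩
    obtain ⟨i, -, hi⟩ := Finset.exists_ne_zero_of_sum_ne_zero hP0
    refine Set.mem_iUnion.2 ⟨i, hP, fun h0 => hi ?_⟩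
    rw [h0, Int.cast_zero, abs_zero]
  · intro h0
    apply hω0
    funext D
    have h1 := congrFun h0 D
    beta_reduce at h1
    rcases mul_eq_zero.1 h1 with h2 | h2
    · exact (pow_eq_zero_iff (by omega)).1 h2
    · exact absurd h2 (Finset.prod_ne_zero_iff.2 fun i _ => zpow_ne_zero _ (hφ i))
  · intro A D
    beta_reduce
    rw [hω A D, pow_one, mul_pow]
    ring
  · intro P hPp G hG
    by_cases hG0 : ω G = 0
    · left
      beta_reduce
      rw [hG0, zero_pow (by omega), zero_mul]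
    right
    obtain ⟨a, ha, hEP⟩ := hP P hPp
    have h1 := (ha.1 G hG).resolve_left hG0
    have h1' : (a : ℝ) ≤ (P.ord (ω G) : ℝ) := by exact_mod_cast h1
    have hpr : (∏ i, φ i ^ ⌊((M + 1 : ℕ) : ℝ) * r i⌋) ≠ 0 :=
      Finset.prod_ne_zero_iff.2 fun i _ => zpow_ne_zero _ (hφ i)
    beta_reduce
    rw [P.ord_mul (pow_ne_zero _ hG0) hpr, P.ord_pow, ord_prod' P _ _ fun i _ =>
      zpow_ne_zero _ (hφ i)]
    have h2 : ∑ i, P.ord (φ i ^ ⌊((M + 1 : ℕ) : ℝ) * r i⌋) =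
        ∑ i, ⌊((M + 1 : ℕ) : ℝ) * r i⌋ * P.ord (φ i) :=
      Finset.sum_congr rfl fun i _ => P.ord_zpow _ _
    rw [h2, Pi.add_apply, Pi.smul_apply, nsmul_eq_mul]
    push_cast
    have hM : (0 : ℝ) ≤ (M : ℝ) + 1 := by positivity
    have h3 := hE.2 P hPp
    rw [hEP] at h3
    have h4 := mul_nonneg hM h3
    have h5 := mul_le_mul_of_nonneg_left h1' hM
    have h6 : ((M : ℝ) + 1) * ∑ i, r i * (P.ord (φ i) : ℝ) -
        ∑ i, (⌊((M : ℝ) + 1) * r i⌋ : ℝ) * (P.ord (φ i) : ℝ) ≤ ∑ i, |(P.ord (φ i) : ℝ)| := by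
      rw [Finset.mul_sum, ← Finset.sum_sub_distrib]
      refine Finset.sum_le_sum fun i _ => ?_
      have h7 : ((M : ℝ) + 1) * (r i * (P.ord (φ i) : ℝ)) -
          (⌊((M : ℝ) + 1) * r i⌋ : ℝ) * (P.ord (φ i) : ℝ) =
          Int.fract (((M : ℝ) + 1) * r i) * (P.ord (φ i) : ℝ) := by
        rw [Int.fract]
        ring
      rw [h7]
      have h8 := Int.fract_nonneg (((M : ℝ) + 1) * r i)
      have h9 := (Int.fract_lt_one (((M : ℝ) + 1) * r i)).le
      calc Int.fract (((M : ℝ) + 1) * r i) * (P.ord (φ i) : ℝ)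
          ≤ Int.fract (((M : ℝ) + 1) * r i) * |(P.ord (φ i) : ℝ)| :=
            mul_le_mul_of_nonneg_left (le_abs_self _) h8
        _ ≤ 1 * |(P.ord (φ i) : ℝ)| := mul_le_mul_of_nonneg_right h9 (abs_nonneg _)
        _ = _ := one_mul _
    linarith

theorem not_neg' (htr : Algebra.trdeg ℂ K = (n : ℕ)) (hy : NormalModel y) {s : ℕ}
    {Δ : Fin s → Place ℂ K → ℚ} (hΔ : ∀ i, Effective y (Δ i)) {t : Fin s → ℝ}
    (ht : ∀ i, 0 ≤ t i) (ht1 : ∑ i, t i = 1) {B : Place ℂ K → ℝ}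
    (hB : ∀ P, IsPrimeDivisor y P → B P = ∑ i, t i * Δ i P)
    {a : Place ℂ K → ℝ} (ha : ∀ Q, Divisorial n Q → ∃ α : Fin s → ℚ,
      (∀ i, LogDisc y n (Δ i) Q (α i)) ∧ 1 - a Q = ∑ i, t i * (α i : ℝ))
    (hps : Pse y n B) : ¬ NegB ℂ K n a := by
  intro hneg
  obtain ⟨H, hH, hps⟩ := hps
  obtain ⟨T, hT⟩ := real_disc htr hy hΔ ht ht1 hB hH ha
  obtain ⟨M0, hM0⟩ := hneg T
  obtain ⟨m, hm, ω, hω0, hω⟩ := hps (M0 + 1)
  exact hω0 (hM0 m (by omega) ω (hT m (by omega) ω hω))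

end

section

variable {K L : Type} [Field K] [Field L] [Algebra ℂ K] [Algebra ℂ L]

/-- from the projective model to the nondegenerate variety and back -/
theorem two_ways {n q p s : ℕ} {M : Type} [Field M] [Algebra ℂ M] [Algebra K M]
    [Algebra L M] [IsScalarTower ℂ K M] [IsScalarTower ℂ L M] [FiniteDimensional K M]
    [FiniteDimensional L M] {x : Fin (n + q) → L}
    {f : Fin q → (Fin (n + q) → ℤ) →₀ ℂ} {h : Fin p → (Fin (n + q) → ℤ) →₀ ℂ}
    (hx : T2H07.IsGenericPoint n f h x)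
    {A : Fin s → (Fin (n + q) → ℤ) → ℚ} {c : Fin s → Fin p → ℚ}
    (hc : ∀ i j, 0 ≤ c i j ∧ c i j ≤ 1) (hcell : T2H07.SameCell c) {N : ℕ} {y : Fin (N + 1) → K}
    {Δ : Fin s → Place ℂ K → ℚ}
    (hy : ∀ i, T2H07.IsCommensurable M (bdry (A i) (c i) x h) y n (Δ i)) {t : Fin s → ℝ}
    (ht : ∀ i, 0 ≤ t i) (ht1 : ∑ i, t i = 1) {B : Place ℂ K → ℝ}
    (hB : ∀ P, IsPrimeDivisor y P → B P = ∑ i, t i * Δ i P) :
    (Pse y n B → ¬ NegB ℂ L n (bR A c x h t)) ∧
      (EffF ℂ L n (bR A c x h t) → ∃ E, T2H07.EffR y E ∧ T2H07.RLin y n B E) := by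
  classical
  have hs : 0 < s := by
    rcases Nat.eq_zero_or_pos s with rfl | h0
    · simp at ht1
    · exact h0
  have hNM : NormalModel y := (hy ⟨0, hs⟩).normal
  obtain ⟨hx1, hf, hhx, hgen, htr⟩ := hx
  have hessL : Algebra.EssFiniteType ℂ L := ess_of_gen hgen
  have hessM : Algebra.EssFiniteType ℂ M := w6_ess (K := L) hessL
  have htrM : Algebra.trdeg ℂ M = (n : ℕ) := w6_trdeg (K := L) htr
  have htrK : Algebra.trdeg ℂ K = (n : ℕ) := by
    have h1 := trdeg_add_eq ℂ K (A := M)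
    have h2 : Algebra.trdeg K M = 0 := trdeg_eq_zero
    rw [h2, add_zero, htrM] at h1
    exact h1
  obtain ⟨z', hz'⟩ := Pool.Agent.W636.PG.exists_basis ℂ K n htrK
  have hessK : Algebra.EssFiniteType ℂ K := ess_down hessM z' hz'
  -- the multiplicities
  obtain ⟨βL, hβL⟩ : ∃ βL : Place ℂ L → ℝ, βL = bR A c x h t := ⟨_, rfl⟩
  have hβL1 : ∀ R, 1 - βL R = ∑ i, t i * (1 - ((bdry (A i) (c i) x h R : ℚ) : ℝ)) := by
    intro R
    rw [hβL, bR_convex hc hcell ht ht1, conv_subR ht1]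
  choose e v hv using fun w : Place ℂ M => Pool.Agent.W73.PG.PULL.exists_over' (K := L) w
  obtain ⟨βM, hβM⟩ : ∃ βM : Place ℂ M → ℝ, βM = fun w => 1 - (e w : ℝ) * (1 - βL (v w)) :=
    ⟨_, rfl⟩
  have hβM' : ∀ v', IsDivisorial v' n → ∀ (w : Place ℂ M) e', LiesOn w v' e' →
      βM w = 1 - e' * (1 - βL v') := by
    intro v' _ w e' hw
    obtain ⟨h1, h2⟩ := over_uniq hw (hv w)
    rw [hβM, h1, h2]
  choose a b hab w0 e0 hw0 ha0 using fun P : Place ℂ K => exists_boundsR (L := M) βM P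
  have hepos : ∀ {Q : Place ℂ K} {w : Place ℂ M} {e' : ℕ}, LiesOn w Q e' → (0 : ℝ) < e' := by
    intro Q w e' hw
    have := hw.1
    exact_mod_cast this
  rw [← hβL]
  refine ⟨fun hps => ?_, fun h4 => ?_⟩
  · -- the log discrepancies
    have hα : ∀ Q, Divisorial n Q → ∃ α : Fin s → ℚ,
        (∀ i, LogDisc y n (Δ i) Q (α i)) ∧ 1 - a Q = ∑ i, t i * (α i : ℝ) := by
      intro Q hQ
      refine ⟨fun i => e (w0 Q) * (1 - bdry (A i) (c i) x h (v (w0 Q))) / e0 Q, fun i =>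
        (hy i).disc Q hQ (w0 Q) (v (w0 Q)) (e0 Q) (e (w0 Q)) (hw0 Q) (hv (w0 Q)), ?_⟩
      rw [ha0, sub_sub_cancel, hβM]
      beta_reduce
      rw [sub_sub_cancel, hβL1, Finset.mul_sum, Finset.sum_div]
      refine Finset.sum_congr rfl fun i _ => ?_
      push_cast
      ring
    have h1 := not_neg' htrK hNM (fun i => (hy i).effective) ht ht1 hB hα hps
    have h2 : ¬ NegB ℂ M n βM := by
      intro h0
      refine h1 (neg_pull hessK htrK (fun Q _ w e' hw => ?_) h0)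
      have h3 := (hab Q w e' hw).1
      have h4 := hepos hw
      have h5 : (1 - βM w) / e' ≤ 1 - a Q := by linarith
      rw [div_le_iff₀ h4] at h5
      linarith
    exact fun h0 => h2 ((fin_all (K := L) (L := M) hessL htr hβM').2.2.2 h0)
  · have h5 : EffF ℂ M n βM := eff_up hessL htr (fun Q hQ w e' hw => (hβM' Q hQ w e' hw).ge) h4
    have h6 : EffF ℂ K n (fun P => if IsPrimeDivisor y P then B P else b P) := by
      refine eff_down hessK htrK (fun Q hQ w e' hw => ?_) h5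
      beta_reduce
      have h4 := hepos hw
      split_ifs with hP
      · rw [hB Q hP]
        have h7 : (e' : ℝ) * (1 - ∑ i, t i * (Δ i Q : ℝ)) = 1 - βM w := by
          rw [← conv_subR ht1 fun i => ((Δ i Q : ℚ) : ℝ), hβM, sub_sub_cancel, hβL1,
            Finset.mul_sum, Finset.mul_sum]
          refine Finset.sum_congr rfl fun i _ => ?_
          have h8 := (hy i).mult Q hP w (v w) e' (e w) hw (hv w)
          have h9 : (e' : ℝ) * (1 - (Δ i Q : ℝ)) =
              e w * (1 - ((bdry (A i) (c i) x h (v w) : ℚ) : ℝ)) := by exact_mod_cast h8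
          linear_combination t i * h9
        rw [h7]
        linarith
      · have h7 := (hab Q w e' hw).2
        have h8 : 1 - b Q ≤ (1 - βM w) / e' := by linarith
        rw [le_div_iff₀ h4] at h8
        linarith
    refine eff_X htrK hNM ?_ (fun P hP => if_pos hP) h6
    refine (Set.finite_iUnion fun i => (hy i).effective.2).subset ?_
    rintro P ⟨hP, hP0⟩
    rw [hB P hP] at hP0
    obtain ⟨i, -, hi⟩ := Finset.exists_ne_zero_of_sum_ne_zero hP0
    refine Set.mem_iUnion.2 ⟨i, hP, fun h0 => hi ?_⟩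
    rw [h0, Rat.cast_zero, mul_zero]

/-- **The polytope of the pseudoeffective boundaries.** -/
theorem polyK {n q p s : ℕ} (hn : 1 ≤ n) {M : Type} [Field M] [Algebra ℂ M] [Algebra K M]
    [Algebra L M] [IsScalarTower ℂ K M] [IsScalarTower ℂ L M] [FiniteDimensional K M]
    [FiniteDimensional L M] {x : Fin (n + q) → L}
    {f : Fin q → (Fin (n + q) → ℤ) →₀ ℂ} {h : Fin p → (Fin (n + q) → ℤ) →₀ ℂ}
    (hx : T2H07.IsGenericPoint n f h x) (hfh : T2H07.Nondegenerate f h x)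
    {A : Fin s → (Fin (n + q) → ℤ) → ℚ} (hA : ∀ i, T2H07.IsWeight (A i)) {c : Fin s → Fin p → ℚ}
    (hc : ∀ i j, 0 ≤ c i j ∧ c i j ≤ 1) (hcell : T2H07.SameCell c) {N : ℕ} {y : Fin (N + 1) → K}
    {Δ : Fin s → Place ℂ K → ℚ}
    (hy : ∀ i, T2H07.IsCommensurable M (bdry (A i) (c i) x h) y n (Δ i)) :
    ∃ V : Finset (Fin s → ℚ), (∀ v ∈ V, (∀ i, 0 ≤ v i) ∧ ∑ i, v i = 1) ∧
      ∀ t : Fin s → ℝ, (∀ i, 0 ≤ t i) → ∑ i, t i = 1 →
        (Pse y n (fun P => ∑ i, t i * (Δ i P : ℝ)) ↔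
          ∃ E, T2H07.EffR y E ∧ T2H07.RLin y n (fun P => ∑ i, t i * (Δ i P : ℝ)) E) ∧
        (Pse y n (fun P => ∑ i, t i * (Δ i P : ℝ)) ↔
          t ∈ convexHull ℝ (rc '' (V : Set (Fin s → ℚ)))) := by
  classical
  rcases Nat.eq_zero_or_pos s with rfl | hs
  · refine ⟨∅, by simp, fun t _ ht1 => ?_⟩
    simp at ht1
  have hNM : NormalModel y := (hy ⟨0, hs⟩).normal
  obtain ⟨F, hF1, hF2⟩ := polyL (A := A) hn hx.2.2.2.2 hx.1 hx.2.2.2.1 hx.2.1 hx.2.2.1 hfh
    (fun i => (⟨(hA i).nonneg, (hA i).le_one, (hA i).denom, (hA i).add, (hA i).smul⟩ :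
      R885.N.IsWeight (A i))) hc
  have hw := fun {t : Fin s → ℝ} (ht : ∀ i, 0 ≤ t i) (ht1 : ∑ i, t i = 1) =>
    two_ways (M := M) hx hc hcell hy ht ht1 (B := fun P => ∑ i, t i * (Δ i P : ℝ))
      fun P _ => rfl
  -- the cycle
  have h1 : ∀ t : Fin s → ℝ, (∀ i, 0 ≤ t i) → ∑ i, t i = 1 →
      Pse y n (fun P => ∑ i, t i * (Δ i P : ℝ)) → EffF ℂ L n (bR A c x h t) :=
    fun t ht ht1 hP => (hF2 t ht ht1).2 ((hF2 t ht ht1).1 ((hw ht ht1).1 hP))
  have h2 : ∀ t : Fin s → ℝ, (∀ i, 0 ≤ t i) → ∑ i, t i = 1 → EffF ℂ L n (bR A c x h t) →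
      Pse y n (fun P => ∑ i, t i * (Δ i P : ℝ)) := by
    intro t ht ht1 hE
    obtain ⟨E, hE1, hE2⟩ := (hw ht ht1).2 hE
    exact pse_of_eff hNM hE1 hE2
  obtain ⟨C, hC⟩ : ∃ C : Set (Fin s → ℝ), C = {t | (∀ i, 0 ≤ t i) ∧ ∑ i, t i = 1 ∧
      EffF ℂ L n (bR A c x h t)} := ⟨_, rfl⟩
  have hCconv : Convex ℝ C := by
    rw [hC]
    rintro t ⟨ht, ht1, hE⟩ t' ⟨ht', ht1', hE'⟩ α α' hα hα' hαα
    have hsum : ∑ i, (α • t + α' • t') i = 1 := by
      simp only [Pi.add_apply, Pi.smul_apply, smul_eq_mul, Finset.sum_add_distrib,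
        ← Finset.mul_sum, ht1, ht1', mul_one, hαα]
    have hnn : ∀ i, 0 ≤ (α • t + α' • t') i := fun i => by
      simp only [Pi.add_apply, Pi.smul_apply, smul_eq_mul]
      exact add_nonneg (mul_nonneg hα (ht i)) (mul_nonneg hα' (ht' i))
    refine ⟨hnn, hsum, ?_⟩
    have h3 := eff_conv hx.2.2.2.2 hE hE' hα hα' hαα
    have h4 : bR A c x h (α • t + α' • t') =
        fun P => α * bR A c x h t P + α' * bR A c x h t' P := by
      funext P
      rw [bR_convex hc hcell hnn hsum, bR_convex hc hcell ht ht1, bR_convex hc hcell ht' ht1',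
        Finset.mul_sum, Finset.mul_sum, ← Finset.sum_add_distrib]
      refine Finset.sum_congr rfl fun i _ => ?_
      simp only [Pi.add_apply, Pi.smul_apply, smul_eq_mul]
      ring
    rw [h4]
    exact h3
  refine ⟨F.biUnion id, fun v hv => ?_, fun t ht ht1 => ⟨⟨fun hP => ?_, ?_⟩, ⟨fun hP => ?_,
    fun ht2 => ?_⟩⟩⟩
  · obtain ⟨V, hV, hv⟩ := Finset.mem_biUnion.1 hv
    exact hF1 V hV v hv
  · exact (hw ht ht1).2 (h1 t ht ht1 hP)
  · rintro ⟨E, hE1, hE2⟩
    exact pse_of_eff hNM hE1 hE2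
  · obtain ⟨V, hV, htV⟩ := (hF2 t ht ht1).1 ((hw ht ht1).1 hP)
    refine convexHull_mono (Set.image_mono fun v hv => ?_) htV
    exact Finset.mem_coe.2 (Finset.mem_biUnion.2 ⟨V, hV, hv⟩)
  · refine h2 t ht ht1 ?_
    have h3 : convexHull ℝ (rc '' ((F.biUnion id : Finset (Fin s → ℚ)) : Set (Fin s → ℚ))) ⊆ C := by
      refine convexHull_min ?_ hCconv
      rintro _ ⟨v, hv, rfl⟩
      obtain ⟨V, hV, hv⟩ := Finset.mem_biUnion.1 (Finset.mem_coe.1 hv)
      obtain ⟨h4, h5⟩ := hF1 V hV v hv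
      have h4' : ∀ i, 0 ≤ rc v i := fun i => by
        unfold rc
        exact_mod_cast h4 i
      have h5' : ∑ i, rc v i = 1 := by
        unfold rc
        exact_mod_cast h5
      rw [hC]
      exact ⟨h4', h5', (hF2 _ h4' h5').2 ⟨V, hV, subset_convexHull ℝ _ ⟨v, hv, rfl⟩⟩⟩
    have h6 := h3 ht2
    rw [hC] at h6
    exact h6.2.2

end

end Pool.Agent.T2H41.RA
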