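import Pool.Agent.R869.WLang

/-!
Systems of forms in toric varieties: relative width.
-/

set_option autoImplicit false

open FF MvPolynomial Pool.Agent.W603.LV Pool.Agent.W603.PV Pool.Agent.W602.GT
open Pool.Agent.R869.Wd

namespace Pool.Agent.T2H41.TW

variable {n : ℕ} {ι : Type}

/-- The system of sets of exponent vectors `T e` is `N`-wide relative to its sets with at most two
elements, and to the set `U` of variables. Let `I` be a set of variables that contains `U`, and
consider at most `n` pairs `α l`, `β l` of elements of the same sets `T e`, in the variables of `I`. If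
the sum of the segments from `α l` to `β l` has positive width in all directions `u` (the integer
vectors that are not constant on `I`), then its width is at least `N` in all directions `u` that are
minimal on `U` and for which the segments in the sets `T e` with at most two elements have width
`0`. -/
def WideRel (U : Set (Fin (n + 1))) (T : ι → Finset (Fin (n + 1) →₀ ℕ)) (N : ℕ) : Prop :=
  ∀ (I : Set (Fin (n + 1))) (r : ℕ) (e : Fin r → ι) (α β : Fin r → (Fin (n + 1) →₀ ℕ)),
    U ⊆ I → r ≤ n →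
    (∀ l, α l ∈ T (e l) ∧ β l ∈ T (e l) ∧ ∀ j, j ∉ I → α l j = 0 ∧ β l j = 0) →
    (∀ u : Fin (n + 1) → ℤ, (∃ i ∈ I, ∃ j ∈ I, u i ≠ u j) →
      0 < ∑ l, |wgt u (α l) - wgt u (β l)|) →
    ∀ u : Fin (n + 1) → ℤ, (∃ i ∈ I, ∃ j ∈ I, u i ≠ u j) → (∀ i ∈ U, ∀ j ∈ I, u i ≤ u j) →
      (∀ l, (T (e l)).card ≤ 2 → wgt u (α l) = wgt u (β l)) →
      (N : ℤ) ≤ ∑ l, |wgt u (α l) - wgt u (β l)|

section pw

variable {k : Type} [Field k]

open Classical in
/-- the forms with index in `B` are replaced by the sums of the powers of their terms -/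
noncomputable def pw (B : Set ι) (M : ℕ) (F : ι → MvPolynomial (Fin (n + 1)) k) (e : ι) :
    MvPolynomial (Fin (n + 1)) k :=
  if e ∈ B then ∑ α ∈ (F e).support, monomial (M • α) ((F e).coeff α ^ M) else F e

open Classical in
/-- the exponents of `pw` -/
noncomputable def pwT (B : Set ι) (M : ℕ) (T : ι → Finset (Fin (n + 1) →₀ ℕ)) (e : ι) :
    Finset (Fin (n + 1) →₀ ℕ) :=
  if e ∈ B then (T e).image (fun α => M • α) else T e

variable {B : Set ι} {M : ℕ} {F : ι → MvPolynomial (Fin (n + 1)) k}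

theorem pw_of {e : ι} (he : e ∈ B) :
    pw B M F e = ∑ α ∈ (F e).support, monomial (M • α) ((F e).coeff α ^ M) := by
  unfold pw
  rw [if_pos he]

theorem pw_not {e : ι} (he : e ∉ B) : pw B M F e = F e := by
  unfold pw
  rw [if_neg he]

theorem smul_inj (hM : 1 ≤ M) : Function.Injective fun α : Fin (n + 1) →₀ ℕ => M • α := by
  intro α β h
  ext j
  have h1 := DFunLike.congr_fun h j
  simp only [Finsupp.smul_apply, smul_eq_mul] at h1
  exact Nat.eq_of_mul_eq_mul_left hM h1

theorem pw_coeff (hM : 1 ≤ M) {e : ι} (he : e ∈ B) (α : Fin (n + 1) →₀ ℕ) :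
    (pw B M F e).coeff (M • α) = (F e).coeff α ^ M := by
  classical
  rw [pw_of he, coeff_sum]
  simp only [coeff_monomial]
  by_cases hα : α ∈ (F e).support
  · rw [Finset.sum_eq_single_of_mem α hα fun β _ hβ => if_neg fun h => hβ (smul_inj hM h),
      if_pos rfl]
  · have h1 : ∀ β ∈ (F e).support, (if M • β = M • α then (F e).coeff β ^ M else 0) = 0 := by
      intro β hβ
      refine if_neg fun h => hα ?_
      have h2 : β = α := smul_inj hM h
      rwa [h2] at hβ
    rw [Finset.sum_eq_zero h1, notMem_support_iff.1 hα, zero_pow (by omega)]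

theorem pw_support [DecidableEq (Fin (n + 1) →₀ ℕ)] (hM : 1 ≤ M) {e : ι} (he : e ∈ B) :
    (pw B M F e).support = (F e).support.image fun α => M • α := by
  ext γ
  rw [Finset.mem_image]
  constructor
  · intro hγ
    rw [mem_support_iff, pw_of he, coeff_sum] at hγ
    obtain ⟨α, hα, h⟩ := Finset.exists_ne_zero_of_sum_ne_zero hγ
    rw [coeff_monomial] at h
    refine ⟨α, hα, ?_⟩
    by_contra hne
    rw [if_neg hne] at h
    exact h rfl
  · rintro ⟨α, hα, rfl⟩
    rw [mem_support_iff, pw_coeff hM he]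
    exact pow_ne_zero _ (mem_support_iff.1 hα)

theorem pw_sub {T : ι → Finset (Fin (n + 1) →₀ ℕ)} (hM : 1 ≤ M)
    (hT : ∀ e, (F e).support ⊆ T e) (e : ι) : (pw B M F e).support ⊆ pwT B M T e := by
  classical
  by_cases he : e ∈ B
  · rw [pw_support hM he, pwT, if_pos he]
    exact Finset.image_subset_image (hT e)
  · rw [pw_not he, pwT, if_neg he]
    exact hT e

theorem pwT_card {T : ι → Finset (Fin (n + 1) →₀ ℕ)} (e : ι) :
    (pwT B M T e).card ≤ (T e).card := by
  classical
  unfold pwT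
  split_ifs
  · exact Finset.card_image_le
  · exact le_rfl

theorem pw_form (hF : ∀ e, IsForm (F e)) (e : ι) : IsForm (pw B M F e) := by
  by_cases he : e ∈ B
  · obtain ⟨d, hd⟩ := hF e
    refine ⟨M * d, ?_⟩
    rw [pw_of he]
    refine IsHomogeneous.sum _ _ _ fun α hα => isHomogeneous_monomial _ ?_
    have h1 := sum_exp hd hα
    rw [← h1, Finsupp.degree_eq_sum, Finset.mul_sum]
    exact Finset.sum_congr rfl fun j _ => rfl
  · rw [pw_not he]
    exact hF e

/-- a sum of at most two terms -/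
theorem two_sum {K A : Type} [Field K] (S : Finset A) (hS : S.card ≤ 2) (t : A → K)
    (h : ∑ α ∈ S, t α = 0) (hM : Odd M) : ∑ α ∈ S, t α ^ M = 0 := by
  classical
  have hM0 : M ≠ 0 := hM.pos.ne'
  have h3 : S.card = 0 ∨ S.card = 1 ∨ S.card = 2 := by omega
  rcases h3 with h3 | h3 | h3
  · rw [Finset.card_eq_zero.1 h3, Finset.sum_empty]
  · obtain ⟨a, rfl⟩ := Finset.card_eq_one.1 h3
    rw [Finset.sum_singleton] at h ⊢
    rw [h, zero_pow hM0]
  · obtain ⟨a, b, hab, rfl⟩ := Finset.card_eq_two.1 h3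
    rw [Finset.sum_pair hab] at h ⊢
    have h1 : t a = - t b := eq_neg_of_add_eq_zero_left h
    rw [h1, hM.neg_pow, neg_add_cancel]

/-- the parts of a sum of at most two terms -/
theorem two_part {K A : Type} [Field K] (S S' : Finset A) (hS : S.card ≤ 2) (t : A → K)
    (h : ∑ α ∈ S, t α = 0) (hS' : S' ⊆ S) (hM : M ≠ 0) (h' : ∑ α ∈ S', t α ^ M = 0) :
    ∑ α ∈ S', t α = 0 := by
  classical
  have h2 := Finset.card_le_card hS'
  have h3 : S'.card = 0 ∨ S'.card = 1 ∨ S'.card = 2 := by omega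
  rcases h3 with h3 | h3 | h3
  · rw [Finset.card_eq_zero.1 h3, Finset.sum_empty]
  · obtain ⟨a, rfl⟩ := Finset.card_eq_one.1 h3
    rw [Finset.sum_singleton] at h' ⊢
    exact (pow_eq_zero_iff hM).1 h'
  · rw [Finset.eq_of_subset_of_card_le hS' (by omega)]
    exact h

variable {K : Type} [Field K] [Algebra k K]

theorem val_pw (hM : 1 ≤ M) {e : ι} (he : e ∈ B) (y : Fin (n + 1) → K) :
    val y (pw B M F e) =
      ∑ α ∈ (F e).support, (algebraMap k K ((F e).coeff α) * ∏ j, y j ^ α j) ^ M := by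
  classical
  rw [val_eq_sum, pw_support hM he, Finset.sum_image fun a _ b _ h => smul_inj hM h]
  refine Finset.sum_congr rfl fun α _ => ?_
  rw [pw_coeff hM he, map_pow, mul_pow, ← Finset.prod_pow]
  congr 1
  refine Finset.prod_congr rfl fun j _ => ?_
  rw [Finsupp.smul_apply, smul_eq_mul, mul_comm, pow_mul]

theorem val_wc_pw (hM : 1 ≤ M) {e : ι} (he : e ∈ B) (y : Fin (n + 1) → K)
    (b : Fin (n + 1) → ℤ) (v : ℤ) :
    val y (wc b (M * v) (pw B M F e)) =
      ∑ α ∈ (F e).support with ∑ j, (α j : ℤ) * b j = v,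
        (algebraMap k K ((F e).coeff α) * ∏ j, y j ^ α j) ^ M := by
  classical
  rw [val_wc, pw_support hM he, Finset.sum_filter, Finset.sum_image fun a _ b _ h => smul_inj hM h,
    Finset.sum_filter]
  refine Finset.sum_congr rfl fun α _ => ?_
  have h1 : ∑ j, (((M • α : Fin (n + 1) →₀ ℕ) j : ℕ) : ℤ) * b j = M * ∑ j, (α j : ℤ) * b j := by
    rw [Finset.mul_sum]
    refine Finset.sum_congr rfl fun j _ => ?_
    rw [Finsupp.smul_apply, smul_eq_mul]
    push_cast
    ring
  have hMz : (M : ℤ) ≠ 0 := by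
    have : M ≠ 0 := by omega
    exact_mod_cast this
  rw [h1]
  by_cases h2 : ∑ j, (α j : ℤ) * b j = v
  · rw [if_pos (by rw [h2]), if_pos h2, pw_coeff hM he, map_pow, mul_pow, ← Finset.prod_pow]
    congr 1
    refine Finset.prod_congr rfl fun j _ => ?_
    rw [Finsupp.smul_apply, smul_eq_mul, mul_comm, pow_mul]
  · rw [if_neg fun h => h2 (mul_left_cancel₀ hMz h), if_neg h2]

/-- the points -/
theorem pw_mem (hM : Odd M) (hB : ∀ e ∈ B, (F e).support.card ≤ 2) {y : Fin (n + 1) → K}
    (hy : ∀ e, val y (F e) = 0) (e : ι) : val y (pw B M F e) = 0 := by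
  by_cases he : e ∈ B
  · rw [val_pw hM.pos he]
    refine two_sum _ (hB e he) _ ?_ hM
    rw [← val_eq_sum]
    exact hy e
  · rw [pw_not he]
    exact hy e

/-- the parts -/
theorem parts (hM : 1 ≤ M) (hB : ∀ e ∈ B, (F e).support.card ≤ 2) {y : Fin (n + 1) → K}
    {b : Fin (n + 1) → ℤ} {e : ι} (hy : val y (F e) = 0)
    (h : ∀ v, val y (wc b v (pw B M F e)) = 0) (v : ℤ) : val y (wc b v (F e)) = 0 := by
  classical
  by_cases he : e ∈ B
  · have h1 := h (M * v)
    rw [val_wc_pw hM he] at h1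
    rw [val_wc]
    refine two_part (F e).support _ (hB e he) _ ?_ (Finset.filter_subset _ _) (by omega) h1
    rw [← val_eq_sum]
    exact hy
  · have h1 := h v
    rwa [pw_not he] at h1

/-- **Reduction to wide systems.** -/
theorem wideT_pw {U : Set (Fin (n + 1))} {T : ι → Finset (Fin (n + 1) →₀ ℕ)} {N : ℕ}
    (hT : WideRel U T N) (hM : 1 ≤ M) (hMN : N ≤ M) :
    WideT U (pwT {e | (T e).card ≤ 2} M T) N := by
  classical
  intro I r e α β hI hr hmem hp u hu hu2
  have hs : ∀ l, ∃ c : ℤ, 1 ≤ c ∧ ((T (e l)).card ≤ 2 → c = M) ∧ ∃ α' ∈ T (e l), ∃ β' ∈ T (e l),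
      (∀ j, j ∉ I → α' j = 0 ∧ β' j = 0) ∧ ∀ u : Fin (n + 1) → ℤ,
        |wgt u (α l) - wgt u (β l)| = c * |wgt u α' - wgt u β'| := by
    intro l
    obtain ⟨h1, h2, h3⟩ := hmem l
    by_cases he : (T (e l)).card ≤ 2
    · have he' : e l ∈ {e | (T e).card ≤ 2} := he
      unfold pwT at h1 h2
      rw [if_pos he'] at h1 h2
      obtain ⟨α', hα', h4⟩ := Finset.mem_image.1 h1
      obtain ⟨β', hβ', h5⟩ := Finset.mem_image.1 h2
      refine ⟨M, by exact_mod_cast hM, fun _ => rfl, α', hα', β', hβ', fun j hj => ?_, fun u => ?_⟩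
      · have h6 := h3 j hj
        rw [← h4, ← h5] at h6
        simp only [Finsupp.smul_apply, smul_eq_mul, mul_eq_zero] at h6
        exact ⟨h6.1.resolve_left (by omega), h6.2.resolve_left (by omega)⟩
      · have hw : ∀ γ : Fin (n + 1) →₀ ℕ, wgt u (M • γ) = M * wgt u γ := by
          intro γ
          unfold wgt
          rw [Finset.mul_sum]
          refine Finset.sum_congr rfl fun j _ => ?_
          rw [Finsupp.smul_apply, smul_eq_mul]
          push_cast
          ring
        rw [← h4, ← h5, hw, hw, ← mul_sub, abs_mul, Nat.abs_cast]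
    · have he' : e l ∉ {e | (T e).card ≤ 2} := he
      unfold pwT at h1 h2
      rw [if_neg he'] at h1 h2
      exact ⟨1, le_rfl, fun h => absurd h he, α l, h1, β l, h2, h3, fun u => by rw [one_mul]⟩
  choose c hc1 hcM α' hα' β' hβ' h0 hw using hs
  have hp' : ∀ u : Fin (n + 1) → ℤ, (∃ i ∈ I, ∃ j ∈ I, u i ≠ u j) →
      0 < ∑ l, |wgt u (α' l) - wgt u (β' l)| := by
    intro u hu
    by_contra hcon
    have h1 : ∑ l, |wgt u (α' l) - wgt u (β' l)| = 0 :=
      le_antisymm (not_lt.1 hcon) (Finset.sum_nonneg fun _ _ => abs_nonneg _)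
    have h2 := (Finset.sum_eq_zero_iff_of_nonneg fun _ _ => abs_nonneg _).1 h1
    have h3 := hp u hu
    rw [Finset.sum_eq_zero fun l hl => by rw [hw, h2 l hl, mul_zero]] at h3
    exact lt_irrefl _ h3
  by_cases hfl : ∀ l, (T (e l)).card ≤ 2 → wgt u (α' l) = wgt u (β' l)
  · have h1 := hT I r e α' β' hI hr (fun l => ⟨hα' l, hβ' l, h0 l⟩) hp' u hu hu2 hfl
    refine h1.trans (Finset.sum_le_sum fun l _ => ?_)
    rw [hw]
    exact le_mul_of_one_le_left (abs_nonneg _) (hc1 l)
  · push Not at hfl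
    obtain ⟨l, hl, hne⟩ := hfl
    refine le_trans ?_ (Finset.single_le_sum (f := fun l => |wgt u (α l) - wgt u (β l)|)
      (fun _ _ => abs_nonneg _) (Finset.mem_univ l))
    change _ ≤ |wgt u (α l) - wgt u (β l)|
    rw [hw, hcM l hl]
    have h1 : (1 : ℤ) ≤ |wgt u (α' l) - wgt u (β' l)| := Int.one_le_abs (sub_ne_zero.2 hne)
    have h2 : (N : ℤ) ≤ M := by exact_mod_cast hMN
    have h3 : (0 : ℤ) ≤ M := by positivity
    nlinarith

end pw

end Pool.Agent.T2H41.TW
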