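import Pool.Agent.T2H41.TA

/-!
Systems of forms in toric varieties which are wide relative to the forms with two monomials: entire
curves, punctured curves, subvarieties.
-/

set_option autoImplicit false

open FF IntermediateField MvPolynomial Filter Metric Topology Pool.Agent.H159R3.GGLLog
  Pool.Agent.W602.GT Pool.Agent.W603.BP Pool.Agent.R869 Pool.Agent.R869.Wd
open Pool.Agent.W603.LV Pool.Agent.W603.PV Pool.Agent.H159R3.NV Pool.Agent.TH152.HY
open Pool.Agent.W603.CX (AlgHyperbolic BoundedOnCurves OrbitsConstant IsMap HasOrbit)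
open Pool.Agent.Y190.PH (Brody)

namespace Pool.Agent.T2H41.TW

/-- the assumption on the system -/
structure SysT {k : Type} [Field k] {n : ℕ} {ι : Type} (U : Set (Fin (n + 1)))
    (T : ι → Finset (Fin (n + 1) →₀ ℕ)) (F : ι → MvPolynomial (Fin (n + 1)) k) (s N : ℕ) :
    Prop where
  form : ∀ e, IsForm (F e)
  pos : 1 ≤ s
  sub : ∀ e, (F e).support ⊆ T e
  card : ∀ e, (T e).card ≤ s
  wide : WideRel U T N
  num : s * (n * Pool.Agent.R869.tri (s - 1)) < N

section

variable {k : Type} [Field k] {n : ℕ} {ι : Type} {U : Set (Fin (n + 1))}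
  {T : ι → Finset (Fin (n + 1) →₀ ℕ)} {F : ι → MvPolynomial (Fin (n + 1)) k} {s N : ℕ}

/-- the indices of the sets with at most two elements -/
def Bn (T : ι → Finset (Fin (n + 1) →₀ ℕ)) : Set ι := {e | (T e).card ≤ 2}

theorem SysT.sys (hC : SysT U T F s N) : Sys U (pw (Bn T) (2 * N + 1) F) s N := by
  have hM : 1 ≤ 2 * N + 1 := by omega
  refine ⟨pw_form hC.form, hC.pos, fun e => ?_, ?_, hC.num⟩
  · exact ((Finset.card_le_card (pw_sub hM hC.sub e)).trans (pwT_card e)).trans (hC.card e)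
  · exact wide_of_wideT (wideT_pw hC.wide hM (by omega)) (pw_sub hM hC.sub)

theorem SysT.odd (_hC : SysT U T F s N) : Odd (2 * N + 1) := ⟨N, rfl⟩

theorem SysT.two (hC : SysT U T F s N) : ∀ e ∈ Bn T, (F e).support.card ≤ 2 := fun e he =>
  (Finset.card_le_card (hC.sub e)).trans he

theorem SysT.mem (hC : SysT U T F s N) {K : Type} [Field K] [Algebra k K]
    {y : Fin (n + 1) → K} (hy : ∀ e, val y (F e) = 0) (e : ι) :
    val y (pw (Bn T) (2 * N + 1) F e) = 0 := pw_mem hC.odd hC.two hy e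

theorem SysT.part (hC : SysT U T F s N) {K : Type} [Field K] [Algebra k K]
    {y : Fin (n + 1) → K} {b : Fin (n + 1) → ℤ} {e : ι} (hy : val y (F e) = 0)
    (h : ∀ v, val y (wc b v (pw (Bn T) (2 * N + 1) F e)) = 0) (v : ℤ) :
    val y (wc b v (F e)) = 0 := parts hC.odd.pos hC.two hy h v

variable [CharZero k] [IsAlgClosed k]

/-- **Subvarieties which are not of log general type are preserved by one-parameter groups.** -/
theorem weightsT (hC : SysT U T F s N) {K : Type} [Field K] [Algebra k K] {w : ℕ} (hw : 0 < w)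
    {y : Fin (n + 1) → K} (hy : SubVarU U F K w y) (hgt : ¬ LogGeneralType k K w (OffU U y)) :
    ∃ (b : Fin (n + 1) → ℤ) (i i' : Fin (n + 1)), y i ≠ 0 ∧ y i' ≠ 0 ∧ b i ≠ b i' ∧
      ∀ e v, val y (wc b v (F e)) = 0 := by
  have hgen : Algebra.IsAlgebraic (coords k y) K := by
    rw [hy.gen]
    infer_instance
  have hC' := hC.sys
  obtain ⟨b, i, i', hi, hi', hb, hwc⟩ := weights hC'.form hC'.pos hC'.card hC'.wide hC'.num hw
    hy.dim hy.ne hgen (hC.mem hy.mem) hy.unit hgt
  exact ⟨b, i, i', hi, hi', hb, fun e v => hC.part (hy.mem e) (hwc e) v⟩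

/-- **Subvarieties which are not of log general type are covered by orbits.** -/
theorem closureT (hC : SysT U T F s N)
    {K : Type} [Field K] [Algebra k K] {w : ℕ} (hw : 0 < w) {y : Fin (n + 1) → K}
    (hy : SubVarU U F K w y) (hgt : ¬ LogGeneralType k K w (OffU U y))
    {G : MvPolynomial (Fin (n + 1)) k} (hG : val y G ≠ 0) :
    ∃ x b, DiagCurve U F x b ∧ val x G ≠ 0 := by
  obtain ⟨b, i, i', hi, hi', hb, hwc⟩ := weightsT hC hw hy hgt
  obtain ⟨x, h1, h2, -⟩ := orbit_of_parts hy.unit hi hi' hb hwc hG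
  exact ⟨x, b, h1, h2⟩

end

section cplx

variable {n : ℕ} {ι : Type} {U : Set (Fin (n + 1))}
  {T : ι → Finset (Fin (n + 1) →₀ ℕ)} {F : ι → MvPolynomial (Fin (n + 1)) ℂ} {s N : ℕ}

theorem SysT.pcurve_up (hC : SysT U T F s N) {f : ℂ → Fin (n + 1) → ℂ} (hf : PCurve U F f) :
    PCurve U (pw (Bn T) (2 * N + 1) F) f := by
  refine ⟨hf.1, fun z hz => ?_⟩
  obtain ⟨h1, h2, h3⟩ := hf.2 z hz
  refine ⟨h1, h2, fun e => ?_⟩
  rw [← val_eval]
  exact hC.mem (fun e => by rw [val_eval]; exact h3 e) e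

/-- A holomorphic map from the punctured disc with an essential singularity yields a one-parameter
group. -/
theorem pcurveT (hC : SysT U T F s N)
    (f : ℂ → Fin (n + 1) → ℂ) (hf : PCurve U F f) (hE : ¬ Extends f) :
    ∃ (b : Fin (n + 1) → ℤ) (j k : Fin (n + 1)), Nz (fun w => f w j) ∧ Nz (fun w => f w k) ∧
      b j ≠ b k ∧ ∀ i (v : ℤ), ∀ z ∈ PB 1, eval (f z) (Pool.Agent.H159R3.GGLLog.sub (F i)
        ((F i).support.filter (fun α => ∑ j, (α j : ℤ) * b j = v))) = 0 := by
  obtain ⟨b, j, k, hj, hk, hb, h⟩ := pcurve hC.sys f (hC.pcurve_up hf) hE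
  refine ⟨b, j, k, hj, hk, hb, fun e v z hz => ?_⟩
  rw [← wc_eq]
  refine hC.part ?_ (fun v => ?_) v
  · rw [val_eval]
    exact (hf.2 z (mem_disc.mpr hz)).2.2 e
  · rw [wc_eq]
    exact h e v z hz

/-- if all one-parameter groups that preserve `X` act trivially then `X` is pseudo-Picard
hyperbolic -/
theorem picard_of_trivialT [Finite ι] (hC : SysT U T F s N) (hirr : Irred U F)
    (h : ∀ b : Fin (n + 1) → ℤ, Preserves U b F → ActsTrivially U b F) : PseudoPicard U F := by
  classical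
  have := Fintype.ofFinite ι
  refine ⟨exc U F, exc_hom U F hC.form, exc_ne U F hirr, ?_⟩
  rintro f hf ⟨z1, hz1, hG⟩
  by_contra hE
  obtain ⟨b, j, k, hj, hk, hbjk, hs⟩ := pcurveT hC f hf hE
  have hz1' : z1 ∈ PB 1 := mem_disc.mp hz1
  have hpres : Preserves U b F := by
    intro x hx t ht
    apply orbit_mem hx _ ht
    intro i v
    exact exc_sub U F (f z1) hG i _ (Finset.filter_subset _ _) (hs i v z1 hz1') x hx
  obtain ⟨z, hz, hgood⟩ := good_point (fun a : Fin 2 => fun w => f w (if a = 0 then j else k))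
    (fun a => hf.an _) (by
      intro a
      fin_cases a
      · exact hj
      · exact hk)
  have h0 : f z j ≠ 0 := hgood 0
  have h1 : f z k ≠ 0 := hgood 1
  obtain ⟨c, hc⟩ := h b hpres (f z) (hf.2 z (mem_disc.mpr hz)) 2 two_ne_zero
  have h2 : ∀ l, f z l ≠ 0 → (2 : ℂ) ^ b l = c := by
    intro l hl
    have h3 := congrFun hc l
    simp only [Pi.smul_apply, smul_eq_mul] at h3
    rw [mul_comm] at h3
    exact mul_right_cancel₀ hl h3
  exact hbjk (two_pow_inj ((h2 j h0).trans (h2 k h1).symm))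

/-- a torus curve through a point of an essential punctured curve -/
theorem torusCurve_of_pT (hC : SysT U T F s N)
    (f : ℂ → Fin (n + 1) → ℂ) (hf : PCurve U F f) (hE : ¬ Extends f)
    (G : MvPolynomial (Fin (n + 1)) ℂ) (z1 : ℂ) (hz1 : z1 ∈ ball (0 : ℂ) 1 \ {0})
    (hG : eval (f z1) G ≠ 0) : ∃ v, TorusCurve U F v ∧ eval (v 1) G ≠ 0 := by
  obtain ⟨b, j, k, hj, hk, hbjk, hs⟩ := pcurveT hC f hf hE
  have hGn : Nz (fun w => eval (f w) G) := nz_of_on (eval_an hf.an G) (mem_disc.mp hz1) hG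
  obtain ⟨z0, hz0, hgood⟩ := good_point
    (fun a : Fin 3 => fun w => if a = 0 then f w j else if a = 1 then f w k else eval (f w) G)
    (by
      intro a
      fin_cases a
      · exact hf.an j
      · exact hf.an k
      · exact eval_an hf.an G)
    (by
      intro a
      fin_cases a
      · exact hj
      · exact hk
      · exact hGn)
  have h0 : f z0 j ≠ 0 := hgood 0
  have h1 : f z0 k ≠ 0 := hgood 1
  have h2 : eval (f z0) G ≠ 0 := hgood 2
  have hX : f z0 ∈ Pts U F := hf.2 z0 (mem_disc.mpr hz0)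
  refine ⟨fun t j => f z0 j * t ^ b j,
    ⟨fun j => (Pool.Agent.H159R3.Exp.Laur.const _).mul (Pool.Agent.H159R3.Exp.Laur.zpow _), ?_, ?_⟩, ?_⟩
  · intro t ht
    exact orbit_mem hX (fun i v => hs i v z0 hz0) ht
  · refine ⟨2, 1, two_ne_zero, one_ne_zero, fun c hc => ?_⟩
    have h3 : ∀ l, f z0 l ≠ 0 → (2 : ℂ) ^ b l = c := by
      intro l hl
      have h4 := congrFun hc l
      simp only [Pi.smul_apply, smul_eq_mul, one_zpow, mul_one] at h4
      rw [mul_comm] at h4
      exact mul_right_cancel₀ hl h4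
    exact hbjk (two_pow_inj ((h3 j h0).trans (h3 k h1).symm))
  · simpa using h2

/-- the closures of the essential punctured curves, of the entire curves, and of the algebraic tori
coincide -/
theorem special_picardT (hC : SysT U T F s N) : SpP U F = SpH U F ∧ SpH U F = SpT U F := by
  have h1 : ∀ x, x ∈ SpT U F → x ∈ SpH U F := by
    rintro x ⟨hx, h⟩
    refine ⟨hx, fun G hG hf => h G hG fun v hv t ht => ?_⟩
    have := hf _ hv.entire (Complex.log t)
    simpa only [Complex.exp_log ht] using this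
  have h2 : ∀ x, x ∈ SpH U F → x ∈ SpP U F := by
    rintro x ⟨hx, h⟩
    refine ⟨hx, fun G hG hf => h G hG fun f hfc z => ?_⟩
    obtain ⟨h3, h4⟩ := sin_curve hfc
    obtain ⟨w, hw, hwz⟩ := sin_point z
    have := hf _ h3 h4 w hw
    rwa [hwz] at this
  have h3 : ∀ x, x ∈ SpP U F → x ∈ SpT U F := by
    rintro x ⟨hx, h⟩
    refine ⟨hx, fun G hG hv => h G hG fun f hf hE z hz => ?_⟩
    by_contra hz2
    obtain ⟨v, hv', hv1⟩ := torusCurve_of_pT hC f hf hE G z hz hz2
    exact hv1 (hv v hv' 1 one_ne_zero)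
  exact ⟨Set.Subset.antisymm (fun x hx => h1 x (h3 x hx)) h2,
    Set.Subset.antisymm (fun x hx => h3 x (h2 x hx)) h1⟩

/-- The algebraic special set is the closure of the images of the multiplicative group. -/
theorem spAlg_eqT (hC : SysT U T F s N) : SpAlgU U F = SpT U F := by
  ext x
  constructor
  · rintro ⟨hx, h⟩
    rw [cone_eq] at hx
    refine ⟨hx, fun G hG hT => ?_⟩
    rw [← val_eval]
    refine h G hG ?_
    intro K _ _ w y hw hy hgt
    by_contra hne
    obtain ⟨x0, b, hd, hx0⟩ := closureT hC hw hy hgt hne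
    apply hx0
    have h1 := hT _ (torus_of_diag hd) 1 one_ne_zero
    rw [val_eval]
    simpa using h1
  · rintro ⟨hx, h⟩
    refine ⟨by rw [cone_eq]; exact hx, fun G hG hA => ?_⟩
    rw [val_eval]
    refine h G hG ?_
    intro v hv t ht
    by_contra hne
    have he := hv.entire
    have ht1 : MvPolynomial.eval (v (Complex.exp (Complex.log t))) G ≠ 0 := by
      rw [Complex.exp_log ht]
      exact hne
    -- the punctured curve
    obtain ⟨hp1, hp2⟩ := sin_curve he
    obtain ⟨w, hw, hwz⟩ := sin_point (Complex.log t)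
    obtain ⟨b, j, l, hj, hl, hbjl, hs⟩ := pcurveT hC _ hp1 hp2
    have hGn : Nz (fun w => eval (v (Complex.exp (Complex.sin w⁻¹))) G) :=
      nz_of_on (eval_an hp1.an G) (mem_disc.mp hw) (by rw [hwz]; exact ht1)
    obtain ⟨z0, hz0, hgood⟩ := good_point
      (fun a : Fin 3 => fun w => if a = 0 then v (Complex.exp (Complex.sin w⁻¹)) j
        else if a = 1 then v (Complex.exp (Complex.sin w⁻¹)) l
        else eval (v (Complex.exp (Complex.sin w⁻¹))) G)
      (by
        intro a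
        fin_cases a
        · exact hp1.an j
        · exact hp1.an l
        · exact eval_an hp1.an G)
      (by
        intro a
        fin_cases a
        · exact hj
        · exact hl
        · exact hGn)
    set x0 := v (Complex.exp (Complex.sin z0⁻¹)) with hx0
    have h0 : x0 j ≠ 0 := hgood 0
    have h1 : x0 l ≠ 0 := hgood 1
    have hG0 : eval x0 G ≠ 0 := hgood 2
    have hx0P : x0 ∈ Pts U F := hp1.2 z0 (mem_disc.mpr hz0)
    have hd : DiagCurve U F x0 b := diag_of_wc hx0P.2.1 (fun e w => by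
      rw [wc_eq]
      exact hs e w z0 hz0) ⟨j, l, h0, h1, hbjl⟩
    obtain ⟨K, _, _, y, hy, hgt, htr⟩ := orbit_subvar hC.form hd
    have h1 := hA K 1 y le_rfl hy hgt
    have h2 := htr G hG h1
    rw [val_eval] at h2
    exact hG0 h2

/-- **The generalised Green-Griffiths-Lang conjecture.** -/
theorem fiveT (hC : SysT U T F s N) :
    (SpAlgU U F = SpH U F ∧ SpP U F = SpH U F ∧ SpT U F = SpH U F) ∧
    (Finite ι → ∀ (K : Type) [Field K] [Algebra ℂ K] (w : ℕ) (y : Fin (n + 1) → K), 1 ≤ w →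
      SubVarU U F K w y → GenericU U F y → Irred U F →
      [LogGeneralType ℂ K w (OffU U y), SpAlgU U F ≠ Pts U F, SpP U F ≠ Pts U F,
        SpH U F ≠ Pts U F, SpT U F ≠ Pts U F].TFAE) := by
  have h1 := special_picardT hC
  have h2 := spAlg_eqT hC
  have e1 : SpAlgU U F = SpH U F := by rw [h2, h1.2]
  have e2 : SpP U F = SpH U F := h1.1
  have e3 : SpT U F = SpH U F := h1.2.symm
  refine ⟨⟨e1, e2, e3⟩, ?_⟩
  intro hfin K _ _ w y hw hy hgen hirr
  have h4 : LogGeneralType ℂ K w (OffU U y) ↔ SpH U F ≠ Pts U F := by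
    constructor
    · intro hgt
      rw [← Pool.Agent.W602.GT.brody_iff]
      refine brody_of_picard U F (picard_of_trivialT hC hirr fun b hb => ?_)
      by_contra hnt
      exact not_gt_of_action hy hgen hb hnt hgt
    · intro hne
      by_contra hgt
      apply hne
      rw [← e1]
      apply Set.Subset.antisymm
      · intro x hx
        rw [← cone_eq]
        exact hx.1
      · intro x hx
        rw [← cone_eq] at hx
        refine ⟨hx, fun G hG hA => ?_⟩
        exact hgen G hG (hA K w y hw hy hgt) x hx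
  rw [e1, e2, e3]
  tfae_have 1 ↔ 4 := h4
  tfae_have 2 ↔ 4 := Iff.rfl
  tfae_have 3 ↔ 4 := Iff.rfl
  tfae_have 5 ↔ 4 := Iff.rfl
  tfae_finish

end cplx

section proj

variable {k : Type} [Field k] [CharZero k] [IsAlgClosed k] {n : ℕ} {ι : Type}
  {T : ι → Finset (Fin (n + 1) →₀ ℕ)} {F : ι → MvPolynomial (Fin (n + 1)) k} {s N : ℕ}

theorem special_orbT (hC : SysT ∅ T F s N) : SpAlg F = SpOrb F ∧ SpGm F = SpOrb F := by
  have h1 : SpOrb F ⊆ SpGm F := by
    rintro x ⟨hx, h⟩
    refine ⟨hx, fun G hG hP => h G hG fun x' b hd => ?_⟩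
    obtain ⟨P, hP1, hP2⟩ := gm_of_diag hC.form hd
    have := hP P hP1 1 one_ne_zero
    rwa [hP2] at this
  have h2 : SpGm F ⊆ SpAlg F := gm_sub_alg hC.form
  have h3 : SpAlg F ⊆ SpOrb F := by
    rintro x ⟨hx, h⟩
    refine ⟨hx, fun G hG hd => h G hG ?_⟩
    intro K _ _ w y hw hy hgt
    by_contra hne
    obtain ⟨x', b, hdc, hx'⟩ := closureT hC hw (subVar_iff.2 hy)
      (fun h => hgt ((general_iff y).1 h)) hne
    exact hx' (hd x' b hdc)
  exact ⟨Set.Subset.antisymm h3 (h1.trans h2), Set.Subset.antisymm (h2.trans h3) h1⟩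

theorem weights_of_not_gtT (hC : SysT ∅ T F s N) {K : Type} [Field K] [Algebra k K] {w : ℕ}
    (hw : 1 ≤ w) {y : Fin (n + 1) → K} (hy : SubVar F K w y) (hgt : ¬ GeneralType k K w) :
    ∃ (b : Fin (n + 1) → ℤ) (i i' : Fin (n + 1)), y i ≠ 0 ∧ y i' ≠ 0 ∧ b i ≠ b i' ∧
      ∀ e v, val y (wc b v (F e)) = 0 :=
  weightsT hC hw (subVar_iff.2 hy) fun h => hgt ((general_iff y).1 h)

/-- Lang's criterion -/
theorem gm_iffT (hC : SysT ∅ T F s N) :
    [AllGeneralType F, ∀ P, ¬ GmCurve F P, OrbitsConstant F].TFAE := by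
  tfae_have 1 → 2 := by
    intro h P hP
    obtain ⟨K, _, _, y, hy, hgt⟩ := sub_of_gm hC.form hP
    exact hgt (h K 1 y le_rfl hy)
  tfae_have 2 → 3 := by
    intro h
    rw [orbits_const_iff]
    intro ho
    obtain ⟨x, b, hd⟩ := diag_iff_orbit.2 ho
    obtain ⟨P, hP, -⟩ := gm_of_diag hC.form hd
    exact h P hP
  tfae_have 3 → 1 := by
    intro h K _ _ w y hw hy
    by_contra hgt
    exact no_parts (orbits_const_iff.1 h) (fun j hj => absurd hj (Set.notMem_empty j))
      (weights_of_not_gtT hC hw hy hgt)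
  tfae_finish

/-- the height bound -/
theorem unifT {ι : Type} [Finite ι] (U : Set (Fin (n + 1)))
    (T : ι → Finset (Fin (n + 1) →₀ ℕ)) {s N : ℕ} (hs1 : 1 ≤ s) (hs : ∀ e, (T e).card ≤ s)
    (hW : WideRel U T N) (hN : s * (n * Pool.Agent.R869.tri (s - 1)) < N) :
    ∃ A : ℕ, ∀ (k : Type) [Field k] [IsAlgClosed k] [CharZero k]
      (F : ι → MvPolynomial (Fin (n + 1)) k), (∀ e, (F e).support ⊆ T e) → (∀ e, IsForm (F e)) →
        HgtBound U F A := by
  classical
  have hM : 1 ≤ 2 * N + 1 := by omega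
  obtain ⟨A, hA⟩ := unif U (pwT (Bn T) (2 * N + 1) T) hs1 (fun e => (pwT_card e).trans (hs e))
    (wideT_pw hW hM (by omega)) (cstC_lt hs1 hN)
  refine ⟨A, fun k _ _ _ F hFT hF K _ _ _ S f hf hno => ?_⟩
  have hC : SysT U T F s N := ⟨hF, hs1, hFT, hs, hW, hN⟩
  refine hA k (pw (Bn T) (2 * N + 1) F) (pw_sub hM hFT) (pw_form hF) K S f
    ⟨hf.1, fun e => hC.mem hf.2.1 e, hf.2.2⟩ ?_
  rintro ⟨b, i, i', hi, hi', hb, h⟩
  exact hno ⟨b, i, i', hi, hi', hb, fun e v => hC.part (hf.2.1 e) (h e) v⟩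

/-- **Algebraic notions of hyperbolicity.** -/
theorem sixT (hC : SysT ∅ T F s N) {A : ℕ} (hA : HgtBound ∅ F A) :
    [AlgHyperbolic A F, ∃ A', AlgHyperbolic A' F, BoundedOnCurves F, OrbitsConstant F,
      ∀ P, ¬ GmCurve F P, AllGeneralType F].TFAE := by
  have hgm := gm_iffT hC
  tfae_have 1 → 2 := fun h => ⟨A, h⟩
  tfae_have 2 → 3 := fun ⟨A', h⟩ K _ _ _ => ⟨_, fun f h0 h1 => h K f h0 h1⟩
  tfae_have 3 → 4 := by
    intro h
    rw [orbits_const_iff]
    intro ho
    obtain ⟨B, hB⟩ := h (RatFunc k)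
    obtain ⟨f, hf, hlt⟩ := Pool.Agent.W603.CX.unbounded_orbit ho B
    exact absurd (hB f hf.1 hf.2.1) (not_le.2 hlt)
  tfae_have 4 → 1 := by
    intro h K _ _ _ f h0 h1
    have h2 := hA K ∅ f (isMap_empty ∅ h0 h1)
      (no_parts (orbits_const_iff.1 h) fun j hj => absurd hj (Set.notMem_empty j))
    simpa using h2
  tfae_have 4 ↔ 5 := hgm.out 2 1
  tfae_have 4 ↔ 6 := hgm.out 2 0
  tfae_finish

theorem rational_iffT (hC : SysT ∅ T F s N) {A : ℕ} (hA : HgtBound ∅ F A) :
    (∀ P, ¬ GmCurve F P) ↔ NoRationalCurves F := by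
  have hinf : Infinite k := inferInstance
  constructor
  · intro h P hP i j t u
    have h6 := sixT hC hA
    have halg : AlgHyperbolic A F := (h6.out 0 4).2 h
    by_cases hi0 : P i = 0
    · rw [hi0]; simp
    by_cases hj0 : P j = 0
    · rw [hj0]; simp
    have hinj : Function.Injective (algebraMap (Polynomial k) (RatFunc k)) :=
      RatFunc.algebraMap_injective k
    let f : Fin (n + 1) → RatFunc k := fun i => algebraMap (Polynomial k) (RatFunc k) (P i)
    have hi : f i ≠ 0 := fun h0 => hi0 (hinj (by rw [map_zero]; exact h0))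
    have hj : f j ≠ 0 := fun h0 => hj0 (hinj (by rw [map_zero]; exact h0))
    have h1 := halg (RatFunc k) f ⟨i, hi⟩ fun e => by
      have h2 : aeval f (F e) = algebraMap (Polynomial k) (RatFunc k) (aeval P (F e)) :=
        (MvPolynomial.aeval_algebraMap_apply (RatFunc k) P (F e))
      rw [h2, hP e, map_zero]
    rw [Pool.Agent.Y216.canDeg_ratFunc] at h1
    norm_num at h1
    have h2 := Pool.Agent.W603.CX.hgt_le_pht (k := k) f hi hj
    obtain ⟨c, hc⟩ := const_of_hgt (k := k) (f := f i / f j) (by omega)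
    have h3 : P i = Polynomial.C c * P j := by
      apply hinj
      rw [map_mul]
      have h4 : algebraMap (Polynomial k) (RatFunc k) (Polynomial.C c) =
          algebraMap k (RatFunc k) c := by
        rw [IsScalarTower.algebraMap_apply k (Polynomial k) (RatFunc k)]
        rfl
      rw [h4]
      change f i = _ * f j
      first
        | rw [← hc]; field_simp
        | rw [hc]; field_simp
    rw [h3]
    simp only [Polynomial.eval_mul, Polynomial.eval_C]
    ring
  · intro h P hP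
    have h1 : ∀ e, aeval P (F e) = 0 := by
      intro e
      obtain ⟨R, hR1, hR2⟩ := val_poly P (F e)
      have h0 : R = 0 := poly_zero fun t ht => by rw [hR1]; exact hP.mem t ht e
      apply RatFunc.algebraMap_injective k
      rw [map_zero]
      have h2 : algebraMap (Polynomial k) (RatFunc k) (aeval P (F e)) =
          aeval (fun i => algebraMap (Polynomial k) (RatFunc k) (P i)) (F e) :=
        (MvPolynomial.aeval_algebraMap_apply (RatFunc k) P (F e)).symm
      rw [h2]
      change Pool.Agent.W602.GT.val _ (F e) = 0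
      rw [← hR2, h0, map_zero]
    obtain ⟨t, u, ht, hu, hli⟩ := hP.nonconst
    rw [LinearIndependent.pair_iff] at hli
    obtain ⟨j, hj⟩ := Function.ne_iff.1 (hP.ne u hu)
    have h3 := hli ((P j).eval u) (-(P j).eval t) (by
      funext i
      simp only [Pi.add_apply, Pi.smul_apply, smul_eq_mul, Pi.zero_apply]
      linear_combination h P h1 i j t u)
    exact hj h3.1

end proj

section lang

variable {n : ℕ} {ι : Type} {T : ι → Finset (Fin (n + 1) →₀ ℕ)}
  {F : ι → MvPolynomial (Fin (n + 1)) ℂ} {s N : ℕ}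

theorem special_holT (hC : SysT ∅ T F s N) :
    SpH ∅ F = SpOrb F ∧ Pool.Agent.Y190.AN.SpCg ∅ F = SpOrb F ∧ SpP ∅ F = SpOrb F := by
  obtain ⟨⟨h1, h2, -⟩, -⟩ := fiveT hC
  have h3 := (special_orbT hC).1
  rw [spAlgU_empty, h3] at h1
  exact ⟨h1.symm, by rw [Pool.Agent.Y190.AN.spCg_eq, ← h1], by rw [h2, ← h1]⟩

/-- **Lang's conjectures.** -/
theorem lang_tfaeT (hC : SysT ∅ T F s N) {A : ℕ} (hA : HgtBound ∅ F A) :
    [Brody F, AllGeneralType F, PicardHyperbolic F, AlgHyperbolic A F, BoundedOnCurves F,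
      NoRationalCurves F, ∀ P, ¬ GmCurve F P, OrbitsConstant F].TFAE := by
  have h6 := sixT hC hA
  obtain ⟨e1, -, e2⟩ := special_holT hC
  have e3 := (special_orbT hC).2
  tfae_have 1 ↔ 7 := by rw [← Pool.Agent.R869.Wd.brody_iff, e1, ← e3, gm_empty_iff]
  tfae_have 3 ↔ 7 := by rw [← Pool.Agent.R869.Wd.picard_iff, e2, ← e3, gm_empty_iff]
  tfae_have 6 ↔ 7 := (rational_iffT hC hA).symm
  tfae_have 2 ↔ 7 := h6.out 5 4
  tfae_have 4 ↔ 7 := h6.out 0 4
  tfae_have 5 ↔ 7 := h6.out 2 4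
  tfae_have 8 ↔ 7 := h6.out 3 4
  tfae_finish

end lang

end Pool.Agent.T2H41.TW
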