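import Pool.Agent.T2H41.TB
import Pool.Agent.R869.SDens2

/-!
Almost all sets of exponent vectors are wide relative to finitely many fixed pairs of exponent
vectors.
-/

set_option autoImplicit false

open Finset Pool.Agent.R869.Wd

namespace Pool.Agent.T2H41.TW

variable {n s t : ℕ}

/-- the elements of the pair -/
def bb (p q : Fin t → (Fin (n + 1) →₀ ℕ)) (e : Fin t) (x : Bool) : Fin (n + 1) →₀ ℕ :=
  if x then p e else q e

/-- the indices of the rows -/
abbrev Row (n s t : ℕ) : Type :=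
  (Fin t × Bool × Bool) ⊕ ((Fin s ⊕ Fin (n + 1)) × (Fin s ⊕ Fin (n + 1)))

/-- the rows: the differences of the elements of the fixed pairs, and of the scaled exponents -/
def rv (p q : Fin t → (Fin (n + 1) →₀ ℕ)) (z : Fin s → Fin (n + 1) → ℝ) (x : Row n s t)
    (j : Fin n) : ℝ :=
  Sum.elim (fun e : Fin t × Bool × Bool =>
      (bb p q e.1 e.2.1 j.castSucc : ℝ) - bb p q e.1 e.2.2 j.castSucc)
    (fun PQ => vz z PQ.1 j - vz z PQ.2 j) x

/-- the matrix -/
def dr (p q : Fin t → (Fin (n + 1) →₀ ℕ)) (ρ : Fin n → Row n s t)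
    (z : Fin s → Fin (n + 1) → ℝ) : Matrix (Fin n) (Fin n) ℝ :=
  Matrix.of fun l j => rv p q z (ρ l) j

variable {p q : Fin t → (Fin (n + 1) →₀ ℕ)} {I : Fin s → Finset (Fin (n + 1))}
  {piv : Fin s → Fin (n + 1)}

theorem sepAff_dr (ρ : Fin n → Row n s t) :
    SepAff fun x : Free I piv → ℝ => (dr p q ρ (prm I piv x)).det := by
  classical
  intro x c
  let δ : Fin s ⊕ Fin (n + 1) → ℝ := Sum.elim (fun i => if i = c.1.1 then 1 else 0) fun _ => 0
  let w : Fin n → ℝ := fun j => (if j.castSucc = c.1.2 then 1 else 0) -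
    (if j.castSucc = piv c.1.1 then 1 else 0)
  let ε : Row n s t → ℝ := Sum.elim (fun _ => 0) fun PQ => δ PQ.1 - δ PQ.2
  have h1 : ∀ (t : ℝ) (p : Fin s ⊕ Fin (n + 1)) (j : Fin n),
      vz (prm I piv (Function.update x c t)) p j = vz (prm I piv (Function.update x c 0)) p j +
        t * (δ p * w j) := by
    rintro t (i | l) j
    · exact prm_update x c t i j.castSucc
    · simp [vz, δ]
  obtain ⟨a, b, h⟩ := det_aff (dr p q ρ (prm I piv (Function.update x c 0)))
    (fun l => ε (ρ l)) w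
  refine ⟨a, b, fun t => ?_⟩
  rw [← h t]
  refine congrArg Matrix.det ?_
  ext l j
  rw [Matrix.add_apply, Matrix.smul_apply, Matrix.vecMulVec_apply]
  simp only [dr, Matrix.of_apply, rv]
  rcases ρ l with e | PQ
  · simp [ε]
  · simp only [Sum.elim_inr, ε]
    rw [h1 t PQ.1 j, h1 t PQ.2 j, smul_eq_mul]
    ring

/-- the weights in terms of the first coordinates -/
theorem wgt_first {R : Type*} [CommRing R] {D : ℕ} {α : Fin (n + 1) →₀ ℕ} (hα : ∑ j, α j = D)
    (u : Fin (n + 1) → R) : wgt u α = ∑ j : Fin n, (α j.castSucc : R) *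
          (u j.castSucc - u (Fin.last n)) + D * u (Fin.last n) := by
  have h2 := hα
  rw [Fin.sum_univ_castSucc] at h2
  unfold wgt
  rw [Fin.sum_univ_castSucc]
  have h3 : ((∑ j : Fin n, α j.castSucc + α (Fin.last n) : ℕ) : R) = D := by
    exact_mod_cast congrArg (Nat.cast : ℕ → R) h2
  push_cast at h3
  rw [← h3]
  simp only [mul_sub, sum_sub_distrib, ← sum_mul]
  ring

/-- the exponents of a row -/
noncomputable def ra (p q : Fin t → (Fin (n + 1) →₀ ℕ)) (d : ℕ) (a : Fin s → (Fin (n + 1) →₀ ℕ))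
    (x : Row n s t) : (Fin (n + 1) →₀ ℕ) × (Fin (n + 1) →₀ ℕ) :=
  Sum.elim (fun e : Fin t × Bool × Bool => (bb p q e.1 e.2.1, bb p q e.1 e.2.2))
    (fun PQ => (expo d a PQ.1, expo d a PQ.2)) x

/-- the factor of a row -/
def rf (d : ℕ) (x : Row n s t) : ℝ := Sum.elim (fun _ => (1 : ℝ)) (fun _ => (d : ℝ)) x

theorem ra_rv {d : ℕ} (hd : 0 < d) (a : Fin s → (Fin (n + 1) →₀ ℕ)) (x : Row n s t) (j : Fin n) :
    (((ra p q d a x).1 j.castSucc : ℤ) - ((ra p q d a x).2 j.castSucc : ℤ) : ℤ) =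
      rf d x * rv p q (sclI d a) x j := by
  rcases x with e | PQ
  · simp only [ra, rf, rv, Sum.elim_inl, one_mul]
    push_cast
    rfl
  · simp only [ra, rf, rv, Sum.elim_inr]
    push_cast
    rw [expo_vz hd, expo_vz hd]
    ring

theorem ra_wgt {d : ℕ} (hpq : ∀ e, ∑ j, p e j = ∑ j, q e j)
    {a : Fin s → (Fin (n + 1) →₀ ℕ)} (ha : ∀ i, ∑ j, a i j = d) (u : Fin (n + 1) → ℤ)
    (x : Row n s t) : wgt u (ra p q d a x).1 - wgt u (ra p q d a x).2 =
      ∑ j : Fin n, (((ra p q d a x).1 j.castSucc : ℤ) - ((ra p q d a x).2 j.castSucc : ℤ)) *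
        (u j.castSucc - u (Fin.last n)) := by
  have h : ∃ D : ℕ, ∑ j, (ra p q d a x).1 j = D ∧ ∑ j, (ra p q d a x).2 j = D := by
    rcases x with ⟨e, x, y⟩ | ⟨P, Q⟩
    · refine ⟨∑ j, p e j, ?_, ?_⟩
      · change ∑ j, bb p q e x j = _
        unfold bb
        split_ifs
        · rfl
        · exact (hpq e).symm
      · change ∑ j, bb p q e y j = _
        unfold bb
        split_ifs
        · rfl
        · exact (hpq e).symm
    · have h1 : ∀ P : Fin s ⊕ Fin (n + 1), ∑ j, expo d a P j = d := by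
        rintro (i | l)
        · exact ha i
        · simp [expo, Finsupp.single_apply]
      exact ⟨d, h1 P, h1 Q⟩
  obtain ⟨D, h1, h2⟩ := h
  rw [wgt_first h1, wgt_first h2]
  simp only [sub_mul, sum_sub_distrib]
  ring

/-- the widths of `n` segments, in directions in which the fixed ones have width `0` -/
theorem width_rel {d N : ℕ} {η Γ : ℝ} (hd : 0 < d) (hΓ : 1 ≤ Γ)
    (hη : n.factorial * Γ ^ n * (N : ℝ) ≤ η * d)
    (hpq : ∀ e, ∑ j, p e j = ∑ j, q e j)
    (hΓb : ∀ (e : Fin t × Bool × Bool) (j : Fin n),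
      |(bb p q e.1 e.2.1 j.castSucc : ℝ) - bb p q e.1 e.2.2 j.castSucc| ≤ Γ)
    {a : Fin s → (Fin (n + 1) →₀ ℕ)} (ha : ∀ i, ∑ j, a i j = d) {ρ : Fin n → Row n s t}
    (hbig : η < |(dr p q ρ (sclI d a)).det|) (u : Fin (n + 1) → ℤ)
    (hu : ∃ i j, u i ≠ u j)
    (hfl : ∀ l e, ρ l = Sum.inl e → wgt u (ra p q d a (ρ l)).1 = wgt u (ra p q d a (ρ l)).2) :
    (N : ℤ) ≤ ∑ l, |wgt u (ra p q d a (ρ l)).1 - wgt u (ra p q d a (ρ l)).2| := by
  classical
  have hd' : (0 : ℝ) < d := by exact_mod_cast hd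
  have hΓ0 : (0 : ℝ) < Γ := lt_of_lt_of_le one_pos hΓ
  have hη0 : 0 ≤ η := by
    by_contra hcon
    push Not at hcon
    have h1 : (0 : ℝ) ≤ n.factorial * Γ ^ n * (N : ℝ) := by positivity
    have h2 : η * d < 0 := mul_neg_of_neg_of_pos hcon hd'
    linarith
  set Mr := dr p q ρ (sclI d a) with hMr
  have hMr0 : Mr.det ≠ 0 := fun h0 => by
    rw [h0, abs_zero] at hbig
    exact absurd hbig (not_lt.2 hη0)
  -- Cramer's rule
  let u' : Fin n → ℤ := fun j => u j.castSucc - u (Fin.last n)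
  obtain ⟨j0, hj0⟩ : ∃ j0, u' j0 ≠ 0 := by
    by_contra hcon
    push Not at hcon
    obtain ⟨i, j, hij⟩ := hu
    have h1 : ∀ i, u i = u (Fin.last n) := by
      intro i
      refine Fin.lastCases rfl (fun i => ?_) i
      have := hcon i
      simp only [u'] at this
      omega
    exact hij ((h1 i).trans (h1 j).symm)
  obtain ⟨C, hC⟩ : ∃ C : ℤ, C = ∑ l, |wgt u (ra p q d a (ρ l)).1 - wgt u (ra p q d a (ρ l)).2| :=
    ⟨_, rfl⟩
  have hC0 : 0 ≤ C := hC ▸ sum_nonneg fun _ _ => abs_nonneg _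
  rw [← hC]
  have hcl : ∀ l : Fin n, |wgt u (ra p q d a (ρ l)).1 - wgt u (ra p q d a (ρ l)).2| ≤ C := by
    intro l
    rw [hC]
    exact single_le_sum (f := fun l => |wgt u (ra p q d a (ρ l)).1 - wgt u (ra p q d a (ρ l)).2|)
        (fun _ _ => abs_nonneg _) (mem_univ _)
  let c : Fin n → ℝ := Mr.mulVec fun j => (u' j : ℝ)
  have hcw : ∀ l, rf d (ρ l) * c l =
      ((wgt u (ra p q d a (ρ l)).1 - wgt u (ra p q d a (ρ l)).2 : ℤ) : ℝ) := by
    intro l
    rw [ra_wgt hpq ha]
    simp only [c, Matrix.mulVec, dotProduct]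
    push_cast
    rw [mul_sum]
    refine sum_congr rfl fun j _ => ?_
    have h1 := ra_rv (p := p) (q := q) hd a (ρ l) j
    push_cast at h1
    rw [h1]
    simp only [hMr, dr, Matrix.of_apply, u']
    push_cast
    ring
  have hc : ∀ l, |c l| ≤ C / d := by
    intro l
    have h1 := hcw l
    rcases hρ : ρ l with e | PQ
    · rw [hfl l e hρ, sub_self, hρ] at h1
      have h2 : c l = 0 := by simpa [rf] using h1
      rw [h2, abs_zero]
      exact div_nonneg (by exact_mod_cast hC0) hd'.le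
    · have h2 := hcl l
      have h3 : (d : ℝ) * |c l| = |((wgt u (ra p q d a (ρ l)).1 -
          wgt u (ra p q d a (ρ l)).2 : ℤ) : ℝ)| := by
        rw [← h1, abs_mul]
        have h4 : rf d (ρ l) = d := by rw [hρ]; rfl
        rw [h4, abs_of_pos hd']
      rw [le_div_iff₀ hd', mul_comm, h3]
      exact_mod_cast h2
  have hcr : Mr.det * (u' j0 : ℝ) = (Mr.updateCol j0 c).det := by
    rw [← Matrix.cramer_apply, Matrix.cramer_eq_adjugate_mulVec, Matrix.mulVec_mulVec,
      Matrix.adjugate_mul, Matrix.smul_mulVec, Matrix.one_mulVec, Pi.smul_apply, smul_eq_mul]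
  have hu1 : (1 : ℝ) ≤ |(u' j0 : ℝ)| := by
    have := Int.one_le_abs hj0
    exact_mod_cast this
  have hMe : ∀ l j, |Mr l j| ≤ Γ := by
    intro l j
    have h1 : ∀ p, 0 ≤ vz (sclI d a) p j ∧ vz (sclI d a) p j ≤ 1 := by
      rintro (i | l')
      · simp only [vz, Sum.elim_inl, sclI]
        refine ⟨by positivity, ?_⟩
        rw [div_le_one hd']
        have h2 : a i j.castSucc ≤ d := by
          rw [← ha i]
          exact single_le_sum (f := fun j => a i j) (fun _ _ => Nat.zero_le _) (mem_univ _)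
        exact_mod_cast h2
      · simp only [vz, Sum.elim_inr]
        split_ifs <;> norm_num
    simp only [hMr, dr, Matrix.of_apply]
    rcases ρ l with e | PQ
    · exact hΓb e j
    · refine le_trans ?_ hΓ
      simp only [rv, Sum.elim_inr]
      rw [abs_le]
      have h2 := h1 PQ.1
      have h3 := h1 PQ.2
      constructor <;> linarith [h2.1, h2.2, h3.1, h3.2]
  have hC1 : 0 < C := by
    rcases hC0.lt_or_eq with h | h
    · exact h
    · exfalso
      have h1 : c = 0 := by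
        funext l
        have h2 := hc l
        rw [← h] at h2
        simp only [Int.cast_zero, zero_div] at h2
        exact abs_eq_zero.1 (le_antisymm h2 (abs_nonneg _))
      have h3 : (Mr.updateCol j0 c).det = 0 := Matrix.det_eq_zero_of_column_eq_zero j0
        (fun l => by rw [Matrix.updateCol_self, h1]; rfl)
      rw [h3] at hcr
      rcases mul_eq_zero.1 hcr with h2 | h2
      · exact hMr0 h2
      · exact hj0 (by exact_mod_cast h2)
  have hCr : (0 : ℝ) < (C : ℝ) / d := div_pos (by exact_mod_cast hC1) hd'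
  have hsplit : c = ((C : ℝ) / d) • (fun l => c l / ((C : ℝ) / d)) := by
    funext l
    rw [Pi.smul_apply, smul_eq_mul, mul_div_cancel₀ _ hCr.ne']
  have hle : |(Mr.updateCol j0 c).det| ≤ (C : ℝ) / d * (n.factorial * Γ ^ n) := by
    rw [hsplit, Matrix.det_updateCol_smul, abs_mul, abs_of_pos hCr]
    refine mul_le_mul_of_nonneg_left ?_ hCr.le
    have h1 := Matrix.det_le (A := Mr.updateCol j0 fun l => c l / ((C : ℝ) / d))
      (abv := AbsoluteValue.abs) (x := Γ) (by
        intro l j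
        change |_| ≤ Γ
        by_cases h : j = j0
        · subst h
          rw [Matrix.updateCol_self, abs_div, abs_of_pos hCr]
          refine le_trans ?_ hΓ
          rw [div_le_one hCr]
          exact hc l
        · rw [Matrix.updateCol_ne h]
          exact hMe l j)
    rw [Fintype.card_fin, nsmul_eq_mul] at h1
    exact h1
  have h1 : |Mr.det| ≤ (C : ℝ) / d * (n.factorial * Γ ^ n) := by
    refine le_trans ?_ hle
    rw [← hcr, abs_mul]
    nlinarith [abs_nonneg Mr.det]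
  have h2 : η < (C : ℝ) / d * (n.factorial * Γ ^ n) := lt_of_lt_of_le hbig h1
  have h3 : n.factorial * Γ ^ n * (N : ℝ) < n.factorial * Γ ^ n * C := by
    refine lt_of_le_of_lt hη ?_
    have h4 := mul_lt_mul_of_pos_right h2 hd'
    refine lt_of_lt_of_eq h4 ?_
    field_simp
  have h4 : (N : ℝ) < C := lt_of_mul_lt_mul_left h3 (by positivity)
  exact_mod_cast h4.le

/-- the fixed pairs and the set of the exponents -/
noncomputable def TT (p q : Fin t → (Fin (n + 1) →₀ ℕ)) (d : ℕ)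
    (a : Fin s → (Fin (n + 1) →₀ ℕ)) : Fin t ⊕ Unit → Finset (Fin (n + 1) →₀ ℕ) :=
  Sum.elim (fun e => {p e, q e}) fun _ => withPowers d a

/-- **Typical sets of exponent vectors are wide relative to the fixed pairs.** -/
theorem wide_of_typicalR {d N : ℕ} {η Γ : ℝ} (hd : 0 < d) (hΓ : 1 ≤ Γ)
    (hη : n.factorial * Γ ^ n * (N : ℝ) ≤ η * d)
    (hpq : ∀ e, ∑ j, p e j = ∑ j, q e j)
    (hΓb : ∀ (e : Fin t × Bool × Bool) (j : Fin n),
      |(bb p q e.1 e.2.1 j.castSucc : ℝ) - bb p q e.1 e.2.2 j.castSucc| ≤ Γ)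
    {a : Fin s → (Fin (n + 1) →₀ ℕ)} (ha : ∀ i, ∑ j, a i j = d)
    (hdet : ∀ ρ : Fin n → Row n s t, (dr p q ρ (sclI d a)).det = 0 ∨
      η < |(dr p q ρ (sclI d a)).det|) : WideRel ∅ (TT p q d a) N := by
  classical
  have hd' : (0 : ℝ) < d := by exact_mod_cast hd
  have hdz : (0 : ℤ) < d := by exact_mod_cast hd
  intro I r e α β _ hr hmem hp u hu _ hflat
  -- the rows of the pairs
  have hrow : ∀ l, ∃ x : Row n s t, ra p q d a x = (α l, β l) ∧
      ∀ e', x = Sum.inl e' → (TT p q d a (e l)).card ≤ 2 := by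
    intro l
    obtain ⟨h1, h2, -⟩ := hmem l
    rcases he : e l with e' | e'
    · rw [he] at h1 h2
      have hb : ∀ γ ∈ TT p q d a (Sum.inl e'), ∃ x, bb p q e' x = γ := by
        intro γ hγ
        have h3 : γ = p e' ∨ γ = q e' := by simpa [TT] using hγ
        rcases h3 with rfl | rfl
        · exact ⟨true, by simp [bb]⟩
        · exact ⟨false, by simp [bb]⟩
      obtain ⟨x, hx⟩ := hb _ h1
      obtain ⟨y, hy⟩ := hb _ h2
      refine ⟨Sum.inl (e', x, y), ?_, fun _ _ => ?_⟩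
      · change (bb p q e' x, bb p q e' y) = _
        rw [hx, hy]
      · simp only [TT, Sum.elim_inl]
        exact card_le_two
    · rw [he] at h1 h2
      obtain ⟨P, hP⟩ := mem_withPowers.1 h1
      obtain ⟨Q, hQ⟩ := mem_withPowers.1 h2
      refine ⟨Sum.inr (P, Q), ?_, fun e' h3 => by cases h3⟩
      change (expo d a P, expo d a Q) = _
      rw [hP, hQ]
  choose X hX hX2 using hrow
  obtain ⟨i0, hi0, j0, hj0, hij0⟩ := id hu
  -- all the pairs
  let Y : Fin r ⊕ {j : Fin (n + 1) // j ∉ I} → Row n s t :=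
    Sum.elim X fun j => Sum.inr (Sum.inr j.1, Sum.inr i0)
  let ρ : Fin r ⊕ {j : Fin (n + 1) // j ∉ I} → Fin n → ℤ := fun x j =>
    ((ra p q d a (Y x)).1 j.castSucc : ℤ) - (ra p q d a (Y x)).2 j.castSucc
  have hw : ∀ (u : Fin (n + 1) → ℤ) (x), wgt u (ra p q d a (Y x)).1 - wgt u (ra p q d a (Y x)).2 =
      ∑ j, ρ x j * (u j.castSucc - u (Fin.last n)) := fun u x => ra_wgt hpq ha u (Y x)
  have hpow : ∀ (u : Fin (n + 1) → ℤ) (l : Fin (n + 1)),
      wgt u (expo d a (Sum.inr l)) = d * u l := by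
    intro u l
    unfold wgt
    simp [expo, Finsupp.single_apply]
  obtain ⟨φ, hφ, hφdet⟩ := select_rows ρ (by
    intro v hv
    by_contra hv0
    obtain ⟨j1, hj1⟩ := Function.ne_iff.1 hv0
    let u0 : Fin (n + 1) → ℤ := Fin.snoc (α := fun _ => ℤ) v 0
    have hu0 : ∀ j : Fin n, u0 j.castSucc - u0 (Fin.last n) = v j := by
      intro j
      simp only [u0, Fin.snoc_castSucc, Fin.snoc_last, sub_zero]
    have hz : ∀ x, wgt u0 (ra p q d a (Y x)).1 - wgt u0 (ra p q d a (Y x)).2 = 0 := by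
      intro x
      rw [hw]
      simp only [hu0]
      exact hv x
    have hI : ∀ j, j ∉ I → u0 j = u0 i0 := by
      intro j hj
      have h1 := hz (Sum.inr ⟨j, hj⟩)
      change wgt u0 (expo d a (Sum.inr j)) - wgt u0 (expo d a (Sum.inr i0)) = 0 at h1
      rw [hpow, hpow, ← mul_sub] at h1
      have := (mul_eq_zero.1 h1).resolve_left hdz.ne'
      omega
    have h1 := hp u0 (by
      by_contra hcon
      push Not at hcon
      have h2 : ∀ j, u0 j = u0 i0 := by
        intro j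
        by_cases hj : j ∈ I
        · exact hcon j hj i0 hi0
        · exact hI j hj
      have h3 := hu0 j1
      rw [h2 j1.castSucc, h2 (Fin.last n), sub_self] at h3
      exact hj1 h3.symm)
    rw [sum_eq_zero fun l _ => ?_] at h1
    · exact lt_irrefl _ h1
    · have h2 := hz (Sum.inl l)
      change wgt u0 (ra p q d a (X l)).1 - wgt u0 (ra p q d a (X l)).2 = 0 at h2
      rw [hX] at h2
      rw [h2, abs_zero])
  -- the determinant is large
  have hbig : η < |(dr p q (fun l => Y (φ l)) (sclI d a)).det| := by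
    refine (hdet _).resolve_left fun h0 => hφdet ?_
    have hmap : (Matrix.of fun l j => ρ (φ l) j).map (fun z : ℤ => (z : ℝ)) =
        Matrix.of fun l j => rf d (Y (φ l)) * dr p q (fun l => Y (φ l)) (sclI d a) l j := by
      ext l j
      rw [Matrix.map_apply, Matrix.of_apply, Matrix.of_apply]
      exact ra_rv hd a (Y (φ l)) j
    have h1 := Int.cast_det (R := ℝ) (Matrix.of fun l j => ρ (φ l) j)
    have h2 : ((Matrix.of fun l j => ρ (φ l) j).map (fun z : ℤ => (z : ℝ))).det = 0 := by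
      rw [hmap, Matrix.det_mul_column, h0, mul_zero]
    have h3 : (((Matrix.of fun l j => ρ (φ l) j).det : ℤ) : ℝ) = 0 := h1.trans h2
    exact_mod_cast h3
  -- the direction
  let u1 : Fin (n + 1) → ℤ := fun j => if j ∈ I then u j else u i0
  have hu1 : ∀ j ∈ I, u1 j = u j := fun j hj => if_pos hj
  have hsame : ∀ γ : Fin (n + 1) →₀ ℕ, (∀ j, j ∉ I → γ j = 0) → wgt u1 γ = wgt u γ := by
    intro γ hγ
    unfold wgt
    refine sum_congr rfl fun j _ => ?_
    by_cases hj : j ∈ I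
    · rw [hu1 j hj]
    · rw [hγ j hj]
      simp
  have hXw : ∀ l, wgt u1 (ra p q d a (X l)).1 = wgt u (α l) ∧
      wgt u1 (ra p q d a (X l)).2 = wgt u (β l) := by
    intro l
    rw [hX]
    exact ⟨hsame _ fun j hj => ((hmem l).2.2 j hj).1, hsame _ fun j hj => ((hmem l).2.2 j hj).2⟩
  refine (width_rel hd hΓ hη hpq hΓb ha hbig u1 ⟨i0, j0, by rw [hu1 _ hi0, hu1 _ hj0]; exact hij0⟩
    ?_).trans ?_
  · intro l e' hl
    rcases hφl : φ l with l' | l'
    · rw [hφl] at hl
      change wgt u1 (ra p q d a (X l')).1 = wgt u1 (ra p q d a (X l')).2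
      rw [(hXw l').1, (hXw l').2]
      exact hflat l' (hX2 l' e' hl)
    · rw [hφl] at hl
      cases hl
  let g : Fin r ⊕ {j : Fin (n + 1) // j ∉ I} → ℤ := fun x =>
    |wgt u1 (ra p q d a (Y x)).1 - wgt u1 (ra p q d a (Y x)).2|
  have h1 : ∑ l, g (φ l) ≤ ∑ x, g x := by
    rw [← sum_image (s := univ) (g := φ) (f := g) (fun x _ y _ hxy => hφ hxy)]
    exact sum_le_sum_of_subset_of_nonneg (subset_univ _) fun x _ _ => abs_nonneg _
  refine h1.trans (le_of_eq ?_)
  rw [Fintype.sum_sum_type]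
  have h2 : ∀ j : {j : Fin (n + 1) // j ∉ I}, g (Sum.inr j) = 0 := by
    intro j
    change |wgt u1 (expo d a (Sum.inr j.1)) - wgt u1 (expo d a (Sum.inr i0))| = 0
    rw [hpow, hpow]
    have h3 : u1 j.1 = u i0 := if_neg j.2
    rw [h3, hu1 i0 hi0, sub_self, abs_zero]
  rw [sum_congr rfl fun j _ => h2 j, sum_const_zero, add_zero]
  refine sum_congr rfl fun l _ => ?_
  change |wgt u1 (ra p q d a (X l)).1 - wgt u1 (ra p q d a (X l)).2| = _
  rw [(hXw l).1, (hXw l).2]

/-- **Almost all sets of exponent vectors are wide relative to the fixed pairs.** -/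
theorem almost_genericR (p q : Fin t → (Fin (n + 1) →₀ ℕ)) (hpq : ∀ e, ∑ j, p e j = ∑ j, q e j)
    (I : Fin s → Finset (Fin (n + 1))) (hI : ∀ i, (I i).Nonempty) (N : ℕ) :
    AlmostAllIn I fun d a => WideRel ∅ (TT p q d a) N ∧ 0 < d := by
  classical
  choose piv hpiv using hI
  apply almostAllIn_of fun i => ⟨piv i, hpiv i⟩
  intro ε hε
  -- the bound for the fixed rows
  obtain ⟨Γ, hΓd⟩ : ∃ Γ : ℝ, Γ = 1 + ∑ e : Fin t × Bool × Bool, ∑ j : Fin n,
      |(bb p q e.1 e.2.1 j.castSucc : ℝ) - bb p q e.1 e.2.2 j.castSucc| := ⟨_, rfl⟩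
  have hΓ : 1 ≤ Γ := by
    rw [hΓd]
    have : (0 : ℝ) ≤ ∑ e : Fin t × Bool × Bool, ∑ j : Fin n,
      |(bb p q e.1 e.2.1 j.castSucc : ℝ) - bb p q e.1 e.2.2 j.castSucc| :=
      sum_nonneg fun _ _ => sum_nonneg fun _ _ => abs_nonneg _
    linarith
  have hΓb : ∀ (e : Fin t × Bool × Bool) (j : Fin n),
      |(bb p q e.1 e.2.1 j.castSucc : ℝ) - bb p q e.1 e.2.2 j.castSucc| ≤ Γ := by
    intro e j
    have h1 := single_le_sum (f := fun j : Fin n =>
      |(bb p q e.1 e.2.1 j.castSucc : ℝ) - bb p q e.1 e.2.2 j.castSucc|)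
      (fun _ _ => abs_nonneg _) (mem_univ j)
    have h2 := single_le_sum (f := fun e : Fin t × Bool × Bool => ∑ j : Fin n,
      |(bb p q e.1 e.2.1 j.castSucc : ℝ) - bb p q e.1 e.2.2 j.castSucc|)
      (fun _ _ => sum_nonneg fun _ _ => abs_nonneg _) (mem_univ e)
    rw [hΓd]
    beta_reduce at h1 h2
    linarith
  have hΓ0 : (0 : ℝ) < Γ := lt_of_lt_of_le one_pos hΓ
  let f : (Fin n → Row n s t) → (Free I piv → ℝ) → ℝ :=
    fun ρ x => (dr p q ρ (prm I piv x)).det
  obtain ⟨η, hη, d1, h1⟩ := count_family f (fun ρ => sepAff_dr ρ) hε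
  refine ⟨max d1 (max 1 ⌈n.factorial * Γ ^ n * (N : ℝ) / η⌉₊), fun d hd => ?_⟩
  have hd1 : d1 ≤ d := (le_max_left _ _).trans hd
  have hd2 : 1 ≤ d := ((le_max_left _ _).trans (le_max_right _ _)).trans hd
  have hd4 : ⌈n.factorial * Γ ^ n * (N : ℝ) / η⌉₊ ≤ d :=
    ((le_max_right _ _).trans (le_max_right _ _)).trans hd
  have hd5 : n.factorial * Γ ^ n * (N : ℝ) ≤ η * d := by
    have h2 : n.factorial * Γ ^ n * (N : ℝ) / η ≤ d := (Nat.le_ceil _).trans (by exact_mod_cast hd4)
    rw [div_le_iff₀ hη] at h2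
    linarith
  have h2 := h1 d hd1
  rw [card_free I piv hpiv] at h2
  refine le_trans ?_ h2
  have hle : ∀ (a : Fin s → (Fin (n + 1) →₀ ℕ)), a ∈ TuplesIn I d → ∀ i j, a i j ≤ d :=
    fun a ha i j => by
      rw [← (ha i).2]
      exact single_le_sum (f := fun j => a i j) (fun _ _ => Nat.zero_le _) (mem_univ _)
  have h4 := Set.ncard_le_ncard_of_injOn
    (s := {a | a ∈ TuplesIn I d ∧ ¬ (WideRel ∅ (TT p q d a) N ∧ 0 < d)})
    (t := {x : Free I piv → Fin (d + 1) | ∃ θ, (∃ z, f θ z ≠ 0) ∧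
      |f θ (fun j => ((x j : ℕ) : ℝ) / d)| ≤ η})
    (fun a c => Fin.ofNat (d + 1) (a c.1.1 c.1.2)) (by
      rintro a ⟨ha, hbad⟩
      have hscl : (fun c : Free I piv => (((Fin.ofNat (d + 1) (a c.1.1 c.1.2) :
          Fin (d + 1)) : ℕ) : ℝ) / d) = fun c : Free I piv => sclI d a c.1.1 c.1.2 := by
        funext c
        unfold sclI
        rw [Fin.val_ofNat, Nat.mod_eq_of_lt (Nat.lt_succ_of_le (hle a ha _ _))]
      have hprm := adm_prm (piv := piv) (adm_scl hd2 ha)
      change ∃ θ, (∃ z, f θ z ≠ 0) ∧ _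
      simp only [hscl]
      by_contra hcon
      push Not at hcon
      apply hbad
      have hf : ∀ ρ, f ρ (fun c : Free I piv => sclI d a c.1.1 c.1.2) =
          (dr p q ρ (sclI d a)).det := by
        intro ρ
        change (dr p q ρ (prm I piv _)).det = _
        rw [hprm]
      refine ⟨wide_of_typicalR hd2 hΓ hd5 hpq hΓb (fun i => (ha i).2) fun ρ => ?_, hd2⟩
      by_cases h0 : (dr p q ρ (sclI d a)).det = 0
      · exact Or.inl h0
      · refine Or.inr ?_
        have h5 := hcon ρ ⟨_, by rw [hf]; exact h0⟩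
        rwa [hf] at h5)
    (by
      rintro a ⟨ha, -⟩ b ⟨hb, -⟩ hab
      have h5 : ∀ c : Free I piv, a c.1.1 c.1.2 = b c.1.1 c.1.2 := by
        intro c
        have h6 := congrArg Fin.val (congrFun hab c)
        simp only [Fin.val_ofNat] at h6
        rwa [Nat.mod_eq_of_lt (Nat.lt_succ_of_le (hle a ha _ _)),
          Nat.mod_eq_of_lt (Nat.lt_succ_of_le (hle b hb _ _))] at h6
      funext i
      have h8 : ∀ j, j ≠ piv i → a i j = b i j := by
        intro j hj
        by_cases h : j ∈ I i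
        · exact h5 ⟨(i, j), h, hj⟩
        · rw [Finsupp.notMem_support_iff.1 fun h' => h ((ha i).1 h'),
            Finsupp.notMem_support_iff.1 fun h' => h ((hb i).1 h')]
      ext j
      by_cases hj : j = piv i
      · subst hj
        have h6 : a i (piv i) + ∑ j ∈ univ.erase (piv i), a i j = d := by
          rw [add_sum_erase univ (fun j => a i j) (mem_univ (piv i))]
          exact (ha i).2
        have h7 : b i (piv i) + ∑ j ∈ univ.erase (piv i), b i j = d := by
          rw [add_sum_erase univ (fun j => b i j) (mem_univ (piv i))]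
          exact (hb i).2
        have h9 : ∑ j ∈ univ.erase (piv i), a i j = ∑ j ∈ univ.erase (piv i), b i j :=
          sum_congr rfl fun j hj => h8 j (ne_of_mem_erase hj)
        omega
      · exact h8 j hj)
    (Set.toFinite _)
  exact_mod_cast h4

end Pool.Agent.T2H41.TW
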