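import Pool.Agent.T2H41.TC
import Pool.Agent.R505.KA.Sub

/-!
Almost all systems of monomials in a toric variety: hyperbolicity and subvarieties.
-/

set_option autoImplicit false

open FF MvPolynomial Pool.Agent.W603.LV Pool.Agent.W603.PV Pool.Agent.W602.GT
open Pool.Agent.R869.Wd
open Pool.Agent.W603.CX (AlgHyperbolic BoundedOnCurves OrbitsConstant IsMap HasOrbit)
open Pool.Agent.Y190.PH (Brody)

namespace Pool.Agent.T2H41.TW

section

variable {n : ℕ} {ι₀ ι : Type} {U : Set (Fin (n + 1))} {T : ι₀ → Finset (Fin (n + 1) →₀ ℕ)}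
  {N : ℕ}

/-- subsystems -/
theorem WideRel.comp (h : WideRel U T N) (c : ι → ι₀) : WideRel U (fun e => T (c e)) N :=
  fun I r e α β h1 h2 h3 h4 u h5 h6 h7 => h I r (fun l => c (e l)) α β h1 h2 h3 h4 u h5 h6 h7

/-- more variables which do not vanish -/
theorem WideRel.mono {U' : Set (Fin (n + 1))} (h : WideRel U T N) (hU : U ⊆ U') :
    WideRel U' T N :=
  fun I r e α β h1 h2 h3 h4 u h5 h6 h7 => h I r e α β (hU.trans h1) h2 h3 h4 u h5
    (fun i hi => h6 i (hU hi)) h7

/-- the height bound -/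
theorem unif_all [Finite ι₀] {s : ℕ} (hs1 : 1 ≤ s) (hs : ∀ e, (T e).card ≤ s)
    (hW : WideRel U T N) (hN : s * (n * Pool.Agent.R869.tri (s - 1)) < N) :
    ∃ A : ℕ, ∀ (k : Type) [Field k] [IsAlgClosed k] [CharZero k] (ι : Type) (c : ι → ι₀)
      (F : ι → MvPolynomial (Fin (n + 1)) k), (∀ e, (F e).support ⊆ T (c e)) →
        (∀ e, IsForm (F e)) → HgtBound U F A := by
  classical
  have := Fintype.ofFinite ι₀
  have hM1 : 1 ≤ 2 * N + 1 := by omega
  obtain ⟨M, hM⟩ := exists_cstFor (Finset.univ.biUnion (pwT (Bn T) (2 * N + 1) T))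
  refine ⟨M * (cstC n s * (1 + cstC n s)), ?_⟩
  intro k _ _ _ ι c F hFT hF K _ _ _ S f hf hno
  have hC : SysT U (fun e => T (c e)) F s N :=
    ⟨hF, hs1, hFT, fun e => hs (c e), hW.comp c, hN⟩
  have hC' := hC.sys
  refine height_main (Finset.univ.biUnion (pwT (Bn T) (2 * N + 1) T)) (fun e => ?_) hM hC'.form hs1
    hC'.card hC'.wide (cstC_lt hs1 hN) S f hf.1 (fun e => hC.mem hf.2.1 e) hf.2.2 ?_
  · refine (pw_sub hM1 hFT e).trans ?_
    refine subset_trans ?_ (Finset.subset_biUnion_of_mem _ (Finset.mem_univ (c e)))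
    exact subset_of_eq rfl
  · rintro ⟨b, i, i', hi, hi', hb, h⟩
    exact hno ⟨b, i, i', hi, hi', hb, fun e v => hC.part (hf.2.1 e) (h e) v⟩

end

section canon

open Pool.Agent.R505.KA

variable {n : ℕ} {ι : Type} {T : ι → Finset (Fin (n + 1) →₀ ℕ)}
  {F : ι → MvPolynomial (Fin (n + 1)) ℂ} {s N : ℕ}

/-- Hyperbolicity and the canonical classes of the subvarieties. -/
theorem canonT {A : ℕ} (hC : SysT ∅ T F s N) (hA : HgtBound ∅ F A) :
    [Brody F, AllSub (fun K _ _ w => GeneralType ℂ K w) F,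
      AllSub (fun K _ _ w => KodGe ℂ K w (fun _ => False) 0) F,
      AllSub (fun K _ _ w => Psef ℂ K w (fun _ => False)) F,
      AllSub (fun K _ _ _ => ¬ Ruled ℂ K) F, NoRationalCurves F, HyperbolicNear F].TFAE := by
  have h := lang_tfaeT hC hA
  have h17 : Brody F ↔ ∀ P, ¬ GmCurve F P := h.out 0 6
  obtain ⟨c1, c2, c3⟩ := sub_chain (F := F)
  tfae_have 1 ↔ 2 := h.out 0 1
  tfae_have 1 ↔ 6 := h.out 0 5
  tfae_have 2 → 3 := c1
  tfae_have 3 → 4 := c2
  tfae_have 4 → 5 := c3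
  tfae_have 5 → 1 := by
    intro h5
    rw [h17]
    intro P hP
    obtain ⟨K, i1, i2, y, hy, hr⟩ := ruled_of_gm (fun e => hC.form e) hP
    exact h5 K 1 y le_rfl hy hr
  tfae_have 1 ↔ 7 := near_iff hC.form
  tfae_finish

end canon

section almost

variable {n s t : ℕ}

/-- **Almost all monomials.** For almost all tuples of monomials, all the systems of forms with these
monomials and the pure powers, and of forms with the two monomials of a fixed pair, are wide relative
to the latter, with a uniform height bound. -/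
theorem almost_sys (p q : Fin t → (Fin (n + 1) →₀ ℕ)) (hpq : ∀ e, ∑ j, p e j = ∑ j, q e j)
    (I : Fin s → Finset (Fin (n + 1))) (hI : ∀ i, (I i).Nonempty) :
    AlmostAllIn I fun d a => ∃ (s' N A : ℕ) (T : Fin t ⊕ Unit → Finset (Fin (n + 1) →₀ ℕ)),
      ∀ (k : Type) [Field k] [IsAlgClosed k] [CharZero k] (m : ℕ)
        (F : Fin m → MvPolynomial (Fin (n + 1)) k),
        (∀ e, (F e).support ⊆ withPowers d a ∨ ∃ e', (F e).support ⊆ {p e', q e'}) →
        ∃ c : Fin m → Fin t ⊕ Unit, ∀ U : Set (Fin (n + 1)),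
          SysT U (fun e => T (c e)) F s' N ∧ HgtBound U F A := by
  classical
  obtain ⟨s', hs'⟩ : ∃ s' : ℕ, s' = s + (n + 1) + 2 := ⟨_, rfl⟩
  obtain ⟨N, hN⟩ : ∃ N : ℕ, N = s' * (n * Pool.Agent.R869.tri (s' - 1)) + 1 := ⟨_, rfl⟩
  refine (almost_genericR p q hpq I hI N).mono fun d a ha hw => ?_
  have hs1 : 1 ≤ s' := by omega
  have hcard : ∀ e, (TT p q d a e).card ≤ s' := by
    rintro (e | e)
    · refine Finset.card_le_two.trans ?_
      omega
    · refine (card_withPowers d a).trans ?_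
      omega
  have hNlt : s' * (n * Pool.Agent.R869.tri (s' - 1)) < N := by omega
  -- a uniform bound for all `U`
  have hU : ∀ U : Set (Fin (n + 1)), ∃ A : ℕ, ∀ (k : Type) [Field k] [IsAlgClosed k] [CharZero k]
      (ι : Type) (c : ι → Fin t ⊕ Unit) (F : ι → MvPolynomial (Fin (n + 1)) k),
      (∀ e, (F e).support ⊆ TT p q d a (c e)) → (∀ e, IsForm (F e)) → HgtBound U F A := fun U =>
    unif_all hs1 hcard (hw.1.mono (Set.empty_subset U)) hNlt
  choose A hA using hU
  refine ⟨s', N, ∑ U, A U, TT p q d a, fun k _ _ _ m F hF => ?_⟩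
  have hc : ∀ e, ∃ c : Fin t ⊕ Unit, (F e).support ⊆ TT p q d a c := by
    intro e
    rcases hF e with h | ⟨e', h⟩
    · exact ⟨Sum.inr (), h⟩
    · exact ⟨Sum.inl e', h⟩
  choose c hc using hc
  have hdeg : ∀ e', ∃ D, ∀ α ∈ TT p q d a e', ∑ j, α j = D := by
    rintro (e' | e')
    · refine ⟨∑ j, p e' j, fun α hα => ?_⟩
      have h3 : α = p e' ∨ α = q e' := by simpa [TT] using hα
      rcases h3 with rfl | rfl
      · rfl
      · exact (hpq e').symm
    · exact ⟨d, deg_withPowers fun i => (ha i).2⟩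
  have hform : ∀ e, IsForm (F e) := by
    intro e
    obtain ⟨D, hD⟩ := hdeg (c e)
    refine ⟨D, fun α hα => ?_⟩
    have h1 := hD α (hc e (mem_support_iff.2 hα))
    rw [← h1]
    simp [Finsupp.weight_apply, Finsupp.sum_fintype]
  refine ⟨c, fun U => ⟨⟨hform, hs1, hc, fun e => hcard (c e),
    (hw.1.mono (Set.empty_subset U)).comp c, hNlt⟩, ?_⟩⟩
  intro K _ _ _ S f hf hno
  refine (hA U k (Fin m) c F hc hform K S f hf hno).trans ?_
  refine mul_le_mul_of_nonneg_right ?_ (le_max_right _ _)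
  exact_mod_cast Finset.single_le_sum (f := A) (fun _ _ => Nat.zero_le _) (Finset.mem_univ U)

end almost

end Pool.Agent.T2H41.TW
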