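import Pool.Agent.T2H41.TD
import Pool.Agent.T2H41.LC
import Pool.Agent.TH466.QG.Open

/-!
Components of the systems of forms which are wide relative to their two-term forms.
-/

set_option autoImplicit false
set_option linter.overlappingInstances false

open FF MvPolynomial Pool.Agent.W603.LV Pool.Agent.W602.GT
open Pool.Agent.R869.Wd
open Pool.Agent.Y190.PH (Brody)

namespace Pool.Agent.T2H41.TW

variable {k : Type} [Field k] {n : ℕ} {ι : Type}

/-- the forms which vanish on the projective variety with the generic point `y` -/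
def eqs (k : Type) [Field k] {K : Type} [Field K] [Algebra k K] {n : ℕ} (y : Fin (n + 1) → K) :
    {G : MvPolynomial (Fin (n + 1)) k // IsForm G ∧ val y G = 0} →
      MvPolynomial (Fin (n + 1)) k := Subtype.val

variable [CharZero k] [IsAlgClosed k] {T : ι → Finset (Fin (n + 1) →₀ ℕ)}
  {F : ι → MvPolynomial (Fin (n + 1)) k} {s N : ℕ}

/-- a component which is not of general type contains rational curves -/
theorem comp_gm (hC : SysT ∅ T F s N) {K : Type} [Field K] [Algebra k K] {w : ℕ} (hw : 1 ≤ w)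
    {y : Fin (n + 1) → K} (hy : SubVar F K w y) (hcomp : IsComponent F y)
    (hgt : ¬ GeneralType k K w) : ∃ P, GmCurve (eqs k y) P := by
  obtain ⟨b, i, i', hi, hi', hb, hwc⟩ := weights_of_not_gtT hC hw hy hgt
  have hyU : SubVarU ∅ F K w y := subVar_iff.2 hy
  have hcompU : IsComponentU ∅ F y := componentU_of hcomp
  obtain ⟨x, hx, -, -⟩ := orbit_of_parts (F := eqs k y) (G := 1) hyU.unit hi hi' hb
    (fun G v => Pool.Agent.W602.GT.ideal_hom hyU hcompU hwc G.1 G.2.1 G.2.2 v) (by
      unfold Pool.Agent.W602.GT.val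
      rw [map_one]
      exact one_ne_zero)
  obtain ⟨P, hP, -⟩ := gm_of_diag (fun G : {G : MvPolynomial (Fin (n + 1)) k //
    IsForm G ∧ val y G = 0} => G.2.1) hx
  exact ⟨P, hP⟩

/-- **Components.** -/
theorem comp_tfae (hC : SysT ∅ T F s N) {K : Type} [Field K] [Algebra k K] {w : ℕ} (hw : 1 ≤ w)
    {y : Fin (n + 1) → K} (hy : SubVar F K w y) (hcomp : IsComponent F y) :
    [GeneralType k K w, KodGe k K w (fun _ => False) 0, Psef k K w (fun _ => False),
      ¬ Ruled k K].TFAE ∧ (NoRationalCurves (eqs k y) → GeneralType k K w) := by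
  refine ⟨?_, fun h => ?_⟩
  · tfae_have 1 → 2 := fun h => kod_of_general h
    tfae_have 2 → 3 := fun h => psef_of_kodGe h
    tfae_have 3 → 4 := by
      rintro h ⟨C, σ, h1, h2⟩
      exact not_psef_of hy.dim C h1 h2 h
    tfae_have 4 → 1 := by
      intro h
      by_contra hgt
      obtain ⟨b, i, i', hi, hi', hb, hwc⟩ := weights_of_not_gtT hC hw hy hgt
      exact h (Pool.Agent.TH466.QG.ruled_of_weights hy hcomp hi hi' hb hwc)
    tfae_finish
  · by_contra hgt
    obtain ⟨P, hP⟩ := comp_gm hC hw hy hcomp hgt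
    exact Pool.Agent.T2H41.LA.rational_iffT.2 h P hP

/-- hyperbolic components are of general type -/
theorem comp_brody {n : ℕ} {ι : Type} {T : ι → Finset (Fin (n + 1) →₀ ℕ)}
    {F : ι → MvPolynomial (Fin (n + 1)) ℂ} {s N : ℕ} (hC : SysT ∅ T F s N)
    {K : Type} [Field K] [Algebra ℂ K] {w : ℕ} (hw : 1 ≤ w)
    {y : Fin (n + 1) → K} (hy : SubVar F K w y) (hcomp : IsComponent F y)
    (h : Brody (eqs ℂ y)) : GeneralType ℂ K w := by
  by_contra hgt
  obtain ⟨P, hP⟩ := comp_gm hC hw hy hcomp hgt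
  exact (Pool.Agent.T2H41.LA.brody_iff_ec.1 h) _ (entire_of_gm hP)

end Pool.Agent.T2H41.TW
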