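import Pool.Agent.T2H41.GA
import Pool.Agent.Y191.LcRam

/-!
The transfer of the dimensions to divisors with the same support, for arbitrary pairs for which the
dimensions are known, and for the pairs with moving log canonical arrangements.
-/

set_option autoImplicit false
set_option linter.overlappingInstances false
set_option linter.unusedSectionVars false

open FF Filter IntermediateField Pool.Agent.W602.GT Pool.Agent.W603.LV Pool.Agent.W619.PQ
  Pool.Agent.Y172 Pool.Agent.Y191 Pool.Agent.R885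

namespace Pool.Agent.T2H41.GA

section

variable {K : Type} [Field K] [Algebra ℂ K] {N n : ℕ}

/-- **The transfer**, from the numbers of the sections of the multiples of `K_X + Δ'`. -/
theorem transferN {d : ℕ} {y : Fin (N + 1) → K}
    {Δ Δ' : Place ℂ K → ℚ}
    (hΔ : ∀ P, IsPrimeDivisor y P → Δ P ≤ Δ' P)
    (h1 : ∃ m0 : ℕ, 1 ≤ m0 ∧ ∃ ω : Fin (d + 1) → (Fin n → Derivation ℂ K K) → K,
      (∀ l, IsPluri m0 (ω l) ∧ ∀ P, IsPrimeDivisor y P → OrdGe P (ω l) (-(m0 * Δ' P))) ∧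
        ∃ D, (∀ l, ω l D ≠ 0) ∧ AlgebraicIndependent ℂ (fun l : Fin d => ω l.succ D / ω 0 D))
    {E : Fin n → Derivation ℂ K K} (hfr : IsFrame E)
    (h2 : ∀ A', Effective y A' → ∃ C : ℕ, ∀ m : ℕ, 1 ≤ m → ∀ (r : ℕ) (f : Fin r → K),
      LinearIndependent ℂ f → (∀ i, ∃ ω, IsSection y n m (m • Δ' + A') ω ∧ ω E = f i) →
        r ≤ C * m ^ d)
    {m1 : ℕ} (hm1 : 1 ≤ m1) {ω₀ : (Fin n → Derivation ℂ K K) → K} (hω₀ : IsPluri m1 ω₀)
    (hω₀0 : ω₀ ≠ 0) {e : Place ℂ K → ℚ} (he : ∀ P, 0 ≤ e P)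
    (hω₀P : ∀ P, IsPrimeDivisor y P → OrdGe P ω₀ (e P - m1 * Δ P))
    {B : Place ℂ K → ℚ} (hB0 : ∀ P, IsPrimeDivisor y P → 0 ≤ B P) {s : ℕ}
    (hB1 : ∀ P, IsPrimeDivisor y P → B P ≤ s * (Δ' P - Δ P + e P))
    (hB2 : ∀ P, IsPrimeDivisor y P → Δ' P - Δ P ≤ s * (B P + e P))
    {L : Place ℂ K → ℚ} (hL : DV.IsDiv y L) {a b : ℕ} (ha : 1 ≤ a) (hb : 1 ≤ b)
    {η : (Fin n → Derivation ℂ K K) → K} (hη : IsPluri a η) (hη0 : η ≠ 0)
    (hηP : ∀ P, IsPrimeDivisor y P → OrdEq P η (b * L P - a * Δ P - B P)) :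
    DV.iitakaDim y L = (d : WithBot ℕ) ∧
      ∀ A, Effective y A → Integral y A → DV.numDim y L A = (d : EReal) := by
  classical
  have hηE : η E ≠ 0 := fun h0 => hη0 (pluri_zero hfr hη h0)
  have hω₀E : ω₀ E ≠ 0 := fun h0 => hω₀0 (pluri_zero hfr hω₀ h0)
  obtain ⟨m0, hm0, ω, hω, D, hD, hind⟩ := h1
  -- the sections at the frame
  obtain ⟨δ, hδ⟩ := DV.frame_pluri hfr D
  have hδω : ∀ l, ω l D = δ ^ m0 * ω l E := fun l => hδ m0 (ω l) (hω l).1
  have hωE : ∀ l, ω l E ≠ 0 := fun l h0 => hD l (by rw [hδω, h0, mul_zero])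
  have hδ0 : δ ^ m0 ≠ 0 := fun h0 => hD 0 (by rw [hδω, h0, zero_mul])
  have hind' : AlgebraicIndependent ℂ fun l : Fin d => ω l.succ E / ω 0 E := by
    have h3 : (fun l : Fin d => ω l.succ D / ω 0 D) = fun l => ω l.succ E / ω 0 E := by
      funext l
      rw [hδω, hδω, mul_div_mul_left _ _ hδ0]
    rwa [h3] at hind
  obtain ⟨w, hw⟩ : ∃ w : ℕ, w = a * m0 * s := ⟨_, rfl⟩
  obtain ⟨v, hv⟩ : ∃ v : ℕ, v = m0 + m1 * w := ⟨_, rfl⟩
  have hv1 : 1 ≤ v := by rw [hv]; omega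
  have hden : ∀ j, ω j E ^ a * ω₀ E ^ (a * w) / η E ^ v ≠ 0 := fun j =>
    div_ne_zero (mul_ne_zero (pow_ne_zero _ (hωE j)) (pow_ne_zero _ hω₀E)) (pow_ne_zero _ hηE)
  refine DV.dimsD hL ?_ (m0 := v * b) (Nat.mul_pos hv1 hb)
    (g := fun j => ω j E ^ a * ω₀ E ^ (a * w) / η E ^ v) ?_ ?_ ?_
  · intro A hA
    obtain ⟨A', hA'd⟩ : ∃ A' : Place ℂ K → ℚ, A' = fun P => A P + b * |L P| := ⟨_, rfl⟩
    have hA' : Effective y A' := by
      refine ⟨fun P hP => ?_, ?_⟩
      · rw [hA'd]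
        have := hA.1 P hP
        positivity
      · refine (hA.2.union hL).subset ?_
        rintro P ⟨hP, h0⟩
        by_cases h3 : A P = 0
        · right
          refine ⟨hP, fun h4 => h0 ?_⟩
          rw [hA'd]
          beta_reduce
          rw [h3, h4]
          simp
        · exact Or.inl ⟨hP, h3⟩
    obtain ⟨C, hC⟩ := h2 A' hA'
    refine ⟨C * (2 * (a + m1 * s)) ^ d, fun m hm r f hf hfs => ?_⟩
    have hmb := Nat.div_add_mod m b
    have hmb' := Nat.mod_lt m hb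
    have hmb'' := Nat.div_le_self m b
    obtain ⟨q, hq⟩ : ∃ q, q = m / b := ⟨_, rfl⟩
    obtain ⟨ρ, hρ⟩ : ∃ ρ, ρ = m % b := ⟨_, rfl⟩
    rw [← hq] at hmb hmb''
    rw [← hρ] at hmb hmb'
    obtain ⟨i, hi⟩ : ∃ i, i = q + 1 := ⟨_, rfl⟩
    have hi1 : 1 ≤ i := by omega
    have hib : i * b = b * q + b := by rw [hi]; ring
    have hlow : m ≤ i * b := by omega
    have hup : i * b ≤ m + b := by omega
    have him : i ≤ 2 * m := by omega
    have h3 := hC ((a + m1 * s) * i) (Nat.mul_pos (by omega) hi1) r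
      (fun l => f l * (η E ^ i * ω₀ E ^ (s * i))) (by
      have h4 := hf.map' (LinearMap.mulRight ℂ (η E ^ i * ω₀ E ^ (s * i))) (by
        rw [LinearMap.ker_eq_bot]
        exact fun a b hab => mul_right_cancel₀ (mul_ne_zero (pow_ne_zero _ hηE)
          (pow_ne_zero _ hω₀E)) hab)
      exact h4) fun l => ⟨fun D => f l * (η D ^ i * ω₀ D ^ (s * i)), ⟨?_, ?_⟩, rfl⟩
    · refine h3.trans ?_
      rw [mul_assoc, ← mul_pow]
      refine Nat.mul_le_mul_left _ (Nat.pow_le_pow_left ?_ _)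
      calc (a + m1 * s) * i ≤ (a + m1 * s) * (2 * m) := Nat.mul_le_mul_left _ him
        _ = 2 * (a + m1 * s) * m := by ring
    · intro B D
      have h4 := hη B D
      have h5 := hω₀ B D
      beta_reduce
      rw [h4, h5, mul_pow, mul_pow, ← pow_mul, ← pow_mul]
      have e1 : (a + m1 * s) * i = a * i + m1 * (s * i) := by ring
      rw [e1, pow_add]
      ring
    · intro P hP E' hE'
      beta_reduce
      by_cases hf0 : f l = 0
      · exact Or.inl (by rw [hf0, zero_mul])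
      by_cases hη' : η E' = 0
      · exact Or.inl (by rw [hη', zero_pow (by omega), zero_mul, mul_zero])
      by_cases hs0 : s = 0
      · subst hs0
        right
        rw [zero_mul, pow_zero, mul_one, P.ord_mul hf0 (pow_ne_zero _ hη'), P.ord_pow]
        have h4 := ((hηP P hP).1 E' hE').resolve_left hη'
        have h5 := (hfs l P hP).resolve_left hf0
        have hiq : (0 : ℚ) ≤ i := Nat.cast_nonneg _
        have h6 := mul_le_mul_of_nonneg_left h4 hiq
        have h7 : (m : ℚ) ≤ i * b := by exact_mod_cast hlow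
        have h8 : (i : ℚ) * b ≤ m + b := by exact_mod_cast hup
        have h9 : -((i * b - m : ℚ) * L P) ≤ b * |L P| := by
          have h10 : -((i * b - m : ℚ) * L P) ≤ (i * b - m : ℚ) * |L P| := by
            rw [← mul_neg]
            exact mul_le_mul_of_nonneg_left (neg_le_abs _) (by linarith)
          exact h10.trans (mul_le_mul_of_nonneg_right (by linarith) (abs_nonneg _))
        have hb1 := hB1 P hP
        rw [Nat.cast_zero, zero_mul] at hb1
        have hb0 := hB0 P hP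
        have hB00 : B P = 0 := le_antisymm hb1 hb0
        have hai : (0 : ℚ) ≤ a * i := by positivity
        have h12 := mul_le_mul_of_nonneg_left (hΔ P hP) hai
        rw [Pi.add_apply, Pi.smul_apply, nsmul_eq_mul] at h5 ⊢
        rw [hA'd]
        rw [hB00] at h6
        push_cast at h6 h12 ⊢
        nlinarith
      by_cases hω' : ω₀ E' = 0
      · exact Or.inl (by rw [hω', zero_pow (Nat.mul_ne_zero hs0 (by omega)), mul_zero, mul_zero])
      right
      rw [P.ord_mul hf0 (mul_ne_zero (pow_ne_zero _ hη') (pow_ne_zero _ hω')),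
        P.ord_mul (pow_ne_zero _ hη') (pow_ne_zero _ hω'), P.ord_pow, P.ord_pow]
      have h4 := ((hηP P hP).1 E' hE').resolve_left hη'
      have h4' := (hω₀P P hP E' hE').resolve_left hω'
      have h5 := (hfs l P hP).resolve_left hf0
      have hiq : (0 : ℚ) ≤ i := Nat.cast_nonneg _
      have hsiq : (0 : ℚ) ≤ s * i := by positivity
      have h6 := mul_le_mul_of_nonneg_left h4 hiq
      have h6' := mul_le_mul_of_nonneg_left h4' hsiq
      have h7 : (m : ℚ) ≤ i * b := by exact_mod_cast hlow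
      have h8 : (i : ℚ) * b ≤ m + b := by exact_mod_cast hup
      have h9 : -((i * b - m : ℚ) * L P) ≤ b * |L P| := by
        have h10 : -((i * b - m : ℚ) * L P) ≤ (i * b - m : ℚ) * |L P| := by
          rw [← mul_neg]
          exact mul_le_mul_of_nonneg_left (neg_le_abs _) (by linarith)
        exact h10.trans (mul_le_mul_of_nonneg_right (by linarith) (abs_nonneg _))
      have h11 := mul_le_mul_of_nonneg_left (hB1 P hP) hiq
      have hm1q : (1 : ℚ) ≤ m1 := by exact_mod_cast hm1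
      have h12 : (s * i : ℚ) * (Δ' P - Δ P) ≤ ((a + m1 * s) * i : ℚ) * (Δ' P - Δ P) := by
        refine mul_le_mul_of_nonneg_right ?_ (by linarith [hΔ P hP])
        have haq : (0 : ℚ) ≤ a * i := by positivity
        have h13 : (s * i : ℚ) * 1 ≤ (s * i : ℚ) * m1 := mul_le_mul_of_nonneg_left hm1q hsiq
        nlinarith
      rw [Pi.add_apply, Pi.smul_apply, nsmul_eq_mul] at h5 ⊢
      rw [hA'd]
      push_cast at h6 h6' ⊢
      nlinarith
  · intro j P hP
    right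
    obtain ⟨-, E', hE', hηE', hord⟩ := hηP P hP
    obtain ⟨δ', hδ'⟩ := DV.frame_pluri hfr E'
    have h3 := hδ' a η hη
    have h4 := hδ' m0 (ω j) (hω j).1
    have h4' := hδ' m1 ω₀ hω₀
    have hδ'0 : δ' ≠ 0 := by
      rintro rfl
      rw [h3, zero_pow (by omega), zero_mul] at hηE'
      exact hηE' rfl
    have hω' : ω j E' ≠ 0 := by
      rw [h4]
      exact mul_ne_zero (pow_ne_zero _ hδ'0) (hωE j)
    have hω₀' : ω₀ E' ≠ 0 := by
      rw [h4']
      exact mul_ne_zero (pow_ne_zero _ hδ'0) hω₀E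
    have h5 : ω j E ^ a * ω₀ E ^ (a * w) / η E ^ v = ω j E' ^ a * ω₀ E' ^ (a * w) / η E' ^ v := by
      rw [h3, h4, h4', mul_pow, mul_pow, mul_pow, ← pow_mul, ← pow_mul, ← pow_mul]
      have e1 : δ' ^ (m0 * a) * ω j E ^ a * (δ' ^ (m1 * (a * w)) * ω₀ E ^ (a * w)) =
          δ' ^ (a * v) * (ω j E ^ a * ω₀ E ^ (a * w)) := by
        rw [hv]
        have e2 : a * (m0 + m1 * w) = m0 * a + m1 * (a * w) := by ring
        rw [e2, pow_add]
        ring
      rw [e1, mul_div_mul_left _ _ (pow_ne_zero _ hδ'0)]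
    rw [h5, div_eq_mul_inv, P.ord_mul (mul_ne_zero (pow_ne_zero _ hω') (pow_ne_zero _ hω₀'))
      (inv_ne_zero (pow_ne_zero _ hηE')), P.ord_mul (pow_ne_zero _ hω') (pow_ne_zero _ hω₀'),
      P.ord_inv, P.ord_pow, P.ord_pow, P.ord_pow]
    have h13 := (hω₀P P hP E' hE').resolve_left hω₀'
    rcases (hω j).2 P hP E' hE' with h6 | h6
    · exact absurd h6 hω'
    · have h7 : -((m0 : ℚ) * Δ' P) ≤ (P.ord (ω j E') : ℤ) := h6
      have haq : (0 : ℚ) ≤ a := Nat.cast_nonneg _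
      have hawq : (0 : ℚ) ≤ a * w := by positivity
      have h9 : -((m0 : ℚ) * Δ' P) ≤ (P.ord (ω j E') : ℤ) := h7
      have h10 := mul_le_mul_of_nonneg_left h9 haq
      have h14 := mul_le_mul_of_nonneg_left h13 hawq
      have hb0 := hB0 P hP
      have he0 := he P
      have h15 : ((a * m0 : ℕ) : ℚ) * (Δ' P - Δ P) ≤ (a * m0 : ℕ) * (s * (B P + e P)) :=
        mul_le_mul_of_nonneg_left (hB2 P hP) (Nat.cast_nonneg _)
      have h16 : ((a * m0 : ℕ) : ℚ) * s = w := by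
        rw [hw]
        push_cast
        ring
      have h17 : ((a * m0 : ℕ) : ℚ) * (Δ' P - Δ P) ≤ w * B P + w * e P := by
        calc ((a * m0 : ℕ) : ℚ) * (Δ' P - Δ P) ≤ (a * m0 : ℕ) * (s * (B P + e P)) := h15
          _ = (((a * m0 : ℕ) : ℚ) * s) * (B P + e P) := by ring
          _ = w * B P + w * e P := by rw [h16]; ring
      have h18 : (w : ℚ) * B P ≤ v * B P := by
        refine mul_le_mul_of_nonneg_right ?_ hb0
        have : w ≤ v := by
          rw [hv]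
          nlinarith
        exact_mod_cast this
      have h19 : (w : ℚ) * e P ≤ (a * w) * e P := by
        refine mul_le_mul_of_nonneg_right ?_ he0
        have : w ≤ a * w := Nat.le_mul_of_pos_left _ ha
        exact_mod_cast this
      have h20 : (v : ℚ) = m0 + m1 * w := by
        rw [hv]
        push_cast
        ring
      simp only [Pi.smul_apply, nsmul_eq_mul]
      push_cast at h10 h14 h17 ⊢
      rw [hord]
      have h21 : (v : ℚ) * (b * L P - a * Δ P - B P) =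
          v * b * L P - a * (m0 + m1 * w) * Δ P - v * B P := by
        rw [h20]
        ring
      nlinarith
  · exact hden 0
  · have h3 : (fun i : Fin d => (ω i.succ E ^ a * ω₀ E ^ (a * w) / η E ^ v) /
        (ω 0 E ^ a * ω₀ E ^ (a * w) / η E ^ v)) = fun i => (ω i.succ E / ω 0 E) ^ a := by
      funext i
      rw [div_div_div_cancel_right₀ (pow_ne_zero _ hηE),
        mul_div_mul_right _ _ (pow_ne_zero _ hω₀E), div_pow]
    rw [h3]
    exact DV.pow_indep hind' fun _ => by omega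


/-- `κ (K_X + Δ) = ν (K_X + Δ) = d`, expressed by sections: there are `d + 1` sections of a multiple with
algebraically independent ratios, and the number of linearly independent sections of `m (K_X + Δ) + A` is
`O (m ^ d)`. -/
def Dims (y : Fin (N + 1) → K) (n : ℕ) (Δ : Place ℂ K → ℚ) (d : ℕ) : Prop :=
  (∃ m0 : ℕ, 1 ≤ m0 ∧ ∃ ω : Fin (d + 1) → (Fin n → Derivation ℂ K K) → K,
      (∀ l, IsPluri m0 (ω l) ∧ ∀ P, IsPrimeDivisor y P → OrdGe P (ω l) (-(m0 * Δ P))) ∧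
        ∃ D, (∀ l, ω l D ≠ 0) ∧ AlgebraicIndependent ℂ (fun l : Fin d => ω l.succ D / ω 0 D)) ∧
    ∃ E : Fin n → Derivation ℂ K K, IsFrame E ∧
      ∀ A', Effective y A' → ∃ C : ℕ, ∀ m : ℕ, 1 ≤ m → ∀ (r : ℕ) (f : Fin r → K),
        LinearIndependent ℂ f → (∀ i, ∃ ω, IsSection y n m (m • Δ + A') ω ∧ ω E = f i) →
          r ≤ C * m ^ d

/-- `K_X + Δ` has equal dimensions `d`, or is not pseudoeffective. -/
def Known (y : Fin (N + 1) → K) (n : ℕ) (Δ : Place ℂ K → ℚ) (d : ℕ) : Prop :=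
  (d ≤ n ∧ Dims y n Δ d) ∨
    ∀ A', Effective y A' → ∃ m0 : ℕ, ∀ m : ℕ, m0 ≤ m →
      ∀ ω : (Fin n → Derivation ℂ K K) → K, IsSection y n m (m • Δ + A') ω → ω = 0

theorem pos_of_psefN {y : Fin (N + 1) → K} {Δ : Place ℂ K → ℚ} {d : ℕ} (h : Known y n Δ d)
    (hK : Psef y n Δ) : d ≤ n ∧ Dims y n Δ d := by
  rcases h with h | h
  · exact h
  · exfalso
    obtain ⟨A, hA, hm⟩ := hK
    obtain ⟨M0, hM0⟩ := h A hA
    obtain ⟨m, hm0, hm1⟩ := hm M0
    exact hm1 (R885.h0_zero fun ω hω => hM0 m hm0 ω hω)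

/-- the pairs with a section are not in the negative case -/
theorem pos_of_sectionN {y : Fin (N + 1) → K} {Δ : Place ℂ K → ℚ} {d : ℕ}
    (h : Known y n Δ d) {m1 : ℕ}
    (hm1 : 1 ≤ m1) {ω₀ : (Fin n → Derivation ℂ K K) → K} (hω₀0 : ω₀ ≠ 0)
    (hω₀ : IsSection y n m1 (m1 • Δ) ω₀) : d ≤ n ∧ Dims y n Δ d := by
  rcases h with h | h
  · exact h
  · exfalso
    obtain ⟨M0, hM0⟩ := h 0 ⟨fun _ _ => le_rfl, by simp⟩
    have h1 : (fun E => ω₀ E ^ (M0 + 1)) = (0 : (Fin n → Derivation ℂ K K) → K) := by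
      refine hM0 (m1 * (M0 + 1)) (by nlinarith) _ ⟨?_, ?_⟩
      · intro B E
        have h2 := hω₀.1 B E
        beta_reduce
        rw [h2, mul_pow, ← pow_mul]
      · intro P hP E hE
        beta_reduce
        rcases hω₀.2 P hP E hE with h2 | h2
        · left
          rw [h2, zero_pow (by omega)]
        · right
          rw [P.ord_pow]
          have h5 : ((m1 * (M0 + 1)) • Δ + (0 : Place ℂ K → ℚ)) P = (m1 : ℚ) * (M0 + 1) * Δ P := by
            rw [Pi.add_apply, Pi.smul_apply, Pi.zero_apply, add_zero, nsmul_eq_mul]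
            push_cast
            ring
          have h6 : (m1 • Δ) P = (m1 : ℚ) * Δ P := by
            rw [Pi.smul_apply, nsmul_eq_mul]
          rw [h6] at h2
          rw [h5]
          push_cast
          have h8 := mul_le_mul_of_nonneg_left h2 (show (0 : ℚ) ≤ (M0 : ℚ) + 1 by positivity)
          nlinarith
    apply hω₀0
    funext E
    have h2 := congrFun h1 E
    exact (pow_eq_zero_iff (by omega)).1 h2

/-- a section of a multiple of a pseudoeffective `K_X + Δ` which vanishes along `Z` -/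
theorem exists_covN {y : Fin (N + 1) → K} {Δ : Place ℂ K → ℚ} {d₀ : ℕ} (h : Known y n Δ d₀)
    (hK : Psef y n Δ)
    {Z : Set (Place ℂ K)} (hZ : Covered y n Δ Z) :
    ∃ m1 : ℕ, 1 ≤ m1 ∧ ∃ ω₀ : (Fin n → Derivation ℂ K K) → K, ω₀ ≠ 0 ∧
      IsSection y n m1 (m1 • Δ) ω₀ ∧ ∀ P ∈ Z, ¬ OrdEq P ω₀ (-(m1 * Δ P)) := by
  rcases hZ with hZ | hZ
  · obtain ⟨-, ⟨m1, hm1, ω, hω, D, hD, -⟩, -⟩ := pos_of_psefN h hK
    have hω₀0 : ω 0 ≠ 0 := by
      intro h0
      apply hD 0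
      rw [h0]
      rfl
    have hω₀s : IsSection y n m1 (m1 • Δ) (ω 0) := by
      refine ⟨(hω 0).1, fun P hP => ?_⟩
      rw [Pi.smul_apply, nsmul_eq_mul]
      exact (hω 0).2 P hP
    exact ⟨m1, hm1, ω 0, hω₀0, hω₀s, fun P hP => hZ P hP m1 hm1 _ hω₀0 hω₀s⟩
  · exact hZ

/-- **The theorem**, for pairs with known numbers of sections. -/
theorem mainN {y : Fin (N + 1) → K}
    {Δ Δ' : Place ℂ K → ℚ} (hΔE : Effective y Δ) (hΔE' : Effective y Δ')
    {d₀ d : ℕ} (h : Known y n Δ d₀) (h' : Known y n Δ' d)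
    (hΔ : ∀ P, IsPrimeDivisor y P → Δ P ≤ Δ' P) (hK : Psef y n Δ)
    {Z : Set (Place ℂ K)} (hZ : Covered y n Δ Z) {B : Place ℂ K → ℚ} (hB : Effective y B)
    (hBs : ∀ P, IsPrimeDivisor y P → P ∉ Z → (B P = 0 ↔ Δ P = Δ' P))
    {L : Place ℂ K → ℚ} (hL : DV.IsDiv y L) {a b : ℕ} (ha : 1 ≤ a) (hb : 1 ≤ b)
    {η : (Fin n → Derivation ℂ K K) → K} (hη : IsPluri a η) (hη0 : η ≠ 0)
    (hηP : ∀ P, IsPrimeDivisor y P → OrdEq P η (b * L P - a * Δ P - b * B P)) :
    d ≤ n ∧ DV.iitakaDim y L = (d : WithBot ℕ) ∧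
      ∀ A, Effective y A → Integral y A → DV.numDim y L A = (d : EReal) := by
  classical
  obtain ⟨m1, hm1, ω₀, hω₀0, hω₀s, hω₀Z⟩ := exists_covN h hK hZ
  obtain ⟨e, he, heP, heS⟩ := exists_div hω₀s hω₀Z
  obtain ⟨S, hSd⟩ : ∃ S : Set (Place ℂ K), S = {P | IsPrimeDivisor y P ∧
      (B P ≠ 0 ∨ Δ P ≠ 0 ∨ Δ' P ≠ 0)} := ⟨_, rfl⟩
  have hS : S.Finite := by
    refine ((hB.2.union hΔE.2).union hΔE'.2).subset ?_
    rw [hSd]
    rintro P ⟨hP, h1 | h1 | h1⟩
    · exact Or.inl (Or.inl ⟨hP, h1⟩)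
    · exact Or.inl (Or.inr ⟨hP, h1⟩)
    · exact Or.inr ⟨hP, h1⟩
  have hbq : (0 : ℚ) < b := by exact_mod_cast hb
  have hpos1 : ∀ P ∈ S, 0 < b * B P → 0 < Δ' P - Δ P + e P := by
    intro P hP h1
    rw [hSd] at hP
    have h2 := hΔ P hP.1
    have h3 := he P
    by_cases h4 : P ∈ Z
    · have := heS P h4 hP.1
      linarith
    · have h5 : B P ≠ 0 := by
        intro h6
        rw [h6, mul_zero] at h1
        exact lt_irrefl _ h1
      have h6 : Δ P ≠ Δ' P := fun h7 => h5 ((hBs P hP.1 h4).2 h7)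
      have h7 := lt_of_le_of_ne h2 h6
      linarith
  have hpos2 : ∀ P ∈ S, 0 < Δ' P - Δ P → 0 < b * B P + e P := by
    intro P hP h1
    rw [hSd] at hP
    have h2 := hB.1 P hP.1
    have h3 := he P
    by_cases h4 : P ∈ Z
    · have := heS P h4 hP.1
      have := mul_nonneg hbq.le h2
      linarith
    · have h5 : B P ≠ 0 := fun h6 => by
        have := (hBs P hP.1 h4).1 h6
        linarith
      have h7 := lt_of_le_of_ne h2 h5.symm
      have := mul_pos hbq h7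
      linarith
  obtain ⟨s1, hs1⟩ := exists_mul hS (fun P => b * B P) (fun P => Δ' P - Δ P + e P) hpos1
  obtain ⟨s2, hs2⟩ := exists_mul hS (fun P => Δ' P - Δ P) (fun P => b * B P + e P) hpos2
  have hc1 : ∀ P, IsPrimeDivisor y P → b * B P ≤ ((s1 + s2 : ℕ) : ℚ) * (Δ' P - Δ P + e P) := by
    intro P hP
    have h2 : (0 : ℚ) ≤ Δ' P - Δ P + e P := by linarith [hΔ P hP, he P]
    have h3 : (0 : ℚ) ≤ ((s1 + s2 : ℕ) : ℚ) * (Δ' P - Δ P + e P) := mul_nonneg (Nat.cast_nonneg _) h2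
    by_cases h1 : 0 < b * B P
    · have hPS : P ∈ S := by
        rw [hSd]
        refine ⟨hP, Or.inl fun h4 => ?_⟩
        rw [h4, mul_zero] at h1
        exact lt_irrefl _ h1
      refine (hs1 P hPS h1).trans (mul_le_mul_of_nonneg_right ?_ h2)
      push_cast
      linarith [Nat.cast_nonneg (α := ℚ) s2]
    · linarith
  have hc2 : ∀ P, IsPrimeDivisor y P → Δ' P - Δ P ≤ ((s1 + s2 : ℕ) : ℚ) * (b * B P + e P) := by
    intro P hP
    have h2 : (0 : ℚ) ≤ b * B P + e P := by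
      have := mul_nonneg hbq.le (hB.1 P hP)
      linarith [he P]
    have h3 : (0 : ℚ) ≤ ((s1 + s2 : ℕ) : ℚ) * (b * B P + e P) := mul_nonneg (Nat.cast_nonneg _) h2
    by_cases h1 : 0 < Δ' P - Δ P
    · have hPS : P ∈ S := by
        rw [hSd]
        refine ⟨hP, ?_⟩
        by_contra h4
        push Not at h4
        rw [h4.2.1, h4.2.2, sub_zero] at h1
        exact lt_irrefl _ h1
      refine (hs2 P hPS h1).trans (mul_le_mul_of_nonneg_right ?_ h2)
      push_cast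
      linarith [Nat.cast_nonneg (α := ℚ) s1]
    · linarith
  -- `K_X + Δ'` is pseudoeffective
  obtain ⟨hdn, h3, E, hE, h4⟩ := pos_of_sectionN h' hm1 hω₀0
    ⟨hω₀s.1, fun P hP => (hω₀s.2 P hP).mono (by
      rw [Pi.smul_apply, nsmul_eq_mul, Pi.smul_apply, nsmul_eq_mul]
      have := mul_le_mul_of_nonneg_left (hΔ P hP) (Nat.cast_nonneg (α := ℚ) m1)
      linarith)⟩
  exact ⟨hdn, transferN hΔ h3 hE h4 hm1 hω₀s.1 hω₀0 he heP
    (B := fun P => b * B P) (fun P hP => mul_nonneg hbq.le (hB.1 P hP)) hc1 hc2 hL ha hb hη hη0 hηP⟩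

end

end Pool.Agent.T2H41.GA
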