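import Pool.Agent.T2H41.UB

/-!
The pairs whose fibres correspond to moving log canonical arrangements: numbers of sections.
-/

set_option autoImplicit false
set_option linter.overlappingInstances false

open FF Pool.Agent.W602.GT Pool.Agent.Y172 Pool.Agent.Y191

namespace Pool.Agent.T2H41.Arr

section

variable {K : Type} [Field K] [Algebra ℂ K] {N : ℕ}

/-- `(X, Δ)` is a projective klt pair of dimension `n`: `X` is normal with generic point `y`, `Δ` is
an effective `ℚ`-divisor, and for every prime divisor `Q` over `X` there is an `r`-canonical form `η`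
which generates `r (K_X + Δ)` at the centre of `Q` on `X` (its order is `- r Δ P` along all prime
divisors `P` of `X` through this centre), with order greater than `- r` along `Q`. -/
def IsKltPair (y : Fin (N + 1) → K) (n : ℕ) (Δ : Place ℂ K → ℚ) : Prop :=
  NormalModel y ∧ Algebra.trdeg ℂ K = n ∧ Effective y Δ ∧
    ∀ Q : Place ℂ K, Divisorial n Q → ∃ r : ℕ, 0 < r ∧ ∃ η : (Fin n → Derivation ℂ K K) → K,
      IsPluri r η ∧ (∀ P, IsPrimeDivisor y P → Through y P Q → OrdEq P η (-(r * Δ P))) ∧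
        ∃ b : ℚ, -r < b ∧ OrdGe Q η b

/-- The `b j` are the coordinates of a rational map whose image has dimension `p` and is not
contained in one of the hyperplanes `ℓ i = 0`. -/
def IsMap {v q : ℕ} (ℓ : Fin q → Fin (v + 1) → ℂ) (b : Fin (v + 1) → K) (p : ℕ) : Prop :=
  (∀ i, lf (ℓ i) b ≠ 0) ∧ (∃ j, b j ≠ 0) ∧ Algebra.trdeg ℂ (RF ℂ b) = p

/-- The hyperplanes have small multiplicities: there are weights `wt i ≥ 0` whose sum is greater
than `(p + 1) * γ`, `γ = (v - p + d).choose (v - p)`, and the multiplicities `e i` of the hyperplanes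
satisfy `min (#{i | e i ≠ 0}) γ ≤ γ Δ P + ∑ i, (1 - wt i) e i` at all prime divisors `P` of `X`. -/
def SmallMultiplicities {v q : ℕ} (y : Fin (N + 1) → K) (Δ : Place ℂ K → ℚ)
    (ℓ : Fin q → Fin (v + 1) → ℂ) (b : Fin (v + 1) → K) (d p : ℕ) : Prop :=
  ∃ wt : Fin q → ℚ, (∀ i, 0 ≤ wt i) ∧
    (((p + 1) * (v - p + d).choose (v - p) : ℕ) : ℚ) < ∑ i, wt i ∧
    ∀ P, IsPrimeDivisor y P → ∀ (c : ℤ) (e : Fin q → ℕ), OrdData P ℓ b c e →
      ((min (Finset.univ.filter fun i => e i ≠ 0).card ((v - p + d).choose (v - p)) : ℕ) : ℚ) ≤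
        ((v - p + d).choose (v - p) : ℕ) * Δ P + ∑ i, (1 - wt i) * e i

/-- There is a finite extension `K'` of `K`, and the `u ⟨j, k⟩` are the affine coordinates of a
generically finite map, over the variety with the function field `L`, of a variety with the function
field `K'` to a product of projective spaces of dimensions `r j ≥ 1`; `A j i` are the coefficients of
hyperplanes, algebraic over `L`, with weights `w j i` in `[0, 1]` such that the arrangement is log
canonical (`LcArr`). At the places of `K'` over the prime divisors of `X` which are trivial on `L`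
the multiplicities are bounded (`LcHor`); and if `Q` is a place of `K'` over a prime divisor `g = 0`
of an affine chart of the product, with ramification index `ρ`, and with ramification index `ε` over
its restriction `P` to `K`, then `ρ - ε α` is at most the sum of the `w j i e j i`, where `α` is a
lower bound of the log discrepancy of `(X, Δ)` along `P`, and `e j i` the multiplicity of the `i`-th
hyperplane of the `j`-th factor at `Q` (`Cor`). -/
def Fibres (y : Fin (N + 1) → K) (n : ℕ) (Δ : Place ℂ K → ℚ) (L : IntermediateField ℂ K) {c : ℕ}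
    (r s : Fin c → ℕ) (w : ∀ j, Fin (s j) → ℚ) : Prop :=
  (∀ j, 1 ≤ r j ∧ ∀ i, 0 ≤ w j i ∧ w j i ≤ 1) ∧
  ∃ (K' : Type) (_ : Field K') (_ : Algebra ℂ K') (_ : Algebra K K') (_ : IsScalarTower ℂ K K')
    (_ : FiniteDimensional K K') (A : ∀ j, Fin (s j) → Fin (r j + 1) → K')
    (u : (Σ j, Fin (r j)) → K'),
    LcArr (upF K' L) A w ∧ IsTranscendenceBasis (upF K' L) u ∧
    LcHor L A u w {P | IsPrimeDivisor y P} (fun P => (Δ P : ℝ)) ∧ Cor y n Δ (upF K' L) A u w

/-- `(X, Δ)` is a projective klt pair of dimension `p + ∑ j, r j`, with a rational map to a projective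
space, whose image has dimension `p`, and hyperplanes with small multiplicities, and fibres of
dimension `∑ j, r j` which correspond to moving log canonical arrangements with the weights `w`. -/
def IsArrangementPair (y : Fin (N + 1) → K) (p : ℕ) {c : ℕ} (r s : Fin c → ℕ)
    (w : ∀ j, Fin (s j) → ℚ) (Δ : Place ℂ K → ℚ) : Prop :=
  IsKltPair y (p + ∑ j, r j) Δ ∧
  ∃ (v q d : ℕ) (ℓ : Fin q → Fin (v + 1) → ℂ) (b : Fin (v + 1) → K), 0 < d ∧
    Independent d ℓ ∧ GeneralPosition ℓ ∧ v + 1 ≤ q ∧ IsMap ℓ b p ∧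
      SmallMultiplicities y Δ ℓ b d p ∧ Fibres y (p + ∑ j, r j) Δ (RF ℂ b) r s w

/-- the sum of the dimensions `r j` for which the sum of the weights is greater than `r j + 1` -/
def big {c : ℕ} (r s : Fin c → ℕ) (w : ∀ j, Fin (s j) → ℚ) : ℕ :=
  ∑ j, if (r j + 1 : ℚ) < ∑ i, w j i then r j else 0

end

theorem exists_idx {c : ℕ} (r q : Fin c → ℕ) (w : ∀ j, Fin (q j) → ℚ) :
    ∃ κ : Fin (big r q w) → Σ j, Fin (r j), Function.Injective κ ∧
      ∀ i, (r (κ i).1 + 1 : ℚ) < ∑ i', w (κ i).1 i' := by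
  classical
  have h1 : Fintype.card {x : Σ j, Fin (r j) // (r x.1 + 1 : ℚ) < ∑ i, w x.1 i} = big r q w := by
    rw [Fintype.card_subtype, Finset.card_filter, Fintype.sum_sigma]
    refine Finset.sum_congr rfl fun j _ => ?_
    change ∑ _k : Fin (r j), (if (r j + 1 : ℚ) < ∑ i, w j i then 1 else 0) = _
    rw [Finset.sum_const, Finset.card_univ, Fintype.card_fin, smul_eq_mul, mul_ite, mul_one,
      mul_zero]
  let φ := Fintype.equivFinOfCardEq h1
  exact ⟨fun i => (φ.symm i : Σ j, Fin (r j)), fun a b hab => φ.symm.injective (Subtype.ext hab),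
    fun i => (φ.symm i).2⟩

theorem known {K : Type} [Field K] [Algebra ℂ K] {N p c : ℕ} {y : Fin (N + 1) → K}
    {r s : Fin c → ℕ} {w : ∀ j, Fin (s j) → ℚ} {Δ : Place ℂ K → ℚ}
    (h : IsArrangementPair y p r s w Δ) : GA.Known y (p + ∑ j, r j) Δ (p + big r s w) := by
  obtain ⟨hy, v, q, d, ℓ, b, hd, hI, hg, hq, hb, hm, hF⟩ := h
  obtain ⟨hl, hb, htr⟩ := hb
  obtain ⟨wt, hwt, hlt, hmult⟩ := hm
  obtain ⟨hw, K', _, _, _, _, _, A, u, hA, hu, hH, hC⟩ := hF
  obtain ⟨h1, E, hE, h2⟩ := lc_sec hy.1 hy.2.1 hy.2.2.1 hA.1 hu (fun j => (hw j).1)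
    (fun j i => ((hw j).2 i).1) (fun j i => ((hw j).2 i).2) hC
  by_cases hws : ∀ j, (r j + 1 : ℚ) ≤ ∑ i, w j i
  · left
    have hsum : p + ∑ j, r j = p + big r s w + ∑ j, (if ∑ i, w j i = r j + 1 then r j else 0) := by
      rw [add_assoc, big, ← Finset.sum_add_distrib]
      congr 1
      refine Finset.sum_congr rfl fun j _ => ?_
      rcases lt_or_eq_of_le (hws j) with h3 | h3
      · rw [if_pos h3, if_neg h3.ne', add_zero]
      · rw [if_neg (not_lt.2 h3.symm.le), if_pos h3.symm, zero_add]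
    refine ⟨by omega, ?_, E, hE, h2 _ hws hsum⟩
    obtain ⟨κ, hκ, hκs⟩ := exists_idx r s w
    obtain ⟨m0, hm0, ω, hω, D, hD0, hD⟩ := (lc_small (δ := fun P => (Δ P : ℝ))
      (X := {P | IsPrimeDivisor y P}) hd hI hg hq hl hb
      htr hy.2.1 hwt hlt.le (fun P hP => by exact_mod_cast hy.2.2.1.1 P hP)
      (fun P hP _ c e ho => by
        have h3 := hmult P hP c e ho
        have h4 := (Rat.cast_le (K := ℝ)).2 h3
        push_cast at h4 ⊢
        exact h4) hA finSigmaFinEquiv hu (fun j i => ((hw j).2 i).1)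
      hws hκ hκs hH).2 hlt
    refine ⟨m0, hm0, ω, fun j => ⟨(hω j).1, fun P hP G hG => ?_⟩, D, fun l => ?_, hD⟩
    · rcases (hω j).2 P hP (hP.divisorial hy.1 hy.2.1) G hG with h6 | h6
      · exact Or.inl h6
      · right
        have h7 : ((-(m0 * Δ P) : ℚ) : ℝ) ≤ (((P.ord (ω j G) : ℤ) : ℚ) : ℝ) := by
          push_cast
          exact h6
        exact_mod_cast h7
    · refine Fin.cases hD0 (fun i h0 => ?_) l
      have h3 := hD.ne_zero i
      beta_reduce at h3
      rw [h0, zero_div] at h3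
      exact h3 rfl
  · right
    push Not at hws
    exact h1 hws

end Pool.Agent.T2H41.Arr
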